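import Mathlib

/-!
# Definitions for the disproof of the problem MP_2ed15d_an

`Good κ η` : a robust local statement.  In an (almost) constant logarithmic field `n γ` one can place
finitely many multiple zeros of `f'`, of total multiplicity about `n / κ`, such that the vertical
lines `re z = s`, `0 ≤ s ≤ 1`, all meet a disc on which `|f|` is exponentially larger than `|f'|`.
-/

set_option autoImplicit false

open Metric Complex

namespace Pool.Agent.NevChar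

/-- absolute constant: vertical spread of the grid -/
noncomputable def BB : ℝ := 10 ^ 10

/-- absolute constant: size of a gadget -/
noncomputable def LL : ℝ := 10 ^ 12

/-- exit point of a gadget for the direction `γ` -/
noncomputable def ex (γ : ℂ) : ℂ := -(3 * LL : ℝ) * (starRingEnd ℂ) γ

/-- The finite configuration of zeros `a i` with weights `m i` works in the direction `γ`. -/
def Cfg {ι : Type} [Fintype ι] (κ η : ℝ) (γ : ℂ) (a : ι → ℂ) (m : ι → ℝ) : Prop :=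
  (∀ i, ‖a i‖ ≤ LL) ∧ (∀ i, 0 ≤ m i) ∧ (∑ i, m i = 1 / κ) ∧
    ∀ (n : ℝ), 1 / η ≤ n → ∀ (k : ι → ℕ), ∑ i, |(k i : ℝ) - n * m i| ≤ η * n →
    ∀ (f G : ℂ → ℂ),
      DifferentiableOn ℂ G (ball 0 (4 * LL)) →
      (∀ z ∈ ball (0 : ℂ) (4 * LL), G z ≠ 0) →
      (∀ z ∈ ball (0 : ℂ) (4 * LL), ‖logDeriv G z - n * γ‖ ≤ η * n) →
      (∀ z ∈ ball (0 : ℂ) (4 * LL), HasDerivAt f (G z * ∏ i, (z - a i) ^ (k i)) z) →
      ‖f (ex γ)‖ ≤ Real.exp (η * n) * ‖deriv f (ex γ)‖ →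
      ∀ s ∈ Set.Icc (0 : ℝ) 1, ∃ z₀ : ℂ, z₀.re = s ∧ ‖z₀‖ ≤ 2 * LL ∧
        ∀ z ∈ closedBall z₀ η,
          ‖deriv f (ex γ)‖ ≤ ‖f z‖ ∧
          ∀ z' ∈ closedBall z₀ η, Real.exp (η * n) * ‖deriv f z'‖ ≤ ‖f z‖

/-- The robust local statement `P(κ)` with tolerance `η`. -/
def Good (κ η : ℝ) : Prop :=
  ∀ γ : ℂ, ‖γ‖ = 1 → ∃ (N : ℕ) (a : Fin N → ℂ) (m : Fin N → ℝ), Cfg κ η γ a m

/-- configurations may be indexed by any finite type -/
lemma Cfg.equiv {ι ι' : Type} [Fintype ι] [Fintype ι'] {κ η : ℝ} {γ : ℂ} {a : ι → ℂ}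
    {m : ι → ℝ} (h : Cfg κ η γ a m) (e : ι' ≃ ι) : Cfg κ η γ (a ∘ e) (m ∘ e) := by
  obtain ⟨h1, h2, h3, h4⟩ := h
  refine ⟨fun i => h1 _, fun i => h2 _, ?_, ?_⟩
  · rw [← h3]; exact Equiv.sum_comp e m
  · intro n hn k hk f G hG hG0 hGd hf hfe
    refine h4 n hn (k ∘ e.symm) ?_ f G hG hG0 hGd ?_ hfe
    · refine le_trans (le_of_eq ?_) hk
      rw [← Equiv.sum_comp e]
      simp
    · intro z hz
      have h5 := hf z hz
      have h6 : ∏ i, (z - a i) ^ ((k ∘ e.symm) i) = ∏ i, (z - (a ∘ e) i) ^ (k i) := by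
        rw [← Equiv.prod_comp e]
        simp
      rw [h6]; exact h5

lemma good_of_cfg {κ η : ℝ}
    (h : ∀ γ : ℂ, ‖γ‖ = 1 → ∃ (ι : Type) (_ : Fintype ι) (a : ι → ℂ) (m : ι → ℝ), Cfg κ η γ a m) :
    Good κ η := by
  intro γ hγ
  obtain ⟨ι, _, a, m, hc⟩ := h γ hγ
  exact ⟨Fintype.card ι, _, _, hc.equiv (Fintype.equivFin ι).symm⟩

/-- grid points, `S * S` of them; real parts are `0, 1/S^2, 2/S^2, …` -/
noncomputable def bp (S : ℕ) (q : Fin S × Fin S) : ℂ :=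
  (((q.1 : ℝ) / S + (q.2 : ℝ) / S ^ 2 : ℝ) : ℂ) + ((BB * (q.2 : ℝ) / S : ℝ) : ℂ) * I

/-- radial ratio of consecutive gadgets at top level -/
noncomputable def lam (S : ℕ) : ℝ := 1 + 1 / (S : ℝ) ^ 2

/-- ratio of the multiplicities of consecutive gadgets at top level -/
noncomputable def mu (S : ℕ) (κ : ℝ) : ℝ := 1 + 2 / (κ * (S : ℝ) ^ 2)

/-- complex ratio of the positions of consecutive gadgets at top level -/
noncomputable def qq (S : ℕ) : ℂ := (lam S : ℂ) * Complex.exp (2 * Real.pi * I / S)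

end Pool.Agent.NevChar
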