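import Pool.Agent.Lib_MP_2ed15d_an.StepAux

/-! Field estimates for clusters of zeros. -/

set_option autoImplicit false

open Metric Complex Finset

namespace Pool.Agent.NevChar

section
variable {Q : Type*} (s : Finset Q) {N : Q → ℕ} {p : (q : Q) → Fin (N q) → ℂ} {d : Q → ℂ}
  {k : (q : Q) → Fin (N q) → ℕ} {K : (q : Q) → Fin (N q) → ℝ} {Mq : Q → ℝ} {ρ D0 E1 E2 : ℝ}

lemma half_le {p d : ℂ} {ρ D0 : ℝ} (hd : D0 ≤ ‖d‖) (hp : ‖p - d‖ ≤ ρ) (hρ : ρ ≤ D0 / 2) :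
    ‖d‖ / 2 ≤ ‖p‖ := by
  have h3 : ‖d‖ ≤ ‖p‖ + ‖p - d‖ := by
    have := norm_sub_le p (p - d)
    simpa using this
  linarith

lemma field_bound (hD0 : 0 < D0) (hd : ∀ q ∈ s, D0 ≤ ‖d q‖)
    (hp : ∀ q ∈ s, ∀ i, ‖p q i - d q‖ ≤ ρ) (hρ : ρ ≤ D0 / 2)
    (hK0 : ∀ q ∈ s, ∀ i, 0 ≤ K q i) (hKsum : ∀ q ∈ s, ∑ i, K q i = Mq q)
    (hround : ∑ q ∈ s, ∑ i, |(k q i : ℝ) - K q i| ≤ E1)
    (hsum2 : ∑ q ∈ s, Mq q * (2 * ρ / ‖d q‖ ^ 2) ≤ E2) :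
    ‖∑ q ∈ s, ∑ i, (k q i : ℂ) / p q i - ∑ q ∈ s, (Mq q : ℂ) / d q‖ ≤ E1 * (2 / D0) + E2 := by
  have h1 : ∑ q ∈ s, ∑ i, (k q i : ℂ) / p q i - ∑ q ∈ s, (Mq q : ℂ) / d q =
      ∑ q ∈ s, ∑ i, (((k q i : ℝ) : ℂ) / p q i - ((K q i : ℝ) : ℂ) / d q) := by
    rw [← Finset.sum_sub_distrib]
    apply Finset.sum_congr rfl
    intro q hq
    rw [Finset.sum_sub_distrib, ← Finset.sum_div]
    congr 2
    rw [← hKsum q hq]
    push_cast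
    rfl
  rw [h1]
  have h2 : ∀ q ∈ s, ∀ i, ‖((k q i : ℝ) : ℂ) / p q i - ((K q i : ℝ) : ℂ) / d q‖ ≤
      |(k q i : ℝ) - K q i| * (2 / D0) + K q i * (2 * ρ / ‖d q‖ ^ 2) := by
    intro q hq i
    have hd0 : 0 < ‖d q‖ := lt_of_lt_of_le hD0 (hd q hq)
    refine (term_bound (norm_pos_iff.mp hd0) (half_le (hd q hq) (hp q hq i) hρ)
      (hp q hq i) (hK0 q hq i)).trans ?_
    have h3 : 2 / ‖d q‖ ≤ 2 / D0 :=
      div_le_div_of_nonneg_left (by norm_num) hD0 (hd q hq)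
    have h4 := mul_le_mul_of_nonneg_left h3 (abs_nonneg ((k q i : ℝ) - K q i))
    linarith
  calc ‖∑ q ∈ s, ∑ i, (((k q i : ℝ) : ℂ) / p q i - ((K q i : ℝ) : ℂ) / d q)‖
      ≤ ∑ q ∈ s, ∑ i, ‖((k q i : ℝ) : ℂ) / p q i - ((K q i : ℝ) : ℂ) / d q‖ := by
        refine (norm_sum_le _ _).trans (Finset.sum_le_sum (fun q _ => norm_sum_le _ _))
    _ ≤ ∑ q ∈ s, ∑ i, (|(k q i : ℝ) - K q i| * (2 / D0) + K q i * (2 * ρ / ‖d q‖ ^ 2)) :=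
        Finset.sum_le_sum (fun q hq => Finset.sum_le_sum (fun i _ => h2 q hq i))
    _ = (∑ q ∈ s, ∑ i, |(k q i : ℝ) - K q i|) * (2 / D0) +
        ∑ q ∈ s, Mq q * (2 * ρ / ‖d q‖ ^ 2) := by
        rw [Finset.sum_mul, ← Finset.sum_add_distrib]
        apply Finset.sum_congr rfl
        intro q hq
        rw [Finset.sum_add_distrib, Finset.sum_mul, ← hKsum q hq, Finset.sum_mul]
    _ ≤ E1 * (2 / D0) + E2 := by
        apply add_le_add _ hsum2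
        exact mul_le_mul_of_nonneg_right hround (by positivity)

lemma field_abs (hD0 : 0 < D0) (hd : ∀ q ∈ s, D0 ≤ ‖d q‖)
    (hp : ∀ q ∈ s, ∀ i, ‖p q i - d q‖ ≤ ρ) (hρ : ρ ≤ D0 / 2)
    (hK0 : ∀ q ∈ s, ∀ i, 0 ≤ K q i) (hKsum : ∀ q ∈ s, ∑ i, K q i = Mq q)
    (hround : ∑ q ∈ s, ∑ i, |(k q i : ℝ) - K q i| ≤ E1)
    (hsum1 : ∑ q ∈ s, Mq q / ‖d q‖ ≤ E2) :
    ∑ q ∈ s, ∑ i, (k q i : ℝ) / ‖p q i‖ ≤ E1 * (2 / D0) + 2 * E2 := by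
  have h2 : ∀ q ∈ s, ∀ i, (k q i : ℝ) / ‖p q i‖ ≤
      |(k q i : ℝ) - K q i| * (2 / D0) + K q i * (2 / ‖d q‖) := by
    intro q hq i
    have hd0 : 0 < ‖d q‖ := lt_of_lt_of_le hD0 (hd q hq)
    have h5 := half_le (hd q hq) (hp q hq i) hρ
    have hp0 : 0 < ‖p q i‖ := by linarith
    have h3 : 2 / ‖d q‖ ≤ 2 / D0 :=
      div_le_div_of_nonneg_left (by norm_num) hD0 (hd q hq)
    have h4 := mul_le_mul_of_nonneg_left h3 (abs_nonneg ((k q i : ℝ) - K q i))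
    have h6 : 1 / ‖p q i‖ ≤ 2 / ‖d q‖ := by
      rw [div_le_div_iff₀ hp0 hd0]; linarith
    have h7 : (k q i : ℝ) ≤ |(k q i : ℝ) - K q i| + K q i := by
      have := le_abs_self ((k q i : ℝ) - K q i)
      linarith
    calc (k q i : ℝ) / ‖p q i‖ = (k q i : ℝ) * (1 / ‖p q i‖) := by ring
      _ ≤ (k q i : ℝ) * (2 / ‖d q‖) := mul_le_mul_of_nonneg_left h6 (Nat.cast_nonneg _)
      _ ≤ (|(k q i : ℝ) - K q i| + K q i) * (2 / ‖d q‖) :=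
          mul_le_mul_of_nonneg_right h7 (by positivity)
      _ ≤ _ := by linarith
  calc ∑ q ∈ s, ∑ i, (k q i : ℝ) / ‖p q i‖
      ≤ ∑ q ∈ s, ∑ i, (|(k q i : ℝ) - K q i| * (2 / D0) + K q i * (2 / ‖d q‖)) :=
        Finset.sum_le_sum (fun q hq => Finset.sum_le_sum (fun i _ => h2 q hq i))
    _ = (∑ q ∈ s, ∑ i, |(k q i : ℝ) - K q i|) * (2 / D0) + 2 * ∑ q ∈ s, Mq q / ‖d q‖ := by
        rw [Finset.sum_mul, Finset.mul_sum, ← Finset.sum_add_distrib]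
        apply Finset.sum_congr rfl
        intro q hq
        rw [Finset.sum_add_distrib, ← Finset.sum_mul, ← Finset.sum_mul, hKsum q hq]
        ring
    _ ≤ E1 * (2 / D0) + 2 * E2 := by
        apply add_le_add _ (by linarith)
        exact mul_le_mul_of_nonneg_right hround (by positivity)

end

/-- transport of the exit bound along a straight segment -/
lemma exit_bound {ι : Type*} [Fintype ι] {G f : ℂ → ℂ} {R n η' : ℝ} {γ : ℂ}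
    (hG : DifferentiableOn ℂ G (ball 0 R)) (h0 : ∀ z ∈ ball (0 : ℂ) R, G z ≠ 0)
    (hd : ∀ z ∈ ball (0 : ℂ) R, ‖logDeriv G z - n * γ‖ ≤ η' * n) {e z₁ : ℂ}
    (he : e ∈ ball (0 : ℂ) R) (hz₁ : z₁ ∈ ball (0 : ℂ) R) (A : ι → ℂ) (k : ι → ℕ)
    (hf : ∀ z ∈ ball (0 : ℂ) R, HasDerivAt f (G z * ∏ i, (z - A i) ^ (k i)) z)
    (hA : ∀ i, z₁ ≠ A i) (hσ : ∑ i, (k i : ℝ) / ‖z₁ - A i‖ ≤ n / 10)
    (hη' : η' ≤ 1 / 10) (hn : 0 ≤ n)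
    (hdir : (γ * (e - z₁)).re ≤ -(1 / 2) * ‖e - z₁‖) (hlong : 1 ≤ ‖e - z₁‖)
    (hfe : ‖f e‖ ≤ Real.exp (η' * n) * ‖deriv f e‖) :
    ‖f z₁‖ ≤ (1 + ‖e - z₁‖) * ‖deriv f z₁‖ ∧
      ‖deriv f e‖ ≤ ‖deriv f z₁‖ * Real.exp (-(3 / 10) * n * ‖e - z₁‖) := by
  set g : ℂ → ℂ := fun z => G z * ∏ i, (z - A i) ^ (k i) with hg
  have hseg : ∀ z ∈ segment ℝ z₁ e, z ∈ ball (0 : ℂ) R := fun z hz =>
    (convex_ball (0 : ℂ) R).segment_subset hz₁ he hz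
  have hgz : ∀ z ∈ segment ℝ z₁ e, ‖g z‖ ≤ ‖g z₁‖ * Real.exp (-(3 / 10) * n * ‖z - z₁‖) := by
    intro z hz
    have h1 := norm_prod_le (c := n * γ) hG h0 hd (hseg z hz) hz₁ A k hA hσ
    refine h1.trans ?_
    apply mul_le_mul_of_nonneg_left _ (norm_nonneg _)
    apply Real.exp_le_exp.mpr
    obtain ⟨θ, hθ, rfl⟩ := (segment_eq_image' ℝ z₁ e) ▸ hz
    have h2 : z₁ + θ • (e - z₁) - z₁ = (θ : ℂ) * (e - z₁) := by
      simp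
    rw [h2, norm_mul, Complex.norm_real, Real.norm_eq_abs, abs_of_nonneg hθ.1]
    have h3 : ((n : ℂ) * γ * ((θ : ℂ) * (e - z₁))).re = n * θ * (γ * (e - z₁)).re := by
      have : (n : ℂ) * γ * ((θ : ℂ) * (e - z₁)) = ((n * θ : ℝ) : ℂ) * (γ * (e - z₁)) := by
        push_cast; ring
      rw [this, Complex.re_ofReal_mul]
    rw [h3]
    have h4 : n * θ * (γ * (e - z₁)).re ≤ n * θ * (-(1 / 2) * ‖e - z₁‖) :=
      mul_le_mul_of_nonneg_left hdir (mul_nonneg hn hθ.1)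
    have h5 : 0 ≤ n * (θ * ‖e - z₁‖) := mul_nonneg hn (mul_nonneg hθ.1 (norm_nonneg _))
    have h6 : η' * (n * (θ * ‖e - z₁‖)) ≤ 1 / 10 * (n * (θ * ‖e - z₁‖)) :=
      mul_le_mul_of_nonneg_right hη' h5
    nlinarith only [h4, h5, h6]
  have hderiv : ∀ z ∈ ball (0 : ℂ) R, deriv f z = g z := fun z hz => (hf z hz).deriv
  have hgz' : ∀ z ∈ segment ℝ z₁ e, ‖g z‖ ≤ ‖g z₁‖ := by
    intro z hz
    refine (hgz z hz).trans ?_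
    have : Real.exp (-(3 / 10) * n * ‖z - z₁‖) ≤ 1 := by
      apply Real.exp_le_one_iff.mpr
      have h5 : 0 ≤ n * ‖z - z₁‖ := mul_nonneg hn (norm_nonneg _)
      linarith
    calc ‖g z₁‖ * Real.exp (-(3 / 10) * n * ‖z - z₁‖) ≤ ‖g z₁‖ * 1 :=
          mul_le_mul_of_nonneg_left this (norm_nonneg _)
      _ = ‖g z₁‖ := mul_one _
  have he' : ‖deriv f e‖ ≤ ‖deriv f z₁‖ * Real.exp (-(3 / 10) * n * ‖e - z₁‖) := by
    rw [hderiv e he, hderiv z₁ hz₁]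
    exact hgz e (right_mem_segment ℝ z₁ e)
  refine ⟨?_, he'⟩
  have h1 : ‖f z₁ - f e‖ ≤ ‖g z₁‖ * ‖z₁ - e‖ := by
    refine (convex_segment z₁ e).norm_image_sub_le_of_norm_hasDerivWithin_le
      (f := f) (f' := g) (fun x hx => (hf x (hseg x hx)).hasDerivWithinAt)
      hgz' (right_mem_segment ℝ z₁ e) (left_mem_segment ℝ z₁ e)
  have h2 : ‖f e‖ ≤ ‖g z₁‖ := by
    refine hfe.trans ?_
    rw [hderiv z₁ hz₁] at he'
    calc Real.exp (η' * n) * ‖deriv f e‖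
        ≤ Real.exp (η' * n) * (‖g z₁‖ * Real.exp (-(3 / 10) * n * ‖e - z₁‖)) :=
          mul_le_mul_of_nonneg_left he' (Real.exp_pos _).le
      _ = ‖g z₁‖ * Real.exp (η' * n + -(3 / 10) * n * ‖e - z₁‖) := by
          rw [Real.exp_add]; ring
      _ ≤ ‖g z₁‖ * 1 := by
          apply mul_le_mul_of_nonneg_left _ (norm_nonneg _)
          apply Real.exp_le_one_iff.mpr
          have h3 : n * 1 ≤ n * ‖e - z₁‖ := mul_le_mul_of_nonneg_left hlong hn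
          have h4 : η' * n ≤ 1 / 10 * n := mul_le_mul_of_nonneg_right hη' hn
          linarith
      _ = ‖g z₁‖ := mul_one _
  have h3 : ‖f z₁‖ ≤ ‖f z₁ - f e‖ + ‖f e‖ := by
    have := norm_add_le (f z₁ - f e) (f e)
    simpa using this
  rw [hderiv z₁ hz₁, norm_sub_rev e z₁]
  linarith

end Pool.Agent.NevChar
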