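import Pool.Agent.Lib_MP_2ed15d_an.StepAux

/-! Field estimates for clusters of zeros, version with variable radii. -/

set_option autoImplicit false

open Metric Complex Finset

namespace Pool.Agent.NevChar

lemma field_bound2 {Q : Type*} (s : Finset Q) {N : ℕ} {p : Q → Fin N → ℂ} {d : Q → ℂ}
    {k : Q → Fin N → ℕ} {K : Q → Fin N → ℝ} {Mq : Q → ℝ} {ρ R : Q → ℝ}
    (hd : ∀ q ∈ s, 0 < ‖d q‖)
    (hp : ∀ q ∈ s, ∀ i, ‖p q i - d q‖ ≤ ρ q) (hρ : ∀ q ∈ s, ρ q ≤ ‖d q‖ / 2)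
    (hK0 : ∀ q ∈ s, ∀ i, 0 ≤ K q i) (hKsum : ∀ q ∈ s, ∑ i, K q i = Mq q)
    (hround : ∀ q ∈ s, ∑ i, |(k q i : ℝ) - K q i| ≤ R q) :
    ‖∑ q ∈ s, ∑ i, (k q i : ℂ) / p q i - ∑ q ∈ s, (Mq q : ℂ) / d q‖ ≤
      ∑ q ∈ s, (R q * (2 / ‖d q‖) + Mq q * (2 * ρ q / ‖d q‖ ^ 2)) := by
  have h1 : ∑ q ∈ s, ∑ i, (k q i : ℂ) / p q i - ∑ q ∈ s, (Mq q : ℂ) / d q =
      ∑ q ∈ s, ∑ i, (((k q i : ℝ) : ℂ) / p q i - ((K q i : ℝ) : ℂ) / d q) := by
    rw [← Finset.sum_sub_distrib]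
    apply Finset.sum_congr rfl
    intro q hq
    rw [Finset.sum_sub_distrib, ← Finset.sum_div]
    congr 2
    rw [← hKsum q hq]
    push_cast
    rfl
  rw [h1]
  refine (norm_sum_le _ _).trans (Finset.sum_le_sum ?_)
  intro q hq
  have hhalf : ∀ i, ‖d q‖ / 2 ≤ ‖p q i‖ := by
    intro i
    have h3 : ‖d q‖ ≤ ‖p q i‖ + ‖p q i - d q‖ := by
      have := norm_sub_le (p q i) (p q i - d q)
      simpa using this
    have h4 := hp q hq i
    have h5 := hρ q hq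
    linarith
  calc ‖∑ i, (((k q i : ℝ) : ℂ) / p q i - ((K q i : ℝ) : ℂ) / d q)‖
      ≤ ∑ i, ‖((k q i : ℝ) : ℂ) / p q i - ((K q i : ℝ) : ℂ) / d q‖ := norm_sum_le _ _
    _ ≤ ∑ i, (|(k q i : ℝ) - K q i| * (2 / ‖d q‖) + K q i * (2 * ρ q / ‖d q‖ ^ 2)) :=
        Finset.sum_le_sum (fun i _ => term_bound (norm_pos_iff.mp (hd q hq)) (hhalf i)
          (hp q hq i) (hK0 q hq i))
    _ = (∑ i, |(k q i : ℝ) - K q i|) * (2 / ‖d q‖) + Mq q * (2 * ρ q / ‖d q‖ ^ 2) := by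
        rw [Finset.sum_add_distrib, ← Finset.sum_mul, ← Finset.sum_mul, hKsum q hq]
    _ ≤ R q * (2 / ‖d q‖) + Mq q * (2 * ρ q / ‖d q‖ ^ 2) := by
        have := mul_le_mul_of_nonneg_right (hround q hq)
          (by have := hd q hq; positivity : 0 ≤ 2 / ‖d q‖)
        linarith

lemma field_abs2 {Q : Type*} (s : Finset Q) {N : ℕ} {p : Q → Fin N → ℂ} {d : Q → ℂ}
    {k : Q → Fin N → ℕ} {Mq : Q → ℝ} {ρ c : Q → ℝ}
    (hd : ∀ q ∈ s, 0 < ‖d q‖) (hc : ∀ q ∈ s, 0 ≤ c q)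
    (hp : ∀ q ∈ s, ∀ i, ‖p q i - d q‖ ≤ ρ q) (hρ : ∀ q ∈ s, ρ q ≤ ‖d q‖ / 2)
    (hk : ∀ q ∈ s, ∑ i, (k q i : ℝ) ≤ Mq q) :
    ∑ q ∈ s, ∑ i, (k q i : ℝ) * (c q / ‖p q i‖) ≤
      ∑ q ∈ s, Mq q * (c q * (2 / ‖d q‖)) := by
  apply Finset.sum_le_sum
  intro q hq
  have hd0 := hd q hq
  have hhalf : ∀ i, ‖d q‖ / 2 ≤ ‖p q i‖ := by
    intro i
    have h3 : ‖d q‖ ≤ ‖p q i‖ + ‖p q i - d q‖ := by
      have := norm_sub_le (p q i) (p q i - d q)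
      simpa using this
    have h4 := hp q hq i
    have h5 := hρ q hq
    linarith
  calc ∑ i, (k q i : ℝ) * (c q / ‖p q i‖) ≤ ∑ i, (k q i : ℝ) * (c q * (2 / ‖d q‖)) := by
        apply Finset.sum_le_sum
        intro i _
        apply mul_le_mul_of_nonneg_left _ (Nat.cast_nonneg _)
        rw [div_eq_mul_one_div]
        apply mul_le_mul_of_nonneg_left _ (hc q hq)
        have h1 := hhalf i
        have h2 : 0 < ‖p q i‖ := by linarith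
        rw [div_le_div_iff₀ h2 hd0]
        linarith
    _ = (∑ i, (k q i : ℝ)) * (c q * (2 / ‖d q‖)) := by rw [Finset.sum_mul]
    _ ≤ Mq q * (c q * (2 / ‖d q‖)) :=
        mul_le_mul_of_nonneg_right (hk q hq) (mul_nonneg (hc q hq) (by positivity))

/-- one factor of the product along the radius towards `0` -/
lemma radial_factor {a e : ℂ} {t : ℝ} (hae : a ≠ e) (ht0 : 0 ≤ t) (ht1 : t ≤ 1) (ha : a ≠ 0) :
    ‖1 - (((1 - t : ℝ) : ℂ) * e) / a‖ ≤ ‖1 - e / a‖ *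
      Real.exp (t * (-1 + ‖a‖ / ‖e - a‖)) := by
  have h0 : 0 < ‖a‖ := norm_pos_iff.mpr ha
  have h1 : 0 < ‖e - a‖ := norm_pos_iff.mpr (sub_ne_zero.mpr hae.symm)
  have h2 : ‖1 - (((1 - t : ℝ) : ℂ) * e) / a‖ = ‖a - ((1 - t : ℝ) : ℂ) * e‖ / ‖a‖ := by
    rw [← norm_div]; congr 1; field_simp
  have h3 : ‖1 - e / a‖ = ‖e - a‖ / ‖a‖ := by
    rw [norm_sub_rev e a, ← norm_div]; congr 1; field_simp
  rw [h2, h3, div_mul_eq_mul_div]
  apply div_le_div_of_nonneg_right _ h0.le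
  have h4 : a - ((1 - t : ℝ) : ℂ) * e = ((1 - t : ℝ) : ℂ) * (a - e) + ((t : ℝ) : ℂ) * a := by
    push_cast; ring
  have h5 : ‖a - ((1 - t : ℝ) : ℂ) * e‖ ≤ (1 - t) * ‖e - a‖ + t * ‖a‖ := by
    rw [h4]
    refine (norm_add_le _ _).trans ?_
    rw [norm_mul, norm_mul, Complex.norm_real, Complex.norm_real, Real.norm_eq_abs,
      Real.norm_eq_abs, abs_of_nonneg (by linarith : (0 : ℝ) ≤ 1 - t), abs_of_nonneg ht0,
      norm_sub_rev a e]
  have h6 : (1 - t) * ‖e - a‖ + t * ‖a‖ = ‖e - a‖ * (t * (-1 + ‖a‖ / ‖e - a‖) + 1) := by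
    field_simp; ring
  rw [h6] at h5
  exact h5.trans (mul_le_mul_of_nonneg_left (Real.add_one_le_exp _) h1.le)

/-- the whole product along the radius towards `0` -/
lemma radial_prod {α : Type*} (s : Finset α) (a : α → ℂ) (k : α → ℕ) {e : ℂ} {t D : ℝ}
    (hae : ∀ x ∈ s, a x ≠ e) (ha : ∀ x ∈ s, a x ≠ 0) (ht0 : 0 ≤ t) (ht1 : t ≤ 1)
    (hD : ∑ x ∈ s, (k x : ℝ) * (-1 + ‖a x‖ / ‖e - a x‖) ≤ -D) :
    ‖∏ x ∈ s, (1 - (((1 - t : ℝ) : ℂ) * e) / a x) ^ (k x)‖ ≤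
      ‖∏ x ∈ s, (1 - e / a x) ^ (k x)‖ * Real.exp (-(t * D)) := by
  rw [norm_prod, norm_prod]
  calc ∏ x ∈ s, ‖(1 - (((1 - t : ℝ) : ℂ) * e) / a x) ^ (k x)‖
      ≤ ∏ x ∈ s, (‖(1 - e / a x) ^ (k x)‖ *
          Real.exp (t * ((k x : ℝ) * (-1 + ‖a x‖ / ‖e - a x‖)))) := by
        apply Finset.prod_le_prod
        · intro i _; exact norm_nonneg _
        · intro x hx
          rw [norm_pow, norm_pow]
          calc ‖1 - (((1 - t : ℝ) : ℂ) * e) / a x‖ ^ (k x)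
              ≤ (‖1 - e / a x‖ * Real.exp (t * (-1 + ‖a x‖ / ‖e - a x‖))) ^ (k x) :=
                pow_le_pow_left₀ (norm_nonneg _)
                  (radial_factor (hae x hx) ht0 ht1 (ha x hx)) _
            _ = _ := by
                rw [mul_pow, ← Real.exp_nat_mul]
                congr 2
                ring
    _ = (∏ x ∈ s, ‖(1 - e / a x) ^ (k x)‖) *
          Real.exp (t * ∑ x ∈ s, (k x : ℝ) * (-1 + ‖a x‖ / ‖e - a x‖)) := by
        rw [Finset.prod_mul_distrib, Finset.mul_sum, Real.exp_sum]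
    _ ≤ _ := by
        apply mul_le_mul_of_nonneg_left _ (Finset.prod_nonneg (fun i _ => norm_nonneg _))
        apply Real.exp_le_exp.mpr
        have := mul_le_mul_of_nonneg_left hD ht0
        linarith

lemma sum_erase_split {M : Type*} [AddCommMonoid M] (φ : ℕ → M) {j J : ℕ} (h : j < J) :
    ∑ x ∈ (range J).erase j, φ x =
      ∑ k ∈ range j, φ (j - 1 - k) + ∑ k ∈ range (J - 1 - j), φ (j + 1 + k) := by
  have h1 : (range J).erase j = range j ∪ Finset.Ico (j + 1) J := by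
    ext x
    simp only [mem_erase, Finset.mem_range, Finset.mem_union, Finset.mem_Ico]
    omega
  rw [h1, Finset.sum_union (by
    rw [Finset.disjoint_left]
    intro x hx hx'
    simp only [Finset.mem_range, Finset.mem_Ico] at hx hx'
    omega)]
  congr 1
  · rw [Finset.sum_range_reflect]
  · rw [Finset.sum_Ico_eq_sum_range]
    congr 2
    omega

end Pool.Agent.NevChar
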