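import Pool.Agent.Lib_MP_2ed15d_an.Defs

/-! Growth estimates from a bound of the logarithmic derivative. -/

set_option autoImplicit false

open Metric Complex Finset

namespace Pool.Agent.NevChar

/-- logarithm branch of a zero-free function on a ball, in difference form -/
lemma exists_log {G : ℂ → ℂ} {R : ℝ} {c₀ : ℂ} (hG : DifferentiableOn ℂ G (ball c₀ R))
    (h0 : ∀ z ∈ ball c₀ R, G z ≠ 0) :
    ∃ h : ℂ → ℂ, (∀ z ∈ ball c₀ R, HasDerivAt h (logDeriv G z) z) ∧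
      ∀ z ∈ ball c₀ R, ∀ w ∈ ball c₀ R, G z = G w * exp (h z - h w) := by
  have hd : DifferentiableOn ℂ (logDeriv G) (ball c₀ R) :=
    (hG.deriv isOpen_ball).div hG h0
  obtain ⟨h, hh⟩ := hd.isExactOn_ball
  refine ⟨h, hh, ?_⟩
  have key : ∀ z ∈ ball c₀ R, ∀ w ∈ ball c₀ R,
      G z * exp (-h z) = G w * exp (-h w) := by
    intro z hz w hw
    have hder : ∀ x ∈ ball c₀ R, HasDerivAt (fun x => G x * exp (-h x)) 0 x := by
      intro x hx
      have h1 : HasDerivAt G (deriv G x) x :=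
        (hG.differentiableAt (isOpen_ball.mem_nhds hx)).hasDerivAt
      have h2 : HasDerivAt (fun x => exp (-h x)) (exp (-h x) * (-logDeriv G x)) x :=
        ((hh x hx).neg).cexp
      have h3 := h1.mul h2
      have h4 : deriv G x * exp (-h x) + G x * (exp (-h x) * (-logDeriv G x)) = 0 := by
        rw [logDeriv_apply]
        field_simp [h0 x hx]
        ring
      rw [h4] at h3
      exact h3
    exact isOpen_ball.is_const_of_deriv_eq_zero (convex_ball c₀ R).isPreconnected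
      (fun x hx => (hder x hx).differentiableAt.differentiableWithinAt)
      (fun x hx => (hder x hx).deriv) hz hw
  intro z hz w hw
  have := key z hz w hw
  calc G z = (G z * exp (-h z)) * exp (h z) := by
        rw [mul_assoc, ← exp_add]; simp
    _ = (G w * exp (-h w)) * exp (h z) := by rw [this]
    _ = G w * exp (h z - h w) := by rw [mul_assoc, ← exp_add]; ring_nf

/-- growth from a bound of the logarithmic derivative -/
lemma norm_le_of_logDeriv {G : ℂ → ℂ} {R : ℝ} {c₀ c : ℂ} {δ : ℝ}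
    (hG : DifferentiableOn ℂ G (ball c₀ R))
    (h0 : ∀ z ∈ ball c₀ R, G z ≠ 0)
    (hd : ∀ z ∈ ball c₀ R, ‖logDeriv G z - c‖ ≤ δ) {z w : ℂ}
    (hz : z ∈ ball c₀ R) (hw : w ∈ ball c₀ R) :
    ‖G z‖ ≤ ‖G w‖ * Real.exp ((c * (z - w)).re + δ * ‖z - w‖) := by
  obtain ⟨h, hh, he⟩ := exists_log hG h0
  have h1 : ‖(h z - c * z) - (h w - c * w)‖ ≤ δ * ‖z - w‖ := by
    refine (convex_ball c₀ R).norm_image_sub_le_of_norm_hasDerivWithin_le
      (f := fun x => h x - c * x) (f' := fun x => logDeriv G x - c) (C := δ)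
      (fun x hx => ?_) hd hw hz
    have h5 := (hh x hx).sub ((hasDerivAt_id x).const_mul c)
    rw [mul_one] at h5
    exact h5.hasDerivWithinAt
  rw [he z hz w hw, norm_mul, Complex.norm_exp]
  apply mul_le_mul_of_nonneg_left _ (norm_nonneg _)
  apply Real.exp_le_exp.mpr
  have h2 : (h z - h w).re = (c * (z - w)).re + ((h z - c * z) - (h w - c * w)).re := by
    simp only [sub_re, mul_re, sub_im]; ring
  rw [h2]
  have h3 := Complex.re_le_norm ((h z - c * z) - (h w - c * w))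
  linarith

/-- elementary factor estimate -/
lemma norm_sub_le_mul_exp {z e a : ℂ} (h : e ≠ a) :
    ‖z - a‖ ≤ ‖e - a‖ * Real.exp (‖z - e‖ / ‖e - a‖) := by
  have h1 : 0 < ‖e - a‖ := norm_pos_iff.mpr (sub_ne_zero.mpr h)
  have h2 : ‖z - a‖ ≤ ‖e - a‖ + ‖z - e‖ := by
    have : z - a = (e - a) + (z - e) := by ring
    rw [this]; exact norm_add_le _ _
  have h3 : ‖e - a‖ + ‖z - e‖ = ‖e - a‖ * (‖z - e‖ / ‖e - a‖ + 1) := by field_simp; ring
  rw [h3] at h2
  exact h2.trans (mul_le_mul_of_nonneg_left (Real.add_one_le_exp _) h1.le)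

/-- growth of `G z * ∏ (z - a i)^(k i)` along a path starting at `e` -/
lemma norm_prod_le {ι : Type*} [Fintype ι] {G : ℂ → ℂ} {R : ℝ} {c₀ c : ℂ} {δ σ : ℝ}
    (hG : DifferentiableOn ℂ G (ball c₀ R))
    (h0 : ∀ z ∈ ball c₀ R, G z ≠ 0)
    (hd : ∀ z ∈ ball c₀ R, ‖logDeriv G z - c‖ ≤ δ) {z e : ℂ}
    (hz : z ∈ ball c₀ R) (he : e ∈ ball c₀ R) (a : ι → ℂ) (k : ι → ℕ)
    (hA : ∀ i, e ≠ a i) (hσ : ∑ i, (k i : ℝ) / ‖e - a i‖ ≤ σ) :
    ‖G z * ∏ i, (z - a i) ^ (k i)‖ ≤ ‖G e * ∏ i, (e - a i) ^ (k i)‖ *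
      Real.exp ((c * (z - e)).re + (δ + σ) * ‖z - e‖) := by
  have h1 := norm_le_of_logDeriv hG h0 hd hz he
  have h2 : ‖∏ i, (z - a i) ^ (k i)‖ ≤ ‖∏ i, (e - a i) ^ (k i)‖ * Real.exp (σ * ‖z - e‖) := by
    rw [norm_prod, norm_prod]
    calc ∏ i, ‖(z - a i) ^ (k i)‖
        ≤ ∏ i, (‖(e - a i) ^ (k i)‖ * Real.exp ((k i : ℝ) / ‖e - a i‖ * ‖z - e‖)) := by
          apply Finset.prod_le_prod
          · intro i _; exact norm_nonneg _
          · intro i _
            rw [norm_pow, norm_pow]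
            calc ‖z - a i‖ ^ (k i) ≤ (‖e - a i‖ * Real.exp (‖z - e‖ / ‖e - a i‖)) ^ (k i) :=
                  pow_le_pow_left₀ (norm_nonneg _) (norm_sub_le_mul_exp (hA i)) _
              _ = ‖e - a i‖ ^ (k i) * Real.exp ((k i : ℝ) / ‖e - a i‖ * ‖z - e‖) := by
                  rw [mul_pow, ← Real.exp_nat_mul]
                  congr 2
                  ring
      _ = (∏ i, ‖(e - a i) ^ (k i)‖) * Real.exp ((∑ i, (k i : ℝ) / ‖e - a i‖) * ‖z - e‖) := by
          rw [Finset.prod_mul_distrib, Finset.sum_mul, Real.exp_sum]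
      _ ≤ (∏ i, ‖(e - a i) ^ (k i)‖) * Real.exp (σ * ‖z - e‖) := by
          apply mul_le_mul_of_nonneg_left _ (Finset.prod_nonneg (fun i _ => norm_nonneg _))
          apply Real.exp_le_exp.mpr
          exact mul_le_mul_of_nonneg_right hσ (norm_nonneg _)
  rw [norm_mul, norm_mul]
  calc ‖G z‖ * ‖∏ i, (z - a i) ^ (k i)‖
      ≤ (‖G e‖ * Real.exp ((c * (z - e)).re + δ * ‖z - e‖)) *
        (‖∏ i, (e - a i) ^ (k i)‖ * Real.exp (σ * ‖z - e‖)) :=
        mul_le_mul h1 h2 (norm_nonneg _) (by positivity)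
    _ = ‖G e‖ * ‖∏ i, (e - a i) ^ (k i)‖ *
        (Real.exp ((c * (z - e)).re + δ * ‖z - e‖) * Real.exp (σ * ‖z - e‖)) := by ring
    _ = _ := by rw [← Real.exp_add]; congr 2; ring

end Pool.Agent.NevChar
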