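import Pool.Agent.Lib_MP_2ed15d_an.Defs

set_option autoImplicit false

open Metric Complex Finset MeasureTheory

namespace Pool.Agent.NevChar

namespace PartA

/-- A nonvanishing holomorphic function on a ball whose logarithmic derivative is close to a
constant is `C * exp (c z + E z)` with `E'` small. -/
lemma exists_log {R : ℝ} (hR : 0 < R) (G : ℂ → ℂ) (c : ℂ) (hG : DifferentiableOn ℂ G (ball 0 R))
    (hG0 : ∀ z ∈ ball (0 : ℂ) R, G z ≠ 0) :
    ∃ (C : ℂ) (E : ℂ → ℂ), DifferentiableOn ℂ (fun z => logDeriv G z - c) (ball 0 R) ∧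
      (∀ z ∈ ball (0 : ℂ) R, HasDerivAt E (logDeriv G z - c) z) ∧
      ∀ z ∈ ball (0 : ℂ) R, G z = C * Complex.exp (c * z + E z) := by
  have hGa : ∀ z ∈ ball (0 : ℂ) R, HasDerivAt G (deriv G z) z := fun z hz =>
    ((hG z hz).differentiableAt (isOpen_ball.mem_nhds hz)).hasDerivAt
  have hdiff : DifferentiableOn ℂ (fun z => logDeriv G z - c) (ball 0 R) := by
    have h1 : DifferentiableOn ℂ (deriv G) (ball 0 R) := hG.deriv isOpen_ball
    have h2 : DifferentiableOn ℂ (fun z => deriv G z / G z - c) (ball 0 R) :=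
      (h1.div hG hG0).sub_const c
    exact h2
  obtain ⟨E, hE⟩ := hdiff.isExactOn_ball
  refine ⟨G 0 * Complex.exp (-E 0), E, hdiff, hE, ?_⟩
  -- the quotient has derivative zero
  set Q : ℂ → ℂ := fun z => G z * Complex.exp (-(c * z + E z)) with hQ
  have hQd : ∀ z ∈ ball (0 : ℂ) R, HasDerivAt Q 0 z := by
    intro z hz
    have h1 : HasDerivAt (fun z => -(c * z + E z)) (-(c * 1 + (logDeriv G z - c))) z :=
      (((hasDerivAt_id z).const_mul c).add (hE z hz)).neg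
    have h2 := (hGa z hz).mul h1.cexp
    have h3 : deriv G z * Complex.exp (-(c * z + E z)) +
        G z * (Complex.exp (-(c * z + E z)) * (-(c * 1 + (logDeriv G z - c)))) = 0 := by
      have : logDeriv G z = deriv G z / G z := rfl
      rw [this]
      have := hG0 z hz
      field_simp
      ring
    rw [h3] at h2
    exact h2
  have hconst : ∀ z ∈ ball (0 : ℂ) R, Q z = Q 0 := by
    intro z hz
    have h0 : (0 : ℂ) ∈ ball (0 : ℂ) R := mem_ball_self hR
    have := (convex_ball (0 : ℂ) R).norm_image_sub_le_of_norm_hasDerivWithin_le (C := 0)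
      (f := Q) (f' := fun _ => 0) (fun x hx => (hQd x hx).hasDerivWithinAt) (by simp) h0 hz
    simpa [sub_eq_zero] using this
  intro z hz
  have h := hconst z hz
  have h4 : G z = Q z * Complex.exp (c * z + E z) := by
    rw [hQ]
    simp only
    rw [mul_assoc, ← Complex.exp_add]
    simp
  rw [h4, h, hQ]
  simp

/-- standing hypotheses -/
structure Dat (n : ℝ) (k : ℕ) (C : ℂ) (E e f : ℂ → ℂ) : Prop where
  hn : 10 ^ 8 ≤ n
  hk : |(k : ℝ) - 16 * n| ≤ n / 10 ^ 8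
  hC : C ≠ 0
  he : DifferentiableOn ℂ e (ball 0 (4 * LL))
  hE : ∀ z ∈ ball (0 : ℂ) (4 * LL), HasDerivAt E (e z) z
  heb : ∀ z ∈ ball (0 : ℂ) (4 * LL), ‖e z‖ ≤ n / 10 ^ 8
  hf : ∀ z ∈ ball (0 : ℂ) (4 * LL), HasDerivAt f (C * Complex.exp (n * z + E z) * z ^ k) z

variable {n : ℝ} {k : ℕ} {C : ℂ} {E e f : ℂ → ℂ}

/-- the derivative of `f` -/
noncomputable def gg (n : ℝ) (k : ℕ) (C : ℂ) (E : ℂ → ℂ) (z : ℂ) : ℂ :=
  C * Complex.exp (n * z + E z) * z ^ k

lemma LL_val : LL = 10 ^ 12 := rfl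

lemma mem_big {z : ℂ} (hz : ‖z‖ ≤ 1000) : z ∈ ball (0 : ℂ) (4 * LL) := by
  rw [mem_ball_zero_iff, LL_val]; linarith

namespace Dat

lemma n_pos (D : Dat n k C E e f) : 0 < n := by have := D.hn; linarith

lemma k_le (D : Dat n k C E e f) : (k : ℝ) ≤ 16.00000001 * n := by
  have := (abs_le.1 D.hk).2
  linarith

lemma k_ge (D : Dat n k C E e f) : 15.99999999 * n ≤ (k : ℝ) := by
  have := (abs_le.1 D.hk).1
  linarith

lemma E_lip (D : Dat n k C E e f) {z w : ℂ} (hz : z ∈ ball (0 : ℂ) (4 * LL))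
    (hw : w ∈ ball (0 : ℂ) (4 * LL)) : ‖E z - E w‖ ≤ n / 10 ^ 8 * ‖z - w‖ :=
  (convex_ball (0 : ℂ) (4 * LL)).norm_image_sub_le_of_norm_hasDerivWithin_le
      (f := E) (f' := e) (fun x hx => (D.hE x hx).hasDerivWithinAt) D.heb hw hz

lemma norm_gg (z : ℂ) : ‖gg n k C E z‖ = ‖C‖ * Real.exp (n * z.re + (E z).re) * ‖z‖ ^ k := by
  unfold gg
  rw [norm_mul, norm_mul, norm_pow, Complex.norm_exp]
  simp

/-- growth of `gg` -/
lemma gg_le (D : Dat n k C E e f) {z w : ℂ} (hz : z ∈ ball (0 : ℂ) (4 * LL))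
    (hw : w ∈ ball (0 : ℂ) (4 * LL)) {σ : ℝ} (hσ : ‖z‖ ≤ Real.exp σ * ‖w‖) :
    ‖gg n k C E z‖ ≤ ‖gg n k C E w‖ *
      Real.exp (k * σ + n * (z - w).re + n / 10 ^ 8 * ‖z - w‖) := by
  rw [norm_gg, norm_gg]
  have h1 : ‖z‖ ^ k ≤ Real.exp (k * σ) * ‖w‖ ^ k := by
    calc ‖z‖ ^ k ≤ (Real.exp σ * ‖w‖) ^ k := pow_le_pow_left₀ (norm_nonneg _) hσ k
      _ = _ := by rw [mul_pow, ← Real.exp_nat_mul]
  have h2 : (E z).re - (E w).re ≤ n / 10 ^ 8 * ‖z - w‖ := by
    have := D.E_lip hz hw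
    have h3 := Complex.re_le_norm (E z - E w)
    rw [Complex.sub_re] at h3
    linarith
  have h4 : Real.exp (n * z.re + (E z).re) ≤ Real.exp (n * w.re + (E w).re) *
      Real.exp (n * (z - w).re + n / 10 ^ 8 * ‖z - w‖) := by
    rw [← Real.exp_add]
    apply Real.exp_le_exp.2
    rw [Complex.sub_re]
    linarith
  calc ‖C‖ * Real.exp (n * z.re + (E z).re) * ‖z‖ ^ k
      ≤ ‖C‖ * (Real.exp (n * w.re + (E w).re) *
        Real.exp (n * (z - w).re + n / 10 ^ 8 * ‖z - w‖)) * (Real.exp (k * σ) * ‖w‖ ^ k) := by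
        gcongr
    _ = _ := by
        rw [show k * σ + n * (z - w).re + n / 10 ^ 8 * ‖z - w‖ =
          k * σ + (n * (z - w).re + n / 10 ^ 8 * ‖z - w‖) by ring, Real.exp_add (k * σ)]
        ring

/-- Lipschitz bound for `e` -/
lemma e_lip (D : Dat n k C E e f) {z w : ℂ} (hz : ‖z‖ ≤ 100) (hw : ‖w‖ ≤ 100) :
    ‖e z - e w‖ ≤ n / 10 ^ 8 * ‖z - w‖ := by
  have hd : ∀ x ∈ closedBall (0 : ℂ) 100, ‖deriv e x‖ ≤ n / 10 ^ 8 := by
    intro x hx
    rw [mem_closedBall_zero_iff] at hx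
    have hsub : closedBall x 1 ⊆ ball (0 : ℂ) (4 * LL) := by
      intro y hy
      apply mem_big
      rw [mem_closedBall, dist_eq_norm] at hy
      have : ‖y‖ ≤ ‖x‖ + ‖y - x‖ := by
        calc ‖y‖ = ‖x + (y - x)‖ := by ring_nf
          _ ≤ _ := norm_add_le _ _
      linarith
    have := Complex.norm_deriv_le_of_forall_mem_sphere_norm_le (c := x) (R := 1)
      (C := n / 10 ^ 8) (f := e) one_pos ?_ ?_
    · simpa using this
    · apply DifferentiableOn.diffContOnCl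
      rw [closure_ball _ one_ne_zero]
      exact D.he.mono hsub
    · intro y hy
      exact D.heb y (hsub (sphere_subset_closedBall hy))
  have hda : ∀ x ∈ closedBall (0 : ℂ) 100, DifferentiableAt ℂ e x := by
    intro x hx
    rw [mem_closedBall_zero_iff] at hx
    have := mem_big (hx.trans (by norm_num))
    exact (D.he x this).differentiableAt (isOpen_ball.mem_nhds this)
  exact (convex_closedBall (0 : ℂ) 100).norm_image_sub_le_of_norm_deriv_le hda hd
    (by simpa using hw) (by simpa using hz)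

/-- the saddle point -/
lemma saddle (D : Dat n k C E e f) : ∃ p : ℂ, ‖p + 16‖ ≤ 1 / 10 ^ 6 ∧ p * (n + e p) = -k := by
  have hn := D.n_pos
  have hk1 := D.k_le
  have hk2 := D.k_ge
  have hnorm : ∀ z ∈ closedBall (-16 : ℂ) (1 / 10), ‖z‖ ≤ 100 := by
    intro z hz
    rw [mem_closedBall, dist_eq_norm] at hz
    calc ‖z‖ = ‖(z - -16) + -16‖ := by ring_nf
      _ ≤ ‖z - -16‖ + ‖(-16 : ℂ)‖ := norm_add_le _ _
      _ ≤ 1 / 10 + 16 := by gcongr; simp
      _ ≤ 100 := by norm_num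
  have hden : ∀ z ∈ closedBall (-16 : ℂ) (1 / 10), 0.9 * n ≤ ‖(n : ℂ) + e z‖ := by
    intro z hz
    have h1 := D.heb z (mem_big ((hnorm z hz).trans (by norm_num)))
    have h2 : ‖(n : ℂ)‖ ≤ ‖(n : ℂ) + e z‖ + ‖e z‖ := by
      calc ‖(n : ℂ)‖ = ‖((n : ℂ) + e z) - e z‖ := by ring_nf
        _ ≤ _ := norm_sub_le _ _
    rw [Complex.norm_real, Real.norm_of_nonneg hn.le] at h2
    linarith
  have hden0 : ∀ z ∈ closedBall (-16 : ℂ) (1 / 10), (n : ℂ) + e z ≠ 0 := by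
    intro z hz h0
    have := hden z hz
    rw [h0, norm_zero] at this
    linarith
  set T : ℂ → ℂ := fun z => -(k : ℂ) / (n + e z) with hT
  have hT16 : ∀ z ∈ closedBall (-16 : ℂ) (1 / 10), ‖T z + 16‖ ≤ 1 / 10 ^ 6 := by
    intro z hz
    have h0 := hden0 z hz
    have h1 : T z + 16 = (-((k : ℂ) - 16 * n) + 16 * e z) / (n + e z) := by
      rw [hT]; field_simp; ring
    rw [h1, norm_div]
    have h2 : ‖-((k : ℂ) - 16 * n) + 16 * e z‖ ≤ n / 10 ^ 8 + 16 * (n / 10 ^ 8) := by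
      refine (norm_add_le _ _).trans ?_
      have h3 : ‖-((k : ℂ) - 16 * n)‖ ≤ n / 10 ^ 8 := by
        rw [norm_neg]
        have : ((k : ℂ) - 16 * n) = (((k : ℝ) - 16 * n : ℝ) : ℂ) := by push_cast; ring
        rw [this, Complex.norm_real]
        exact D.hk
      have h4 : ‖16 * e z‖ ≤ 16 * (n / 10 ^ 8) := by
        rw [norm_mul]
        have := D.heb z (mem_big ((hnorm z hz).trans (by norm_num)))
        have h5 : ‖(16 : ℂ)‖ = 16 := by simp
        rw [h5]; linarith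
      linarith
    rw [div_le_iff₀ (lt_of_lt_of_le (by linarith) (hden z hz))]
    have := hden z hz
    linarith
  have hTmap : Set.MapsTo T (closedBall (-16 : ℂ) (1 / 10)) (closedBall (-16 : ℂ) (1 / 10)) := by
    intro z hz
    rw [mem_closedBall, dist_eq_norm, sub_neg_eq_add]
    exact (hT16 z hz).trans (by norm_num)
  have hcontr : ContractingWith (1 / 2) (hTmap.restrict T _ _) := by
    refine ⟨by norm_num, LipschitzWith.of_dist_le_mul ?_⟩
    rintro ⟨z, hz⟩ ⟨w, hw⟩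
    change dist (T z) (T w) ≤ _ * dist z w
    rw [dist_eq_norm, dist_eq_norm]
    have hz0 := hden0 z hz
    have hw0 := hden0 w hw
    have h1 : T z - T w = k * (e z - e w) / ((n + e z) * (n + e w)) := by
      rw [hT]; simp only; field_simp; ring
    rw [h1, norm_div, norm_mul, norm_mul]
    have h2 := D.e_lip (hnorm z hz) (hnorm w hw)
    have h3 := hden z hz
    have h4 := hden w hw
    have h5 : (0.9 * n) * (0.9 * n) ≤ ‖(n : ℂ) + e z‖ * ‖(n : ℂ) + e w‖ := by gcongr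
    have h6 : 0 < (0.9 * n) * (0.9 * n) := by positivity
    rw [div_le_iff₀ (lt_of_lt_of_le h6 h5)]
    have h7 : ‖(k : ℂ)‖ = k := by simp
    rw [h7]
    have h8 : (k : ℝ) * ‖e z - e w‖ ≤ (16.00000001 * n) * (n / 10 ^ 8 * ‖z - w‖) := by gcongr
    refine h8.trans ?_
    have h9 : ((1 / 2 : NNReal) : ℝ) = 1 / 2 := by simp
    rw [h9]
    have h10 : 1 / 2 * ‖z - w‖ * ((0.9 * n) * (0.9 * n)) ≤
        1 / 2 * ‖z - w‖ * (‖(n : ℂ) + e z‖ * ‖(n : ℂ) + e w‖) := by gcongr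
    refine le_trans ?_ h10
    have h11 : 0 ≤ ‖z - w‖ * n ^ 2 := by positivity
    nlinarith
  obtain ⟨p, hp, hfix, -⟩ := hcontr.exists_fixedPoint' (isClosed_closedBall.isComplete) hTmap
    (x := -16) (mem_closedBall_self (by norm_num)) (edist_ne_top _ _)
  refine ⟨p, ?_, ?_⟩
  · have := hT16 p hp
    rwa [show T p = p from hfix] at this
  · have h0 := hden0 p hp
    have h1 : T p = p := hfix
    rw [hT] at h1
    simp only at h1
    rw [div_eq_iff h0] at h1
    exact h1.symm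

end Dat

/-- local exponent -/
noncomputable def hh (n : ℝ) (k : ℕ) (E : ℂ → ℂ) (p : ℂ) (t : ℝ) : ℂ :=
  E (p + t) - E p + n * t + k * Complex.log (1 + t / p)

/-- Gaussian lower bound -/
lemma gauss_lower {lam : ℝ} (hlam : 1 ≤ lam) :
    4 / 3 / Real.sqrt lam ≤ ∫ t in (-1 : ℝ)..1, Real.exp (-lam * t ^ 2) := by
  have hl0 : 0 < lam := by linarith
  set s : ℝ := 1 / Real.sqrt lam with hs
  have hsq : 1 ≤ Real.sqrt lam := by
    rw [show (1 : ℝ) = Real.sqrt 1 by simp]; exact Real.sqrt_le_sqrt hlam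
  have hs0 : 0 < s := by positivity
  have hs1 : s ≤ 1 := by rw [hs, div_le_one (by positivity)]; exact hsq
  have hls : lam * s ^ 2 = 1 := by
    rw [hs, div_pow, Real.sq_sqrt hl0.le]; field_simp
  have h1 : ∫ t in (-s)..s, (1 - lam * t ^ 2) = 4 / 3 / Real.sqrt lam := by
    rw [intervalIntegral.integral_sub (by simp) ((by fun_prop : Continuous fun t : ℝ =>
      lam * t ^ 2).intervalIntegrable _ _), intervalIntegral.integral_const_mul]
    simp only [intervalIntegral.integral_const, integral_pow]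
    have h2 : 4 / 3 / Real.sqrt lam = 4 / 3 * s := by rw [hs]; ring
    rw [h2]
    norm_num
    have h3 : lam * s ^ 3 = s := by
      calc lam * s ^ 3 = (lam * s ^ 2) * s := by ring
        _ = s := by rw [hls, one_mul]
    have h4 : lam * (((s ^ 3) + s ^ 3) / 3) = 2 * (lam * s ^ 3) / 3 := by ring
    nlinarith [h3]
  have h2 : ∫ t in (-s)..s, (1 - lam * t ^ 2) ≤ ∫ t in (-s)..s, Real.exp (-lam * t ^ 2) := by
    apply intervalIntegral.integral_mono_on (by linarith)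
    · exact (by fun_prop : Continuous fun t : ℝ => 1 - lam * t ^ 2).intervalIntegrable _ _
    · exact (by fun_prop : Continuous fun t : ℝ => Real.exp (-lam * t ^ 2)).intervalIntegrable _ _
    · intro x _
      have := Real.add_one_le_exp (-lam * x ^ 2)
      linarith
  have h3 : ∫ t in (-s)..s, Real.exp (-lam * t ^ 2) ≤ ∫ t in (-1 : ℝ)..1,
      Real.exp (-lam * t ^ 2) := by
    apply intervalIntegral.integral_mono_interval (by linarith) (by linarith) hs1
    · exact Filter.Eventually.of_forall fun x => (Real.exp_pos _).le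
    · exact (by fun_prop : Continuous fun t : ℝ => Real.exp (-lam * t ^ 2)).intervalIntegrable _ _
  linarith

/-- Gaussian upper bound -/
lemma gauss_upper {b : ℝ} (hb : 0 < b) :
    ∫ t in (-1 : ℝ)..1, Real.exp (-b * t ^ 2) ≤ Real.sqrt (Real.pi / b) := by
  rw [← integral_gaussian b, intervalIntegral.integral_of_le (by norm_num)]
  apply setIntegral_le_integral (integrable_exp_neg_mul_sq hb)
  exact Filter.Eventually.of_forall fun x => (Real.exp_pos _).le

lemma exp_sub_one_le (z : ℂ) : ‖Complex.exp z - 1‖ ≤ ‖z‖ * Real.exp ‖z‖ := by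
  have := Complex.norm_exp_sub_sum_le_norm_mul_exp z 1
  simpa using this

/-- comparison with a Gaussian -/
lemma exp_gauss {x : ℝ} (hx : 0 ≤ x) {u : ℂ} (hu : ‖u + x‖ ≤ 0.134 * x) :
    ‖Complex.exp u - (Real.exp (-x) : ℝ)‖ ≤ 0.367 * Real.exp (-(x / 2)) := by
  have h1 : Complex.exp u - (Real.exp (-x) : ℝ) =
      (Real.exp (-x) : ℝ) * (Complex.exp (u + x) - 1) := by
    rw [mul_sub, mul_one, Complex.ofReal_exp, ← Complex.exp_add]
    congr 2
    push_cast; ring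
  rw [h1, norm_mul, Complex.norm_real, Real.norm_of_nonneg (Real.exp_pos _).le]
  have h2 := exp_sub_one_le (u + x)
  have h3 : ‖u + x‖ * Real.exp ‖u + x‖ ≤ 0.134 * x * Real.exp (0.134 * x) := by gcongr
  have h4 : x ≤ Real.exp (0.366 * x) / 0.366 := by
    have := Real.add_one_le_exp (0.366 * x)
    rw [le_div_iff₀ (by norm_num)]; linarith
  calc Real.exp (-x) * ‖Complex.exp (u + x) - 1‖
      ≤ Real.exp (-x) * (0.134 * x * Real.exp (0.134 * x)) := by
        gcongr; exact h2.trans h3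
    _ ≤ Real.exp (-x) * (0.134 * (Real.exp (0.366 * x) / 0.366) * Real.exp (0.134 * x)) := by
        gcongr
    _ = 0.134 / 0.366 * (Real.exp (-x) * Real.exp (0.366 * x) * Real.exp (0.134 * x)) := by ring
    _ = 0.134 / 0.366 * Real.exp (-(x / 2)) := by
        rw [← Real.exp_add, ← Real.exp_add]; congr 2; ring
    _ ≤ _ := by
        have := Real.exp_pos (-(x / 2))
        nlinarith

namespace Dat

lemma norm_p_ge {p : ℂ} (hp : ‖p + 16‖ ≤ 1 / 10 ^ 6) : 15.999999 ≤ ‖p‖ := by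
  have : ‖(16 : ℂ)‖ ≤ ‖p + 16‖ + ‖p‖ := by
    calc ‖(16 : ℂ)‖ = ‖(p + 16) - p‖ := by ring_nf
      _ ≤ _ := norm_sub_le _ _
  have h16 : ‖(16 : ℂ)‖ = 16 := by simp
  rw [h16] at this
  linarith

lemma norm_p_le {p : ℂ} (hp : ‖p + 16‖ ≤ 1 / 10 ^ 6) : ‖p‖ ≤ 16.000001 := by
  have : ‖p‖ ≤ ‖p + 16‖ + ‖(16 : ℂ)‖ := by
    calc ‖p‖ = ‖(p + 16) - 16‖ := by ring_nf
      _ ≤ _ := norm_sub_le _ _
  have h16 : ‖(16 : ℂ)‖ = 16 := by simp
  rw [h16] at this
  linarith

lemma hh_deriv (D : Dat n k C E e f) {p : ℂ} (hp : ‖p + 16‖ ≤ 1 / 10 ^ 6) {t : ℝ}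
    (ht : |t| ≤ 1) :
    HasDerivAt (hh n k E p) (e (p + t) + n + k / (p + t)) t := by
  have hp1 := norm_p_ge hp
  have hp2 := norm_p_le hp
  have hp0 : p ≠ 0 := by intro h; rw [h, norm_zero] at hp1; linarith
  have htn : ‖(t : ℂ)‖ ≤ 1 := by rw [Complex.norm_real]; exact ht
  have hpt : ‖p + t‖ ≤ 1000 := (norm_add_le _ _).trans (by linarith)
  have hpt0 : p + t ≠ 0 := by
    intro h
    have : p = -(t : ℂ) := by linear_combination h
    rw [this, norm_neg] at hp1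
    linarith
  have h1 : HasDerivAt (fun t : ℝ => p + (t : ℂ)) 1 t :=
    (Complex.ofRealCLM.hasDerivAt (x := t)).const_add p
  have h2 : HasDerivAt (fun t : ℝ => E (p + t)) (e (p + t)) t := by
    have := (D.hE _ (mem_big hpt)).comp_of_eq t h1 rfl
    rw [mul_one] at this
    exact this
  have h3 : HasDerivAt (fun t : ℝ => 1 + (t : ℂ) / p) (1 / p) t :=
    ((Complex.ofRealCLM.hasDerivAt (x := t)).div_const p).const_add 1
  have h4 : 1 + (t : ℂ) / p ∈ slitPlane := by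
    have : ‖(t : ℂ) / p‖ < 1 := by
      rw [norm_div, div_lt_one (by linarith)]; linarith
    exact Complex.mem_slitPlane_of_norm_lt_one this
  have h5 := h3.clog_real h4
  have h6 : HasDerivAt (fun t : ℝ => (n : ℂ) * t) ((n : ℂ) * 1) t :=
    (Complex.ofRealCLM.hasDerivAt (x := t)).const_mul _
  have h7 := ((h2.sub_const (E p)).add h6).add (h5.const_mul (k : ℂ))
  refine h7.congr_deriv ?_
  have h8 : (1 : ℂ) + t / p ≠ 0 := slitPlane_ne_zero h4
  have h9 : 1 / p / (1 + t / p) = 1 / (p + t) := by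
    field_simp
  rw [h9]; ring

lemma hh_zero (p : ℂ) : hh n k E p 0 = 0 := by simp [hh]

lemma hh_bound (D : Dat n k C E e f) {p : ℂ} (hp : ‖p + 16‖ ≤ 1 / 10 ^ 6)
    (hsad : p * (n + e p) = -k) {t : ℝ} (ht : |t| ≤ 1) :
    ‖hh n k E p t + (n / 32 * t ^ 2 : ℝ)‖ ≤ 0.134 * (n / 32 * t ^ 2) := by
  have hn := D.n_pos
  have hp1 := norm_p_ge hp
  have hp2 := norm_p_le hp
  have hp0 : p ≠ 0 := by intro h; rw [h, norm_zero] at hp1; linarith
  have hne : (n : ℂ) + e p = -k / p := by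
    rw [eq_div_iff hp0, mul_comm]; exact hsad
  -- derivative bound
  have hder : ∀ s : ℝ, |s| ≤ |t| → ‖(e (p + s) + n + k / (p + s)) + (n / 16 * s : ℝ)‖ ≤
      0.134 * (n / 32) * |t| := by
    intro s hs
    have hs1 : |s| ≤ 1 := hs.trans ht
    have hsn : ‖(s : ℂ)‖ = |s| := by rw [Complex.norm_real]; rfl
    have hps : ‖p + s‖ ≤ 100 := (norm_add_le _ _).trans (by linarith)
    have hps2 : 14.999999 ≤ ‖p + s‖ := by
      have : ‖p‖ ≤ ‖p + s‖ + ‖(s : ℂ)‖ := by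
        calc ‖p‖ = ‖(p + s) - s‖ := by ring_nf
          _ ≤ _ := norm_sub_le _ _
      linarith
    have hps0 : p + s ≠ 0 := by intro h; rw [h, norm_zero] at hps2; linarith
    have h1 : (e (p + s) + n + k / (p + s)) + (n / 16 * s : ℝ) =
        (e (p + s) - e p) + s * ((n * (-16 * s + (p + 16) * (p - 16 + s)) -
          16 * ((k : ℂ) - 16 * n)) / (16 * p * (p + s))) := by
      have : e (p + s) + n + k / (p + s) = (e (p + s) - e p) + (n + e p) + k / (p + s) := by ring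
      rw [this, hne]
      push_cast
      field_simp
      ring
    rw [h1]
    have h2 : ‖e (p + s) - e p‖ ≤ n / 10 ^ 8 * |s| := by
      have := D.e_lip hps (hp2.trans (by norm_num) : ‖p‖ ≤ 100)
      rwa [add_sub_cancel_left, hsn] at this
    have h3 : ‖(n * (-16 * s + (p + 16) * (p - 16 + s)) - 16 * ((k : ℂ) - 16 * n)) /
        (16 * p * (p + s))‖ ≤ 16.001 * n / (16 * 15.999999 * 14.999999) := by
      rw [norm_div]
      have h4 : ‖(n * (-16 * s + (p + 16) * (p - 16 + s)) - 16 * ((k : ℂ) - 16 * n))‖ ≤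
          16.001 * n := by
        have h5 : ‖(n : ℂ)‖ = n := by rw [Complex.norm_real, Real.norm_of_nonneg hn.le]
        have h6 : ‖((k : ℂ) - 16 * n)‖ ≤ n / 10 ^ 8 := by
          have : ((k : ℂ) - 16 * n) = (((k : ℝ) - 16 * n : ℝ) : ℂ) := by push_cast; ring
          rw [this, Complex.norm_real]
          exact D.hk
        have h7 : ‖p - 16 + s‖ ≤ 34 := by
          have : ‖p - 16 + s‖ ≤ ‖p‖ + ‖(16 : ℂ)‖ + ‖(s : ℂ)‖ :=
            (norm_add_le _ _).trans (by gcongr; exact norm_sub_le _ _)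
          have h16 : ‖(16 : ℂ)‖ = 16 := by simp
          rw [h16] at this
          linarith
        calc _ ≤ ‖n * (-16 * s + (p + 16) * (p - 16 + s))‖ + ‖16 * ((k : ℂ) - 16 * n)‖ :=
              norm_sub_le _ _
          _ ≤ n * (16 * 1 + 1 / 10 ^ 6 * 34) + 16 * (n / 10 ^ 8) := by
              rw [norm_mul, norm_mul, h5]
              have h8 : ‖-16 * (s : ℂ) + (p + 16) * (p - 16 + s)‖ ≤ 16 * 1 + 1 / 10 ^ 6 * 34 := by
                refine (norm_add_le _ _).trans ?_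
                rw [norm_mul, norm_mul, hsn]
                have : ‖(-16 : ℂ)‖ = 16 := by simp
                rw [this]
                gcongr
              have h16 : ‖(16 : ℂ)‖ = 16 := by simp
              rw [h16]
              gcongr
          _ ≤ _ := by linarith
      have h9 : 16 * 15.999999 * 14.999999 ≤ ‖16 * p * (p + s)‖ := by
        rw [norm_mul, norm_mul]
        have h16 : ‖(16 : ℂ)‖ = 16 := by simp
        rw [h16]
        gcongr
      gcongr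
    refine (norm_add_le _ _).trans ?_
    rw [norm_mul, hsn]
    have h10 : |s| * ‖(n * (-16 * s + (p + 16) * (p - 16 + s)) - 16 * ((k : ℂ) - 16 * n)) /
        (16 * p * (p + s))‖ ≤ |t| * (16.001 * n / (16 * 15.999999 * 14.999999)) := by gcongr
    have h11 : n / 10 ^ 8 * |s| ≤ n / 10 ^ 8 * |t| := by gcongr
    have h12 : 0 ≤ n * |t| := by positivity
    have h13 : |t| * (16.001 * n / (16 * 15.999999 * 14.999999)) =
      16.001 / (16 * 15.999999 * 14.999999) * (n * |t|) := by ring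
    have h14 : (16.001 : ℝ) / (16 * 15.999999 * 14.999999) ≤ 0.00417 := by norm_num
    nlinarith
  have hmv := (convex_uIcc (0 : ℝ) t).norm_image_sub_le_of_norm_hasDerivWithin_le
    (f := fun s : ℝ => hh n k E p s + (n / 32 * s ^ 2 : ℝ))
    (f' := fun s : ℝ => (e (p + s) + n + k / (p + s)) + (n / 16 * s : ℝ))
    (C := 0.134 * (n / 32) * |t|) (x := 0) (y := t) ?_ ?_ (by simp) (by simp)
  · simp only [hh_zero] at hmv
    have h1 : ((0 : ℂ) + ((n / 32 * (0 : ℝ) ^ 2 : ℝ) : ℂ)) = 0 := by simp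
    rw [h1, sub_zero, sub_zero] at hmv
    refine hmv.trans (le_of_eq ?_)
    rw [Real.norm_eq_abs, mul_assoc, abs_mul_abs_self]
    ring
  · intro s hs
    have hs' : |s| ≤ |t| := by
      have := Set.abs_sub_left_of_mem_uIcc hs
      simpa using this
    have h1 := D.hh_deriv hp (hs'.trans ht)
    have h2 : HasDerivAt (fun s : ℝ => (((n / 32 * s ^ 2 : ℝ)) : ℂ)) ((n / 16 * s : ℝ) : ℂ) s := by
      apply HasDerivAt.ofReal_comp
      have := (hasDerivAt_pow 2 s).const_mul (n / 32)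
      refine this.congr_deriv ?_
      norm_num; ring
    exact (h1.add h2).hasDerivWithinAt
  · intro s hs
    apply hder
    have := Set.abs_sub_left_of_mem_uIcc hs
    simpa using this

/-- the contribution of the peak -/
lemma peak (D : Dat n k C E e f) {p : ℂ} (hp : ‖p + 16‖ ≤ 1 / 10 ^ 6)
    (hsad : p * (n + e p) = -k) :
    2 / Real.sqrt n * ‖gg n k C E p‖ ≤ ‖f (p + 1) - f (p - 1)‖ := by
  have hn := D.n_pos
  have hn8 := D.hn
  have hp1 := norm_p_ge hp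
  have hp2 := norm_p_le hp
  have hp0 : p ≠ 0 := by intro h; rw [h, norm_zero] at hp1; linarith
  have habs : ∀ t ∈ Set.Icc (-1 : ℝ) 1, |t| ≤ 1 := fun t ht => abs_le.2 ⟨ht.1, ht.2⟩
  have hpt : ∀ t ∈ Set.Icc (-1 : ℝ) 1, ‖p + (t : ℂ)‖ ≤ 1000 := by
    intro t ht
    have : ‖(t : ℂ)‖ ≤ 1 := by rw [Complex.norm_real]; exact habs t ht
    exact (norm_add_le _ _).trans (by linarith)
  -- `gg (p+t) = gg p * exp (hh t)`
  have hgg : ∀ t ∈ Set.Icc (-1 : ℝ) 1, gg n k C E (p + t) =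
      gg n k C E p * Complex.exp (hh n k E p t) := by
    intro t ht
    have htn : ‖(t : ℂ)‖ ≤ 1 := by rw [Complex.norm_real]; exact habs t ht
    have h4 : 1 + (t : ℂ) / p ≠ 0 := by
      have : ‖(t : ℂ) / p‖ < 1 := by
        rw [norm_div, div_lt_one (by linarith)]; linarith
      exact slitPlane_ne_zero (Complex.mem_slitPlane_of_norm_lt_one this)
    unfold gg hh
    rw [Complex.exp_add (E (p + t) - E p + n * t), Complex.exp_nat_mul, Complex.exp_log h4]
    have h5 : (p + t) ^ k = p ^ k * (1 + t / p) ^ k := by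
      rw [← mul_pow]; congr 1; field_simp
    rw [h5]
    have h6 : Complex.exp (n * (p + t) + E (p + t)) = Complex.exp (n * p + E p) *
        Complex.exp (E (p + t) - E p + n * t) := by
      rw [← Complex.exp_add]; congr 1; ring
    rw [h6]; ring
  -- fundamental theorem of calculus
  have hftc : f (p + 1) - f (p - 1) = ∫ t in (-1 : ℝ)..1, gg n k C E (p + t) := by
    have h1 : ∀ t ∈ Set.uIcc (-1 : ℝ) 1, HasDerivAt (fun t : ℝ => f (p + t))
        (gg n k C E (p + t)) t := by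
      intro t ht
      rw [Set.uIcc_of_le (by norm_num)] at ht
      have h2 : HasDerivAt (fun t : ℝ => p + (t : ℂ)) 1 t :=
        (Complex.ofRealCLM.hasDerivAt (x := t)).const_add p
      have := (D.hf _ (mem_big (hpt t ht))).comp_of_eq t h2 rfl
      rw [mul_one] at this
      exact this
    have h3 : ContinuousOn (fun t : ℝ => gg n k C E (p + t)) (Set.uIcc (-1 : ℝ) 1) := by
      intro t ht
      rw [Set.uIcc_of_le (by norm_num)] at ht
      have h4 : ContinuousAt (gg n k C E) (p + t) := by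
        have := (D.hE _ (mem_big (hpt t ht))).continuousAt
        unfold gg
        fun_prop
      have h5 : ContinuousAt (fun t : ℝ => p + (t : ℂ)) t := by fun_prop
      exact (ContinuousAt.comp_of_eq h4 h5 rfl).continuousWithinAt
    rw [intervalIntegral.integral_eq_sub_of_hasDerivAt h1 h3.intervalIntegrable]
    push_cast
    ring_nf
  have hint : ∫ t in (-1 : ℝ)..1, gg n k C E (p + t) =
      gg n k C E p * ∫ t in (-1 : ℝ)..1, Complex.exp (hh n k E p t) := by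
    rw [← intervalIntegral.integral_const_mul]
    apply intervalIntegral.integral_congr
    intro t ht
    rw [Set.uIcc_of_le (by norm_num)] at ht
    exact hgg t ht
  set lam : ℝ := n / 32 with hlam
  have hlam0 : 0 < lam := by positivity
  -- continuity of exp hh
  have hhc : ContinuousOn (fun t : ℝ => Complex.exp (hh n k E p t)) (Set.uIcc (-1 : ℝ) 1) := by
    intro t ht
    rw [Set.uIcc_of_le (by norm_num)] at ht
    exact ((D.hh_deriv hp (habs t ht)).continuousAt.cexp).continuousWithinAt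
  have hgc : Continuous (fun t : ℝ => ((Real.exp (-lam * t ^ 2) : ℝ) : ℂ)) := by fun_prop
  have hsplit : ∫ t in (-1 : ℝ)..1, Complex.exp (hh n k E p t) =
      (∫ t in (-1 : ℝ)..1, ((Real.exp (-lam * t ^ 2) : ℝ) : ℂ)) +
      ∫ t in (-1 : ℝ)..1, (Complex.exp (hh n k E p t) - ((Real.exp (-lam * t ^ 2) : ℝ) : ℂ)) := by
    rw [intervalIntegral.integral_sub hhc.intervalIntegrable (hgc.intervalIntegrable _ _)]
    ring
  have herr : ‖∫ t in (-1 : ℝ)..1, (Complex.exp (hh n k E p t) -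
      ((Real.exp (-lam * t ^ 2) : ℝ) : ℂ))‖ ≤ 0.367 * Real.sqrt (Real.pi / (lam / 2)) := by
    have h1 : ‖∫ t in (-1 : ℝ)..1, (Complex.exp (hh n k E p t) -
      ((Real.exp (-lam * t ^ 2) : ℝ) : ℂ))‖ ≤ ∫ t in (-1 : ℝ)..1,
        0.367 * Real.exp (-(lam / 2) * t ^ 2) := by
      apply intervalIntegral.norm_integral_le_of_norm_le (by norm_num)
      · refine Filter.Eventually.of_forall fun t ht => ?_
        have ht' : |t| ≤ 1 := abs_le.2 ⟨ht.1.le, ht.2⟩
        have h2 := D.hh_bound hp hsad ht'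
        have h3 := exp_gauss (x := n / 32 * t ^ 2) (by positivity) h2
        rw [show -lam * t ^ 2 = -(n / 32 * t ^ 2) by rw [hlam]; ring,
          show -(lam / 2) * t ^ 2 = -(n / 32 * t ^ 2 / 2) by rw [hlam]; ring]
        exact h3
      · exact (by fun_prop : Continuous fun t : ℝ =>
          0.367 * Real.exp (-(lam / 2) * t ^ 2)).intervalIntegrable _ _
    rw [intervalIntegral.integral_const_mul] at h1
    have h2 := gauss_upper (b := lam / 2) (by positivity)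
    linarith
  have hmain : 4 / 3 / Real.sqrt lam ≤ ‖∫ t in (-1 : ℝ)..1,
      ((Real.exp (-lam * t ^ 2) : ℝ) : ℂ)‖ := by
    rw [intervalIntegral.integral_ofReal, Complex.norm_real]
    exact (gauss_lower (by rw [hlam]; linarith)).trans (le_abs_self _)
  have hsq : Real.sqrt (Real.pi / (lam / 2)) ≤ 2.51 / Real.sqrt lam := by
    rw [show Real.pi / (lam / 2) = (2 * Real.pi) / lam by field_simp,
      Real.sqrt_div (by positivity)]
    gcongr
    rw [show (2.51 : ℝ) = Real.sqrt (2.51 ^ 2) by rw [Real.sqrt_sq]; norm_num]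
    apply Real.sqrt_le_sqrt
    have := Real.pi_lt_d2
    linarith
  have hsl : 5.6 / Real.sqrt n ≤ 1 / Real.sqrt lam := by
    rw [hlam, Real.sqrt_div hn.le, one_div_div]
    gcongr
    rw [show (5.6 : ℝ) = Real.sqrt (5.6 ^ 2) by rw [Real.sqrt_sq]; norm_num]
    apply Real.sqrt_le_sqrt
    norm_num
  have htot : 2 / Real.sqrt n ≤ ‖∫ t in (-1 : ℝ)..1, Complex.exp (hh n k E p t)‖ := by
    rw [hsplit]
    set A := ∫ t in (-1 : ℝ)..1, ((Real.exp (-lam * t ^ 2) : ℝ) : ℂ) with hA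
    set B := ∫ t in (-1 : ℝ)..1, (Complex.exp (hh n k E p t) -
      ((Real.exp (-lam * t ^ 2) : ℝ) : ℂ)) with hB
    have h1 : ‖A‖ ≤ ‖A + B‖ + ‖B‖ := by
      calc ‖A‖ = ‖(A + B) - B‖ := by ring_nf
        _ ≤ _ := norm_sub_le _ _
    have h2 : 4 / 3 / Real.sqrt lam = 4 / 3 * (1 / Real.sqrt lam) := by ring
    have h3 : 2.51 / Real.sqrt lam = 2.51 * (1 / Real.sqrt lam) := by ring
    rw [h2] at hmain
    rw [h3] at hsq
    have h4 : 2 / Real.sqrt n = 2 * (1 / Real.sqrt n) := by ring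
    have h5 : 5.6 / Real.sqrt n = 5.6 * (1 / Real.sqrt n) := by ring
    rw [h4]
    rw [h5] at hsl
    have h6 : 0 < 1 / Real.sqrt n := by positivity
    nlinarith
  rw [hftc, hint, norm_mul, mul_comm]
  gcongr

end Dat

namespace Dat

lemma seg0 (D : Dat n k C E e f) {p : ℂ} (hp : ‖p + 16‖ ≤ 1 / 10 ^ 6) {τ : ℝ} (h0 : 0 ≤ τ)
    (h1 : τ ≤ 1) : ‖gg n k C E (τ * (p + 1))‖ ≤ ‖gg n k C E p‖ * Real.exp (-(0.02 * n)) := by
  have hn := D.n_pos
  have hk1 := D.k_le
  have hk2 := D.k_ge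
  have hp1 := norm_p_ge hp
  have hp2 := norm_p_le hp
  have hre := Complex.abs_re_le_norm (p + 16)
  have hre2 := abs_le.1 (hre.trans hp)
  have hre3 : (p + 16).re = p.re + 16 := by simp
  rw [hre3] at hre2
  have hpp : ‖p + 1‖ ≤ 15.000001 := by
    calc ‖p + 1‖ = ‖(p + 16) - 15‖ := by ring_nf
      _ ≤ ‖p + 16‖ + ‖(15 : ℂ)‖ := norm_sub_le _ _
      _ ≤ 1 / 10 ^ 6 + 15 := by gcongr; simp
      _ ≤ _ := by norm_num
  have hτn : ‖(τ : ℂ)‖ = τ := by rw [Complex.norm_real, Real.norm_of_nonneg h0]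
  have hz : ‖(τ : ℂ) * (p + 1)‖ ≤ 15.000001 := by
    rw [norm_mul, hτn]
    calc τ * ‖p + 1‖ ≤ 1 * ‖p + 1‖ := by gcongr
      _ ≤ _ := by rw [one_mul]; exact hpp
  have hexp : (0.9377 : ℝ) ≤ Real.exp (-0.064) := by
    have h2 : (0.992 : ℝ) ≤ Real.exp (-0.008) := by
      have := Real.add_one_le_exp (-0.008 : ℝ)
      linarith
    calc (0.9377 : ℝ) ≤ 0.992 ^ 8 := by norm_num
      _ ≤ (Real.exp (-0.008)) ^ 8 := by gcongr
      _ = Real.exp (-0.064) := by rw [← Real.exp_nat_mul]; norm_num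
  have hσ : ‖(τ : ℂ) * (p + 1)‖ ≤ Real.exp ((τ - 1) - 0.064) * ‖p‖ := by
    rw [norm_mul, hτn, show (τ - 1) - 0.064 = (τ - 1) + (-0.064) by ring, Real.exp_add]
    have h2 : τ ≤ Real.exp (τ - 1) := by
      have := Real.add_one_le_exp (τ - 1)
      linarith
    have h3 : ‖p + 1‖ ≤ Real.exp (-0.064) * ‖p‖ := by
      calc ‖p + 1‖ ≤ 15.000001 := hpp
        _ ≤ 0.9377 * 15.999999 := by norm_num
        _ ≤ _ := by gcongr
    calc τ * ‖p + 1‖ ≤ Real.exp (τ - 1) * (Real.exp (-0.064) * ‖p‖) := by gcongr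
      _ = _ := by ring
  refine (D.gg_le (mem_big (hz.trans (by norm_num))) (mem_big (hp2.trans (by norm_num)))
    hσ).trans ?_
  gcongr
  have hd : ‖(τ : ℂ) * (p + 1) - p‖ ≤ 32 := by
    refine (norm_sub_le _ _).trans ?_
    linarith
  have hr : ((τ : ℂ) * (p + 1) - p).re = (τ - 1) * (p.re + 1) + 1 := by
    simp; ring
  rw [hr]
  have h5 : (τ - 1) * ((k : ℝ) + n * (p.re + 1)) ≤ 0 := by
    apply mul_nonpos_of_nonpos_of_nonneg (by linarith)
    nlinarith
  have h6 : n / 10 ^ 8 * ‖(τ : ℂ) * (p + 1) - p‖ ≤ n / 10 ^ 8 * 32 := by gcongr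
  nlinarith

lemma seg1 (D : Dat n k C E e f) {p : ℂ} (hp : ‖p + 16‖ ≤ 1 / 10 ^ 6) {τ : ℝ} (h0 : 0 ≤ τ)
    (h1 : τ ≤ 1) (hin : (p - 1) + τ * (-(3 * LL : ℝ) - (p - 1)) ∈ ball (0 : ℂ) (4 * LL)) :
    ‖gg n k C E ((p - 1) + τ * (-(3 * LL : ℝ) - (p - 1)))‖ ≤
      ‖gg n k C E p‖ * Real.exp (-(n * (0.02 + 0.04 * τ * ‖(-(3 * LL : ℝ) - (p - 1) : ℂ)‖))) := by
  have hn := D.n_pos
  have hk1 := D.k_le
  have hk2 := D.k_ge
  have hp1 := norm_p_ge hp
  have hp2 := norm_p_le hp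
  have hre2 := abs_le.1 ((Complex.abs_re_le_norm (p + 16)).trans hp)
  have hre3 : (p + 16).re = p.re + 16 := by simp
  rw [hre3] at hre2
  have him2 := ((Complex.abs_im_le_norm (p + 16)).trans hp)
  have him3 : (p + 16).im = p.im := by simp
  rw [him3] at him2
  have hpp : ‖p - 1‖ ≤ 17.000001 := by
    calc ‖p - 1‖ = ‖(p + 16) - 17‖ := by ring_nf
      _ ≤ ‖p + 16‖ + ‖(17 : ℂ)‖ := norm_sub_le _ _
      _ ≤ 1 / 10 ^ 6 + 17 := by gcongr; simp
      _ ≤ _ := by norm_num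
  have hpp2 : 16.999999 ≤ ‖p - 1‖ := by
    have h2 : ‖(17 : ℂ)‖ ≤ ‖p + 16‖ + ‖p - 1‖ := by
      calc ‖(17 : ℂ)‖ = ‖(p + 16) - (p - 1)‖ := by ring_nf
        _ ≤ _ := norm_sub_le _ _
    have h17 : ‖(17 : ℂ)‖ = 17 := by simp
    rw [h17] at h2
    linarith
  have hτn : ‖(τ : ℂ)‖ = τ := by rw [Complex.norm_real, Real.norm_of_nonneg h0]
  set w : ℂ := -(3 * LL : ℝ) - (p - 1) with hw
  have hwre : w.re = -(3 * LL) - (p.re - 1) := by rw [hw]; simp
  have hwim : w.im = -p.im := by rw [hw]; simp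
  have hwn : w.re ≤ -‖w‖ + 1 / 10 ^ 6 := by
    have h2 := Complex.norm_le_abs_re_add_abs_im w
    rw [hwim, abs_neg] at h2
    have h3 : |w.re| = -w.re := by
      apply abs_of_nonpos
      rw [hwre, LL_val]; linarith
    rw [h3] at h2
    linarith
  have hσ : ‖(p - 1) + τ * w‖ ≤ Real.exp (0.061 + τ * ‖w‖ / ‖p - 1‖) * ‖p‖ := by
    have h2 : ‖(p - 1) + τ * w‖ ≤ ‖p - 1‖ * Real.exp (τ * ‖w‖ / ‖p - 1‖) := by
      have h3 : ‖(p - 1) + τ * w‖ ≤ ‖p - 1‖ + τ * ‖w‖ := by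
        refine (norm_add_le _ _).trans ?_
        rw [norm_mul, hτn]
      have h4 : ‖p - 1‖ + τ * ‖w‖ = ‖p - 1‖ * (τ * ‖w‖ / ‖p - 1‖ + 1) := by
        field_simp; ring
      rw [h4] at h3
      refine h3.trans ?_
      gcongr
      exact Real.add_one_le_exp _
    have h5 : ‖p - 1‖ ≤ Real.exp 0.061 * ‖p‖ := by
      have h6 := Real.quadratic_le_exp_of_nonneg (x := 0.061) (by norm_num)
      calc ‖p - 1‖ ≤ 17.000001 := hpp
        _ ≤ (1 + 0.061 + 0.061 ^ 2 / 2) * 15.999999 := by norm_num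
        _ ≤ _ := by gcongr
    calc ‖(p - 1) + τ * w‖ ≤ ‖p - 1‖ * Real.exp (τ * ‖w‖ / ‖p - 1‖) := h2
      _ ≤ (Real.exp 0.061 * ‖p‖) * Real.exp (τ * ‖w‖ / ‖p - 1‖) := by gcongr
      _ = _ := by rw [Real.exp_add]; ring
  refine (D.gg_le hin (mem_big (hp2.trans (by norm_num))) hσ).trans ?_
  gcongr
  have hd : ‖(p - 1) + τ * w - p‖ ≤ 1 + τ * ‖w‖ := by
    calc ‖(p - 1) + τ * w - p‖ = ‖τ * w - 1‖ := by ring_nf
      _ ≤ ‖τ * w‖ + ‖(1 : ℂ)‖ := norm_sub_le _ _
      _ = _ := by rw [norm_mul, hτn]; simp; ring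
  have hr : ((p - 1) + τ * w - p).re = -1 + τ * w.re := by
    simp; ring
  rw [hr]
  have h6 : n / 10 ^ 8 * ‖(p - 1) + τ * w - p‖ ≤ n / 10 ^ 8 * (1 + τ * ‖w‖) := by gcongr
  have h7 : (k : ℝ) * (τ * ‖w‖ / ‖p - 1‖) ≤ 0.95 * (n * (τ * ‖w‖)) := by
    have h8 : (k : ℝ) * (τ * ‖w‖ / ‖p - 1‖) = (k : ℝ) / ‖p - 1‖ * (τ * ‖w‖) := by ring
    have h9 : (k : ℝ) / ‖p - 1‖ ≤ 0.95 * n := by
      rw [div_le_iff₀ (by linarith)]
      nlinarith
    rw [h8]
    calc (k : ℝ) / ‖p - 1‖ * (τ * ‖w‖) ≤ 0.95 * n * (τ * ‖w‖) := by gcongr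
      _ = _ := by ring
  have h10 : n * (τ * w.re) ≤ n * (τ * (-‖w‖ + 1 / 10 ^ 6)) := by gcongr
  have h11 : n * τ ≤ n := by nlinarith
  have h12 : 0 ≤ n * (τ * ‖w‖) := by positivity
  nlinarith

lemma near0 (D : Dat n k C E e f) {p : ℂ} (hp : ‖p + 16‖ ≤ 1 / 10 ^ 6) {z : ℂ}
    (hz : ‖z‖ ≤ 6 / 5) :
    ‖gg n k C E z‖ ≤ ‖gg n k C E p‖ * Real.exp (-(10 * n)) := by
  have hn := D.n_pos
  have hk1 := D.k_le
  have hk2 := D.k_ge
  have hp1 := norm_p_ge hp
  have hp2 := norm_p_le hp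
  have hσ : ‖z‖ ≤ Real.exp (-2) * ‖p‖ := by
    have h1 : (0.1 : ℝ) ≤ Real.exp (-2) := by
      rw [Real.exp_neg, ← one_div, le_div_iff₀ (Real.exp_pos _)]
      have h2 : Real.exp 2 = Real.exp 1 ^ 2 := by rw [← Real.exp_nat_mul]; norm_num
      have h3 := Real.exp_one_lt_d9
      have h4 := Real.exp_pos 1
      rw [h2]
      nlinarith
    calc ‖z‖ ≤ 6 / 5 := hz
      _ ≤ 0.1 * 15.999999 := by norm_num
      _ ≤ _ := by gcongr
  refine (D.gg_le (mem_big (hz.trans (by norm_num))) (mem_big (hp2.trans (by norm_num)))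
    hσ).trans ?_
  gcongr
  have h1 : (z - p).re ≤ ‖z - p‖ := Complex.re_le_norm _
  have h2 : ‖z - p‖ ≤ 18 := (norm_sub_le _ _).trans (by linarith)
  have h3 : n / 10 ^ 8 * ‖z - p‖ ≤ n / 10 ^ 8 * 18 := by gcongr
  have h4 : n * (z - p).re ≤ n * 18 := by gcongr; linarith
  nlinarith

/-- numerics -/
lemma small (hn8 : 10 ^ 8 ≤ n) : 10 ^ 13 * Real.exp (-(0.02 * n)) ≤ 0.1 * (1 / Real.sqrt n) := by
  have hn : 0 < n := by linarith
  set r := Real.sqrt n with hr
  have hr2 : r ^ 2 = n := Real.sq_sqrt hn.le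
  have hr4 : 10 ^ 4 ≤ r := by
    rw [show (10 : ℝ) ^ 4 = Real.sqrt (10 ^ 8) by
      rw [show (10 : ℝ) ^ 8 = (10 ^ 4) ^ 2 by norm_num, Real.sqrt_sq (by norm_num)]]
    exact Real.sqrt_le_sqrt hn8
  have hr0 : 0 < r := by linarith
  have h1 := Real.pow_div_factorial_le_exp (0.02 * n) (by positivity) 3
  have h2 : (0.02 * n) ^ 3 / (Nat.factorial 3 : ℕ) = 0.02 ^ 3 / 6 * r ^ 6 := by
    rw [← hr2]
    have : ((Nat.factorial 3 : ℕ) : ℝ) = 6 := by norm_num [Nat.factorial]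
    rw [this]; ring
  rw [h2] at h1
  rw [Real.exp_neg]
  have h3 : (10 : ℝ) ^ 20 ≤ r ^ 5 := by
    calc (10 : ℝ) ^ 20 = (10 ^ 4) ^ 5 := by norm_num
      _ ≤ r ^ 5 := by gcongr
  have h4 : 10 ^ 14 * r ≤ Real.exp (0.02 * n) := by
    calc 10 ^ 14 * r ≤ 0.02 ^ 3 / 6 * 10 ^ 20 * r := by
          gcongr; norm_num
      _ ≤ 0.02 ^ 3 / 6 * r ^ 5 * r := by gcongr
      _ = 0.02 ^ 3 / 6 * r ^ 6 := by ring
      _ ≤ _ := h1
  have h5 : (Real.exp (0.02 * n))⁻¹ ≤ (10 ^ 14 * r)⁻¹ := by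
    apply inv_anti₀ (by positivity) h4
  calc 10 ^ 13 * (Real.exp (0.02 * n))⁻¹ ≤ 10 ^ 13 * (10 ^ 14 * r)⁻¹ := by gcongr
    _ = _ := by field_simp; norm_num

/-- the core estimate -/
lemma core (D : Dat n k C E e f)
    (hex : ‖f (-(3 * LL : ℝ))‖ ≤ Real.exp (n / 10 ^ 8) * ‖gg n k C E (-(3 * LL : ℝ))‖) :
    ∀ z : ℂ, ‖z‖ ≤ 6 / 5 → ‖gg n k C E (-(3 * LL : ℝ))‖ ≤ ‖f z‖ ∧
      ∀ z' : ℂ, ‖z'‖ ≤ 6 / 5 → Real.exp (n / 10 ^ 8) * ‖gg n k C E z'‖ ≤ ‖f z‖ := by
  obtain ⟨p, hp, hsad⟩ := D.saddle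
  have hn := D.n_pos
  have hn8 := D.hn
  have hp1 := norm_p_ge hp
  have hp2 := norm_p_le hp
  have hbig0 : (0 : ℂ) ∈ ball (0 : ℂ) (4 * LL) := mem_big (by simp)
  have hbigp1 : p + 1 ∈ ball (0 : ℂ) (4 * LL) := by
    apply mem_big
    refine (norm_add_le _ _).trans ?_
    simp; linarith
  have hbigp2 : p - 1 ∈ ball (0 : ℂ) (4 * LL) := by
    apply mem_big
    refine (norm_sub_le _ _).trans ?_
    simp; linarith
  have hbige : (-(3 * LL : ℝ) : ℂ) ∈ ball (0 : ℂ) (4 * LL) := by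
    rw [mem_ball_zero_iff, norm_neg, Complex.norm_real, Real.norm_of_nonneg] <;>
    rw [LL_val] <;> norm_num
  set P := ‖gg n k C E p‖ with hP
  have hP0 : 0 < P := by
    rw [hP, norm_gg]
    have h1 : 0 < ‖C‖ := norm_pos_iff.2 D.hC
    have h2 : 0 < ‖p‖ := by linarith
    positivity
  set X := Real.exp (-(0.02 * n)) with hX
  have hX0 : 0 < X := Real.exp_pos _
  have hsm := small hn8
  rw [← hX] at hsm
  have hpp : ‖p + 1‖ ≤ 15.000001 := by
    calc ‖p + 1‖ = ‖(p + 16) - 15‖ := by ring_nf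
      _ ≤ ‖p + 16‖ + ‖(15 : ℂ)‖ := norm_sub_le _ _
      _ ≤ 1 / 10 ^ 6 + 15 := by gcongr; simp
      _ ≤ _ := by norm_num
  -- segment from 0 to p + 1
  have hA : ‖f (p + 1) - f 0‖ ≤ P * X * 16 := by
    have h1 := (convex_segment (𝕜 := ℝ) (0 : ℂ) (p + 1)).norm_image_sub_le_of_norm_hasDerivWithin_le
      (f := f) (f' := gg n k C E) (C := P * X) (x := 0) (y := p + 1)
      (fun z hz => (D.hf z ((convex_ball (0 : ℂ) (4 * LL)).segment_subset hbig0 hbigp1
        hz)).hasDerivWithinAt) ?_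
      (left_mem_segment _ _ _) (right_mem_segment _ _ _)
    · refine h1.trans ?_
      gcongr
      rw [sub_zero]
      linarith
    · intro z hz
      rw [segment_eq_image] at hz
      obtain ⟨τ, hτ, rfl⟩ := hz
      have := D.seg0 hp hτ.1 hτ.2
      have h2 : (1 - τ) • (0 : ℂ) + τ • (p + 1) = τ * (p + 1) := by simp; ring
      simp only [h2]
      exact this
  -- segment from p - 1 to e
  set w : ℂ := -(3 * LL : ℝ) - (p - 1) with hw
  have hwle : ‖w‖ ≤ 4 * 10 ^ 12 := by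
    rw [hw]
    refine (norm_sub_le _ _).trans ?_
    have h1 : ‖(-(3 * LL : ℝ) : ℂ)‖ = 3 * 10 ^ 12 := by
      rw [norm_neg, Complex.norm_real, Real.norm_of_nonneg] <;> rw [LL_val]; norm_num
    have h2 : ‖p - 1‖ ≤ 18 := by
      refine (norm_sub_le _ _).trans ?_
      simp; linarith
    rw [h1]
    linarith
  have hwge : 100 ≤ ‖w‖ := by
    have h1 : ‖(-(3 * LL : ℝ) : ℂ)‖ = 3 * 10 ^ 12 := by
      rw [norm_neg, Complex.norm_real, Real.norm_of_nonneg] <;> rw [LL_val]; norm_num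
    have h2 : ‖p - 1‖ ≤ 18 := by
      refine (norm_sub_le _ _).trans ?_
      simp; linarith
    have h3 : ‖(-(3 * LL : ℝ) : ℂ)‖ ≤ ‖w‖ + ‖p - 1‖ := by
      calc ‖(-(3 * LL : ℝ) : ℂ)‖ = ‖w + (p - 1)‖ := by rw [hw]; ring_nf
        _ ≤ _ := norm_add_le _ _
    rw [h1] at h3
    linarith
  have hseg1 : ∀ τ : ℝ, 0 ≤ τ → τ ≤ 1 → (p - 1) + τ * w ∈ ball (0 : ℂ) (4 * LL) := by
    intro τ h0 h1
    apply (convex_ball (0 : ℂ) (4 * LL)).segment_subset hbigp2 hbige
    rw [segment_eq_image]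
    refine ⟨τ, ⟨h0, h1⟩, ?_⟩
    rw [hw]
    simp only [Complex.real_smul]
    push_cast
    ring
  have hB : ‖f (-(3 * LL : ℝ)) - f (p - 1)‖ ≤ P * X * (4 * 10 ^ 12) := by
    have h1 := (convex_segment (𝕜 := ℝ) (p - 1) (-(3 * LL : ℝ) :
      ℂ)).norm_image_sub_le_of_norm_hasDerivWithin_le
      (f := f) (f' := gg n k C E) (C := P * X) (x := p - 1) (y := (-(3 * LL : ℝ) : ℂ))
      (fun z hz => (D.hf z ((convex_ball (0 : ℂ) (4 * LL)).segment_subset hbigp2 hbige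
        hz)).hasDerivWithinAt) ?_
      (left_mem_segment _ _ _) (right_mem_segment _ _ _)
    · refine h1.trans ?_
      gcongr
    · intro z hz
      rw [segment_eq_image] at hz
      obtain ⟨τ, hτ, rfl⟩ := hz
      have h3 := hseg1 τ hτ.1 hτ.2
      have := D.seg1 hp hτ.1 hτ.2 h3
      have h2 : (1 - τ) • (p - 1) + τ • (-(3 * LL : ℝ) : ℂ) = (p - 1) + τ * w := by
        rw [hw]
        simp only [Complex.real_smul]
        push_cast
        ring
      simp only [h2]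
      refine this.trans ?_
      rw [hX]
      apply mul_le_mul_of_nonneg_left _ hP0.le
      apply Real.exp_le_exp.2
      rw [← hw]
      have h4 : 0 ≤ 0.04 * τ * ‖w‖ := by have := hτ.1; positivity
      nlinarith
  -- the value at e
  have hC1 : ‖gg n k C E (-(3 * LL : ℝ))‖ ≤ P * Real.exp (-(2 * n)) := by
    have h3 := hseg1 1 zero_le_one le_rfl
    have := D.seg1 hp zero_le_one le_rfl h3
    have h2 : (p - 1) + ((1 : ℝ) : ℂ) * w = (-(3 * LL : ℝ) : ℂ) := by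
      rw [hw]; push_cast; ring
    rw [← hw, h2] at this
    refine this.trans ?_
    apply mul_le_mul_of_nonneg_left _ hP0.le
    apply Real.exp_le_exp.2
    nlinarith
  have hC2 : ‖f (-(3 * LL : ℝ))‖ ≤ P * X := by
    refine hex.trans ?_
    calc Real.exp (n / 10 ^ 8) * ‖gg n k C E (-(3 * LL : ℝ))‖
        ≤ Real.exp (n / 10 ^ 8) * (P * Real.exp (-(2 * n))) := by gcongr
      _ = P * Real.exp (n / 10 ^ 8 + -(2 * n)) := by rw [Real.exp_add]; ring
      _ ≤ _ := by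
        rw [hX]; gcongr; linarith
  -- peak
  have hpk := D.peak hp hsad
  rw [← hP] at hpk
  have hsq0 : 0 < 1 / Real.sqrt n := by positivity
  have h20 : 2 / Real.sqrt n = 2 * (1 / Real.sqrt n) := by ring
  rw [h20] at hpk
  set r' := 1 / Real.sqrt n with hr'
  have hf0 : 1.5 * r' * P ≤ ‖f 0‖ := by
    have h1 : ‖f (p + 1) - f (p - 1)‖ ≤ ‖f (p + 1) - f 0‖ + ‖f 0‖ +
        ‖f (-(3 * LL : ℝ)) - f (p - 1)‖ + ‖f (-(3 * LL : ℝ))‖ := by
      calc ‖f (p + 1) - f (p - 1)‖ = ‖(f (p + 1) - f 0) + f 0 +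
            (f (-(3 * LL : ℝ)) - f (p - 1)) - f (-(3 * LL : ℝ))‖ := by ring_nf
        _ ≤ ‖(f (p + 1) - f 0) + f 0 + (f (-(3 * LL : ℝ)) - f (p - 1))‖ +
            ‖f (-(3 * LL : ℝ))‖ := norm_sub_le _ _
        _ ≤ _ := by
          gcongr
          refine (norm_add_le _ _).trans ?_
          gcongr
          exact norm_add_le _ _
    have h2 : P * X * 16 + P * X * (4 * 10 ^ 12) + P * X ≤ 0.1 * r' * P := by
      calc P * X * 16 + P * X * (4 * 10 ^ 12) + P * X = (16 + 4 * 10 ^ 12 + 1) * X * P := by ring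
        _ ≤ 10 ^ 13 * X * P := by gcongr; norm_num
        _ ≤ _ := by gcongr
    nlinarith
  have hfz : ∀ z : ℂ, ‖z‖ ≤ 6 / 5 → r' * P ≤ ‖f z‖ := by
    intro z hz
    have h1 := (convex_closedBall (0 : ℂ) (6 / 5)).norm_image_sub_le_of_norm_hasDerivWithin_le
      (f := f) (f' := gg n k C E) (C := P * X) (x := z) (y := 0)
      (fun z hz => (D.hf z (mem_big ((by simpa using hz : ‖z‖ ≤ 6 / 5).trans
        (by norm_num)))).hasDerivWithinAt) ?_ (by simpa using hz)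
        (mem_closedBall_self (by norm_num))
    · rw [zero_sub, norm_neg] at h1
      have h2 : P * X * ‖z‖ ≤ 0.1 * r' * P := by
        calc P * X * ‖z‖ ≤ P * X * (6 / 5) := by gcongr
          _ = 6 / 5 * X * P := by ring
          _ ≤ 10 ^ 13 * X * P := by gcongr; norm_num
          _ ≤ _ := by gcongr
      have h3 : ‖f 0‖ ≤ ‖f z‖ + ‖f 0 - f z‖ := by
        calc ‖f 0‖ = ‖f z + (f 0 - f z)‖ := by ring_nf
          _ ≤ _ := norm_add_le _ _
      have h4 : 0 < r' * P := by positivity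
      nlinarith
    · intro y hy
      refine (D.near0 hp (by simpa using hy)).trans ?_
      rw [hX]
      gcongr
      linarith
  have hXr : X ≤ r' := by nlinarith
  intro z hz
  have h1 := hfz z hz
  refine ⟨?_, ?_⟩
  · refine hC1.trans (le_trans ?_ h1)
    rw [mul_comm]
    gcongr
    refine le_trans ?_ hXr
    rw [hX]
    apply Real.exp_le_exp.2
    linarith
  · intro z' hz'
    refine le_trans ?_ h1
    calc Real.exp (n / 10 ^ 8) * ‖gg n k C E z'‖
        ≤ Real.exp (n / 10 ^ 8) * (P * Real.exp (-(10 * n))) := by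
          gcongr; exact D.near0 hp hz'
      _ = Real.exp (n / 10 ^ 8 + -(10 * n)) * P := by rw [Real.exp_add]; ring
      _ ≤ X * P := by
          rw [hX]; gcongr; linarith
      _ ≤ _ := by gcongr

end Dat

end PartA

/-- PART A (base case, saddle point lemma). -/
theorem good_base : ∃ η : ℝ, 0 < η ∧ η ≤ 1 ∧ Good (1 / 16) η := by
  refine ⟨1 / 10 ^ 8, by norm_num, by norm_num, ?_⟩
  intro γ hγ
  refine ⟨1, fun _ => 0, fun _ => 16, ?_, ?_, ?_, ?_⟩
  · intro i; rw [norm_zero, PartA.LL_val]; norm_num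
  · intro i; norm_num
  · simp
  intro n hn k hk f G hG hG0 hGd hf hfe s hs
  have hn8 : 10 ^ 8 ≤ n := by
    refine le_trans ?_ hn
    norm_num
  have hn0 : 0 < n := by linarith
  obtain ⟨K, hK⟩ : ∃ K, K = k 0 := ⟨_, rfl⟩
  have hk1 : |(K : ℝ) - 16 * n| ≤ n / 10 ^ 8 := by
    have : |(k 0 : ℝ) - n * 16| ≤ 1 / 10 ^ 8 * n := by simpa using hk
    rw [hK, mul_comm 16 n]
    refine this.trans (le_of_eq (by ring))
  have hf' : ∀ z ∈ ball (0 : ℂ) (4 * LL), HasDerivAt f (G z * z ^ K) z := by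
    intro z hz
    have := hf z hz
    rw [hK]
    simpa using this
  set γ' : ℂ := (starRingEnd ℂ) γ with hγ'
  have hγ1 : γ' * γ = 1 := by
    rw [hγ', mul_comm, Complex.mul_conj, Complex.normSq_eq_norm_sq, hγ]; simp
  have hγn : ‖γ'‖ = 1 := by rw [hγ', Complex.norm_conj]; exact hγ
  have hγ0 : γ' ≠ 0 := by intro h; rw [h, norm_zero] at hγn; norm_num at hγn
  have hmem : ∀ z ∈ ball (0 : ℂ) (4 * LL), γ' * z ∈ ball (0 : ℂ) (4 * LL) := by
    intro z hz
    rw [mem_ball_zero_iff] at hz ⊢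
    rw [norm_mul, hγn, one_mul]; exact hz
  set Gt : ℂ → ℂ := fun w => γ' ^ (K + 1) * G (γ' * w) with hGt
  set ft : ℂ → ℂ := fun w => f (γ' * w) with hft
  have hlin : ∀ z : ℂ, HasDerivAt (fun w : ℂ => γ' * w) γ' z := by
    intro z
    simpa using (hasDerivAt_id z).const_mul γ'
  have hGa : ∀ z ∈ ball (0 : ℂ) (4 * LL), HasDerivAt G (deriv G z) z := fun z hz =>
    ((hG z hz).differentiableAt (isOpen_ball.mem_nhds hz)).hasDerivAt
  have hGtd : ∀ z ∈ ball (0 : ℂ) (4 * LL),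
      HasDerivAt Gt (γ' ^ (K + 1) * (deriv G (γ' * z) * γ')) z := by
    intro z hz
    exact ((hGa _ (hmem z hz)).comp_of_eq z (hlin z) rfl).const_mul _
  have hGtD : DifferentiableOn ℂ Gt (ball 0 (4 * LL)) := fun z hz =>
    (hGtd z hz).differentiableAt.differentiableWithinAt
  have hGt0 : ∀ z ∈ ball (0 : ℂ) (4 * LL), Gt z ≠ 0 := by
    intro z hz
    exact mul_ne_zero (pow_ne_zero _ hγ0) (hG0 _ (hmem z hz))
  have hLL : 0 < 4 * LL := by rw [PartA.LL_val]; norm_num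
  obtain ⟨C, E, he, hE, hCE⟩ := PartA.exists_log hLL Gt (n : ℂ) hGtD hGt0
  have hlog : ∀ z ∈ ball (0 : ℂ) (4 * LL), logDeriv Gt z = γ' * logDeriv G (γ' * z) := by
    intro z hz
    have h1 : logDeriv Gt z = deriv Gt z / Gt z := rfl
    have h2 : logDeriv G (γ' * z) = deriv G (γ' * z) / G (γ' * z) := rfl
    rw [h1, h2, (hGtd z hz).deriv, hGt]
    have h3 := hG0 _ (hmem z hz)
    field_simp
  have hggt : ∀ z ∈ ball (0 : ℂ) (4 * LL), PartA.gg n K C E z = Gt z * z ^ K := by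
    intro z hz
    rw [PartA.gg, hCE z hz]
  have hggt2 : ∀ z ∈ ball (0 : ℂ) (4 * LL), PartA.gg n K C E z = γ' * deriv f (γ' * z) := by
    intro z hz
    rw [hggt z hz, (hf' _ (hmem z hz)).deriv, hGt]
    ring
  have hnormgg : ∀ z ∈ ball (0 : ℂ) (4 * LL), ‖PartA.gg n K C E z‖ = ‖deriv f (γ' * z)‖ := by
    intro z hz
    rw [hggt2 z hz, norm_mul, hγn, one_mul]
  have hC : C ≠ 0 := by
    intro h
    have := hGt0 0 (mem_ball_self hLL)
    rw [hCE 0 (mem_ball_self hLL), h, zero_mul] at this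
    exact this rfl
  have D : PartA.Dat n K C E (fun z => logDeriv Gt z - n) ft := by
    refine ⟨hn8, hk1, hC, he, hE, ?_, ?_⟩
    · intro z hz
      have h1 := hGd _ (hmem z hz)
      have h2 : logDeriv Gt z - n = γ' * (logDeriv G (γ' * z) - n * γ) := by
        rw [hlog z hz]
        linear_combination (n : ℂ) * hγ1
      rw [h2, norm_mul, hγn, one_mul]
      refine h1.trans (le_of_eq (by ring))
    · intro z hz
      have h1 := (hf' _ (hmem z hz)).comp_of_eq z (hlin z) rfl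
      refine h1.congr_deriv ?_
      have h2 := hggt2 z hz
      rw [PartA.gg, (hf' _ (hmem z hz)).deriv] at h2
      rw [h2]; ring
  have hexm : (-(3 * LL : ℝ) : ℂ) ∈ ball (0 : ℂ) (4 * LL) := by
    rw [mem_ball_zero_iff, norm_neg, Complex.norm_real, Real.norm_of_nonneg] <;>
    rw [PartA.LL_val] <;> norm_num
  have hexv : γ' * (-(3 * LL : ℝ) : ℂ) = ex γ := by
    rw [ex]; push_cast; ring
  have hcore := D.core (by
    rw [hnormgg _ hexm, hft]
    simp only
    rw [hexv]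
    refine hfe.trans (le_of_eq ?_)
    congr 2; ring)
  have hbig : ∀ z : ℂ, z ∈ closedBall (s : ℂ) (1 / 10 ^ 8) → ‖γ * z‖ ≤ 6 / 5 := by
    intro z hz
    rw [mem_closedBall, dist_eq_norm] at hz
    rw [norm_mul, hγ, one_mul]
    calc ‖z‖ = ‖(z - s) + s‖ := by ring_nf
      _ ≤ ‖z - s‖ + ‖(s : ℂ)‖ := norm_add_le _ _
      _ ≤ 1 / 10 ^ 8 + 1 := by
        gcongr
        rw [Complex.norm_real, Real.norm_of_nonneg hs.1]; exact hs.2
      _ ≤ _ := by norm_num
  have hback : ∀ z : ℂ, γ' * (γ * z) = z := by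
    intro z; rw [← mul_assoc, hγ1, one_mul]
  refine ⟨(s : ℂ), by simp, ?_, ?_⟩
  · rw [Complex.norm_real, Real.norm_of_nonneg hs.1, PartA.LL_val]
    linarith [hs.2]
  · intro z hz
    have h1 := hcore (γ * z) (hbig z hz)
    rw [hnormgg _ hexm, hexv] at h1
    simp only [hft, hback] at h1
    refine ⟨h1.1, ?_⟩
    intro z' hz'
    have h2 := h1.2 (γ * z') (hbig z' hz')
    rw [hnormgg _ (PartA.mem_big ((hbig z' hz').trans (by norm_num))), hback] at h2
    refine le_trans (le_of_eq ?_) h2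
    congr 2; ring

end Pool.Agent.NevChar
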