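import Pool.Agent.Lib_MP_2ed15d_an.PartB1Sum

/-!
# Part B1: masses on the grid
-/

set_option autoImplicit false

open Metric Complex Finset

namespace Pool.Agent.NevChar

section Identities

variable {ι : Type} [Fintype ι] (b : ι → ℂ) (m : ι → ℝ)

/-- the field created at `q` by the other points (the term `q' = q` is `0`) -/
noncomputable def dl (q : ι) : ℂ := ∑ q', (m q' : ℂ) / (b q - b q')

lemma dl_erase [DecidableEq ι] (q : ι) : ∑ q' ∈ univ.erase q, (m q' : ℂ) / (b q - b q') = dl b m q := by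
  unfold dl
  exact sum_erase _ (by simp)

lemma sum_m_dl : ∑ q, (m q : ℂ) * dl b m q = 0 := by
  have h1 : ∑ q, (m q : ℂ) * dl b m q = ∑ q, ∑ q', (m q : ℂ) * m q' / (b q - b q') := by
    refine sum_congr rfl fun q _ => ?_
    unfold dl
    rw [mul_sum]
    exact sum_congr rfl fun q' _ => by rw [mul_div_assoc]
  have h2 : ∑ q, ∑ q', (m q : ℂ) * m q' / (b q - b q') =
      - ∑ q, ∑ q', (m q : ℂ) * m q' / (b q - b q') := by
    conv_lhs => rw [sum_comm]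
    rw [← sum_neg_distrib]
    refine sum_congr rfl fun q _ => ?_
    rw [← sum_neg_distrib]
    refine sum_congr rfl fun q' _ => ?_
    rw [← neg_sub (b q) (b q'), div_neg, mul_comm (m q' : ℂ)]
  rw [h1]
  exact self_eq_neg.1 h2

lemma sum_m_dl_b [DecidableEq ι] (hb : ∀ q q', q ≠ q' → b q ≠ b q') :
    ∑ q, (m q : ℂ) * dl b m q * b q = (((∑ q, m q) ^ 2 - ∑ q, m q ^ 2 : ℝ) : ℂ) / 2 := by
  have h1 : ∑ q, (m q : ℂ) * dl b m q * b q =
      ∑ q, ∑ q', (m q : ℂ) * m q' * b q / (b q - b q') := by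
    refine sum_congr rfl fun q _ => ?_
    unfold dl
    rw [mul_sum, sum_mul]
    exact sum_congr rfl fun q' _ => by ring
  have h2 : ∑ q, ∑ q', (m q : ℂ) * m q' * b q / (b q - b q') =
      ∑ q, ∑ q', (m q : ℂ) * m q' * (-b q') / (b q - b q') := by
    conv_lhs => rw [sum_comm]
    refine sum_congr rfl fun q _ => ?_
    refine sum_congr rfl fun q' _ => ?_
    rw [← neg_sub (b q) (b q'), div_neg, mul_comm (m q' : ℂ), mul_neg, neg_div]
  have h3 : ∀ q, ∑ q', ((m q : ℂ) * m q' * b q / (b q - b q') +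
      (m q : ℂ) * m q' * (-b q') / (b q - b q')) = (m q : ℂ) * (∑ q', (m q' : ℂ)) - (m q : ℂ) ^ 2 := by
    intro q
    rw [← add_sum_erase univ _ (mem_univ q), ← add_sum_erase univ (fun q' => (m q' : ℂ)) (mem_univ q)]
    have h4 : ∑ q' ∈ univ.erase q, ((m q : ℂ) * m q' * b q / (b q - b q') +
      (m q : ℂ) * m q' * (-b q') / (b q - b q')) = ∑ q' ∈ univ.erase q, (m q : ℂ) * m q' := by
      refine sum_congr rfl fun q' hq' => ?_
      have hne : b q - b q' ≠ 0 := sub_ne_zero.2 (hb q q' (ne_of_mem_erase hq').symm)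
      field_simp
      ring
    rw [h4, ← mul_sum]
    simp only [sub_self, div_zero, add_zero, zero_add]
    ring
  have h5 : (2 : ℂ) * ∑ q, (m q : ℂ) * dl b m q * b q =
      (((∑ q, m q) ^ 2 - ∑ q, m q ^ 2 : ℝ) : ℂ) := by
    rw [two_mul]
    nth_rewrite 2 [h1]
    rw [h2, h1, ← sum_add_distrib]
    have h6 : ∑ q, (∑ q', (m q : ℂ) * m q' * b q / (b q - b q') +
        ∑ q', (m q : ℂ) * m q' * (-b q') / (b q - b q')) =
        ∑ q, ((m q : ℂ) * (∑ q', (m q' : ℂ)) - (m q : ℂ) ^ 2) := by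
      refine sum_congr rfl fun q _ => ?_
      rw [← sum_add_distrib]
      exact h3 q
    rw [h6, sum_sub_distrib, ← sum_mul]
    push_cast
    ring
  rw [eq_div_iff (by norm_num : (2 : ℂ) ≠ 0), mul_comm]
  exact h5

lemma sum_m_dl_sq (hb : ∀ q q', q ≠ q' → b q ≠ b q') :
    ∑ q, (m q : ℂ) * dl b m q ^ 2 = ∑ q, ∑ q', (m q : ℂ) * (m q' : ℂ) ^ 2 / (b q - b q') ^ 2 := by
  classical
  set T : ι → ι → ι → ℂ := fun x y z => (m x : ℂ) * m y * m z / ((b x - b y) * (b x - b z)) with hT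
  set T0 : ι → ι → ι → ℂ := fun x y z => if y = z then 0 else T x y z with hT0
  have h1 : ∑ q, (m q : ℂ) * dl b m q ^ 2 = ∑ x, ∑ y, ∑ z, T x y z := by
    refine sum_congr rfl fun q _ => ?_
    unfold dl
    rw [sq, sum_mul_sum, mul_sum]
    refine sum_congr rfl fun y _ => ?_
    rw [mul_sum]
    refine sum_congr rfl fun z _ => ?_
    simp only [hT]
    rw [div_mul_div_comm]
    ring
  have h2 : ∀ x y z, T x y z = T0 x y z + (if y = z then T x y y else 0) := by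
    intro x y z
    simp only [hT0]
    split_ifs with h
    · rw [h]; ring
    · ring
  have h3 : ∑ x, ∑ y, ∑ z, T x y z = ∑ x, ∑ y, ∑ z, T0 x y z + ∑ x, ∑ y, T x y y := by
    have e1 : ∑ x, ∑ y, ∑ z, T x y z =
        ∑ x, ∑ y, ∑ z, (T0 x y z + (if y = z then T x y y else 0)) :=
      sum_congr rfl fun x _ => sum_congr rfl fun y _ => sum_congr rfl fun z _ => h2 x y z
    rw [e1]
    simp only [sum_add_distrib]
    congr 1
    refine sum_congr rfl fun x _ => sum_congr rfl fun y _ => ?_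
    rw [sum_ite_eq]
    simp
  have h4 : ∀ x y z, T0 x y z + T0 y z x + T0 z x y = 0 := by
    intro x y z
    by_cases hxy : x = y
    · subst hxy
      simp [hT0, hT]
    by_cases hyz : y = z
    · subst hyz
      simp [hT0, hT]
    by_cases hzx : z = x
    · subst hzx
      simp [hT0, hT]
    simp only [hT0, hT]
    rw [if_neg hyz, if_neg hzx, if_neg hxy]
    have e1 : b x - b y ≠ 0 := sub_ne_zero.2 (hb x y hxy)
    have e2 : b x - b z ≠ 0 := sub_ne_zero.2 (hb x z (Ne.symm hzx))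
    have e3 : b y - b z ≠ 0 := sub_ne_zero.2 (hb y z hyz)
    have e4 : b y - b x ≠ 0 := sub_ne_zero.2 (hb y x (Ne.symm hxy))
    have e5 : b z - b x ≠ 0 := sub_ne_zero.2 (hb z x hzx)
    have e6 : b z - b y ≠ 0 := sub_ne_zero.2 (hb z y (Ne.symm hyz))
    field_simp
    ring
  have h5 : ∑ x, ∑ y, ∑ z, T0 x y z = 0 := by
    have r1 : ∑ x, ∑ y, ∑ z, T0 y z x = ∑ x, ∑ y, ∑ z, T0 x y z := by
      rw [sum_comm]
      refine sum_congr rfl fun y _ => ?_
      rw [sum_comm]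
    have r2 : ∑ x, ∑ y, ∑ z, T0 z x y = ∑ x, ∑ y, ∑ z, T0 x y z := by
      have : ∑ x, ∑ y, ∑ z, T0 z x y = ∑ x, ∑ z, ∑ y, T0 z x y :=
        sum_congr rfl fun x _ => sum_comm
      rw [this, sum_comm]
    have h6 : ∑ x, ∑ y, ∑ z, (T0 x y z + T0 y z x + T0 z x y) = 0 :=
      sum_eq_zero fun x _ => sum_eq_zero fun y _ => sum_eq_zero fun z _ => h4 x y z
    simp_rw [sum_add_distrib] at h6
    rw [r1, r2] at h6
    have h7 : (3 : ℂ) * ∑ x, ∑ y, ∑ z, T0 x y z = 0 := by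
      rw [← h6]; ring
    exact (mul_eq_zero.1 h7).resolve_left (by norm_num)
  rw [h1, h3, h5, zero_add]
  refine sum_congr rfl fun x _ => sum_congr rfl fun y _ => ?_
  simp only [hT]
  rw [← sq, mul_assoc, ← sq]

end Identities

/-- pointwise inequality for `1 / |1 + d|` -/
lemma inv_norm_one_add (x y : ℝ) (hx : |x| ≤ 1 / 50) (hy : |y| ≤ 1 / 50) :
    (1 - x + (x ^ 2 + y ^ 2) / 8 + 3 / 4 * (x ^ 2 - y ^ 2)) * Real.sqrt ((1 + x) ^ 2 + y ^ 2) ≤ 1 := by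
  rw [abs_le] at hx hy
  set R := 1 - x + (x ^ 2 + y ^ 2) / 8 + 3 / 4 * (x ^ 2 - y ^ 2) with hR
  have hx2 : x ^ 2 ≤ 1 / 2500 := by nlinarith
  have hy2 : y ^ 2 ≤ 1 / 2500 := by nlinarith
  have hR0 : 0 ≤ R := by rw [hR]; nlinarith [sq_nonneg x]
  have hR1 : R ≤ 1.025 := by rw [hR]; nlinarith [sq_nonneg y]
  have hR2 : R ^ 2 ≤ 1.06 := by nlinarith
  set a := x ^ 2 / 8 - 7 / 8 * x ^ 3 + 5 / 8 * y ^ 2 * (1 + x) with ha
  have h1 : R * (1 + x) = 1 - a := by rw [hR, ha]; ring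
  have hx3 : x ^ 3 ≤ x ^ 2 / 50 := by
    have : x ^ 2 * x ≤ x ^ 2 * (1 / 50) := mul_le_mul_of_nonneg_left hx.2 (sq_nonneg x)
    linarith [show x ^ 3 = x ^ 2 * x by ring]
  have hx3' : -(x ^ 2 / 50) ≤ x ^ 3 := by
    have : x ^ 2 * (-(1 / 50)) ≤ x ^ 2 * x := mul_le_mul_of_nonneg_left hx.1 (sq_nonneg x)
    linarith [show x ^ 3 = x ^ 2 * x by ring]
  have hyx : y ^ 2 * x ≤ y ^ 2 / 50 := by
    have : y ^ 2 * x ≤ y ^ 2 * (1 / 50) := mul_le_mul_of_nonneg_left hx.2 (sq_nonneg y)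
    linarith
  have hyx' : -(y ^ 2 / 50) ≤ y ^ 2 * x := by
    have : y ^ 2 * (-(1 / 50)) ≤ y ^ 2 * x := mul_le_mul_of_nonneg_left hx.1 (sq_nonneg y)
    linarith
  have ha' : a = x ^ 2 / 8 - 7 / 8 * x ^ 3 + 5 / 8 * y ^ 2 + 5 / 8 * (y ^ 2 * x) := by
    rw [ha]; ring
  have hX := sq_nonneg x
  have hY := sq_nonneg y
  have ha0 : x ^ 2 / 10 + 0.6 * y ^ 2 ≤ a := by rw [ha']; linarith
  have ha0' : 0 ≤ a := by linarith
  have ha1 : a ≤ 1 / 1000 := by rw [ha']; linarith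
  have h2 : R ^ 2 * ((1 + x) ^ 2 + y ^ 2) ≤ 1 := by
    have h3 : R ^ 2 * ((1 + x) ^ 2 + y ^ 2) = 1 - 2 * a + a ^ 2 + R ^ 2 * y ^ 2 := by
      have h3' : R ^ 2 * ((1 + x) ^ 2 + y ^ 2) = (R * (1 + x)) ^ 2 + R ^ 2 * y ^ 2 := by ring
      rw [h3', h1]; ring
    rw [h3]
    have h4 : R ^ 2 * y ^ 2 ≤ 1.06 * y ^ 2 := mul_le_mul_of_nonneg_right hR2 (sq_nonneg y)
    have h5 : a ^ 2 ≤ a / 1000 := by
      have : a * a ≤ a * (1 / 1000) := mul_le_mul_of_nonneg_left ha1 ha0'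
      rw [sq]; linarith
    linarith
  have h6 : R * Real.sqrt ((1 + x) ^ 2 + y ^ 2) = Real.sqrt (R ^ 2 * ((1 + x) ^ 2 + y ^ 2)) := by
    rw [Real.sqrt_mul (sq_nonneg R), Real.sqrt_sq hR0]
  rw [h6]
  exact Real.sqrt_le_one.2 h2

/-- distinct grid points have distance at least `1 / S` -/
lemma one_div_le_norm (S : ℕ) (q q' : Fin S × Fin S) (h : q ≠ q') :
    1 / (S : ℝ) ≤ ‖bp S q - bp S q'‖ := by
  have hS : 0 < S := lt_of_le_of_lt (Nat.zero_le _) q.1.2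
  have hSr : (0 : ℝ) < S := by exact_mod_cast hS
  have hre := bp_re S q q'
  have him := bp_im S q q'
  have hzre := Complex.abs_re_le_norm (bp S q - bp S q')
  have hzim := Complex.abs_im_le_norm (bp S q - bp S q')
  have hBB1 : (1 : ℝ) ≤ BB := by unfold BB; norm_num
  by_cases hc : (q.2 : ℤ) - (q'.2 : ℤ) = 0
  · have ha : (q.1 : ℤ) - (q'.1 : ℤ) ≠ 0 := by
      intro ha
      apply h
      apply Prod.ext
      · apply Fin.ext; omega
      · apply Fin.ext; omega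
    have ha1 : (1 : ℝ) ≤ |(((q.1 : ℤ) - (q'.1 : ℤ) : ℤ) : ℝ)| := by
      have : (1 : ℤ) ≤ |(q.1 : ℤ) - (q'.1 : ℤ)| := Int.one_le_abs ha
      exact_mod_cast this
    refine le_trans ?_ hzre
    rw [hre, hc, Int.cast_zero, zero_div, add_zero, abs_div, abs_of_pos hSr]
    exact div_le_div_of_nonneg_right ha1 hSr.le
  · have hc1 : (1 : ℝ) ≤ |(((q.2 : ℤ) - (q'.2 : ℤ) : ℤ) : ℝ)| := by
      have : (1 : ℤ) ≤ |(q.2 : ℤ) - (q'.2 : ℤ)| := Int.one_le_abs hc
      exact_mod_cast this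
    refine le_trans ?_ hzim
    rw [him, abs_div, abs_mul, abs_of_pos hSr, abs_of_pos (by linarith : (0 : ℝ) < BB)]
    apply div_le_div_of_nonneg_right _ hSr.le
    nlinarith

lemma norm_bp_le (S : ℕ) (q : Fin S × Fin S) : ‖bp S q‖ ≤ BB + 1 := by
  have hS : 0 < S := lt_of_le_of_lt (Nat.zero_le _) q.1.2
  have hSr : (0 : ℝ) < S := by exact_mod_cast hS
  have hBB : (0 : ℝ) < BB := by unfold BB; norm_num
  have h1 : ((q.1 : ℕ) : ℝ) + 1 ≤ S := by exact_mod_cast q.1.2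
  have h2 : ((q.2 : ℕ) : ℝ) + 1 ≤ S := by exact_mod_cast q.2.2
  have h1' : (0 : ℝ) ≤ ((q.1 : ℕ) : ℝ) := by positivity
  have h2' : (0 : ℝ) ≤ ((q.2 : ℕ) : ℝ) := by positivity
  unfold bp
  refine le_trans (norm_add_le _ _) ?_
  rw [norm_mul, Complex.norm_I, mul_one, Complex.norm_real, Complex.norm_real, Real.norm_eq_abs,
    Real.norm_eq_abs, abs_of_nonneg (by positivity), abs_of_nonneg (by positivity)]
  have h3 : ((q.1 : ℕ) : ℝ) / S + ((q.2 : ℕ) : ℝ) / (S : ℝ) ^ 2 ≤ 1 := by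
    rw [div_add_div _ _ hSr.ne' (by positivity), div_le_one (by positivity)]
    nlinarith
  have h4 : BB * ((q.2 : ℕ) : ℝ) / S ≤ BB := by
    rw [div_le_iff₀ hSr]
    nlinarith
  linarith

/-- sum of `1 / |b_q - b_q'|²` -/
lemma sum_inv_norm_sq_le (S : ℕ) (q : Fin S × Fin S) (hS : 4 * 10 ^ 9 ≤ (S : ℝ)) :
    ∑ q' : Fin S × Fin S, 1 / ‖bp S q - bp S q'‖ ^ 2 ≤ (S : ℝ) ^ 3 / 1600 := by
  have h1 : ∀ q' ∈ (univ : Finset (Fin S × Fin S)), 1 / ‖bp S q - bp S q'‖ ^ 2 ≤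
      S * (1 / ‖bp S q - bp S q'‖) := by
    intro q' _
    by_cases h : q = q'
    · rw [h]; simp
    · have h2 := one_div_le_norm S q q' h
      have hSr : (0 : ℝ) < S := by linarith
      have h3 : 0 < ‖bp S q - bp S q'‖ := lt_of_lt_of_le (by positivity) h2
      have h4 : 1 / ‖bp S q - bp S q'‖ ≤ S := by
        rw [div_le_iff₀ h3]
        rw [div_le_iff₀ hSr] at h2
        linarith
      have h5 : 1 / ‖bp S q - bp S q'‖ ^ 2 = (1 / ‖bp S q - bp S q'‖) *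
          (1 / ‖bp S q - bp S q'‖) := by
        field_simp
      rw [h5]
      exact mul_le_mul_of_nonneg_right h4 (by positivity)
  refine le_trans (sum_le_sum h1) ?_
  rw [← mul_sum]
  have h2 := sum_inv_norm_le S q hS
  have hSr : (0 : ℝ) ≤ S := by linarith
  calc (S : ℝ) * ∑ q' : Fin S × Fin S, 1 / ‖bp S q - bp S q'‖ ≤ S * ((S : ℝ) ^ 2 / 1600) :=
        mul_le_mul_of_nonneg_left h2 hSr
    _ = (S : ℝ) ^ 3 / 1600 := by ring

lemma norm_dl_le (S : ℕ) (hS : 4 * 10 ^ 9 ≤ (S : ℝ)) (m : Fin S × Fin S → ℝ) (N : ℝ)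
    (hN : ∀ q, |m q| ≤ N) (q : Fin S × Fin S) :
    ‖dl (bp S) m q‖ ≤ N * ((S : ℝ) ^ 2 / 1600) := by
  have hN0 : 0 ≤ N := le_trans (abs_nonneg _) (hN q)
  unfold dl
  refine le_trans (norm_sum_le _ _) ?_
  refine le_trans (sum_le_sum (g := fun q' => N * (1 / ‖bp S q - bp S q'‖)) ?_) ?_
  · intro q' _
    rw [norm_div, Complex.norm_real, Real.norm_eq_abs, div_eq_mul_one_div]
    exact mul_le_mul_of_nonneg_right (hN q') (by positivity)
  · rw [← mul_sum]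
    exact mul_le_mul_of_nonneg_left (sum_inv_norm_le S q hS) hN0

lemma dl_sub (S : ℕ) (m m' : Fin S × Fin S → ℝ) (q : Fin S × Fin S) :
    dl (bp S) m q - dl (bp S) m' q = dl (bp S) (fun q => m q - m' q) q := by
  unfold dl
  rw [← sum_sub_distrib]
  refine sum_congr rfl fun q' _ => ?_
  push_cast
  ring

/-- existence of the fixed point with first bounds -/
lemma exists_fix (S : ℕ) (hS : 4 * 10 ^ 9 ≤ (S : ℝ)) (t : ℝ) (ht0 : 0 < t)
    (ht : t * ((S : ℝ) ^ 2 / 1600) ≤ 1 / 100) (γ : ℂ) (hγ : ‖γ‖ = 1) :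
    ∃ m : Fin S × Fin S → ℝ, (∀ q, m q = t * ‖γ + dl (bp S) m q‖) ∧ (∀ q, |m q| ≤ 1.02 * t) := by
  set F : (Fin S × Fin S → ℝ) → (Fin S × Fin S → ℝ) :=
    fun m q => t * ‖γ + dl (bp S) m q‖ with hF
  have hc : ContractingWith (1 / 100) F := by
    refine ⟨by rw [← NNReal.coe_lt_coe]; norm_num, LipschitzWith.of_dist_le_mul ?_⟩
    intro m m'
    rw [dist_pi_le_iff (by positivity)]
    intro q
    rw [Real.dist_eq]
    simp only [hF]
    rw [← mul_sub, abs_mul, abs_of_pos ht0]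
    have h1 : |‖γ + dl (bp S) m q‖ - ‖γ + dl (bp S) m' q‖| ≤
        ‖dl (bp S) (fun q => m q - m' q) q‖ := by
      refine le_trans (abs_norm_sub_norm_le _ _) (le_of_eq ?_)
      rw [← dl_sub]
      congr 1
      ring
    have h2 := norm_dl_le S hS (fun q => m q - m' q) (dist m m') (by
      intro q
      have := dist_le_pi_dist m m' q
      rwa [Real.dist_eq] at this) q
    have h3 : t * |‖γ + dl (bp S) m q‖ - ‖γ + dl (bp S) m' q‖| ≤
        t * (dist m m' * ((S : ℝ) ^ 2 / 1600)) :=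
      mul_le_mul_of_nonneg_left (le_trans h1 h2) ht0.le
    refine le_trans h3 ?_
    have h4 : t * (dist m m' * ((S : ℝ) ^ 2 / 1600)) =
        (t * ((S : ℝ) ^ 2 / 1600)) * dist m m' := by ring
    rw [h4]
    have h5 : (((1 / 100 : NNReal)) : ℝ) = 1 / 100 := by norm_num
    rw [h5]
    exact mul_le_mul_of_nonneg_right ht dist_nonneg
  set m := ContractingWith.fixedPoint F hc with hm
  have hfix : F m = m := hc.fixedPoint_isFixedPt
  have hfix' : ∀ q, m q = t * ‖γ + dl (bp S) m q‖ := fun q => (congrFun hfix q).symm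
  refine ⟨m, hfix', ?_⟩
  have hN : ∀ q, |m q| ≤ ‖m‖ := fun q => norm_le_pi_norm m q
  have h1 : ‖m‖ ≤ t * (1 + ‖m‖ * ((S : ℝ) ^ 2 / 1600)) := by
    rw [pi_norm_le_iff_of_nonneg (by positivity)]
    intro q
    rw [hfix' q, Real.norm_eq_abs, abs_of_nonneg (by positivity)]
    apply mul_le_mul_of_nonneg_left _ ht0.le
    refine le_trans (norm_add_le _ _) ?_
    rw [hγ]
    have := norm_dl_le S hS m ‖m‖ hN q
    linarith
  have h2 : ‖m‖ ≤ 1.02 * t := by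
    have h3 : t * (1 + ‖m‖ * ((S : ℝ) ^ 2 / 1600)) = t + ‖m‖ * (t * ((S : ℝ) ^ 2 / 1600)) := by
      ring
    have h4 : ‖m‖ * (t * ((S : ℝ) ^ 2 / 1600)) ≤ ‖m‖ * (1 / 100) :=
      mul_le_mul_of_nonneg_left ht (norm_nonneg m)
    linarith
  exact fun q => le_trans (hN q) h2

theorem masses_final (κ M D E : ℝ) (S : ℕ) (hκ0 : 0 < κ) (hM0 : 0 < M)
    (hS20 : (10 : ℝ) ^ 20 ≤ S) (hDl : 0.249 * M ^ 3 ≤ (BB + 1) ^ 2 * D)
    (hE : E ≤ M ^ 3 / (1400 * S)) (hMl : 0.98 * (1 / κ) ≤ M)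
    (hmain : M + D / 8 - 3 / 4 * E ≤ 1 / κ) : M ≤ 1 / (κ + 1 / 10 ^ 23 / κ) := by
  have hM3 : 0 < M ^ 3 := by positivity
  have hBB3 : 0 < (BB + 1) ^ 2 := by unfold BB; norm_num
  have hBB2 : (BB + 1) ^ 2 ≤ 1.1 * 10 ^ 20 := by unfold BB; norm_num
  have hD0 : 0 ≤ D := by
    by_contra h
    push Not at h
    have h1 := mul_neg_of_pos_of_neg hBB3 h
    have h2 : 0 < 0.249 * M ^ 3 := by positivity
    linarith
  obtain ⟨X, hX⟩ : ∃ X, X = M ^ 3 := ⟨_, rfl⟩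
  obtain ⟨A, hA⟩ : ∃ A, A = X / 10 ^ 20 := ⟨_, rfl⟩
  have hXA : X = 10 ^ 20 * A := by rw [hA]; field_simp
  have hA0 : 0 < A := by rw [hA, hX]; positivity
  have h1 : 0.226 * A ≤ 10 ^ 0 * D := by
    have h2 : (BB + 1) ^ 2 * D ≤ 1.1 * 10 ^ 20 * D := mul_le_mul_of_nonneg_right hBB2 hD0
    have h3 : 0.249 * (10 ^ 20 * A) ≤ 1.1 * 10 ^ 20 * D := by
      rw [← hXA, hX]; exact le_trans hDl h2
    have h4 : (10 : ℝ) ^ 20 * (0.249 * A) ≤ 10 ^ 20 * (1.1 * D) := by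
      calc (10 : ℝ) ^ 20 * (0.249 * A) = 0.249 * (10 ^ 20 * A) := by ring
        _ ≤ _ := h3
        _ = _ := by ring
    have h5 := le_of_mul_le_mul_left h4 (by positivity)
    rw [pow_zero, one_mul]
    nlinarith
  rw [pow_zero, one_mul] at h1
  have h2 : E ≤ A / 1400 := by
    refine le_trans hE ?_
    rw [hA, hX, div_div]
    apply div_le_div_of_nonneg_left hM3.le (by positivity)
    rw [mul_comm]
    exact mul_le_mul_of_nonneg_left hS20 (by norm_num)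
  have h3 : M + A / 100 ≤ 1 / κ := by linarith
  have h4 : M ^ 3 = 10 ^ 20 * A := by rw [← hX, hXA]
  have h5 : 1 / κ ≤ M / 0.98 := by
    rw [le_div_iff₀ (by norm_num)]; linarith
  have h6 : 0.98 ≤ M * κ := by
    have e1 := mul_le_mul_of_nonneg_right hMl hκ0.le
    have e2 : 0.98 * (1 / κ) * κ = 0.98 := by field_simp
    rw [e2] at e1
    exact e1
  have h7 : (0.96 : ℝ) ≤ (M * κ) ^ 2 := by
    have e1 : (0.98 : ℝ) ^ 2 ≤ (M * κ) ^ 2 := pow_le_pow_left₀ (by norm_num) h6 2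
    refine le_trans (by norm_num) e1
  have h8 : M * κ + A * κ / 100 ≤ 1 := by
    have e1 := mul_le_mul_of_nonneg_right h3 hκ0.le
    have e2 : 1 / κ * κ = 1 := by field_simp
    rw [e2] at e1
    linarith
  rw [le_div_iff₀ (by positivity)]
  have h9 : M * (1 / 10 ^ 23 / κ) ≤ A * κ / 100 := by
    have e1 : A * κ / 100 = (M / κ) * ((M * κ) ^ 2 * (1 / 10 ^ 22)) := by
      have : A = M ^ 3 / 10 ^ 20 := by rw [h4]; field_simp
      rw [this]
      field_simp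
      norm_num
    have e2 : M * (1 / 10 ^ 23 / κ) = (M / κ) * (1 / 10 ^ 23) := by ring
    rw [e1, e2]
    apply mul_le_mul_of_nonneg_left _ (by positivity)
    calc (1 : ℝ) / 10 ^ 23 ≤ 0.96 * (1 / 10 ^ 22) := by norm_num
      _ ≤ _ := mul_le_mul_of_nonneg_right h7 (by positivity)
  calc M * (κ + 1 / 10 ^ 23 / κ) = M * κ + M * (1 / 10 ^ 23 / κ) := by ring
    _ ≤ M * κ + A * κ / 100 := by linarith
    _ ≤ 1 := h8

/-- PART B1 (masses on the grid). -/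
theorem exists_masses (κ : ℝ) (hκ : 1 / 16 ≤ κ) (ε : ℝ) (hε : 0 < ε) :
    ∃ S₀ : ℕ, ∀ S : ℕ, S₀ ≤ S → ∀ γ : ℂ, ‖γ‖ = 1 →
      ∃ m : Fin S × Fin S → ℝ,
        (∀ q, m q = (1 / (S : ℝ) ^ 2) / κ *
          ‖γ + ∑ q' ∈ univ.erase q, (m q' : ℂ) / (bp S q - bp S q')‖) ∧
        (∀ q, ∑ q' ∈ univ.erase q, m q' / ‖bp S q - bp S q'‖ ≤ 1 / 50) ∧
        (∀ q, ∑ q' ∈ univ.erase q, m q' / ‖bp S q - bp S q'‖ ^ 2 * (1 / (S : ℝ) ^ 2) ≤ ε) ∧
        (∑ q, m q ≤ 1 / (κ + 1 / 10 ^ 23 / κ)) := by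
  obtain ⟨S₀, hS₀⟩ := exists_nat_ge (10 ^ 20 + 1 / ε)
  refine ⟨S₀, fun S hSS γ hγ => ?_⟩
  have hκ0 : 0 < κ := by linarith
  have hSe : 10 ^ 20 + 1 / ε ≤ (S : ℝ) := le_trans hS₀ (by exact_mod_cast hSS)
  have hε' : 0 < 1 / ε := by positivity
  have hS20 : (10 : ℝ) ^ 20 ≤ S := by linarith
  have hSε : 1 / ε ≤ (S : ℝ) := by linarith
  have hS9 : 4 * 10 ^ 9 ≤ (S : ℝ) := by linarith
  have hS0 : (0 : ℝ) < S := by linarith
  set t : ℝ := (1 / (S : ℝ) ^ 2) / κ with ht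
  have ht0 : 0 < t := by positivity
  have htS : t * (S : ℝ) ^ 2 = 1 / κ := by
    rw [ht]; field_simp
  have hκ16 : 1 / κ ≤ 16 := by
    rw [div_le_iff₀ hκ0]; linarith
  have htA : t * ((S : ℝ) ^ 2 / 1600) ≤ 1 / 100 := by
    have : t * ((S : ℝ) ^ 2 / 1600) = (1 / κ) / 1600 := by rw [← htS]; ring
    rw [this]; linarith
  obtain ⟨m, hm, hmb⟩ := exists_fix S hS9 t ht0 htA γ hγ
  have hm0 : ∀ q, 0 ≤ m q := fun q => by rw [hm q]; positivity
  have hmb' : ∀ q, m q ≤ 1.02 * t := fun q => le_trans (le_abs_self _) (hmb q)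
  have hdl : ∀ q, ‖dl (bp S) m q‖ ≤ 1 / 50 := by
    intro q
    refine le_trans (norm_dl_le S hS9 m _ hmb q) ?_
    have : 1.02 * t * ((S : ℝ) ^ 2 / 1600) = 1.02 * (t * ((S : ℝ) ^ 2 / 1600)) := by ring
    rw [this]; linarith
  have hsum1 : ∀ q, ∑ q' ∈ univ.erase q, m q' / ‖bp S q - bp S q'‖ ≤ 1 / 50 := by
    intro q
    rw [sum_erase _ (by simp)]
    have h1 : ∑ q', m q' / ‖bp S q - bp S q'‖ ≤
        ∑ q', (1.02 * t) * (1 / ‖bp S q - bp S q'‖) := by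
      refine sum_le_sum fun q' _ => ?_
      rw [div_eq_mul_one_div]
      exact mul_le_mul_of_nonneg_right (hmb' q') (by positivity)
    refine le_trans h1 ?_
    rw [← mul_sum]
    have h2 := mul_le_mul_of_nonneg_left (sum_inv_norm_le S q hS9)
      (by positivity : (0 : ℝ) ≤ 1.02 * t)
    refine le_trans h2 ?_
    have : 1.02 * t * ((S : ℝ) ^ 2 / 1600) = 1.02 * (t * ((S : ℝ) ^ 2 / 1600)) := by ring
    rw [this]; linarith
  have hsum2 : ∀ q, ∑ q' ∈ univ.erase q, m q' / ‖bp S q - bp S q'‖ ^ 2 * (1 / (S : ℝ) ^ 2) ≤ ε := by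
    intro q
    rw [sum_erase _ (by simp)]
    have h1 : ∑ q', m q' / ‖bp S q - bp S q'‖ ^ 2 * (1 / (S : ℝ) ^ 2) ≤
        ∑ q', (1.02 * t * (1 / (S : ℝ) ^ 2)) * (1 / ‖bp S q - bp S q'‖ ^ 2) := by
      refine sum_le_sum fun q' _ => ?_
      have : m q' / ‖bp S q - bp S q'‖ ^ 2 * (1 / (S : ℝ) ^ 2) =
          m q' * ((1 / (S : ℝ) ^ 2) * (1 / ‖bp S q - bp S q'‖ ^ 2)) := by ring
      rw [this, mul_assoc (1.02 * t)]
      exact mul_le_mul_of_nonneg_right (hmb' q') (by positivity)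
    refine le_trans h1 ?_
    rw [← mul_sum]
    have h2 := mul_le_mul_of_nonneg_left (sum_inv_norm_sq_le S q hS9)
      (by positivity : (0 : ℝ) ≤ 1.02 * t * (1 / (S : ℝ) ^ 2))
    refine le_trans h2 ?_
    have h3 : 1.02 * t * (1 / (S : ℝ) ^ 2) * ((S : ℝ) ^ 3 / 1600) =
        (1.02 / 1600) * (t * (S : ℝ) ^ 2) * (1 / S) := by
      field_simp
    rw [h3, htS]
    have h4 : 1 / (S : ℝ) ≤ ε := by
      rw [div_le_iff₀ hS0]
      rw [div_le_iff₀ hε] at hSε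
      linarith
    have h5 : 1.02 / 1600 * (1 / κ) ≤ 1 := by linarith
    have h6 : 0 ≤ 1 / (S : ℝ) := by positivity
    calc 1.02 / 1600 * (1 / κ) * (1 / (S : ℝ)) ≤ 1 * (1 / S) :=
          mul_le_mul_of_nonneg_right h5 h6
      _ ≤ ε := by rw [one_mul]; exact h4
  refine ⟨m, ?_, hsum1, hsum2, ?_⟩
  · intro q
    rw [dl_erase]
    exact hm q
  -- the total mass
  have hb : ∀ q q', q ≠ q' → bp S q ≠ bp S q' := by
    intro q q' h e
    have := one_div_le_norm S q q' h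
    rw [e, sub_self, norm_zero] at this
    have h2 : 0 < 1 / (S : ℝ) := by positivity
    linarith
  set M := ∑ q, m q with hM
  set c : ℂ := (starRingEnd ℂ) γ with hc
  have hcn : ‖c‖ = 1 := by rw [hc, RCLike.norm_conj, hγ]
  have hcγ : c * γ = 1 := by
    rw [hc, mul_comm, Complex.mul_conj, Complex.normSq_eq_norm_sq, hγ]; norm_num
  -- lower bound for the masses
  have hml : ∀ q, 0.98 * t ≤ m q := by
    intro q
    rw [hm q, mul_comm]
    apply mul_le_mul_of_nonneg_left _ ht0.le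
    have h1 : ‖γ‖ ≤ ‖γ + dl (bp S) m q‖ + ‖dl (bp S) m q‖ := by
      have := norm_sub_le (γ + dl (bp S) m q) (dl (bp S) m q)
      rwa [add_sub_cancel_right] at this
    have h2 := hdl q
    rw [hγ] at h1
    linarith
  have hcard : (Finset.univ : Finset (Fin S × Fin S)).card = S * S := by simp
  have hMl : 0.98 * (1 / κ) ≤ M := by
    rw [← htS, hM]
    have h1 : ∑ _q : Fin S × Fin S, 0.98 * t ≤ ∑ q, m q := sum_le_sum fun q _ => hml q
    rw [sum_const, hcard, nsmul_eq_mul] at h1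
    push_cast at h1
    nlinarith
  have hM0 : 0 < M := lt_of_lt_of_le (by positivity) hMl
  have hsq : ∑ q, m q ^ 2 ≤ M ^ 2 / 1000 := by
    have h1 : ∑ q, m q ^ 2 ≤ ∑ q, (1.02 * t) * m q := by
      refine sum_le_sum fun q _ => ?_
      rw [sq]
      exact mul_le_mul_of_nonneg_right (hmb' q) (hm0 q)
    rw [← mul_sum, ← hM] at h1
    refine le_trans h1 ?_
    have h2 : 1.02 * t ≤ M / 1000 := by
      have h3 : t * (S : ℝ) ^ 2 ≤ M / 0.98 := by
        rw [htS, le_div_iff₀ (by norm_num)]; linarith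
      have h4 : (10 : ℝ) ^ 6 ≤ (S : ℝ) ^ 2 := by nlinarith
      have h5 : t * 10 ^ 6 ≤ t * (S : ℝ) ^ 2 := mul_le_mul_of_nonneg_left h4 ht0.le
      have h6 : t * 10 ^ 6 ≤ M / 0.98 := le_trans h5 h3
      rw [le_div_iff₀ (by norm_num)] at h6
      linarith
    calc 1.02 * t * M ≤ M / 1000 * M := mul_le_mul_of_nonneg_right h2 hM0.le
      _ = M ^ 2 / 1000 := by ring
  set D := ∑ q, m q * ‖dl (bp S) m q‖ ^ 2 with hD
  have hBBpos : (0 : ℝ) < BB + 1 := by unfold BB; norm_num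
  -- lower bound for D
  have hDl : 0.249 * M ^ 3 ≤ (BB + 1) ^ 2 * D := by
    have h1 : (M ^ 2 - ∑ q, m q ^ 2) / 2 ≤ (BB + 1) * ∑ q, m q * ‖dl (bp S) m q‖ := by
      have h2 : ‖∑ q, (m q : ℂ) * dl (bp S) m q * bp S q‖ ≤
          (BB + 1) * ∑ q, m q * ‖dl (bp S) m q‖ := by
        refine le_trans (norm_sum_le _ _) ?_
        rw [mul_sum]
        refine sum_le_sum fun q _ => ?_
        rw [norm_mul, norm_mul, Complex.norm_real, Real.norm_eq_abs, abs_of_nonneg (hm0 q),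
          mul_comm]
        exact mul_le_mul_of_nonneg_right (norm_bp_le S q)
          (mul_nonneg (hm0 q) (norm_nonneg _))
      rw [sum_m_dl_b (bp S) m hb, norm_div, Complex.norm_real, Real.norm_eq_abs] at h2
      have h3 : ‖(2 : ℂ)‖ = 2 := by norm_num
      rw [h3] at h2
      refine le_trans ?_ h2
      exact div_le_div_of_nonneg_right (le_abs_self _) (by norm_num)
    have h4 : 0.4995 * M ^ 2 ≤ (BB + 1) * ∑ q, m q * ‖dl (bp S) m q‖ := by
      refine le_trans ?_ h1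
      linarith
    have h5 : (∑ q, m q * ‖dl (bp S) m q‖) ^ 2 ≤ M * D := by
      have h6 := Finset.sum_mul_sq_le_sq_mul_sq univ (fun q => Real.sqrt (m q))
        (fun q => Real.sqrt (m q) * ‖dl (bp S) m q‖)
      have e1 : ∀ q, Real.sqrt (m q) * (Real.sqrt (m q) * ‖dl (bp S) m q‖) =
          m q * ‖dl (bp S) m q‖ := by
        intro q
        rw [← mul_assoc, Real.mul_self_sqrt (hm0 q)]
      have e2 : ∀ q, Real.sqrt (m q) ^ 2 = m q := fun q => Real.sq_sqrt (hm0 q)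
      have e3 : ∀ q, (Real.sqrt (m q) * ‖dl (bp S) m q‖) ^ 2 = m q * ‖dl (bp S) m q‖ ^ 2 := by
        intro q
        rw [mul_pow, Real.sq_sqrt (hm0 q)]
      simp only [e1, e2, e3] at h6
      exact h6
    have h7 : 0 ≤ ∑ q, m q * ‖dl (bp S) m q‖ :=
      sum_nonneg fun q _ => mul_nonneg (hm0 q) (norm_nonneg _)
    have h8 : (0.4995 * M ^ 2) ^ 2 ≤ ((BB + 1) * ∑ q, m q * ‖dl (bp S) m q‖) ^ 2 :=
      pow_le_pow_left₀ (by positivity) h4 2
    have h9 : (0.4995 * M ^ 2) ^ 2 ≤ (BB + 1) ^ 2 * (M * D) := by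
      refine le_trans h8 ?_
      rw [mul_pow]
      exact mul_le_mul_of_nonneg_left h5 (by positivity)
    have h10 : M * (0.249 * M ^ 3) ≤ M * ((BB + 1) ^ 2 * D) := by
      calc M * (0.249 * M ^ 3) ≤ (0.4995 * M ^ 2) ^ 2 := by
            have : 0 ≤ M ^ 4 := by positivity
            nlinarith
        _ ≤ (BB + 1) ^ 2 * (M * D) := h9
        _ = M * ((BB + 1) ^ 2 * D) := by ring
    exact le_of_mul_le_mul_left h10 hM0
  -- upper bound for the second moment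
  have hE : ‖∑ q, (m q : ℂ) * dl (bp S) m q ^ 2‖ ≤ M ^ 3 / (1400 * S) := by
    rw [sum_m_dl_sq (bp S) m hb]
    refine le_trans (norm_sum_le _ _) ?_
    have h1 : ∀ q ∈ (univ : Finset (Fin S × Fin S)),
        ‖∑ q', (m q : ℂ) * (m q' : ℂ) ^ 2 / (bp S q - bp S q') ^ 2‖ ≤
          m q * ((1.02 * t) ^ 2 * ((S : ℝ) ^ 3 / 1600)) := by
      intro q _
      refine le_trans (norm_sum_le _ _) ?_
      have h2 : ∀ q' ∈ (univ : Finset (Fin S × Fin S)),
          ‖(m q : ℂ) * (m q' : ℂ) ^ 2 / (bp S q - bp S q') ^ 2‖ ≤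
            m q * (1.02 * t) ^ 2 * (1 / ‖bp S q - bp S q'‖ ^ 2) := by
        intro q' _
        rw [norm_div, norm_mul, norm_pow, norm_pow, Complex.norm_real, Complex.norm_real,
          Real.norm_eq_abs, Real.norm_eq_abs, abs_of_nonneg (hm0 q), abs_of_nonneg (hm0 q'),
          div_eq_mul_one_div]
        apply mul_le_mul_of_nonneg_right _ (by positivity)
        apply mul_le_mul_of_nonneg_left _ (hm0 q)
        exact pow_le_pow_left₀ (hm0 q') (hmb' q') 2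
      refine le_trans (sum_le_sum h2) ?_
      rw [← mul_sum]
      have h3 := mul_le_mul_of_nonneg_left (sum_inv_norm_sq_le S q hS9)
        (by have := hm0 q; positivity : (0 : ℝ) ≤ m q * (1.02 * t) ^ 2)
      refine le_trans h3 (le_of_eq ?_)
      ring
    refine le_trans (sum_le_sum h1) ?_
    rw [← sum_mul, ← hM]
    have h4 : (1.02 * t) ^ 2 * ((S : ℝ) ^ 3 / 1600) = 1.0404 / 1600 * (1 / κ) ^ 2 * (1 / S) := by
      rw [← htS]
      field_simp
      ring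
    rw [h4]
    have h5 : (1 / κ) ^ 2 ≤ M ^ 2 / 0.96 := by
      have h6 : 1 / κ ≤ M / 0.98 := by
        rw [le_div_iff₀ (by norm_num)]; linarith
      have h7 : (1 / κ) ^ 2 ≤ (M / 0.98) ^ 2 := pow_le_pow_left₀ (by positivity) h6 2
      refine le_trans h7 ?_
      rw [div_pow, div_le_div_iff₀ (by norm_num) (by norm_num)]
      nlinarith [sq_nonneg M]
    have h8 : 1.0404 / 1600 * (1 / κ) ^ 2 ≤ M ^ 2 / 1400 := by
      have hM2 : 0 ≤ M ^ 2 := sq_nonneg M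
      refine le_trans (mul_le_mul_of_nonneg_left h5 (by norm_num)) ?_
      rw [div_eq_mul_inv (M ^ 2) 0.96, div_eq_mul_inv (M ^ 2) 1400, ← mul_assoc,
        mul_comm (1.0404 / 1600 : ℝ) (M ^ 2), mul_assoc]
      apply mul_le_mul_of_nonneg_left _ hM2
      norm_num
    calc M * (1.0404 / 1600 * (1 / κ) ^ 2 * (1 / S)) ≤ M * (M ^ 2 / 1400 * (1 / S)) := by
          apply mul_le_mul_of_nonneg_left _ hM0.le
          exact mul_le_mul_of_nonneg_right h8 (by positivity)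
      _ = M ^ 3 / (1400 * S) := by
          field_simp
  -- the main inequality
  have hmain : M + D / 8 - 3 / 4 * ‖∑ q, (m q : ℂ) * dl (bp S) m q ^ 2‖ ≤ 1 / κ := by
    have h1 : ∀ q, m q * (1 - (c * dl (bp S) m q).re + ‖dl (bp S) m q‖ ^ 2 / 8 +
        3 / 4 * ((c * dl (bp S) m q) ^ 2).re) ≤ t := by
      intro q
      set d := c * dl (bp S) m q with hd
      have hdn : ‖d‖ = ‖dl (bp S) m q‖ := by rw [hd, norm_mul, hcn, one_mul]
      have hd1 : ‖d‖ ≤ 1 / 50 := by rw [hdn]; exact hdl q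
      have hx : |d.re| ≤ 1 / 50 := le_trans (Complex.abs_re_le_norm d) hd1
      have hy : |d.im| ≤ 1 / 50 := le_trans (Complex.abs_im_le_norm d) hd1
      have h2 := inv_norm_one_add d.re d.im hx hy
      have h3 : ‖γ + dl (bp S) m q‖ = Real.sqrt ((1 + d.re) ^ 2 + d.im ^ 2) := by
        have e1 : ‖γ + dl (bp S) m q‖ = ‖1 + d‖ := by
          have e2 : 1 + d = c * (γ + dl (bp S) m q) := by rw [hd, mul_add, hcγ]
          rw [e2, norm_mul, hcn, one_mul]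
        rw [e1, Complex.norm_eq_sqrt_sq_add_sq]
        simp
      have h4 : ‖dl (bp S) m q‖ ^ 2 = d.re ^ 2 + d.im ^ 2 := by
        rw [← hdn, ← Complex.normSq_eq_norm_sq, Complex.normSq_apply]; ring
      have h5 : (d ^ 2).re = d.re ^ 2 - d.im ^ 2 := by
        rw [sq, Complex.mul_re]; ring
      rw [h4, h5]
      nth_rewrite 1 [hm q]
      rw [h3]
      calc t * Real.sqrt ((1 + d.re) ^ 2 + d.im ^ 2) *
            (1 - d.re + (d.re ^ 2 + d.im ^ 2) / 8 + 3 / 4 * (d.re ^ 2 - d.im ^ 2))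
          = t * ((1 - d.re + (d.re ^ 2 + d.im ^ 2) / 8 + 3 / 4 * (d.re ^ 2 - d.im ^ 2)) *
            Real.sqrt ((1 + d.re) ^ 2 + d.im ^ 2)) := by ring
        _ ≤ t * 1 := mul_le_mul_of_nonneg_left h2 ht0.le
        _ = t := mul_one t
    have h2 : ∑ q, m q * (1 - (c * dl (bp S) m q).re + ‖dl (bp S) m q‖ ^ 2 / 8 +
        3 / 4 * ((c * dl (bp S) m q) ^ 2).re) ≤ 1 / κ := by
      refine le_trans (sum_le_sum fun q _ => h1 q) ?_
      rw [sum_const, hcard, nsmul_eq_mul, ← htS]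
      push_cast
      exact le_of_eq (by ring)
    have h3 : ∑ q, m q * (c * dl (bp S) m q).re = 0 := by
      have e1 : ∑ q, m q * (c * dl (bp S) m q).re =
          (c * ∑ q, (m q : ℂ) * dl (bp S) m q).re := by
        rw [mul_sum, Complex.re_sum]
        refine sum_congr rfl fun q _ => ?_
        rw [← Complex.re_ofReal_mul]
        congr 1
        ring
      rw [e1, sum_m_dl, mul_zero, Complex.zero_re]
    have h4 : ∑ q, m q * ((c * dl (bp S) m q) ^ 2).re =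
        (c ^ 2 * ∑ q, (m q : ℂ) * dl (bp S) m q ^ 2).re := by
      rw [mul_sum, Complex.re_sum]
      refine sum_congr rfl fun q _ => ?_
      rw [← Complex.re_ofReal_mul]
      congr 1
      ring
    have h5 : ∑ q, m q * (1 - (c * dl (bp S) m q).re + ‖dl (bp S) m q‖ ^ 2 / 8 +
        3 / 4 * ((c * dl (bp S) m q) ^ 2).re) = M - ∑ q, m q * (c * dl (bp S) m q).re + D / 8 +
        3 / 4 * ∑ q, m q * ((c * dl (bp S) m q) ^ 2).re := by
      rw [hM, hD, sum_div, mul_sum, ← sum_sub_distrib, ← sum_add_distrib, ← sum_add_distrib]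
      refine sum_congr rfl fun q _ => ?_
      ring
    have h6 : -‖∑ q, (m q : ℂ) * dl (bp S) m q ^ 2‖ ≤
        (c ^ 2 * ∑ q, (m q : ℂ) * dl (bp S) m q ^ 2).re := by
      have h7 := Complex.abs_re_le_norm (c ^ 2 * ∑ q, (m q : ℂ) * dl (bp S) m q ^ 2)
      rw [norm_mul, norm_pow, hcn, one_pow, one_mul] at h7
      exact (abs_le.1 h7).1
    rw [h5, h3, h4] at h2
    linarith
  -- conclusion
  exact masses_final κ M D (‖∑ q, (m q : ℂ) * dl (bp S) m q ^ 2‖) S hκ0 hM0 hS20 hDl hE hMl hmain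

end Pool.Agent.NevChar
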