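import Pool.Agent.Lib_MP_2ed15d_an.Growth

/-! Part C + D2: the lemma on the logarithmic derivative and the conclusion. -/

set_option autoImplicit false

open Metric Complex Finset MeasureTheory

namespace Pool.Agent.NevChar

/-! ### Factorisation -/

/-- `f = P h` with exactly `n` factors -/
def Fac (f : ℂ → ℂ) (R : ℝ) (n : ℕ) : Prop :=
  ∃ (a : Fin n → ℂ) (h : ℂ → ℂ), (∀ i, a i ≠ 0 ∧ ‖a i‖ ≤ R) ∧ Differentiable ℂ h ∧ h 0 = 1 ∧
    ∀ z, f z = (∏ i, (1 - z / a i)) * h z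

lemma Fac.succ {f h : ℂ → ℂ} {R : ℝ} {n : ℕ} {a : Fin n → ℂ}
    (ha : ∀ i, a i ≠ 0 ∧ ‖a i‖ ≤ R) (hh : Differentiable ℂ h) (h0 : h 0 = 1)
    (hf : ∀ z, f z = (∏ i, (1 - z / a i)) * h z) {b : ℂ} (hb : ‖b‖ ≤ R) (hhb : h b = 0) :
    Fac f R (n + 1) := by
  have hb0 : b ≠ 0 := by
    rintro rfl
    rw [h0] at hhb
    exact one_ne_zero hhb
  have hd : Differentiable ℂ (dslope h b) := by
    rw [← differentiableOn_univ]
    exact (Complex.differentiableOn_dslope Filter.univ_mem).mpr hh.differentiableOn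
  have hs : ∀ z, (z - b) * dslope h b z = h z := by
    intro z
    have := sub_smul_dslope h b z
    rw [smul_eq_mul, hhb, sub_zero] at this
    exact this
  refine ⟨Fin.cons b a, fun z => -b * dslope h b z, ?_, hd.const_mul _, ?_, ?_⟩
  · intro i
    refine Fin.cases ?_ ?_ i
    · exact ⟨hb0, hb⟩
    · intro j; simpa using ha j
  · have := hs 0
    rw [zero_sub, h0] at this
    exact this
  · intro z
    rw [Fin.prod_univ_succ]
    simp only [Fin.cons_zero, Fin.cons_succ]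
    rw [hf z, ← hs z]
    field_simp
    ring

lemma fac_bound {f h : ℂ → ℂ} {R M : ℝ} (hR : 0 < R) {n : ℕ} {a : Fin n → ℂ}
    (ha : ∀ i, a i ≠ 0 ∧ ‖a i‖ ≤ R) (hh : Differentiable ℂ h)
    (hf : ∀ z, f z = (∏ i, (1 - z / a i)) * h z) (hM : ∀ z, ‖z‖ ≤ 3 * R → ‖f z‖ ≤ M) :
    ∀ z, ‖z‖ ≤ 3 * R → 2 ^ n * ‖h z‖ ≤ M := by
  intro z hz
  have key : ‖h z‖ ≤ M / 2 ^ n := by
    refine Complex.norm_le_of_forall_mem_frontier_norm_le (U := ball (0 : ℂ) (3 * R))
      isBounded_ball hh.diffContOnCl ?_ ?_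
    · intro w hw
      rw [frontier_ball _ (by positivity), mem_sphere_zero_iff_norm] at hw
      rw [le_div_iff₀ (by positivity)]
      have h1 := hM w hw.le
      rw [hf w, norm_mul, norm_prod] at h1
      have h2 : (2 : ℝ) ^ n ≤ ∏ i, ‖1 - w / a i‖ := by
        have : ∏ _i : Fin n, (2 : ℝ) ≤ ∏ i, ‖1 - w / a i‖ := by
          apply Finset.prod_le_prod
          · intro i _; norm_num
          · intro i _
            obtain ⟨h3, h4⟩ := ha i
            have h5 : 0 < ‖a i‖ := norm_pos_iff.mpr h3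
            have h6 : 3 ≤ ‖w / a i‖ := by
              rw [norm_div, le_div_iff₀ h5, hw]; linarith
            have h7 : ‖w / a i‖ - ‖(1 : ℂ)‖ ≤ ‖w / a i - 1‖ := norm_sub_norm_le _ _
            rw [norm_sub_rev, norm_one] at h7
            linarith
        simpa using this
      calc ‖h w‖ * 2 ^ n ≤ ‖h w‖ * ∏ i, ‖1 - w / a i‖ :=
            mul_le_mul_of_nonneg_left h2 (norm_nonneg _)
        _ ≤ M := by rw [mul_comm]; exact h1
    · rw [closure_ball _ (by positivity), mem_closedBall_zero_iff]; exact hz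
  rw [le_div_iff₀ (by positivity)] at key
  linarith

/-- Factorisation with a zero-free rest. -/
lemma exists_factor (f : ℂ → ℂ) (hf : Differentiable ℂ f) (h0 : f 0 = 1) {R M : ℝ} (hR : 0 < R)
    (hM : ∀ z, ‖z‖ ≤ 3 * R → ‖f z‖ ≤ M) :
    ∃ (n : ℕ) (a : Fin n → ℂ) (h : ℂ → ℂ), (∀ i, a i ≠ 0 ∧ ‖a i‖ ≤ R) ∧ Differentiable ℂ h ∧
      h 0 = 1 ∧ (∀ z, f z = (∏ i, (1 - z / a i)) * h z) ∧ (∀ z, ‖z‖ ≤ R → h z ≠ 0) ∧
      (2 : ℝ) ^ n ≤ M ∧ ∀ z, ‖z‖ ≤ 3 * R → ‖h z‖ ≤ M := by
  have hbd : ∀ n, Fac f R n → (2 : ℝ) ^ n ≤ M := by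
    rintro n ⟨a, h, ha, hh, hh0, hfz⟩
    have := fac_bound hR ha hh hfz hM 0 (by simpa using hR.le)
    rw [hh0, norm_one, mul_one] at this
    exact this
  have hfac0 : Fac f R 0 := by
    refine ⟨Fin.elim0, f, fun i => i.elim0, hf, h0, fun z => by simp⟩
  obtain ⟨n, hn, hmax⟩ : ∃ n, Fac f R n ∧ ¬ Fac f R (n + 1) := by
    by_contra hcon
    push Not at hcon
    have hall : ∀ n, Fac f R n := by
      intro n
      induction n with
      | zero => exact hfac0
      | succ n ih => exact hcon n ih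
    obtain ⟨n, hn⟩ := pow_unbounded_of_one_lt M (by norm_num : (1 : ℝ) < 2)
    exact absurd (hbd n (hall n)) (not_le.mpr hn)
  obtain ⟨a, h, ha, hh, hh0, hfz⟩ := hn
  refine ⟨n, a, h, ha, hh, hh0, hfz, ?_, hbd n ⟨a, h, ha, hh, hh0, hfz⟩, ?_⟩
  · intro z hz hz0
    exact hmax (Fac.succ ha hh hh0 hfz hz hz0)
  · intro z hz
    have h1 := fac_bound hR ha hh hfz hM z hz
    have h2 : (1 : ℝ) ≤ 2 ^ n := one_le_pow₀ (by norm_num)
    calc ‖h z‖ = 1 * ‖h z‖ := (one_mul _).symm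
      _ ≤ 2 ^ n * ‖h z‖ := mul_le_mul_of_nonneg_right h2 (norm_nonneg _)
      _ ≤ M := h1

/-- Bound of the logarithmic derivative of a zero-free function. -/
lemma norm_logDeriv_le {h : ℂ → ℂ} (hh : Differentiable ℂ h) (h0 : h 0 = 1) {r L : ℝ} (hr : 0 < r)
    (hL : 0 < L) (hz0 : ∀ z, ‖z‖ ≤ 2 * r → h z ≠ 0)
    (hM : ∀ z, ‖z‖ ≤ 2 * r → ‖h z‖ ≤ Real.exp L) {z : ℂ} (hz : ‖z‖ ≤ r) :
    ‖logDeriv h z‖ ≤ 12 * L / r := by
  have hb0 : ∀ z ∈ ball (0 : ℂ) (2 * r), h z ≠ 0 := fun z hz =>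
    hz0 z (mem_ball_zero_iff.mp hz).le
  obtain ⟨H, hH, he⟩ := exists_log (R := 2 * r) (c₀ := 0) hh.differentiableOn hb0
  have h0mem : (0 : ℂ) ∈ ball (0 : ℂ) (2 * r) := mem_ball_self (by positivity)
  set H1 : ℂ → ℂ := fun z => H z - H 0 with hH1
  have hH1d : ∀ z ∈ ball (0 : ℂ) (2 * r), HasDerivAt H1 (logDeriv h z) z := fun z hz =>
    (hH z hz).sub_const _
  have hH1e : ∀ z ∈ ball (0 : ℂ) (2 * r), h z = exp (H1 z) := by
    intro z hz
    have := he z hz 0 h0mem
    rw [h0, one_mul] at this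
    exact this
  have hH1D : DifferentiableOn ℂ H1 (ball 0 (2 * r)) := fun z hz =>
    (hH1d z hz).differentiableAt.differentiableWithinAt
  have hmaps : Set.MapsTo H1 (ball 0 (2 * r)) {z | z.re ≤ L} := by
    intro z hz
    have h1 := hM z (mem_ball_zero_iff.mp hz).le
    rw [hH1e z hz, Complex.norm_exp, Real.exp_le_exp] at h1
    exact h1
  have hbd : ∀ z, ‖z‖ ≤ 3 / 2 * r → ‖H1 z‖ ≤ 6 * L := by
    intro z hz
    have hzb : z ∈ ball (0 : ℂ) (2 * r) := mem_ball_zero_iff.mpr (by linarith)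
    have h1 := Complex.borelCaratheodory_zero hL hH1D hmaps (by positivity) hzb (by simp [hH1])
    refine h1.trans ?_
    rw [div_le_iff₀ (by linarith)]
    nlinarith
  have hzb : z ∈ ball (0 : ℂ) (2 * r) := mem_ball_zero_iff.mpr (by linarith)
  rw [← (hH1d z hzb).deriv]
  have h2 : ‖deriv H1 z‖ ≤ 6 * L / (r / 2) := by
    refine Complex.norm_deriv_le_of_forall_mem_sphere_norm_le (by positivity) ?_ ?_
    · refine DifferentiableOn.diffContOnCl (hH1D.mono ?_)
      rw [closure_ball _ (by positivity)]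
      intro w hw
      rw [mem_closedBall, dist_eq_norm] at hw
      rw [mem_ball_zero_iff]
      have : ‖w‖ ≤ ‖w - z‖ + ‖z‖ := by simpa using norm_add_le (w - z) z
      linarith
    · intro w hw
      rw [mem_sphere, dist_eq_norm] at hw
      apply hbd
      have : ‖w‖ ≤ ‖w - z‖ + ‖z‖ := by simpa using norm_add_le (w - z) z
      linarith
  refine h2.trans (le_of_eq ?_)
  field_simp
  ring

/-- Pointwise bound of the logarithmic derivative. -/
lemma sqrt_logDeriv_le {n : ℕ} {a : Fin n → ℂ} {f h : ℂ → ℂ} (hh : Differentiable ℂ h)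
    (hf : ∀ z, f z = (∏ i, (1 - z / a i)) * h z) {K : ℝ} {z : ℂ} (hfz : f z ≠ 0)
    (hK : ‖logDeriv h z‖ ≤ K) (ha : ∀ i, a i ≠ 0) :
    Real.sqrt ‖deriv f z / f z‖ ≤ ∑ i, (Real.sqrt ‖z - a i‖)⁻¹ + Real.sqrt K := by
  have hne : (∏ i, (1 - z / a i)) ≠ 0 ∧ h z ≠ 0 := by
    rw [hf z] at hfz
    exact mul_ne_zero_iff.mp hfz
  have hne1 : ∀ i, 1 - z / a i ≠ 0 := fun i => Finset.prod_ne_zero_iff.mp hne.1 i (mem_univ i)
  have hfe : f = (fun z => ∏ i, (1 - z / a i)) * h := funext hf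
  have hd : ∀ i, DifferentiableAt ℂ (fun z => 1 - z / a i) z := fun i => by fun_prop
  have h1 : deriv f z / f z = ∑ i, 1 / (z - a i) + logDeriv h z := by
    have : deriv f z / f z = logDeriv f z := by rw [logDeriv_apply]
    rw [this, hfe]
    have h2 := logDeriv_mul (f := fun z => ∏ i, (1 - z / a i)) (g := h) z hne.1 hne.2
      (by fun_prop) (hh z)
    have h3 : (fun z => ∏ i, (1 - z / a i)) * h = fun z => (∏ i, (1 - z / a i)) * h z := rfl
    rw [h3, h2]
    congr 1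
    rw [logDeriv_prod (fun i _ => hne1 i) (fun i _ => hd i)]
    apply Finset.sum_congr rfl
    intro i _
    rw [logDeriv_apply]
    have h4 : deriv (fun z => 1 - z / a i) z = - (1 / a i) := by
      have : HasDerivAt (fun z => 1 - z / a i) (- (1 / a i)) z := by
        have := ((hasDerivAt_id z).div_const (a i)).const_sub 1
        simpa using this
      exact this.deriv
    rw [h4]
    have h5 : z - a i ≠ 0 := by
      intro h6
      apply hne1 i
      have : z = a i := sub_eq_zero.mp h6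
      rw [this, div_self (ha i), sub_self]
    have h6 := hne1 i
    have h7 : a i - z ≠ 0 := by
      rw [← neg_sub]; exact neg_ne_zero.mpr h5
    have h8 := ha i
    field_simp
    ring
  rw [h1]
  have h2 : ‖∑ i, 1 / (z - a i) + logDeriv h z‖ ≤ ∑ i, ‖z - a i‖⁻¹ + K := by
    refine (norm_add_le _ _).trans (add_le_add ?_ hK)
    refine (norm_sum_le _ _).trans (le_of_eq ?_)
    apply Finset.sum_congr rfl
    intro i _
    rw [norm_div, norm_one, one_div]
  have hsq : ∀ x y : ℝ, 0 ≤ x → 0 ≤ y → Real.sqrt (x + y) ≤ Real.sqrt x + Real.sqrt y := by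
    intro x y hx hy
    rw [Real.sqrt_le_left (by positivity)]
    rw [add_sq, Real.sq_sqrt hx, Real.sq_sqrt hy]
    have : 0 ≤ 2 * Real.sqrt x * Real.sqrt y := by positivity
    linarith
  have hsum : ∀ s : Finset (Fin n), Real.sqrt (∑ i ∈ s, ‖z - a i‖⁻¹) ≤
      ∑ i ∈ s, (Real.sqrt ‖z - a i‖)⁻¹ := by
    intro s
    induction s using Finset.induction_on with
    | empty => simp
    | insert i s his ih =>
      rw [Finset.sum_insert his, Finset.sum_insert his]
      refine (hsq _ _ (by positivity) (Finset.sum_nonneg fun i _ => by positivity)).trans ?_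
      rw [Real.sqrt_inv]
      linarith
  have hK0 : 0 ≤ K := (norm_nonneg _).trans hK
  calc Real.sqrt ‖∑ i, 1 / (z - a i) + logDeriv h z‖
      ≤ Real.sqrt (∑ i, ‖z - a i‖⁻¹ + K) := Real.sqrt_le_sqrt h2
    _ ≤ Real.sqrt (∑ i, ‖z - a i‖⁻¹) + Real.sqrt K :=
        hsq _ _ (Finset.sum_nonneg fun i _ => by positivity) hK0
    _ ≤ _ := by gcongr; exact hsum _

/-! ### Integrals -/

/-- `|sin t|^{-1/2}` is locally integrable. -/
lemma intervalIntegrable_sin (a b : ℝ) :
    IntervalIntegrable (fun t : ℝ => (Real.sqrt |Real.sin t|)⁻¹) volume a b := by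
  have hper : Function.Periodic (fun t : ℝ => (Real.sqrt |Real.sin t|)⁻¹) Real.pi := by
    intro t
    simp only [Real.sin_add_pi, abs_neg]
  refine hper.intervalIntegrable Real.pi_pos.ne' (t := -(Real.pi / 2)) ?_ a b
  have hpi := Real.pi_pos
  have h1 : IntervalIntegrable (fun t : ℝ => |t| ^ (-(1 / 2) : ℝ)) volume (-(Real.pi / 2))
      (-(Real.pi / 2) + Real.pi) := by
    refine intervalIntegrable_of_even ?_ ?_ enorm_ne_top enorm_ne_top
    · intro x; rw [abs_neg]
    · intro x hx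
      refine (intervalIntegral.intervalIntegrable_rpow' (r := -(1 / 2)) (by norm_num)).congr ?_
      intro t ht
      rw [Set.uIoc_of_le hx.le] at ht
      simp only
      rw [abs_of_pos ht.1]
  refine IntervalIntegrable.mono_fun' (g := fun t : ℝ => (2 / Real.pi) ^ (-(1 / 2) : ℝ) *
    |t| ^ (-(1 / 2) : ℝ)) (h1.const_mul _) ?_ ?_
  · apply Measurable.aestronglyMeasurable
    fun_prop
  · refine (ae_restrict_iff' measurableSet_uIoc).mpr (Filter.Eventually.of_forall ?_)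
    intro t ht
    rw [Set.uIoc_of_le (by linarith)] at ht
    simp only
    rw [Real.norm_of_nonneg (by positivity), ← Real.mul_rpow (by positivity) (abs_nonneg _),
      Real.sqrt_eq_rpow, ← Real.rpow_neg (abs_nonneg _)]
    by_cases h0 : t = 0
    · subst h0; simp
    · have h2 : 2 / Real.pi * |t| ≤ |Real.sin t| :=
        Real.mul_abs_le_abs_sin (abs_le.mpr ⟨by linarith [ht.1], by linarith [ht.2]⟩)
      have h3 : 0 < |t| := abs_pos.mpr h0
      exact Real.rpow_le_rpow_of_nonpos (by positivity) h2 (by norm_num)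

/-- The absolute constant `S₀`. -/
noncomputable def S0 : ℝ := ∫ t in (0 : ℝ)..(2 * Real.pi), (Real.sqrt |Real.sin t|)⁻¹

lemma S0_nonneg : 0 ≤ S0 :=
  intervalIntegral.integral_nonneg (by positivity) (fun t _ => by positivity)

lemma norm_circleMap_sub_ge (r : ℝ) (hr : 0 ≤ r) (a : ℂ) (t : ℝ) :
    r * |Real.sin (t - a.arg)| ≤ ‖circleMap 0 r t - a‖ := by
  have h1 : (circleMap 0 r t - a) * exp (-(a.arg : ℂ) * I) =
      r * exp (((t - a.arg : ℝ) : ℂ) * I) - ‖a‖ := by
    have h2 : a = ‖a‖ * exp (a.arg * I) := (Complex.norm_mul_exp_arg_mul_I a).symm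
    have h3 : exp (a.arg * I) * exp (-(a.arg : ℂ) * I) = 1 := by
      rw [← Complex.exp_add]; simp
    have h4 : exp ((t : ℂ) * I) * exp (-(a.arg : ℂ) * I) = exp (((t - a.arg : ℝ) : ℂ) * I) := by
      rw [← Complex.exp_add]; congr 1; push_cast; ring
    rw [circleMap, zero_add, sub_mul, mul_assoc, h4]
    congr 1
    calc a * exp (-(a.arg : ℂ) * I) = ‖a‖ * exp (a.arg * I) * exp (-(a.arg : ℂ) * I) := by
          rw [← h2]
      _ = ‖a‖ := by rw [mul_assoc, h3, mul_one]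
  have h5 : ‖exp (-(a.arg : ℂ) * I)‖ = 1 := by
    have := Complex.norm_exp_ofReal_mul_I (-a.arg)
    push_cast at this
    exact this
  have h6 : ‖circleMap 0 r t - a‖ = ‖(r : ℂ) * exp (((t - a.arg : ℝ) : ℂ) * I) - ‖a‖‖ := by
    rw [← h1, norm_mul, h5, mul_one]
  rw [h6]
  refine le_trans (le_of_eq ?_) (Complex.abs_im_le_norm _)
  rw [Complex.sub_im, Complex.ofReal_im, sub_zero, Complex.im_ofReal_mul, Complex.exp_ofReal_mul_I_im, abs_mul,
    abs_of_nonneg hr]

/-- mean of `|r e^{it} - a|^{-1/2}` -/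
lemma integral_inv_sqrt_le {r : ℝ} (hr : 0 < r) (a : ℂ) :
    IntervalIntegrable (fun t : ℝ => (Real.sqrt ‖circleMap 0 r t - a‖)⁻¹) volume 0 (2 * Real.pi) ∧
    ∫ t in (0 : ℝ)..(2 * Real.pi), (Real.sqrt ‖circleMap 0 r t - a‖)⁻¹ ≤ S0 * (Real.sqrt r)⁻¹ := by
  have hpi := Real.pi_pos
  have hper : Function.Periodic (fun t : ℝ => (Real.sqrt |Real.sin t|)⁻¹) (2 * Real.pi) := by
    intro t
    simp only [Real.sin_add_two_pi]
  have hI : IntervalIntegrable (fun t : ℝ => (Real.sqrt |Real.sin (t - a.arg)|)⁻¹) volume 0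
      (2 * Real.pi) := by
    have := (intervalIntegrable_sin (0 - a.arg) (2 * Real.pi - a.arg)).comp_sub_right a.arg
    simpa using this
  have hint : ∫ t in (0 : ℝ)..(2 * Real.pi), (Real.sqrt |Real.sin (t - a.arg)|)⁻¹ = S0 := by
    rw [intervalIntegral.integral_comp_sub_right (fun t => (Real.sqrt |Real.sin t|)⁻¹) a.arg]
    have := hper.intervalIntegral_add_eq (0 - a.arg) 0
    rw [S0, ← zero_add (2 * Real.pi), ← this]
    congr 1
    ring
  have hae : ∀ᵐ t : ℝ, (Real.sqrt ‖circleMap 0 r t - a‖)⁻¹ ≤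
      (Real.sqrt r)⁻¹ * (Real.sqrt |Real.sin (t - a.arg)|)⁻¹ := by
    have hcount : (Set.range (fun n : ℤ => (n : ℝ) * Real.pi + a.arg)).Countable :=
      Set.countable_range _
    filter_upwards [hcount.ae_notMem volume] with t ht
    have hs : Real.sin (t - a.arg) ≠ 0 := by
      intro h0
      rw [Real.sin_eq_zero_iff] at h0
      obtain ⟨n, hn⟩ := h0
      exact ht ⟨n, by simp only; linarith⟩
    have hs1 : 0 < |Real.sin (t - a.arg)| := abs_pos.mpr hs
    rw [← mul_inv, ← Real.sqrt_mul hr.le]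
    apply inv_anti₀ (by positivity)
    exact Real.sqrt_le_sqrt (norm_circleMap_sub_ge r hr.le a t)
  have hint1 : IntervalIntegrable (fun t : ℝ => (Real.sqrt ‖circleMap 0 r t - a‖)⁻¹) volume 0
      (2 * Real.pi) := by
    refine IntervalIntegrable.mono_fun' (hI.const_mul (Real.sqrt r)⁻¹) ?_ ?_
    · apply Measurable.aestronglyMeasurable
      have := (continuous_circleMap 0 r).measurable
      fun_prop
    · refine ae_restrict_of_ae ?_
      filter_upwards [hae] with t ht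
      rw [Real.norm_of_nonneg (by positivity)]
      exact ht
  refine ⟨hint1, ?_⟩
  calc ∫ t in (0 : ℝ)..(2 * Real.pi), (Real.sqrt ‖circleMap 0 r t - a‖)⁻¹
      ≤ ∫ t in (0 : ℝ)..(2 * Real.pi), (Real.sqrt r)⁻¹ * (Real.sqrt |Real.sin (t - a.arg)|)⁻¹ :=
        intervalIntegral.integral_mono_ae (by positivity) hint1 (hI.const_mul _) hae
    _ = S0 * (Real.sqrt r)⁻¹ := by
        rw [intervalIntegral.integral_const_mul, hint, mul_comm]


/-! ### The lemma on the logarithmic derivative -/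

lemma posLog_le_two_sqrt {x : ℝ} (hx : 0 ≤ x) : Real.posLog x ≤ 2 * Real.sqrt x := by
  rw [Real.posLog_apply]
  apply max_le (by positivity)
  rcases hx.eq_or_lt with h | h
  · rw [← h]; simp
  · have h1 : 0 < Real.sqrt x := Real.sqrt_pos.mpr h
    have h2 : Real.log x = 2 * Real.log (Real.sqrt x) := by
      rw [Real.log_sqrt hx]; ring
    rw [h2]
    have := Real.log_le_sub_one_of_pos h1
    linarith

lemma logDeriv_mean (f : ℂ → ℂ) (hf : Differentiable ℂ f) (h0 : f 0 = 1)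
    (ρ C : ℝ) (hρ0 : 0 < ρ) (hρ1 : ρ < 1) (hC : 0 < C)
    (hgrow : ∀ z, ‖f z‖ ≤ Real.exp (C * (1 + ‖z‖ ^ ρ))) (r : ℝ) (hr : 1 ≤ r) :
    ∃ B : ℝ → ℝ, Function.Periodic B (2 * Real.pi) ∧ IntervalIntegrable B volume 0 (2 * Real.pi) ∧
      (∀ θ, 0 ≤ B θ) ∧
      (∀ᵐ θ : ℝ, Real.posLog ‖deriv f (circleMap 0 r θ)‖ ≤
        Real.posLog ‖f (circleMap 0 r θ)‖ + B θ) ∧
      ∫ θ in (0 : ℝ)..(2 * Real.pi), B θ ≤
        2 * (14 * C * r ^ ρ * (S0 * (Real.sqrt r)⁻¹) + 2 * Real.pi * Real.sqrt (84 * C)) := by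
  have hr0 : 0 < r := by linarith
  set L : ℝ := C * (1 + (6 * r) ^ ρ) with hL
  have hL0 : 0 < L := by positivity
  have hrρ : 1 ≤ r ^ ρ := Real.one_le_rpow hr hρ0.le
  have hL7 : L ≤ 7 * C * r ^ ρ := by
    have h1 : (6 * r) ^ ρ ≤ 6 * r ^ ρ := by
      rw [Real.mul_rpow (by norm_num) hr0.le]
      apply mul_le_mul_of_nonneg_right _ (by positivity)
      calc (6 : ℝ) ^ ρ ≤ 6 ^ (1 : ℝ) := Real.rpow_le_rpow_of_exponent_le (by norm_num) hρ1.le
        _ = 6 := Real.rpow_one _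
    rw [hL]
    nlinarith
  have hrρ1 : r ^ ρ ≤ r := by
    calc r ^ ρ ≤ r ^ (1 : ℝ) := Real.rpow_le_rpow_of_exponent_le hr hρ1.le
      _ = r := Real.rpow_one _
  have hM : ∀ z, ‖z‖ ≤ 3 * (2 * r) → ‖f z‖ ≤ Real.exp L := by
    intro z hz
    refine (hgrow z).trans (Real.exp_le_exp.mpr ?_)
    rw [hL]
    apply mul_le_mul_of_nonneg_left _ hC.le
    have : ‖z‖ ^ ρ ≤ (6 * r) ^ ρ := Real.rpow_le_rpow (norm_nonneg _) (by linarith) hρ0.le
    linarith
  obtain ⟨n, a, h, ha, hh, hh0, hfz, hz0, hn, hhM⟩ :=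
    exists_factor f hf h0 (R := 2 * r) (by positivity) hM
  have hn' : (n : ℝ) ≤ 14 * C * r ^ ρ := by
    have h1 : (n : ℝ) * Real.log 2 ≤ L := by
      have := Real.log_le_log (by positivity) hn
      rw [Real.log_pow, Real.log_exp] at this
      exact this
    have h2 := Real.log_two_gt_d9
    have h3 : (0 : ℝ) ≤ n := Nat.cast_nonneg n
    nlinarith
  set K : ℝ := 12 * L / r with hK
  have hK84 : K ≤ 84 * C := by
    rw [hK, div_le_iff₀ hr0]
    nlinarith
  have hlog : ∀ z, ‖z‖ ≤ r → ‖logDeriv h z‖ ≤ K := fun z hz =>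
    norm_logDeriv_le hh hh0 hr0 hL0 hz0 (fun z hz => hhM z (by linarith)) hz
  have hsqint : ∀ i, IntervalIntegrable (fun t : ℝ => (Real.sqrt ‖circleMap 0 r t - a i‖)⁻¹)
      volume 0 (2 * Real.pi) := fun i => (integral_inv_sqrt_le hr0 (a i)).1
  have hsumint : IntervalIntegrable (fun t : ℝ => ∑ i, (Real.sqrt ‖circleMap 0 r t - a i‖)⁻¹)
      volume 0 (2 * Real.pi) := by
    have h1 := IntervalIntegrable.sum (s := Finset.univ) (μ := volume) (a := 0)
      (b := 2 * Real.pi)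
      (f := fun i (t : ℝ) => (Real.sqrt ‖circleMap 0 r t - a i‖)⁻¹) (fun i _ => hsqint i)
    have h2 : (∑ i : Fin n, fun t : ℝ => (Real.sqrt ‖circleMap 0 r t - a i‖)⁻¹) =
        fun t : ℝ => ∑ i, (Real.sqrt ‖circleMap 0 r t - a i‖)⁻¹ := by
      ext t
      simp
    rw [h2] at h1
    exact h1
  refine ⟨fun θ => 2 * (∑ i, (Real.sqrt ‖circleMap 0 r θ - a i‖)⁻¹ + Real.sqrt K), ?_, ?_, ?_, ?_,
    ?_⟩
  · intro θ
    simp only [periodic_circleMap 0 r θ]
  · exact (hsumint.add intervalIntegrable_const).const_mul 2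
  · intro θ
    positivity
  · have hcount : ((circleMap 0 r) ⁻¹' (Set.range a)).Countable :=
      (Set.countable_range a).preimage_circleMap 0 hr0.ne'
    filter_upwards [hcount.ae_notMem volume] with θ hθ
    set z := circleMap 0 r θ with hz
    have hzn : ‖z‖ = r := by rw [hz]; simp [abs_of_pos hr0]
    have hfz0 : f z ≠ 0 := by
      rw [hfz z]
      refine mul_ne_zero (Finset.prod_ne_zero_iff.mpr ?_) (hz0 z (by linarith))
      intro i _ h1
      apply hθ
      refine ⟨i, ?_⟩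
      have h2 := (ha i).1
      have h3 : z / a i = 1 := (sub_eq_zero.mp h1).symm
      exact ((div_eq_one_iff_eq h2).mp h3).symm
    have h1 : ‖deriv f z‖ = ‖f z‖ * ‖deriv f z / f z‖ := by
      rw [← norm_mul, mul_div_cancel₀ _ hfz0]
    have h2 := sqrt_logDeriv_le hh hfz hfz0 (hlog z hzn.le) (fun i => (ha i).1)
    calc Real.posLog ‖deriv f z‖ ≤ Real.posLog ‖f z‖ + Real.posLog ‖deriv f z / f z‖ := by
          rw [h1]; exact Real.posLog_mul
      _ ≤ _ := by
          gcongr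
          exact (posLog_le_two_sqrt (norm_nonneg _)).trans
            (mul_le_mul_of_nonneg_left h2 (by norm_num))
  · rw [intervalIntegral.integral_const_mul]
    apply mul_le_mul_of_nonneg_left _ (by norm_num)
    rw [intervalIntegral.integral_add hsumint intervalIntegrable_const,
      intervalIntegral.integral_finsetSum (fun i _ => hsqint i)]
    apply add_le_add
    · calc ∑ i, ∫ t in (0 : ℝ)..(2 * Real.pi), (Real.sqrt ‖circleMap 0 r t - a i‖)⁻¹
          ≤ ∑ _i : Fin n, S0 * (Real.sqrt r)⁻¹ :=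
            Finset.sum_le_sum (fun i _ => (integral_inv_sqrt_le hr0 (a i)).2)
        _ = n * (S0 * (Real.sqrt r)⁻¹) := by simp
        _ ≤ 14 * C * r ^ ρ * (S0 * (Real.sqrt r)⁻¹) :=
            mul_le_mul_of_nonneg_right hn' (mul_nonneg S0_nonneg (by positivity))
    · rw [intervalIntegral.integral_const, sub_zero, smul_eq_mul]
      exact mul_le_mul_of_nonneg_left (Real.sqrt_le_sqrt hK84) (by positivity)


lemma continuous_posLog_norm {g : ℂ → ℂ} (hg : Continuous g) (r : ℝ) :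
    Continuous (fun θ : ℝ => Real.posLog ‖g (circleMap 0 r θ)‖) := by
  have h1 : (fun θ : ℝ => Real.posLog ‖g (circleMap 0 r θ)‖) =
      fun θ : ℝ => Real.log (max 1 ‖g (circleMap 0 r θ)‖) := by
    ext θ
    exact Real.posLog_eq_log_max_one (norm_nonneg _)
  rw [h1]
  have h2 : Continuous (fun θ : ℝ => max 1 ‖g (circleMap 0 r θ)‖) := by
    have := continuous_circleMap 0 r
    fun_prop
  exact h2.log (fun θ => (lt_of_lt_of_le one_pos (le_max_left _ _)).ne')

/-- PART C + D2 (Nevanlinna part: lemma on the logarithmic derivative and conclusion). -/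
theorem assembly (f : ℂ → ℂ) (hf : Differentiable ℂ f) (h0 : f 0 = 1)
    (ρ C c₁ c₂ r₀ : ℝ) (hρ0 : 0 < ρ) (hρ1 : ρ < 1) (hC : 0 < C) (hc₁ : 0 < c₁) (hc₂ : 0 < c₂)
    (hgrow : ∀ z, ‖f z‖ ≤ Real.exp (C * (1 + ‖z‖ ^ ρ)))
    (hflat : ∀ r, r₀ ≤ r → ∃ θ₀ : ℝ, ∀ θ : ℝ, |θ - θ₀| ≤ c₁ →
      Real.exp (c₂ * r ^ ρ) * max 1 ‖deriv f (circleMap 0 r θ)‖ ≤ ‖f (circleMap 0 r θ)‖) :
    ∃ ε : ℝ, 0 < ε ∧ ∃ R : ℝ, ∀ r, R ≤ r →
      (1 + ε) * ((1 / (2 * Real.pi)) *
          intervalIntegral (fun θ : ℝ => max 0 (Real.log ‖deriv f (circleMap 0 r θ)‖))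
            0 (2 * Real.pi) MeasureTheory.volume) <
        (1 / (2 * Real.pi)) *
          intervalIntegral (fun θ : ℝ => max 0 (Real.log ‖f (circleMap 0 r θ)‖))
            0 (2 * Real.pi) MeasureTheory.volume := by
  have hpi := Real.pi_pos
  set c' : ℝ := min c₁ Real.pi with hc'
  have hc'0 : 0 < c' := lt_min hc₁ hpi
  -- the gain
  set δ : ℝ := c' * c₂ with hδ
  have hδ0 : 0 < δ := mul_pos hc'0 hc₂
  -- main inequality
  have hmain : ∀ r, max 1 r₀ ≤ r →
      (∫ θ in (0 : ℝ)..(2 * Real.pi), Real.posLog ‖deriv f (circleMap 0 r θ)‖) +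
        2 * δ * r ^ ρ ≤
      (∫ θ in (0 : ℝ)..(2 * Real.pi), Real.posLog ‖f (circleMap 0 r θ)‖) +
        2 * (14 * C * r ^ ρ * (S0 * (Real.sqrt r)⁻¹) + 2 * Real.pi * Real.sqrt (84 * C)) := by
    intro r hr
    have hr1 : 1 ≤ r := (le_max_left _ _).trans hr
    obtain ⟨θ₀, hθ₀⟩ := hflat r ((le_max_right _ _).trans hr)
    obtain ⟨B, hBper, hBint, hB0, hBae, hBle⟩ :=
      logDeriv_mean f hf h0 ρ C hρ0 hρ1 hC hgrow r hr1
    set P : ℝ → ℝ := fun θ => Real.posLog ‖f (circleMap 0 r θ)‖ with hP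
    set Q : ℝ → ℝ := fun θ => Real.posLog ‖deriv f (circleMap 0 r θ)‖ with hQ
    have hPc : Continuous P := continuous_posLog_norm hf.continuous r
    have hQc : Continuous Q :=
      continuous_posLog_norm (hf.contDiff (n := 1)).continuous_deriv_one r
    set D : ℝ → ℝ := fun θ => P θ + B θ - Q θ with hD
    have hPI : ∀ a b, IntervalIntegrable P volume a b := fun a b => hPc.intervalIntegrable a b
    have hQI : ∀ a b, IntervalIntegrable Q volume a b := fun a b => hQc.intervalIntegrable a b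
    have hBI : ∀ a b, IntervalIntegrable B volume a b := fun a b =>
      hBper.intervalIntegrable₀ (by positivity) hBint a b
    have hDI : ∀ a b, IntervalIntegrable D volume a b := fun a b =>
      ((hPI a b).add (hBI a b)).sub (hQI a b)
    have hDper : Function.Periodic D (2 * Real.pi) := by
      intro θ
      simp only [hD, hP, hQ, periodic_circleMap 0 r θ, hBper θ]
    have hD0 : ∀ᵐ θ : ℝ, 0 ≤ D θ := by
      filter_upwards [hBae] with θ hθ
      simp only [hD, hP, hQ]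
      linarith
    have hDarc : ∀ θ, |θ - θ₀| ≤ c₁ → c₂ * r ^ ρ ≤ D θ := by
      intro θ hθ
      have h1 := hθ₀ θ hθ
      have h2 : Q θ + c₂ * r ^ ρ ≤ P θ := by
        simp only [hP, hQ]
        rw [Real.posLog_eq_log_max_one (norm_nonneg (deriv f (circleMap 0 r θ)))]
        have h3 : 0 < max 1 ‖deriv f (circleMap 0 r θ)‖ := lt_of_lt_of_le one_pos (le_max_left _ _)
        have h4 := Real.log_le_log (by positivity) h1
        rw [Real.log_mul (Real.exp_pos _).ne' h3.ne', Real.log_exp] at h4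
        rw [Real.posLog_apply]
        exact le_trans (by linarith) (le_max_right _ _)
      have h3 := hB0 θ
      simp only [hD]
      linarith
    have hshift : ∫ θ in (0 : ℝ)..(2 * Real.pi), D θ =
        ∫ θ in (θ₀ - Real.pi)..(θ₀ + Real.pi), D θ := by
      have := hDper.intervalIntegral_add_eq (θ₀ - Real.pi) 0
      rw [zero_add] at this
      rw [← this]
      congr 1
      ring
    have hsub : ∫ θ in (θ₀ - c')..(θ₀ + c'), D θ ≤
        ∫ θ in (θ₀ - Real.pi)..(θ₀ + Real.pi), D θ := by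
      have h1 : c' ≤ Real.pi := min_le_right _ _
      refine intervalIntegral.integral_mono_interval (by linarith) (by linarith) (by linarith)
        (ae_restrict_of_ae hD0) (hDI _ _)
    have harc : 2 * δ * r ^ ρ ≤ ∫ θ in (θ₀ - c')..(θ₀ + c'), D θ := by
      have h1 : ∫ _θ in (θ₀ - c')..(θ₀ + c'), c₂ * r ^ ρ ≤ ∫ θ in (θ₀ - c')..(θ₀ + c'), D θ := by
        refine intervalIntegral.integral_mono_on (by linarith) intervalIntegrable_const
          (hDI _ _) ?_
        intro θ hθ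
        apply hDarc
        have h2 : c' ≤ c₁ := min_le_left _ _
        rw [abs_le]
        constructor <;> linarith [hθ.1, hθ.2]
      rw [intervalIntegral.integral_const, smul_eq_mul] at h1
      refine le_trans (le_of_eq ?_) h1
      rw [hδ]; ring
    have hsplit : ∫ θ in (0 : ℝ)..(2 * Real.pi), D θ =
        (∫ θ in (0 : ℝ)..(2 * Real.pi), P θ) + (∫ θ in (0 : ℝ)..(2 * Real.pi), B θ) -
          ∫ θ in (0 : ℝ)..(2 * Real.pi), Q θ := by
      simp only [hD]
      rw [intervalIntegral.integral_sub ((hPI _ _).add (hBI _ _)) (hQI _ _),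
        intervalIntegral.integral_add (hPI _ _) (hBI _ _)]
    linarith
  -- upper bound for the mean of log+ |f'|
  have hup : ∀ r, 1 ≤ r →
      (∫ θ in (0 : ℝ)..(2 * Real.pi), Real.posLog ‖deriv f (circleMap 0 r θ)‖) ≤
        2 * Real.pi * (3 * C * r ^ ρ) := by
    intro r hr
    have hr0 : 0 < r := by linarith
    have hrρ : 1 ≤ r ^ ρ := Real.one_le_rpow hr hρ0.le
    have hpt : ∀ θ, Real.posLog ‖deriv f (circleMap 0 r θ)‖ ≤ 3 * C * r ^ ρ := by
      intro θ
      set z := circleMap 0 r θ with hz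
      have hzn : ‖z‖ = r := by rw [hz]; simp [abs_of_pos hr0]
      have h1 : ‖deriv f z‖ ≤ Real.exp (C * (1 + (2 * r) ^ ρ)) / 1 := by
        refine Complex.norm_deriv_le_of_forall_mem_sphere_norm_le one_pos hf.diffContOnCl ?_
        intro w hw
        refine (hgrow w).trans (Real.exp_le_exp.mpr ?_)
        apply mul_le_mul_of_nonneg_left _ hC.le
        rw [mem_sphere, dist_eq_norm] at hw
        have h2 : ‖w‖ ≤ 2 * r := by
          have : ‖w‖ ≤ ‖w - z‖ + ‖z‖ := by simpa using norm_add_le (w - z) z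
          linarith
        have := Real.rpow_le_rpow (norm_nonneg _) h2 hρ0.le
        linarith
      rw [div_one] at h1
      have h3 : (2 * r) ^ ρ ≤ 2 * r ^ ρ := by
        rw [Real.mul_rpow (by norm_num) hr0.le]
        apply mul_le_mul_of_nonneg_right _ (by positivity)
        calc (2 : ℝ) ^ ρ ≤ 2 ^ (1 : ℝ) := Real.rpow_le_rpow_of_exponent_le (by norm_num) hρ1.le
          _ = 2 := Real.rpow_one _
      calc Real.posLog ‖deriv f z‖ ≤ Real.posLog (Real.exp (C * (1 + (2 * r) ^ ρ))) :=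
            Real.posLog_le_posLog (norm_nonneg _) h1
        _ = C * (1 + (2 * r) ^ ρ) := by
            rw [Real.posLog_apply, Real.log_exp]
            exact max_eq_right (by positivity)
        _ ≤ 3 * C * r ^ ρ := by nlinarith
    calc (∫ θ in (0 : ℝ)..(2 * Real.pi), Real.posLog ‖deriv f (circleMap 0 r θ)‖)
        ≤ ∫ _θ in (0 : ℝ)..(2 * Real.pi), 3 * C * r ^ ρ := by
          refine intervalIntegral.integral_mono_on (by positivity) ?_ intervalIntegrable_const
            (fun θ _ => hpt θ)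
          exact (continuous_posLog_norm
            (hf.contDiff (n := 1)).continuous_deriv_one r).intervalIntegrable _ _
      _ = 2 * Real.pi * (3 * C * r ^ ρ) := by
          rw [intervalIntegral.integral_const, smul_eq_mul, sub_zero]
  -- choice of constants
  have hev1 : ∀ᶠ r : ℝ in Filter.atTop, 28 * C * S0 * (Real.sqrt r)⁻¹ ≤ δ / 4 := by
    have h1 : Filter.Tendsto (fun r : ℝ => 28 * C * S0 * (Real.sqrt r)⁻¹) Filter.atTop
        (nhds (28 * C * S0 * 0)) :=
      (Filter.Tendsto.const_mul _ (Real.tendsto_sqrt_atTop.inv_tendsto_atTop))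
    rw [mul_zero] at h1
    exact h1.eventually (ge_mem_nhds (by positivity))
  have hev2 : ∀ᶠ r : ℝ in Filter.atTop, 4 * Real.pi * Real.sqrt (84 * C) ≤ δ / 4 * r ^ ρ := by
    have h1 : Filter.Tendsto (fun r : ℝ => δ / 4 * r ^ ρ) Filter.atTop Filter.atTop :=
      (tendsto_rpow_atTop hρ0).const_mul_atTop (by positivity)
    exact h1.eventually_ge_atTop _
  obtain ⟨R₁, hR₁⟩ := (hev1.and hev2).exists_forall_of_atTop
  refine ⟨δ / (12 * Real.pi * C), by positivity, max (max 1 r₀) R₁, ?_⟩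
  intro r hr
  have hr1 : max 1 r₀ ≤ r := (le_max_left _ _).trans hr
  have hr2 : 1 ≤ r := (le_max_left _ _).trans hr1
  have hr0 : 0 < r := by linarith
  obtain ⟨h1, h2⟩ := hR₁ r ((le_max_right _ _).trans hr)
  have hm := hmain r hr1
  have hu := hup r hr2
  have hrρ : 0 < r ^ ρ := by positivity
  set TP : ℝ := ∫ θ in (0 : ℝ)..(2 * Real.pi), Real.posLog ‖f (circleMap 0 r θ)‖ with hTP
  set TQ : ℝ := ∫ θ in (0 : ℝ)..(2 * Real.pi), Real.posLog ‖deriv f (circleMap 0 r θ)‖ with hTQ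
  have h3 : δ / (12 * Real.pi * C) * TQ ≤ δ / 2 * r ^ ρ := by
    calc δ / (12 * Real.pi * C) * TQ ≤ δ / (12 * Real.pi * C) * (2 * Real.pi * (3 * C * r ^ ρ)) :=
          mul_le_mul_of_nonneg_left hu (by positivity)
      _ = δ / 2 * r ^ ρ := by field_simp; ring
  have h4 : 14 * C * r ^ ρ * (S0 * (Real.sqrt r)⁻¹) * 2 ≤ δ / 4 * r ^ ρ := by
    calc 14 * C * r ^ ρ * (S0 * (Real.sqrt r)⁻¹) * 2 = 28 * C * S0 * (Real.sqrt r)⁻¹ * r ^ ρ := by
          ring
      _ ≤ δ / 4 * r ^ ρ := mul_le_mul_of_nonneg_right h1 hrρ.le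
  have h5 : 0 < δ * r ^ ρ := by positivity
  have h6 : (1 + δ / (12 * Real.pi * C)) * TQ < TP := by
    rw [add_mul, one_mul]
    nlinarith
  have h7 : (1 + δ / (12 * Real.pi * C)) * ((1 / (2 * Real.pi)) * TQ) <
      (1 / (2 * Real.pi)) * TP := by
    calc (1 + δ / (12 * Real.pi * C)) * ((1 / (2 * Real.pi)) * TQ) =
          (1 / (2 * Real.pi)) * ((1 + δ / (12 * Real.pi * C)) * TQ) := by ring
      _ < (1 / (2 * Real.pi)) * TP := mul_lt_mul_of_pos_left h6 (by positivity)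
  exact h7

end Pool.Agent.NevChar
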