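import Pool.Agent.Lib_MP_2ed15d_an.Defs

set_option autoImplicit false

open Metric Complex Finset

namespace Pool.Agent.NevChar

namespace D0

/-- squared distance from `x e^{iθ}` to `1` -/
lemma norm_sub_one_sq (x θ : ℝ) :
    ‖(x : ℂ) * Complex.exp (θ * I) - 1‖ ^ 2 = (x - 1) ^ 2 + 2 * x * (1 - Real.cos θ) := by
  have h1 : (x : ℂ) * Complex.exp (θ * I) - 1
      = ((x * Real.cos θ - 1 : ℝ) : ℂ) + ((x * Real.sin θ : ℝ) : ℂ) * I := by
    rw [Complex.exp_mul_I]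
    push_cast
    ring
  rw [h1, ← Complex.normSq_eq_norm_sq, Complex.normSq_add_mul_I]
  have := Real.sin_sq_add_cos_sq θ
  linear_combination x ^ 2 * this

lemma two_sin_le (x θ : ℝ) (hx : 1 ≤ x) :
    2 * |Real.sin (θ / 2)| ≤ ‖(x : ℂ) * Complex.exp (θ * I) - 1‖ := by
  have h1 := norm_sub_one_sq x θ
  have h2 : Real.cos θ = 1 - 2 * Real.sin (θ / 2) ^ 2 := by
    have h3 := Real.cos_two_mul (θ / 2)
    have h4 := Real.sin_sq_add_cos_sq (θ / 2)
    have h5 : 2 * (θ / 2) = θ := by ring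
    rw [h5] at h3
    linarith
  have h3 : (2 * |Real.sin (θ / 2)|) ^ 2 ≤ ‖(x : ℂ) * Complex.exp (θ * I) - 1‖ ^ 2 := by
    rw [h1, h2, mul_pow, sq_abs]
    nlinarith [sq_nonneg (Real.sin (θ / 2)), sq_nonneg (x - 1),
      mul_nonneg (sub_nonneg.2 hx) (sq_nonneg (Real.sin (θ / 2)))]
  exact (pow_le_pow_iff_left₀ (by positivity) (norm_nonneg _) two_ne_zero).1 h3

lemma one_le_lam (S : ℕ) : 1 ≤ lam S := by
  unfold lam
  have : 0 ≤ 1 / (S : ℝ) ^ 2 := by positivity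
  linarith

lemma qq_pow (S k : ℕ) :
    qq S ^ k = ((lam S ^ k : ℝ) : ℂ) * Complex.exp (((2 * Real.pi * k / S : ℝ) : ℂ) * I) := by
  unfold qq
  rw [mul_pow, ← Complex.exp_nat_mul]
  push_cast
  congr 2
  ring

lemma sub_one_le (S k : ℕ) : lam S ^ k - 1 ≤ ‖qq S ^ k - 1‖ := by
  have h1 : ‖qq S ^ k‖ = lam S ^ k := by
    rw [qq_pow, norm_mul, Complex.norm_exp_ofReal_mul_I, Complex.norm_real, mul_one,
      Real.norm_of_nonneg (by have := one_le_lam S; positivity)]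
  have h2 := norm_sub_norm_le (qq S ^ k) 1
  rw [h1, norm_one] at h2
  exact h2

lemma bern (S k : ℕ) : (k : ℝ) / (S : ℝ) ^ 2 ≤ lam S ^ k - 1 := by
  have h := one_add_mul_le_pow (a := 1 / (S : ℝ) ^ 2)
    (by have : (0 : ℝ) ≤ 1 / (S : ℝ) ^ 2 := by positivity
        linarith) k
  unfold lam
  have h2 : (k : ℝ) / (S : ℝ) ^ 2 = k * (1 / (S : ℝ) ^ 2) := by ring
  rw [h2]
  linarith

lemma sin_le (S k : ℕ) : 2 * |Real.sin (Real.pi * k / S)| ≤ ‖qq S ^ k - 1‖ := by
  rw [qq_pow]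
  have h := two_sin_le (lam S ^ k) (2 * Real.pi * k / S) (one_le_pow₀ (one_le_lam S))
  have h2 : 2 * Real.pi * k / S / 2 = Real.pi * k / S := by ring
  rw [h2] at h
  exact h

lemma abs_sin_add (S u v : ℕ) (hS : 0 < S) :
    |Real.sin (Real.pi * ((u * S + v : ℕ) : ℝ) / S)| = |Real.sin (Real.pi * v / S)| := by
  have hS' : (S : ℝ) ≠ 0 := by positivity
  have h : Real.pi * ((u * S + v : ℕ) : ℝ) / S = Real.pi * v / S + u * Real.pi := by
    push_cast
    field_simp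
    ring
  rw [h, Real.sin_add_nat_mul_pi, abs_mul, abs_pow, abs_neg, abs_one, one_pow, one_mul]

lemma sin_lower (S v : ℕ) (hS : 0 < S) (hv : 2 * v ≤ S) :
    2 * (v : ℝ) / S ≤ Real.sin (Real.pi * v / S) := by
  have hS' : (0 : ℝ) < S := by positivity
  have h1 : (2 : ℝ) * v ≤ S := by exact_mod_cast hv
  have hpi := Real.pi_pos
  have h := Real.mul_le_sin (x := Real.pi * v / S) (by positivity) (by
    rw [div_le_div_iff₀ hS' (by norm_num)]
    nlinarith)
  refine le_trans (le_of_eq ?_) h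
  field_simp

/-- weights -/
noncomputable def al (u : ℕ) : ℝ := 1 / Real.sqrt (max (u : ℝ) 1)

noncomputable def be (S v : ℕ) : ℝ :=
  if v = 0 then 2 else 1 / Real.sqrt v + 1 / Real.sqrt ((S : ℝ) - v)

lemma al_nonneg (u : ℕ) : 0 ≤ al u := by unfold al; positivity

lemma key_aux (S : ℝ) (u v N : ℝ) (hS : 0 < S) (hv : 0 < v)
    (h1 : u / S ≤ N) (h2 : 4 * v / S ≤ N) (hv1 : 1 ≤ v) :
    1 / N ≤ S / 2 * (1 / Real.sqrt (max u 1)) * (1 / Real.sqrt v) := by
  have hN : 0 < N := lt_of_lt_of_le (by positivity) h2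
  have hm : 0 < max u 1 := lt_of_lt_of_le one_pos (le_max_right _ _)
  have h3 : (max u 1) * (4 * v) ≤ (N * S) ^ 2 := by
    have h4 : u ≤ N * S := by rwa [div_le_iff₀ hS] at h1
    have h5 : 4 * v ≤ N * S := by rwa [div_le_iff₀ hS] at h2
    have h6 : max u 1 ≤ N * S := max_le h4 (by linarith)
    calc (max u 1) * (4 * v) ≤ (N * S) * (N * S) := by
          apply mul_le_mul h6 h5 (by positivity) (by positivity)
      _ = (N * S) ^ 2 := by ring
  have h4 : Real.sqrt (max u 1) * Real.sqrt v * 2 ≤ N * S := by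
    have h5 : (Real.sqrt (max u 1) * Real.sqrt v * 2) ^ 2 ≤ (N * S) ^ 2 := by
      rw [mul_pow, mul_pow, Real.sq_sqrt hm.le, Real.sq_sqrt hv.le]
      nlinarith
    exact (pow_le_pow_iff_left₀ (by positivity) (by positivity) two_ne_zero).1 h5
  have h5 : 0 < Real.sqrt (max u 1) := Real.sqrt_pos.2 hm
  have h6 : 0 < Real.sqrt v := Real.sqrt_pos.2 hv
  rw [show S / 2 * (1 / Real.sqrt (max u 1)) * (1 / Real.sqrt v)
    = S / (Real.sqrt (max u 1) * Real.sqrt v * 2) by field_simp]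
  rw [div_le_div_iff₀ hN (by positivity)]
  linarith

lemma key (S u v : ℕ) (hS : 0 < S) (hv : v < S) :
    1 / ‖qq S ^ (u * S + v) - 1‖ ≤ (S : ℝ) / 2 * al u * be S v := by
  have hS' : (0 : ℝ) < S := by positivity
  set N := ‖qq S ^ (u * S + v) - 1‖ with hN
  have h1 : (u : ℝ) / S ≤ N := by
    have h2 := (bern S (u * S + v)).trans (sub_one_le S (u * S + v))
    refine le_trans ?_ h2
    rw [div_le_div_iff₀ hS' (by positivity)]
    push_cast
    nlinarith [mul_nonneg (Nat.cast_nonneg (α := ℝ) v) hS'.le]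
  rcases Nat.eq_zero_or_pos v with h0 | hv0
  · subst h0
    unfold be
    rw [if_pos rfl]
    rcases Nat.eq_zero_or_pos u with hu | hu
    · subst hu
      have : N = 0 := by rw [hN]; simp
      rw [this]
      have := al_nonneg 0
      simp only [div_zero]
      positivity
    · have hu' : (1 : ℝ) ≤ u := by exact_mod_cast hu
      have h3 : 0 < N := lt_of_lt_of_le (by positivity) h1
      unfold al
      rw [max_eq_left hu']
      have h4 : Real.sqrt u ≤ u := by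
        rw [Real.sqrt_le_left (by positivity)]
        nlinarith
      have h5 : 0 < Real.sqrt u := Real.sqrt_pos.2 (by positivity)
      rw [show (S : ℝ) / 2 * (1 / Real.sqrt u) * 2 = S / Real.sqrt u by field_simp]
      rw [div_le_div_iff₀ h3 h5]
      rw [div_le_iff₀ hS'] at h1
      linarith
  · have hsin := sin_le S (u * S + v)
    rw [abs_sin_add S u v hS] at hsin
    unfold be
    rw [if_neg hv0.ne']
    have hvS : (v : ℝ) < S := by exact_mod_cast hv
    have hv1 : (1 : ℝ) ≤ v := by exact_mod_cast hv0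
    rcases le_or_gt (2 * v) S with h2 | h2
    · have h3 := sin_lower S v hS h2
      have h4 : 4 * (v : ℝ) / S ≤ N := by
        refine le_trans ?_ hsin
        have h5 := le_abs_self (Real.sin (Real.pi * v / S))
        have h6 : 4 * (v : ℝ) / S = 2 * (2 * (v : ℝ) / S) := by ring
        rw [h6]
        linarith
      have h5 := key_aux S u v N hS' (by positivity) h1 h4 hv1
      refine h5.trans ?_
      have h6 : 0 ≤ 1 / Real.sqrt ((S : ℝ) - v) := by positivity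
      have h7 := al_nonneg u
      have h8 : (S : ℝ) / 2 * (1 / Real.sqrt (max (u : ℝ) 1)) = (S : ℝ) / 2 * al u := rfl
      rw [h8]
      apply mul_le_mul_of_nonneg_left _ (by positivity)
      linarith
    · have h3 := sin_lower S (S - v) hS (by omega)
      have hc : ((S - v : ℕ) : ℝ) = S - v := by push_cast [hv.le]; ring
      have h3' : Real.sin (Real.pi * ((S - v : ℕ) : ℝ) / S) = Real.sin (Real.pi * v / S) := by
        rw [hc, show Real.pi * ((S : ℝ) - v) / S = Real.pi - Real.pi * v / S by field_simp,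
          Real.sin_pi_sub]
      rw [h3'] at h3
      have h4 : 4 * ((S - v : ℕ) : ℝ) / S ≤ N := by
        refine le_trans ?_ hsin
        have h5 := le_abs_self (Real.sin (Real.pi * v / S))
        have h6 : 4 * ((S - v : ℕ) : ℝ) / S = 2 * (2 * ((S - v : ℕ) : ℝ) / S) := by ring
        rw [h6]
        linarith
      have hv2 : (1 : ℝ) ≤ ((S - v : ℕ) : ℝ) := by
        have : 1 ≤ S - v := by omega
        exact_mod_cast this
      have h5 := key_aux S u ((S - v : ℕ) : ℝ) N hS' (by linarith) h1 h4 hv2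
      refine h5.trans ?_
      rw [hc]
      have h6 : 0 ≤ 1 / Real.sqrt (v : ℝ) := by positivity
      have h7 := al_nonneg u
      have h8 : (S : ℝ) / 2 * (1 / Real.sqrt (max (u : ℝ) 1)) = (S : ℝ) / 2 * al u := rfl
      rw [h8]
      apply mul_le_mul_of_nonneg_left _ (by positivity)
      linarith

lemma sum_inv_sqrt (n : ℕ) : ∑ j ∈ range n, 1 / Real.sqrt ((j : ℝ) + 1) ≤ 2 * Real.sqrt n := by
  induction n with
  | zero => simp
  | succ n ih =>
    rw [sum_range_succ]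
    refine (add_le_add_left ih _).trans ?_
    push_cast
    have h1 : 0 ≤ (n : ℝ) := Nat.cast_nonneg n
    have h2 : 0 < Real.sqrt ((n : ℝ) + 1) := Real.sqrt_pos.2 (by linarith)
    have h3 := Real.sq_sqrt (show (0 : ℝ) ≤ n + 1 by linarith)
    have h4 := Real.sq_sqrt h1
    have h5 := Real.sqrt_nonneg (n : ℝ)
    have h6 : 1 / Real.sqrt ((n : ℝ) + 1) ≤ 2 * (Real.sqrt ((n : ℝ) + 1) - Real.sqrt n) := by
      rw [div_le_iff₀ h2]
      nlinarith [sq_nonneg (Real.sqrt ((n : ℝ) + 1) - Real.sqrt n)]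
    linarith

lemma sum_al (S : ℕ) : ∑ u ∈ range (S + 1), al u ≤ 1 + 2 * Real.sqrt S := by
  rw [sum_range_succ']
  have h0 : al 0 = 1 := by unfold al; simp
  rw [h0]
  have h1 : ∀ u ∈ range S, al (u + 1) = 1 / Real.sqrt ((u : ℝ) + 1) := by
    intro u _
    unfold al
    rw [max_eq_left (by push_cast; have := Nat.cast_nonneg (α := ℝ) u; linarith)]
    push_cast
    rfl
  rw [sum_congr rfl h1]
  have := sum_inv_sqrt S
  linarith

lemma sum_be (S : ℕ) (hS : 0 < S) : ∑ v ∈ range S, be S v ≤ 2 + 4 * Real.sqrt S := by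
  obtain ⟨T, rfl⟩ : ∃ T, S = T + 1 := ⟨S - 1, by omega⟩
  rw [sum_range_succ']
  have h0 : be (T + 1) 0 = 2 := by unfold be; simp
  rw [h0]
  have h1 : ∀ v ∈ range T, be (T + 1) (v + 1)
      = 1 / Real.sqrt ((v : ℝ) + 1) + 1 / Real.sqrt ((T : ℝ) - v) := by
    intro v _
    unfold be
    rw [if_neg (Nat.succ_ne_zero v)]
    push_cast
    congr 3
    ring
  rw [sum_congr rfl h1, sum_add_distrib]
  have h2 := sum_inv_sqrt T
  have h3 : ∑ v ∈ range T, 1 / Real.sqrt ((T : ℝ) - v)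
      = ∑ v ∈ range T, 1 / Real.sqrt ((v : ℝ) + 1) := by
    rw [← sum_range_reflect (fun v : ℕ => 1 / Real.sqrt ((v : ℝ) + 1)) T]
    apply sum_congr rfl
    intro v hv
    have hv' : v < T := mem_range.1 hv
    have : ((T - 1 - v : ℕ) : ℝ) + 1 = T - v := by
      have h4 : ((T - 1 - v : ℕ) : ℝ) = (T : ℝ) - 1 - v := by
        rw [Nat.cast_sub (by omega), Nat.cast_sub (by omega)]
        simp
      rw [h4]; ring
    rw [this]
  rw [h3]
  have h4 : Real.sqrt T ≤ Real.sqrt ((T + 1 : ℕ) : ℝ) := Real.sqrt_le_sqrt (by push_cast; linarith)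
  linarith

lemma sum_range_mul' (f : ℕ → ℝ) (S U : ℕ) :
    ∑ k ∈ range (U * S), f k = ∑ u ∈ range U, ∑ v ∈ range S, f (u * S + v) := by
  induction U with
  | zero => simp
  | succ U ih =>
    rw [Nat.succ_mul, sum_range_add, sum_range_succ, ih]

lemma sum_inv_N (S : ℕ) (hS : 0 < S) :
    ∑ k ∈ range ((S + 1) * S), 1 / ‖qq S ^ k - 1‖ ≤ 9 * (S : ℝ) ^ 2 := by
  have hS' : (1 : ℝ) ≤ S := by exact_mod_cast hS
  rw [sum_range_mul']
  have h1 : ∀ u ∈ range (S + 1), ∑ v ∈ range S, 1 / ‖qq S ^ (u * S + v) - 1‖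
      ≤ (S : ℝ) / 2 * al u * ∑ v ∈ range S, be S v := by
    intro u _
    rw [mul_sum]
    exact sum_le_sum fun v hv => key S u v hS (mem_range.1 hv)
  refine (sum_le_sum h1).trans ?_
  rw [← sum_mul, ← mul_sum]
  have h2 := sum_al S
  have h3 := sum_be S hS
  have h4 : 0 ≤ ∑ u ∈ range (S + 1), al u := sum_nonneg fun u _ => al_nonneg u
  have h5 : 1 ≤ Real.sqrt S := Real.one_le_sqrt.2 hS'
  have h6 := Real.sq_sqrt (show (0 : ℝ) ≤ S by linarith)
  calc (S : ℝ) / 2 * (∑ u ∈ range (S + 1), al u) * ∑ v ∈ range S, be S v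
      ≤ (S : ℝ) / 2 * (∑ u ∈ range (S + 1), al u) * (2 + 4 * Real.sqrt S) :=
        mul_le_mul_of_nonneg_left h3 (by positivity)
    _ ≤ (S : ℝ) / 2 * (1 + 2 * Real.sqrt S) * (2 + 4 * Real.sqrt S) := by
        apply mul_le_mul_of_nonneg_right _ (by positivity)
        exact mul_le_mul_of_nonneg_left h2 (by positivity)
    _ ≤ 9 * (S : ℝ) ^ 2 := by
        have h7 : (1 + 2 * Real.sqrt S) * (2 + 4 * Real.sqrt S) ≤ 18 * S := by nlinarith
        nlinarith

lemma lam_pow_ge_two (S k : ℕ) (hk : S ^ 2 ≤ k) (hS : 0 < S) : 2 ≤ lam S ^ k := by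
  have h1 := bern S k
  have h2 : (1 : ℝ) ≤ (k : ℝ) / (S : ℝ) ^ 2 := by
    rw [le_div_iff₀ (by positivity), one_mul]
    exact_mod_cast hk
  linarith

lemma half_le (S k : ℕ) (hk : S ^ 2 ≤ k) (hS : 0 < S) : lam S ^ k / 2 ≤ ‖qq S ^ k - 1‖ := by
  have h1 := lam_pow_ge_two S k hk hS
  have h2 := sub_one_le S k
  linarith

lemma one_le_mu (S : ℕ) (κ : ℝ) (hκ : 1000 ≤ κ) : 1 ≤ mu S κ := by
  unfold mu
  have : 0 ≤ 2 / (κ * (S : ℝ) ^ 2) := by positivity
  linarith

lemma mu_pow_le (S k : ℕ) (κ : ℝ) (hκ : 1000 ≤ κ) (hS : 0 < S) (hk : k ≤ (S + 1) * S) :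
    mu S κ ^ k ≤ 2 := by
  have hS' : (1 : ℝ) ≤ S := by exact_mod_cast hS
  have h1 : mu S κ ≤ Real.exp (2 / (κ * (S : ℝ) ^ 2)) := by
    unfold mu
    have := Real.add_one_le_exp (2 / (κ * (S : ℝ) ^ 2))
    linarith
  have h0 := one_le_mu S κ hκ
  calc mu S κ ^ k ≤ (Real.exp (2 / (κ * (S : ℝ) ^ 2))) ^ k :=
        pow_le_pow_left₀ (by linarith) h1 k
    _ = Real.exp (k * (2 / (κ * (S : ℝ) ^ 2))) := by rw [← Real.exp_nat_mul]
    _ ≤ Real.exp (1 / 2) := by
        apply Real.exp_le_exp.2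
        have h2 : (k : ℝ) ≤ (S + 1) * S := by exact_mod_cast hk
        have h3 : (k : ℝ) ≤ 2 * (S : ℝ) ^ 2 := by nlinarith
        rw [mul_div_assoc', div_le_div_iff₀ (by positivity) (by norm_num)]
        have h4 : 0 < (S : ℝ) ^ 2 := by positivity
        nlinarith
    _ ≤ 2 := by
        have h2 := Real.exp_one_lt_d9
        have h3 : Real.exp (1 / 2) ^ 2 = Real.exp 1 := by
          rw [← Real.exp_nat_mul]; norm_num
        have h4 := Real.exp_pos (1 / 2)
        nlinarith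

/-- part (1) -/
lemma part1 (S : ℕ) (hS : 0 < S) (k : ℕ) (hk : 0 < k) :
    (1 + lam S ^ k) / (8 * S) ≤ ‖qq S ^ k - 1‖ := by
  have hS' : (1 : ℝ) ≤ S := by exact_mod_cast hS
  have h0 := sub_one_le S k
  have hl : 1 ≤ lam S ^ k := one_le_pow₀ (one_le_lam S)
  rcases le_or_gt 2 (lam S ^ k) with h2 | h2
  · refine le_trans ?_ h0
    rw [div_le_iff₀ (by positivity)]
    nlinarith
  · -- lam ^ k < 2
    have h3 : (1 + lam S ^ k) / (8 * S) ≤ 3 / 8 / S := by
      rw [div_div, div_le_div_iff_of_pos_right (by positivity)]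
      linarith
    refine h3.trans ?_
    have hdm : k = (k / S) * S + k % S := by
      have := Nat.div_add_mod k S
      rw [mul_comm] at this
      exact this.symm
    rcases Nat.eq_zero_or_pos (k % S) with h4 | h4
    · have h5 : S ≤ k := Nat.le_of_dvd hk (Nat.dvd_of_mod_eq_zero h4)
      have h6 := bern S k
      refine le_trans ?_ (h6.trans h0)
      rw [div_le_div_iff₀ (by positivity) (by positivity)]
      have h7 : (S : ℝ) ≤ k := by exact_mod_cast h5
      nlinarith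
    · have hv : k % S < S := Nat.mod_lt _ hS
      have h5 := sin_le S k
      have h6 := abs_sin_add S (k / S) (k % S) hS
      rw [← hdm] at h6
      rw [h6] at h5
      refine le_trans ?_ h5
      set v := k % S with hvdef
      rcases le_or_gt (2 * v) S with h7 | h7
      · have h8 := sin_lower S v hS h7
        have h9 := le_abs_self (Real.sin (Real.pi * v / S))
        have hv1 : (1 : ℝ) ≤ v := by exact_mod_cast h4
        have h10 : 3 / 8 / (S : ℝ) ≤ 2 * (v : ℝ) / S := by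
          rw [div_le_div_iff_of_pos_right (by positivity)]
          linarith
        have h11 : 0 ≤ 2 * (v : ℝ) / S := by positivity
        linarith
      · have h3 := sin_lower S (S - v) hS (by omega)
        have hc : ((S - v : ℕ) : ℝ) = S - v := by push_cast [hv.le]; ring
        have h3' : Real.sin (Real.pi * ((S - v : ℕ) : ℝ) / S) = Real.sin (Real.pi * v / S) := by
          rw [hc, show Real.pi * ((S : ℝ) - v) / S = Real.pi - Real.pi * v / S by field_simp,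
            Real.sin_pi_sub]
        rw [h3'] at h3
        have h9 := le_abs_self (Real.sin (Real.pi * v / S))
        have hv1 : (1 : ℝ) ≤ ((S - v : ℕ) : ℝ) := by
          have : 1 ≤ S - v := by omega
          exact_mod_cast this
        have h10 : 3 / 8 / (S : ℝ) ≤ 2 * ((S - v : ℕ) : ℝ) / S := by
          rw [div_le_div_iff_of_pos_right (by positivity)]
          linarith
        have h11 : 0 ≤ 2 * ((S - v : ℕ) : ℝ) / S := by positivity
        linarith

lemma N_pos (S : ℕ) (hS : 0 < S) (k : ℕ) (hk : 0 < k) : 0 < ‖qq S ^ k - 1‖ := by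
  have h1 := part1 S hS k hk
  have hS' : (1 : ℝ) ≤ S := by exact_mod_cast hS
  have hl : 1 ≤ lam S ^ k := one_le_pow₀ (one_le_lam S)
  refine lt_of_lt_of_le ?_ h1
  positivity

lemma geom_bound (r : ℝ) (h0 : 0 ≤ r) (h1 : r < 1) (n : ℕ) :
    ∑ k ∈ range n, r ^ k ≤ 1 / (1 - r) := by
  have h := (summable_geometric_of_lt_one h0 h1).sum_le_tsum (range n) (fun k _ => pow_nonneg h0 k)
  rw [tsum_geometric_of_lt_one h0 h1, ← one_div] at h
  exact h

lemma ratio_bound (S : ℕ) (κ : ℝ) (hκ : 1000 ≤ κ) (hS : 0 < S) :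
    0 ≤ mu S κ / lam S ∧ mu S κ / lam S < 1 ∧ 1 / (1 - mu S κ / lam S) ≤ 3 * (S : ℝ) ^ 2 := by
  have hS' : (1 : ℝ) ≤ S := by exact_mod_cast hS
  have hl := one_le_lam S
  have hm := one_le_mu S κ hκ
  have hdiff : 998 / 1000 / (S : ℝ) ^ 2 ≤ lam S - mu S κ := by
    unfold lam mu
    have h1 : 2 / (κ * (S : ℝ) ^ 2) ≤ 2 / 1000 / (S : ℝ) ^ 2 := by
      rw [← div_div, div_le_div_iff_of_pos_right (by positivity)]
      rw [div_le_div_iff₀ (by linarith) (by norm_num)]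
      linarith
    have h2 : 998 / 1000 / (S : ℝ) ^ 2 = 1 / (S : ℝ) ^ 2 - 2 / 1000 / (S : ℝ) ^ 2 := by ring
    rw [h2]
    linarith
  have hpos : 0 < 998 / 1000 / (S : ℝ) ^ 2 := by positivity
  have hlm : mu S κ < lam S := by linarith
  refine ⟨by positivity, ?_, ?_⟩
  · rw [div_lt_one (by linarith)]; exact hlm
  · have h1 : 1 - mu S κ / lam S = (lam S - mu S κ) / lam S := by field_simp
    rw [h1, one_div_div, div_le_iff₀ (by linarith)]
    have h2 : lam S ≤ 2 := by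
      unfold lam
      have : 1 / (S : ℝ) ^ 2 ≤ 1 := by
        rw [div_le_one (by positivity)]
        nlinarith
      linarith
    have h3 : 3 * (S : ℝ) ^ 2 * (998 / 1000 / (S : ℝ) ^ 2) ≤ 3 * (S : ℝ) ^ 2 * (lam S - mu S κ) :=
      mul_le_mul_of_nonneg_left hdiff (by positivity)
    have h4 : 3 * (S : ℝ) ^ 2 * (998 / 1000 / (S : ℝ) ^ 2) = 2994 / 1000 := by field_simp; norm_num
    linarith

/-- partial sums, series (2) -/
lemma partial2 (S : ℕ) (κ : ℝ) (hκ : 1000 ≤ κ) (hS : 0 < S) (n : ℕ) :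
    ∑ k ∈ range n, mu S κ ^ (k + 1) / ‖qq S ^ (k + 1) - 1‖ ≤ 40 * (S : ℝ) ^ 2 := by
  have hm := one_le_mu S κ hκ
  have hl := one_le_lam S
  have h0 : ∑ k ∈ range n, mu S κ ^ (k + 1) / ‖qq S ^ (k + 1) - 1‖
      = ∑ k ∈ range (n + 1), mu S κ ^ k / ‖qq S ^ k - 1‖ := by
    rw [sum_range_succ' _ n]
    simp
  rw [h0]
  obtain ⟨r0, r1, r2⟩ := ratio_bound S κ hκ hS
  set r := mu S κ / lam S with hr
  have h1 : ∀ k ∈ range (n + 1), mu S κ ^ k / ‖qq S ^ k - 1‖
      ≤ (if k < (S + 1) * S then 2 * (1 / ‖qq S ^ k - 1‖) else 0) + 2 * r ^ k := by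
    intro k _
    split_ifs with hk
    · have h2 := mu_pow_le S k κ hκ hS hk.le
      have h3 : mu S κ ^ k / ‖qq S ^ k - 1‖ ≤ 2 * (1 / ‖qq S ^ k - 1‖) := by
        rw [div_eq_mul_one_div]
        exact mul_le_mul_of_nonneg_right h2 (by positivity)
      have h4 : 0 ≤ r ^ k := pow_nonneg r0 k
      linarith
    · have hk' : S ^ 2 ≤ k := by nlinarith
      have h2 := half_le S k hk' hS
      have h3 : 0 < lam S ^ k := by positivity
      have h4 : mu S κ ^ k / ‖qq S ^ k - 1‖ ≤ mu S κ ^ k / (lam S ^ k / 2) :=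
        div_le_div_of_nonneg_left (by positivity) (by positivity) h2
      have h5 : mu S κ ^ k / (lam S ^ k / 2) = 2 * r ^ k := by
        rw [hr, div_pow]; field_simp
      linarith
  refine (sum_le_sum h1).trans ?_
  rw [sum_add_distrib, ← mul_sum]
  have h2 := geom_bound r r0 r1 (n + 1)
  have h3 : ∑ k ∈ range (n + 1), (if k < (S + 1) * S then 2 * (1 / ‖qq S ^ k - 1‖) else 0)
      ≤ 18 * (S : ℝ) ^ 2 := by
    rw [← sum_filter]
    have h4 : (range (n + 1)).filter (fun k => k < (S + 1) * S) ⊆ range ((S + 1) * S) := by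
      intro k hk
      rw [mem_filter] at hk
      exact mem_range.2 hk.2
    refine (sum_le_sum_of_subset_of_nonneg h4 (fun k _ _ => by positivity)).trans ?_
    rw [← mul_sum]
    have := sum_inv_N S hS
    linarith
  have h4 : 0 ≤ (S : ℝ) ^ 2 := by positivity
  linarith

/-- partial sums, series (4) (up to constants) -/
lemma partial4 (S : ℕ) (κ : ℝ) (hκ : 1000 ≤ κ) (hS : 0 < S) (n : ℕ) :
    ∑ k ∈ range n, (mu S κ ^ (k + 1))⁻¹ * (lam S ^ (k + 1) * (1 + lam S ^ (k + 1))) /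
          ‖qq S ^ (k + 1) - 1‖ ^ 2 ≤ 2000 * (S : ℝ) ^ 3 + 20 * κ * (S : ℝ) ^ 2 := by
  have hS' : (1 : ℝ) ≤ S := by exact_mod_cast hS
  have hm := one_le_mu S κ hκ
  have hl := one_le_lam S
  have h0 : ∑ k ∈ range n, (mu S κ ^ (k + 1))⁻¹ * (lam S ^ (k + 1) * (1 + lam S ^ (k + 1))) /
          ‖qq S ^ (k + 1) - 1‖ ^ 2
      = ∑ k ∈ range (n + 1), (mu S κ ^ k)⁻¹ * (lam S ^ k * (1 + lam S ^ k)) /
          ‖qq S ^ k - 1‖ ^ 2 := by
    rw [sum_range_succ' _ n]
    simp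
  rw [h0]
  set r := (mu S κ)⁻¹ with hr
  have hm1 : 1 < mu S κ := by
    unfold mu
    have : 0 < 2 / (κ * (S : ℝ) ^ 2) := by positivity
    linarith
  have r0 : 0 ≤ r := by positivity
  have r1 : r < 1 := inv_lt_one_of_one_lt₀ hm1
  have r2 : 1 / (1 - r) ≤ κ * (S : ℝ) ^ 2 := by
    have h1 : 1 - r = (mu S κ - 1) / mu S κ := by rw [hr]; field_simp
    have h2 : mu S κ - 1 = 2 / (κ * (S : ℝ) ^ 2) := by unfold mu; ring
    have h3 : mu S κ ≤ 2 := by
      have := mu_pow_le S 1 κ hκ hS (by nlinarith)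
      simpa using this
    rw [h1, one_div_div, h2, div_le_iff₀ (by positivity)]
    have h4 : κ * (S : ℝ) ^ 2 * (2 / (κ * (S : ℝ) ^ 2)) = 2 := by field_simp
    linarith
  have h1 : ∀ k ∈ range (n + 1), (mu S κ ^ k)⁻¹ * (lam S ^ k * (1 + lam S ^ k)) /
          ‖qq S ^ k - 1‖ ^ 2
      ≤ (if k < (S + 1) * S then 160 * S * (1 / ‖qq S ^ k - 1‖) else 0) + 8 * r ^ k := by
    intro k _
    have hinv : (mu S κ ^ k)⁻¹ = r ^ k := by rw [hr, inv_pow]
    rw [hinv]
    have h4 : 0 ≤ r ^ k := pow_nonneg r0 k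
    have hlk : 1 ≤ lam S ^ k := one_le_pow₀ hl
    split_ifs with hk
    · rcases Nat.eq_zero_or_pos k with hk0 | hk0
      · subst hk0; simp
      · have hN := N_pos S hS k hk0
        have hp := part1 S hS k hk0
        have hlam : lam S ^ k ≤ 20 := by
          have h5 : lam S ≤ Real.exp (1 / (S : ℝ) ^ 2) := by
            unfold lam
            have := Real.add_one_le_exp (1 / (S : ℝ) ^ 2)
            linarith
          calc lam S ^ k ≤ (Real.exp (1 / (S : ℝ) ^ 2)) ^ k :=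
                pow_le_pow_left₀ (by linarith) h5 k
            _ = Real.exp (k * (1 / (S : ℝ) ^ 2)) := by rw [← Real.exp_nat_mul]
            _ ≤ Real.exp 2 := by
                apply Real.exp_le_exp.2
                have h2 : (k : ℝ) ≤ (S + 1) * S := by exact_mod_cast hk.le
                rw [mul_one_div, div_le_iff₀ (by positivity)]
                nlinarith
            _ ≤ 20 := by
                have h2 := Real.exp_one_lt_d9
                have h3 : Real.exp 1 ^ 2 = Real.exp 2 := by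
                  rw [← Real.exp_nat_mul]; norm_num
                have h4 := Real.exp_pos 1
                nlinarith
        have hrk : r ^ k ≤ 1 := pow_le_one₀ r0 r1.le
        have h5 : (1 + lam S ^ k) / ‖qq S ^ k - 1‖ ≤ 8 * S := by
          rw [div_le_iff₀ hN]
          rw [div_le_iff₀ (by positivity)] at hp
          linarith
        have h6 : r ^ k * (lam S ^ k * (1 + lam S ^ k)) / ‖qq S ^ k - 1‖ ^ 2
            = (r ^ k * lam S ^ k) * ((1 + lam S ^ k) / ‖qq S ^ k - 1‖) *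
              (1 / ‖qq S ^ k - 1‖) := by
          field_simp
        rw [h6]
        have h7 : r ^ k * lam S ^ k ≤ 20 := by nlinarith
        have h8 : (r ^ k * lam S ^ k) * ((1 + lam S ^ k) / ‖qq S ^ k - 1‖) ≤ 20 * (8 * S) :=
          mul_le_mul h7 h5 (by positivity) (by norm_num)
        have h9 : (r ^ k * lam S ^ k) * ((1 + lam S ^ k) / ‖qq S ^ k - 1‖) *
              (1 / ‖qq S ^ k - 1‖) ≤ 20 * (8 * S) * (1 / ‖qq S ^ k - 1‖) :=
          mul_le_mul_of_nonneg_right h8 (by positivity)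
        have h10 : 20 * (8 * (S : ℝ)) * (1 / ‖qq S ^ k - 1‖)
          = 160 * S * (1 / ‖qq S ^ k - 1‖) := by ring
        linarith
    · have hk' : S ^ 2 ≤ k := by nlinarith
      have h2 := half_le S k hk' hS
      have h2' := lam_pow_ge_two S k hk' hS
      have h3 : 0 < lam S ^ k := by positivity
      have hN : 0 < ‖qq S ^ k - 1‖ := lt_of_lt_of_le (by positivity) h2
      rw [zero_add, div_le_iff₀ (by positivity)]
      have h5 : lam S ^ k * (1 + lam S ^ k) ≤ 8 * ‖qq S ^ k - 1‖ ^ 2 := by nlinarith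
      calc r ^ k * (lam S ^ k * (1 + lam S ^ k)) ≤ r ^ k * (8 * ‖qq S ^ k - 1‖ ^ 2) :=
            mul_le_mul_of_nonneg_left h5 h4
        _ = 8 * r ^ k * ‖qq S ^ k - 1‖ ^ 2 := by ring
  refine (sum_le_sum h1).trans ?_
  rw [sum_add_distrib, ← mul_sum]
  have h2 := geom_bound r r0 r1 (n + 1)
  have h3 : ∑ k ∈ range (n + 1), (if k < (S + 1) * S then 160 * S * (1 / ‖qq S ^ k - 1‖) else 0)
      ≤ 1440 * (S : ℝ) ^ 3 := by
    rw [← sum_filter]
    have h4 : (range (n + 1)).filter (fun k => k < (S + 1) * S) ⊆ range ((S + 1) * S) := by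
      intro k hk
      rw [mem_filter] at hk
      exact mem_range.2 hk.2
    refine (sum_le_sum_of_subset_of_nonneg h4 (fun k _ _ => by positivity)).trans ?_
    rw [← mul_sum]
    have h5 := sum_inv_N S hS
    have h6 := mul_le_mul_of_nonneg_left h5 (show (0 : ℝ) ≤ 160 * S by positivity)
    refine h6.trans (le_of_eq ?_)
    ring
  have h4 : 0 ≤ (S : ℝ) ^ 3 := by positivity
  have h5 : 0 ≤ κ * (S : ℝ) ^ 2 := by positivity
  linarith

end D0

open D0 in
/-- PART D0 (sums for the top level). -/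
theorem top_sums (κ : ℝ) (hκ : 1000 ≤ κ) (ε : ℝ) (hε : 0 < ε) :
    ∃ S₀ : ℕ, ∀ S : ℕ, S₀ ≤ S →
      (∀ k : ℕ, (1 + lam S ^ (k + 1)) / (8 * S) ≤ ‖qq S ^ (k + 1) - 1‖) ∧
      (Summable (fun k : ℕ => mu S κ ^ (k + 1) / ‖qq S ^ (k + 1) - 1‖) ∧
        ∑' k : ℕ, mu S κ ^ (k + 1) / ‖qq S ^ (k + 1) - 1‖ ≤ 40 * (S : ℝ) ^ 2) ∧
      (Summable (fun k : ℕ => mu S κ ^ (k + 1) * (1 + lam S ^ (k + 1)) /
          ‖qq S ^ (k + 1) - 1‖ ^ 2) ∧
        ∑' k : ℕ, mu S κ ^ (k + 1) * (1 + lam S ^ (k + 1)) /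
          ‖qq S ^ (k + 1) - 1‖ ^ 2 ≤ ε * (S : ℝ) ^ 4) ∧
      (Summable (fun k : ℕ => (mu S κ ^ (k + 1))⁻¹ * (lam S ^ (k + 1) * (1 + lam S ^ (k + 1))) /
          ‖qq S ^ (k + 1) - 1‖ ^ 2) ∧
        ∑' k : ℕ, (mu S κ ^ (k + 1))⁻¹ * (lam S ^ (k + 1) * (1 + lam S ^ (k + 1))) /
          ‖qq S ^ (k + 1) - 1‖ ^ 2 ≤ ε * (S : ℝ) ^ 4) := by
  obtain ⟨S₁, hS₁⟩ := exists_nat_ge ((2000 + 20 * κ + 320) / ε)
  refine ⟨S₁ + 1, fun S hSS => ?_⟩
  have hS : 0 < S := by omega
  have hS' : (1 : ℝ) ≤ S := by exact_mod_cast hS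
  have hm := one_le_mu S κ hκ
  have hl := one_le_lam S
  have hbig : 2000 + 20 * κ + 320 ≤ ε * S := by
    have h1 : (S₁ : ℝ) ≤ S := by exact_mod_cast (by omega : S₁ ≤ S)
    rw [div_le_iff₀ hε] at hS₁
    nlinarith
  have hN : ∀ k : ℕ, 0 < ‖qq S ^ (k + 1) - 1‖ := fun k => N_pos S hS (k + 1) (Nat.succ_pos k)
  have hp : ∀ k : ℕ, (1 + lam S ^ (k + 1)) / (8 * S) ≤ ‖qq S ^ (k + 1) - 1‖ :=
    fun k => part1 S hS (k + 1) (Nat.succ_pos k)
  have n2 : ∀ k : ℕ, 0 ≤ mu S κ ^ (k + 1) / ‖qq S ^ (k + 1) - 1‖ := fun k => by positivity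
  have n3 : ∀ k : ℕ, 0 ≤ mu S κ ^ (k + 1) * (1 + lam S ^ (k + 1)) /
      ‖qq S ^ (k + 1) - 1‖ ^ 2 := fun k => by positivity
  have n4 : ∀ k : ℕ, 0 ≤ (mu S κ ^ (k + 1))⁻¹ * (lam S ^ (k + 1) * (1 + lam S ^ (k + 1))) /
      ‖qq S ^ (k + 1) - 1‖ ^ 2 := fun k => by positivity
  have p2 := partial2 S κ hκ hS
  have p3 : ∀ n, ∑ k ∈ range n, mu S κ ^ (k + 1) * (1 + lam S ^ (k + 1)) /
      ‖qq S ^ (k + 1) - 1‖ ^ 2 ≤ ε * (S : ℝ) ^ 4 := by
    intro n
    have h1 : ∀ k ∈ range n, mu S κ ^ (k + 1) * (1 + lam S ^ (k + 1)) /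
      ‖qq S ^ (k + 1) - 1‖ ^ 2 ≤ 8 * S * (mu S κ ^ (k + 1) / ‖qq S ^ (k + 1) - 1‖) := by
      intro k _
      have h5 : (1 + lam S ^ (k + 1)) / ‖qq S ^ (k + 1) - 1‖ ≤ 8 * S := by
        have hpk := hp k
        rw [div_le_iff₀ (hN k)]
        rw [div_le_iff₀ (by positivity)] at hpk
        linarith
      have h6 : mu S κ ^ (k + 1) * (1 + lam S ^ (k + 1)) / ‖qq S ^ (k + 1) - 1‖ ^ 2
          = ((1 + lam S ^ (k + 1)) / ‖qq S ^ (k + 1) - 1‖) *
            (mu S κ ^ (k + 1) / ‖qq S ^ (k + 1) - 1‖) := by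
        have := (hN k).ne'
        field_simp
      rw [h6]
      exact mul_le_mul_of_nonneg_right h5 (n2 k)
    refine (sum_le_sum h1).trans ?_
    rw [← mul_sum]
    have h2 := mul_le_mul_of_nonneg_left (p2 n) (show (0 : ℝ) ≤ 8 * S by positivity)
    refine h2.trans ?_
    have h3 : (320 : ℝ) ≤ ε * S := by linarith
    have h4 : 0 ≤ (S : ℝ) ^ 3 := by positivity
    calc 8 * (S : ℝ) * (40 * (S : ℝ) ^ 2) = 320 * (S : ℝ) ^ 3 := by ring
      _ ≤ (ε * S) * (S : ℝ) ^ 3 := mul_le_mul_of_nonneg_right h3 h4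
      _ = ε * (S : ℝ) ^ 4 := by ring
  have p4 : ∀ n, ∑ k ∈ range n, (mu S κ ^ (k + 1))⁻¹ *
      (lam S ^ (k + 1) * (1 + lam S ^ (k + 1))) /
      ‖qq S ^ (k + 1) - 1‖ ^ 2 ≤ ε * (S : ℝ) ^ 4 := by
    intro n
    refine (partial4 S κ hκ hS n).trans ?_
    have h4 : 0 ≤ (S : ℝ) ^ 3 := by positivity
    have h5 : (S : ℝ) ^ 2 ≤ (S : ℝ) ^ 3 := pow_le_pow_right₀ hS' (by norm_num)
    have h6 : 20 * κ * (S : ℝ) ^ 2 ≤ 20 * κ * (S : ℝ) ^ 3 :=
      mul_le_mul_of_nonneg_left h5 (by linarith)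
    have h7 : (2000 + 20 * κ) * (S : ℝ) ^ 3 ≤ (ε * S) * (S : ℝ) ^ 3 :=
      mul_le_mul_of_nonneg_right (by linarith) h4
    calc 2000 * (S : ℝ) ^ 3 + 20 * κ * (S : ℝ) ^ 2 ≤ (2000 + 20 * κ) * (S : ℝ) ^ 3 := by linarith
      _ ≤ (ε * S) * (S : ℝ) ^ 3 := h7
      _ = ε * (S : ℝ) ^ 4 := by ring
  exact ⟨hp, ⟨summable_of_sum_range_le n2 p2, Real.tsum_le_of_sum_range_le n2 p2⟩,
    ⟨summable_of_sum_range_le n3 p3, Real.tsum_le_of_sum_range_le n3 p3⟩,
    ⟨summable_of_sum_range_le n4 p4, Real.tsum_le_of_sum_range_le n4 p4⟩⟩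

end Pool.Agent.NevChar
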