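import Pool.Agent.Lib_MP_2ed15d_an.PartT3

/-! Part T4: from the local statement about partial products to the entire function. -/

set_option autoImplicit false

open Metric Complex Finset Filter Topology

namespace Pool.Agent.NevChar

/-- statement of PART T2 (local analysis of the partial products near the `j`-th gadget) -/
def TopLocal (κ η : ℝ) : Prop :=
  ∃ (S N : ℕ) (w : Fin N → ℂ) (m : Fin N → ℝ) (ℓ : ℝ),
    0 < S ∧ (∀ i, ‖w i‖ ≤ LL) ∧ (∀ i, 0 ≤ m i) ∧ (∑ i, m i = 1 / κ) ∧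
    lam S - 1 ≤ ℓ ∧ ℓ ≤ η / (64 * LL ^ 2) ∧
    ∃ j₁ : ℕ, ∀ j : ℕ, j₁ ≤ j → ∃ J₁ : ℕ, ∀ J : ℕ, J₁ ≤ J → ∀ F : ℂ → ℂ,
      (∀ z, HasDerivAt F (∏ j ∈ Finset.range J, ∏ i,
        (1 - z / (qq S ^ j * (1 + ℓ * w i))) ^ ⌊κ * mu S κ ^ j * m i⌋₊) z) →
      F 0 = 1 →
      ∀ s ∈ Set.Icc (0 : ℝ) 1, ∃ w₀ : ℂ, w₀.re = s ∧ ‖w₀‖ ≤ 2 * LL ∧
        ∀ z ∈ closedBall w₀ η, ∀ z' ∈ closedBall w₀ η,
          Real.exp (η * κ * mu S κ ^ j) * max 1 ‖deriv F (qq S ^ j * (1 + ℓ * z'))‖ ≤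
            ‖F (qq S ^ j * (1 + ℓ * z))‖

namespace T4

lemma norm_qq (S : ℕ) : ‖qq S‖ = lam S := by
  unfold qq
  rw [norm_mul, Complex.norm_exp]
  have h1 : (2 * (Real.pi : ℂ) * I / (S : ℂ)).re = 0 := by
    have : 2 * (Real.pi : ℂ) * I / (S : ℂ) = ((2 * Real.pi / S : ℝ) : ℂ) * I := by
      push_cast; ring
    rw [this, Complex.re_ofReal_mul, Complex.I_re, mul_zero]
  have h2 : 0 ≤ lam S := by unfold lam; positivity
  rw [h1, Real.exp_zero, mul_one, Complex.norm_real, Real.norm_of_nonneg h2]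

lemma LL_pos : 0 < LL := by unfold LL; positivity

lemma one_lt_lam {S : ℕ} (hS : 0 < S) : 1 < lam S := by
  unfold lam
  have : (0 : ℝ) < S := by exact_mod_cast hS
  have : 0 < 1 / (S : ℝ) ^ 2 := by positivity
  linarith

lemma lam_le_two {S : ℕ} (hS : 0 < S) : lam S ≤ 2 := by
  unfold lam
  have h1 : (1 : ℝ) ≤ S := by exact_mod_cast hS
  have : 1 / (S : ℝ) ^ 2 ≤ 1 := by
    rw [div_le_one (by positivity)]
    nlinarith
  linarith

lemma one_lt_mu {S : ℕ} (hS : 0 < S) {κ : ℝ} (hκ : 0 < κ) : 1 < mu S κ := by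
  unfold mu
  have : (0 : ℝ) < S := by exact_mod_cast hS
  have : 0 < 2 / (κ * (S : ℝ) ^ 2) := by positivity
  linarith

lemma mu_lt_lam {S : ℕ} (hS : 0 < S) {κ : ℝ} (hκ : 2 < κ) : mu S κ < lam S := by
  unfold mu lam
  have hS0 : (0 : ℝ) < S := by exact_mod_cast hS
  have : 2 / (κ * (S : ℝ) ^ 2) < 1 / (S : ℝ) ^ 2 := by
    rw [div_lt_div_iff₀ (by positivity) (by positivity)]
    nlinarith [pow_pos hS0 2]
  linarith

lemma rho_le {S : ℕ} (hS : 0 < S) {κ : ℝ} (hκ : 2 < κ) :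
    Real.log (mu S κ) / Real.log (lam S) ≤ 4 / κ := by
  have hS0 : (0 : ℝ) < S := by exact_mod_cast hS
  have h1 := one_lt_lam hS
  have h2 := one_lt_mu hS (κ := κ) (by linarith)
  have hL : 0 < Real.log (lam S) := Real.log_pos h1
  have h3 : Real.log (mu S κ) ≤ 2 / (κ * (S : ℝ) ^ 2) := by
    have := Real.log_le_sub_one_of_pos (x := mu S κ) (by linarith)
    unfold mu at this ⊢
    linarith
  have h4 : 1 / (2 * (S : ℝ) ^ 2) ≤ Real.log (lam S) := by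
    have h5 := Real.one_sub_inv_le_log_of_pos (x := lam S) (by linarith)
    have h6 : 1 - (lam S)⁻¹ = (lam S - 1) / lam S := by field_simp
    have h7 : lam S - 1 = 1 / (S : ℝ) ^ 2 := by unfold lam; ring
    have h8 : 1 / (2 * (S : ℝ) ^ 2) ≤ (lam S - 1) / lam S := by
      rw [h7, div_div]
      apply div_le_div_of_nonneg_left (by norm_num) (by positivity)
      rw [mul_comm]
      exact mul_le_mul_of_nonneg_right (lam_le_two hS) (by positivity)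
    linarith
  rw [div_le_iff₀ hL]
  calc Real.log (mu S κ) ≤ 2 / (κ * (S : ℝ) ^ 2) := h3
    _ = 4 / κ * (1 / (2 * (S : ℝ) ^ 2)) := by field_simp; norm_num
    _ ≤ 4 / κ * Real.log (lam S) := mul_le_mul_of_nonneg_left h4 (by positivity)

/-- geometry: the modulus of `1 + ℓ w₀` is close to `t = 1 + ℓ re w₀` -/
lemma norm_near {ℓ s t : ℝ} {w₀ : ℂ} (hℓ : 0 < ℓ) (hs : 0 ≤ s) (ht : t = 1 + ℓ * s)
    (hre : w₀.re = s) {η : ℝ} (hη : 0 < η) (hw : ‖w₀‖ ≤ 2 * LL) (hℓη : ℓ ≤ η / (64 * LL ^ 2)) :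
    t ≤ ‖1 + (ℓ : ℂ) * w₀‖ ∧ ‖1 + (ℓ : ℂ) * w₀‖ ≤ t + ℓ * (η / 32) := by
  have hLL := LL_pos
  have hre1 : (1 + (ℓ : ℂ) * w₀).re = t := by
    simp [hre, ht]
  have him1 : (1 + (ℓ : ℂ) * w₀).im = ℓ * w₀.im := by
    simp
  have ht1 : 1 ≤ t := by rw [ht]; nlinarith
  have hsq : ‖1 + (ℓ : ℂ) * w₀‖ ^ 2 = t ^ 2 + (ℓ * w₀.im) ^ 2 := by
    rw [Complex.sq_norm, Complex.normSq_apply, hre1, him1]; ring
  constructor
  · have := Complex.re_le_norm (1 + (ℓ : ℂ) * w₀)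
    rwa [hre1] at this
  · apply le_of_sq_le_sq _ (by positivity)
    rw [hsq]
    have h1 : |w₀.im| ≤ 2 * LL := (Complex.abs_im_le_norm w₀).trans hw
    have h2 : w₀.im ^ 2 ≤ 4 * LL ^ 2 := by
      rw [← sq_abs]
      nlinarith [abs_nonneg w₀.im]
    have h3 : ℓ * (64 * LL ^ 2) ≤ η := by
      rwa [le_div_iff₀ (by positivity)] at hℓη
    have h4 : (ℓ * w₀.im) ^ 2 ≤ ℓ * (η / 16) := by
      rw [mul_pow]
      calc ℓ ^ 2 * w₀.im ^ 2 ≤ ℓ ^ 2 * (4 * LL ^ 2) :=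
            mul_le_mul_of_nonneg_left h2 (by positivity)
        _ = ℓ * (ℓ * (64 * LL ^ 2) / 16) := by ring
        _ ≤ ℓ * (η / 16) := by
            apply mul_le_mul_of_nonneg_left _ hℓ.le
            linarith
    have h5 : (t + ℓ * (η / 32)) ^ 2 = t ^ 2 + 2 * t * (ℓ * (η / 32)) + (ℓ * (η / 32)) ^ 2 := by
      ring
    rw [h5]
    have h6 : 0 ≤ (ℓ * (η / 32)) ^ 2 := by positivity
    have h7 : 0 ≤ (t - 1) * (ℓ * (η / 16)) := mul_nonneg (by linarith) (by positivity)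
    nlinarith

lemma norm_exp_sub_one_le (x : ℝ) : ‖exp ((x : ℂ) * I) - 1‖ ≤ |x| := by
  have := Real.norm_exp_I_mul_ofReal_sub_one_le (x := x)
  rw [mul_comm]
  simpa using this

end T4

open T4 in
/-- PART T4 : deduce `exists_entire` from T2 and T3. -/
theorem exists_entire_of_local (κ η : ℝ) (hκ : 1000 ≤ κ) (hη : 0 < η) (hη1 : η ≤ 1)
    (h : TopLocal κ η) :
    ∃ (f : ℂ → ℂ) (ρ C c₁ c₂ r₀ : ℝ), Differentiable ℂ f ∧ f 0 = 1 ∧
      0 < ρ ∧ ρ ≤ 4 / κ ∧ 0 < C ∧ 0 < c₁ ∧ 0 < c₂ ∧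
      (∀ z, ‖f z‖ ≤ Real.exp (C * (1 + ‖z‖ ^ ρ))) ∧
      (∀ r, r₀ ≤ r → ∃ θ₀ : ℝ, ∀ θ : ℝ, |θ - θ₀| ≤ c₁ →
        Real.exp (c₂ * r ^ ρ) * max 1 ‖deriv f (circleMap 0 r θ)‖ ≤ ‖f (circleMap 0 r θ)‖) := by
  obtain ⟨S, N, w, m, ℓ, hS, hw, hm, hmsum, hℓ1, hℓ2, j₁, hloc⟩ := h
  have hLL := LL_pos
  have hlam := one_lt_lam hS
  have hmu := one_lt_mu hS (κ := κ) (by linarith)
  have hml := mu_lt_lam hS (κ := κ) (by linarith)
  have hℓ0 : 0 < ℓ := by linarith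
  have hκ0 : 0 < κ := by linarith
  have hlam0 : 0 < lam S := by linarith
  have hmu0 : 0 < mu S κ := by linarith
  have hqq : ∀ j : ℕ, ‖qq S ^ j‖ = lam S ^ j := fun j => by rw [norm_pow, norm_qq]
  have hℓLL : ℓ * LL ≤ 1 / 2 := by
    have h1 : ℓ * (64 * LL ^ 2) ≤ η := by
      rwa [le_div_iff₀ (by positivity)] at hℓ2
    have h2 : 1 ≤ LL := by unfold LL; norm_num
    nlinarith [mul_nonneg hℓ0.le (by nlinarith : (0 : ℝ) ≤ LL ^ 2 - LL)]
  obtain ⟨f, g, F, C, hf, hf0, hF, hF0, hFlim, hGlim, hC, hgrow⟩ :=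
    entire_limit (fun j i => qq S ^ j * (1 + ℓ * w i)) (fun j i => ⌊κ * mu S κ ^ j * m i⌋₊)
      (lam S) (mu S κ) hlam hmu hml
      (by
        intro j i
        rw [norm_mul, hqq]
        have h1 : 1 - ℓ * LL ≤ ‖1 + (ℓ : ℂ) * w i‖ := by
          have h2 : ‖(1 : ℂ)‖ ≤ ‖1 + (ℓ : ℂ) * w i‖ + ‖(ℓ : ℂ) * w i‖ := by
            have := norm_sub_le (1 + (ℓ : ℂ) * w i) ((ℓ : ℂ) * w i)
            simpa using this
          rw [norm_one, norm_mul, Complex.norm_real, Real.norm_of_nonneg hℓ0.le] at h2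
          have h3 : ℓ * ‖w i‖ ≤ ℓ * LL := mul_le_mul_of_nonneg_left (hw i) hℓ0.le
          linarith
        rw [div_eq_mul_inv]
        apply mul_le_mul_of_nonneg_left _ (by positivity)
        norm_num
        linarith)
      (by
        intro j
        have h1 : ∀ i ∈ (univ : Finset (Fin N)), ((⌊κ * mu S κ ^ j * m i⌋₊ : ℕ) : ℝ) ≤
            κ * mu S κ ^ j * m i := by
          intro i _
          apply Nat.floor_le
          have := hm i
          positivity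
        refine (Finset.sum_le_sum h1).trans ?_
        rw [← Finset.mul_sum, hmsum]
        apply le_of_eq
        field_simp)
  set ρ := Real.log (mu S κ) / Real.log (lam S) with hρ
  have hlogl : 0 < Real.log (lam S) := Real.log_pos hlam
  have hρ0 : 0 < ρ := div_pos (Real.log_pos hmu) hlogl
  have hρ4 : ρ ≤ 4 / κ := rho_le hS (by linarith)
  have hρ1 : ρ ≤ 1 := hρ4.trans (by rw [div_le_one hκ0]; linarith)
  have hlamρ : lam S ^ ρ = mu S κ := by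
    rw [Real.rpow_def_of_pos hlam0, hρ, mul_div_cancel₀ _ hlogl.ne', Real.exp_log hmu0]
  have hfderiv : ∀ z, deriv f z = g z := fun z => (hf z).deriv
  refine ⟨f, ρ, C, ℓ * η / 4, η * κ / 2, lam S ^ j₁, fun z => (hf z).differentiableAt, hf0, hρ0,
    hρ4, hC, by positivity, by positivity, hgrow, ?_⟩
  intro r hr
  have hr1 : 1 ≤ r := (one_le_pow₀ hlam.le).trans hr
  have hr0 : 0 < r := by linarith
  obtain ⟨j, hj1, hj2⟩ := exists_nat_pow_near hr1 hlam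
  have hj : j₁ ≤ j := by
    have h1 : lam S ^ j₁ < lam S ^ (j + 1) := lt_of_le_of_lt hr hj2
    have := (pow_lt_pow_iff_right₀ hlam).mp h1
    omega
  obtain ⟨J₁, hJ₁⟩ := hloc j hj
  have hlj : 0 < lam S ^ j := by positivity
  set t := r / lam S ^ j with ht
  have hrt : r = lam S ^ j * t := by rw [ht]; field_simp
  have ht1 : 1 ≤ t := by rw [ht, le_div_iff₀ hlj]; linarith
  have htl : t < lam S := by
    rw [ht, div_lt_iff₀ hlj, mul_comm, ← pow_succ]; exact hj2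
  have ht2 : t ≤ 2 := htl.le.trans (lam_le_two hS)
  set s := (t - 1) / ℓ with hs
  have hs0 : 0 ≤ s := div_nonneg (by linarith) hℓ0.le
  have hs1 : s ≤ 1 := by rw [hs, div_le_one hℓ0]; linarith
  have hts : t = 1 + ℓ * s := by rw [hs]; field_simp; ring
  -- the centres
  have hcen : ∀ n : ℕ, ∃ w₀ : ℂ, w₀.re = s ∧ ‖w₀‖ ≤ 2 * LL ∧
      ∀ z ∈ closedBall w₀ η, ∀ z' ∈ closedBall w₀ η,
        Real.exp (η * κ * mu S κ ^ j) *
          max 1 ‖deriv (F (J₁ + n)) (qq S ^ j * (1 + ℓ * z'))‖ ≤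
            ‖F (J₁ + n) (qq S ^ j * (1 + ℓ * z))‖ := fun n =>
    hJ₁ (J₁ + n) (by omega) (F (J₁ + n)) (hF (J₁ + n)) (hF0 _) s ⟨hs0, hs1⟩
  choose W hWre hWn hW using hcen
  obtain ⟨w₀, -, φ, hφ, hlim⟩ := (isCompact_closedBall (0 : ℂ) (2 * LL)).tendsto_subseq
    (x := W) (fun n => by rw [mem_closedBall_zero_iff]; exact hWn n)
  have hw₀re : w₀.re = s := by
    have h1 : Tendsto (fun n => (W (φ n)).re) atTop (𝓝 w₀.re) :=
      (Complex.continuous_re.tendsto _).comp hlim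
    have h2 : (fun n => (W (φ n)).re) = fun _ => s := by ext n; exact hWre _
    rw [h2] at h1
    exact tendsto_nhds_unique h1 tendsto_const_nhds |>.symm ▸ rfl
  have hw₀n : ‖w₀‖ ≤ 2 * LL := le_of_tendsto hlim.norm (Eventually.of_forall fun n => hWn _)
  -- inequality at points strictly inside
  have hin : ∀ z, ‖z - w₀‖ < η → Real.exp (η * κ * mu S κ ^ j) *
      max 1 ‖deriv f (qq S ^ j * (1 + ℓ * z))‖ ≤ ‖f (qq S ^ j * (1 + ℓ * z))‖ := by
    intro z hz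
    have hev : ∀ᶠ n in atTop, ‖z - W (φ n)‖ < η := by
      have h1 : Tendsto (fun n => ‖z - W (φ n)‖) atTop (𝓝 ‖z - w₀‖) :=
        (tendsto_const_nhds.sub hlim).norm
      exact h1.eventually (gt_mem_nhds hz)
    have hsub : Tendsto (fun n => J₁ + φ n) atTop atTop :=
      tendsto_atTop_mono (fun n => Nat.le_add_left _ _) hφ.tendsto_atTop
    have hlimF := (hFlim (qq S ^ j * (1 + ℓ * z))).comp hsub
    have hlimG := (hGlim (qq S ^ j * (1 + ℓ * z))).comp hsub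
    have h3 : Tendsto (fun n => Real.exp (η * κ * mu S κ ^ j) *
        max 1 ‖deriv (F (J₁ + φ n)) (qq S ^ j * (1 + ℓ * z))‖) atTop
        (𝓝 (Real.exp (η * κ * mu S κ ^ j) *
          max 1 ‖deriv f (qq S ^ j * (1 + ℓ * z))‖)) := by
      apply Tendsto.const_mul
      apply Tendsto.max tendsto_const_nhds
      apply Tendsto.norm
      rw [hfderiv]
      refine hlimG.congr ?_
      intro n
      exact ((hF (J₁ + φ n) (qq S ^ j * (1 + ℓ * z))).deriv).symm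
    refine le_of_tendsto_of_tendsto h3 hlimF.norm ?_
    filter_upwards [hev] with n hn
    have hmem : z ∈ closedBall (W (φ n)) η := by
      rw [mem_closedBall, dist_eq_norm]; exact hn.le
    exact hW (φ n) z hmem z hmem
  -- geometry
  obtain ⟨hp1, hp2⟩ := norm_near hℓ0 hs0 hts hw₀re hη hw₀n hℓ2
  set p₀ : ℂ := 1 + (ℓ : ℂ) * w₀ with hp₀
  have hp0 : 0 < ‖p₀‖ := by linarith
  refine ⟨(qq S ^ j * p₀).arg, ?_⟩
  intro θ hθ
  set θ₀ := (qq S ^ j * p₀).arg with hθ₀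
  have hexp : (‖qq S ^ j * p₀‖ : ℂ) * exp (θ₀ * I) = qq S ^ j * p₀ :=
    Complex.norm_mul_exp_arg_mul_I _
  set u : ℂ := exp (((θ - θ₀ : ℝ) : ℂ) * I) with hu
  set z : ℂ := (p₀ * ((t / ‖p₀‖ : ℝ) : ℂ) * u - 1) / ℓ with hz
  have hℓC : (ℓ : ℂ) ≠ 0 := by exact_mod_cast hℓ0.ne'
  have hpC : ((‖p₀‖ : ℝ) : ℂ) ≠ 0 := by exact_mod_cast hp0.ne'
  have hcirc : circleMap 0 r θ = qq S ^ j * (1 + ℓ * z) := by
    have h1 : 1 + (ℓ : ℂ) * z = p₀ * ((t / ‖p₀‖ : ℝ) : ℂ) * u := by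
      rw [hz]; field_simp; ring
    have h2 : exp ((θ : ℂ) * I) = exp ((θ₀ : ℂ) * I) * u := by
      rw [hu, ← Complex.exp_add]; congr 1; push_cast; ring
    rw [h1, circleMap, zero_add, h2]
    have h3 : qq S ^ j * (p₀ * ((t / ‖p₀‖ : ℝ) : ℂ) * u) =
        (qq S ^ j * p₀) * ((t / ‖p₀‖ : ℝ) : ℂ) * u := by ring
    rw [h3, ← hexp, norm_mul, hqq, hrt]
    push_cast
    field_simp
  have hzw : ‖z - w₀‖ < η := by
    have h1 : z - w₀ = (p₀ / ‖p₀‖) * ((t : ℂ) * (u - 1) + (t - ‖p₀‖ : ℝ)) / ℓ := by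
      have h2 : w₀ = (p₀ - 1) / ℓ := by rw [hp₀]; field_simp; ring
      rw [hz]
      conv_lhs => rw [h2]
      push_cast
      field_simp
      ring
    have h3 : ‖p₀ / (‖p₀‖ : ℂ)‖ = 1 := by
      rw [norm_div, Complex.norm_real, norm_norm, div_self hp0.ne']
    rw [h1, norm_div, norm_mul, h3, one_mul, Complex.norm_real, Real.norm_of_nonneg hℓ0.le,
      div_lt_iff₀ hℓ0]
    have h4 : ‖(t : ℂ) * (u - 1) + ((t - ‖p₀‖ : ℝ) : ℂ)‖ ≤ t * |θ - θ₀| + |t - ‖p₀‖| := by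
      refine (norm_add_le _ _).trans ?_
      rw [norm_mul, Complex.norm_real, Complex.norm_real, Real.norm_of_nonneg (by linarith),
        Real.norm_eq_abs]
      gcongr
      exact norm_exp_sub_one_le _
    have h5 : |t - ‖p₀‖| ≤ ℓ * (η / 32) := by
      rw [abs_le]; constructor <;> linarith
    have h6 : t * |θ - θ₀| ≤ 2 * (ℓ * η / 4) := by
      apply mul_le_mul ht2 hθ (abs_nonneg _) (by norm_num)
    have h7 : 0 < ℓ * η := by positivity
    nlinarith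
  have hfin := hin z hzw
  rw [← hcirc] at hfin
  refine le_trans ?_ hfin
  apply mul_le_mul_of_nonneg_right _ (by positivity)
  apply Real.exp_le_exp.mpr
  have h1 : r ^ ρ ≤ 2 * mu S κ ^ j := by
    have h2 : r ^ ρ = mu S κ ^ j * t ^ ρ := by
      rw [hrt, Real.mul_rpow hlj.le (by linarith)]
      congr 1
      rw [← Real.rpow_natCast, ← Real.rpow_mul hlam0.le, mul_comm, Real.rpow_mul hlam0.le, hlamρ,
        Real.rpow_natCast]
    have h3 : t ^ ρ ≤ 2 := by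
      calc t ^ ρ ≤ t ^ (1 : ℝ) := Real.rpow_le_rpow_of_exponent_le ht1 hρ1
        _ = t := Real.rpow_one _
        _ ≤ 2 := ht2
    rw [h2, mul_comm]
    exact mul_le_mul_of_nonneg_right h3 (by positivity)
  calc η * κ / 2 * r ^ ρ ≤ η * κ / 2 * (2 * mu S κ ^ j) :=
        mul_le_mul_of_nonneg_left h1 (by positivity)
    _ = η * κ * mu S κ ^ j := by ring

end Pool.Agent.NevChar
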