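import Pool.Agent.Lib_MP_2ed15d_an.TopC

/-! The local statement at the top level, from field and exit estimates. -/

set_option autoImplicit false

open Metric Complex Finset Filter Topology

namespace Pool.Agent.NevChar

/-- exit bound at the top level -/
lemma top_exit {F : ℂ → ℂ} {J N : ℕ} {A : ℕ → Fin N → ℂ} {k : ℕ → Fin N → ℕ} {e : ℂ} {D : ℝ}
    (hF : ∀ z, HasDerivAt F (∏ i ∈ range J, ∏ a, (1 - z / A i a) ^ (k i a)) z)
    (hF0 : F 0 = 1)
    (hA0 : ∀ i ∈ range J, ∀ a, A i a ≠ 0) (hAe : ∀ i ∈ range J, ∀ a, A i a ≠ e)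
    (hD0 : 0 ≤ D)
    (hD : ∑ i ∈ range J, ∑ a, (k i a : ℝ) * (-1 + ‖A i a‖ / ‖e - A i a‖) ≤ -D) :
    Real.exp D ≤ ‖deriv F e‖ ∧ ‖F e‖ ≤ 1 + ‖e‖ * ‖deriv F e‖ := by
  set g : ℂ → ℂ := fun z => ∏ i ∈ range J, ∏ a, (1 - z / A i a) ^ (k i a) with hg
  have hder : ∀ z, deriv F z = g z := fun z => (hF z).deriv
  have hprod : ∀ z, g z = ∏ x ∈ range J ×ˢ (univ : Finset (Fin N)),
      (1 - z / A x.1 x.2) ^ (k x.1 x.2) := by
    intro z
    rw [hg]
    simp only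
    rw [Finset.prod_product]
  have hrad : ∀ t ∈ Set.Icc (0 : ℝ) 1, ‖g (((1 - t : ℝ) : ℂ) * e)‖ ≤
      ‖g e‖ * Real.exp (-(t * D)) := by
    intro t ht
    rw [hprod, hprod]
    apply radial_prod (range J ×ˢ (univ : Finset (Fin N))) (fun x => A x.1 x.2)
      (fun x => k x.1 x.2) _ _ ht.1 ht.2 _
    · intro x hx
      exact hAe x.1 (Finset.mem_product.mp hx).1 x.2
    · intro x hx
      exact hA0 x.1 (Finset.mem_product.mp hx).1 x.2
    · rw [Finset.sum_product]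
      exact hD
  have h1 : Real.exp D ≤ ‖g e‖ := by
    have h2 := hrad 1 ⟨zero_le_one, le_refl _⟩
    have h3 : g (((1 - 1 : ℝ) : ℂ) * e) = 1 := by
      rw [hg]
      simp
    rw [h3, norm_one, one_mul] at h2
    have h4 := mul_le_mul_of_nonneg_right h2 (Real.exp_pos D).le
    rw [one_mul, mul_assoc, ← Real.exp_add] at h4
    simpa using h4
  rw [hder]
  refine ⟨h1, ?_⟩
  have h2 : ∀ z ∈ segment ℝ (0 : ℂ) e, ‖g z‖ ≤ ‖g e‖ := by
    intro z hz
    obtain ⟨θ, hθ, rfl⟩ := (segment_eq_image' ℝ (0 : ℂ) e) ▸ hz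
    have h3 := hrad (1 - θ) ⟨by linarith [hθ.2], by linarith [hθ.1]⟩
    have h4 : (0 : ℂ) + θ • (e - 0) = ((1 - (1 - θ) : ℝ) : ℂ) * e := by
      rw [sub_zero, zero_add, Complex.real_smul]
      congr 2
      ring
    show ‖g ((0 : ℂ) + θ • (e - 0))‖ ≤ ‖g e‖
    rw [h4]
    refine h3.trans ?_
    calc ‖g e‖ * Real.exp (-((1 - θ) * D)) ≤ ‖g e‖ * 1 := by
          apply mul_le_mul_of_nonneg_left _ (norm_nonneg _)
          apply Real.exp_le_one_iff.mpr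
          have : 0 ≤ (1 - θ) * D := mul_nonneg (by linarith [hθ.2]) hD0
          linarith
      _ = ‖g e‖ := mul_one _
  have h3 : ‖F e - F 0‖ ≤ ‖g e‖ * ‖e - 0‖ := by
    refine (convex_segment (0 : ℂ) e).norm_image_sub_le_of_norm_hasDerivWithin_le
      (f := F) (f' := g) (fun x _ => (hF x).hasDerivWithinAt)
      h2 (left_mem_segment ℝ (0 : ℂ) e) (right_mem_segment ℝ (0 : ℂ) e)
  rw [hF0, sub_zero] at h3
  have h4 : ‖F e‖ ≤ ‖F e - 1‖ + 1 := by
    have := norm_add_le (F e - 1) 1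
    simpa using this
  linarith

lemma logDeriv_PP (s : Finset ℕ) {N : ℕ} (A : ℕ → Fin N → ℂ) (k : ℕ → Fin N → ℕ) (c b x : ℂ)
    (hc : c ≠ 0) (hA : ∀ i ∈ s, ∀ a, A i a ≠ 0)
    (hp : ∀ i ∈ s, ∀ a, (1 + b * x) - A i a / c ≠ 0) :
    logDeriv (fun x => ∏ i ∈ s, ∏ a, (1 - c * (1 + b * x) / A i a) ^ (k i a)) x =
      ∑ i ∈ s, ∑ a, (k i a : ℂ) * (b / ((1 + b * x) - A i a / c)) := by
  have hne : ∀ i ∈ s, ∀ a, 1 - c * (1 + b * x) / A i a ≠ 0 := by
    intro i hi a h0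
    have h1 := hA i hi a
    apply hp i hi a
    have h2 : (1 + b * x) - A i a / c = -(A i a / c) * (1 - c * (1 + b * x) / A i a) := by
      field_simp
      ring
    rw [h2, h0, mul_zero]
  rw [logDeriv_prod]
  · apply Finset.sum_congr rfl
    intro i hi
    rw [logDeriv_prod]
    · apply Finset.sum_congr rfl
      intro a _
      rw [logDeriv_fun_pow (by fun_prop)]
      congr 1
      have hd : HasDerivAt (fun x => 1 - c * (1 + b * x) / A i a) (-(c * b / A i a)) x := by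
        have h1 := (((((hasDerivAt_id x).const_mul b).const_add 1).const_mul c).div_const
          (A i a)).const_sub 1
        simpa using h1
      rw [logDeriv_apply, hd.deriv]
      have h1 := hA i hi a
      have h2 := hne i hi a
      have h3 := hp i hi a
      rw [div_eq_div_iff h2 h3]
      field_simp
      ring
    · intro a _
      exact pow_ne_zero _ (hne i hi a)
    · intro a _
      fun_prop
  · intro i hi
    exact Finset.prod_ne_zero_iff.mpr (fun a _ => pow_ne_zero _ (hne i hi a))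
  · intro i hi
    fun_prop

/-- one gadget at the top level -/
lemma top_step {κ η n : ℝ} {N : ℕ} {u : ℂ} {w : Fin N → ℂ} {m : Fin N → ℝ}
    (hcfg : Cfg κ η u w m) (hη1 : η ≤ 1) (hη : 0 < η) (hu : ‖u‖ = 1)
    {q : ℂ} {l ℓ : ℝ} (hl : 1 < l) (hq : ‖q‖ = l) (hℓ : 0 < ℓ)
    (hℓ2 : 64 * LL * ℓ ≤ 1) (k : ℕ → Fin N → ℕ) {j J : ℕ} (hj : j < J)
    (hround : ∑ a, |(k j a : ℝ) - n * m a| ≤ η * n) (hn1 : 1 / η ≤ n)
    (hp : ∀ w' ∈ ball (0 : ℂ) (4 * LL), ∀ i ∈ (range J).erase j, ∀ a,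
      (1 + ℓ * w') - q ^ i / q ^ j * (1 + ℓ * w a) ≠ 0)
    (hfield : ∀ w' ∈ ball (0 : ℂ) (4 * LL),
      ℓ * ‖∑ i ∈ (range J).erase j, ∑ a, (k i a : ℂ) /
        ((1 + ℓ * w') - q ^ i / q ^ j * (1 + ℓ * w a)) - (n / ℓ : ℝ) * u‖ ≤ η * n)
    {D : ℝ} (hD0 : 0 ≤ D) (hDn : η * n ≤ D)
    (hD : ∑ i ∈ range J, ∑ a, (k i a : ℝ) * (-1 + ‖q ^ i * (1 + ℓ * w a)‖ /
        ‖q ^ j * (1 + ℓ * ex u) - q ^ i * (1 + ℓ * w a)‖) ≤ -D)
    (hlj : 1 ≤ l ^ j * ℓ) (hexp : 9 / 4 ≤ Real.exp (η * n) * ℓ)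
    {F : ℂ → ℂ}
    (hF : ∀ z, HasDerivAt F (∏ i ∈ range J, ∏ a, (1 - z / (q ^ i * (1 + ℓ * w a))) ^ (k i a)) z)
    (hF0 : F 0 = 1) :
    ∀ s ∈ Set.Icc (0 : ℝ) 1, ∃ w₀ : ℂ, w₀.re = s ∧ ‖w₀‖ ≤ 2 * LL ∧
        ∀ z ∈ closedBall w₀ η, ∀ z' ∈ closedBall w₀ η,
          Real.exp (η * n) * max 1 ‖deriv F (q ^ j * (1 + ℓ * z'))‖ ≤
            ‖F (q ^ j * (1 + ℓ * z))‖ := by
  have hLL : (0 : ℝ) < LL := by norm_num [LL]
  have hl0 : (0 : ℝ) < l := by linarith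
  have hq0 : q ≠ 0 := norm_pos_iff.mp (by rw [hq]; exact hl0)
  have hℓc : (ℓ : ℂ) ≠ 0 := by exact_mod_cast hℓ.ne'
  obtain ⟨hw, hm0, hms, hmain⟩ := hcfg
  have hqj : q ^ j ≠ 0 := pow_ne_zero _ hq0
  -- norms of `1 + ℓ w`
  have hsmall : ∀ x : ℂ, ‖x‖ ≤ 4 * LL → ‖(ℓ : ℂ) * x‖ ≤ 1 / 4 := by
    intro x hx
    rw [norm_mul, Complex.norm_real, Real.norm_of_nonneg hℓ.le]
    have h1 := mul_le_mul_of_nonneg_left hx hℓ.le
    linarith
  have hone : ∀ x : ℂ, ‖x‖ ≤ 4 * LL → (1 : ℂ) + ℓ * x ≠ 0 := by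
    intro x hx h0
    have h1 := hsmall x hx
    have h2 : (ℓ : ℂ) * x = -1 := by linear_combination h0
    rw [h2, norm_neg, norm_one] at h1
    linarith
  have hw4 : ∀ a, ‖w a‖ ≤ 4 * LL := fun a => (hw a).trans (by linarith)
  have hA0 : ∀ i, ∀ a, q ^ i * (1 + ℓ * w a) ≠ 0 := fun i a =>
    mul_ne_zero (pow_ne_zero _ hq0) (hone _ (hw4 a))
  have hexu : ‖ex u‖ = 3 * LL := by
    rw [ex, norm_mul, RCLike.norm_conj, hu, mul_one, norm_neg,
      Complex.norm_real, Real.norm_eq_abs, abs_of_pos (by positivity)]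
  have hexmem : ex u ∈ ball (0 : ℂ) (4 * LL) := by
    rw [mem_ball_zero_iff, hexu]; linarith
  set e : ℂ := q ^ j * (1 + ℓ * ex u) with he
  have hAe : ∀ i ∈ range J, ∀ a, q ^ i * (1 + ℓ * w a) ≠ e := by
    intro i hi a h0
    by_cases hij : i = j
    · subst hij
      rw [he] at h0
      have h1 := mul_left_cancel₀ hqj h0
      have h2 : (ℓ : ℂ) * w a = ℓ * ex u := by linear_combination h1
      have h3 := mul_left_cancel₀ hℓc h2
      have h4 := hw a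
      rw [h3, hexu] at h4
      linarith
    · apply hp (ex u) hexmem i (Finset.mem_erase.mpr ⟨hij, hi⟩) a
      have h1 : (1 + (ℓ : ℂ) * ex u) - q ^ i / q ^ j * (1 + ℓ * w a) =
          (q ^ j * (1 + ℓ * ex u) - q ^ i * (1 + ℓ * w a)) / q ^ j := by
        field_simp
      rw [h1, ← he, h0, sub_self, zero_div]
  obtain ⟨hx1, hx2⟩ := top_exit hF hF0 (fun i _ a => hA0 i a) hAe hD0 hD
  -- the local functions
  set f : ℂ → ℂ := fun x => F (q ^ j * (1 + ℓ * x)) with hf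
  have haff : ∀ x : ℂ, HasDerivAt (fun x : ℂ => q ^ j * (1 + ℓ * x)) (q ^ j * ℓ) x := by
    intro x
    simpa using (((hasDerivAt_id x).const_mul (ℓ : ℂ)).const_add 1).const_mul (q ^ j)
  set P : ℂ → ℂ := fun x => ∏ i ∈ (range J).erase j, ∏ a,
    (1 - q ^ j * (1 + ℓ * x) / (q ^ i * (1 + ℓ * w a))) ^ (k i a) with hP
  set C : ℂ := (q ^ j * ℓ) * ∏ a, (-(ℓ : ℂ) / (1 + ℓ * w a)) ^ (k j a) with hC
  have hC0 : C ≠ 0 := by
    rw [hC]
    refine mul_ne_zero (mul_ne_zero hqj hℓc) (Finset.prod_ne_zero_iff.mpr (fun a _ => ?_))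
    exact pow_ne_zero _ (div_ne_zero (neg_ne_zero.mpr hℓc) (hone _ (hw4 a)))
  have hfd : ∀ x, HasDerivAt f ((C * P x) * ∏ a, (x - w a) ^ (k j a)) x := by
    intro x
    have h1 := (hF (q ^ j * (1 + ℓ * x))).comp x (haff x)
    have h2 : (∏ i ∈ range J, ∏ a, (1 - q ^ j * (1 + ℓ * x) / (q ^ i * (1 + ℓ * w a))) ^ (k i a)) *
        (q ^ j * ℓ) = (C * P x) * ∏ a, (x - w a) ^ (k j a) := by
      rw [← Finset.mul_prod_erase _ _ (Finset.mem_range.mpr hj)]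
      have h3 : ∏ a, (1 - q ^ j * (1 + ℓ * x) / (q ^ j * (1 + ℓ * w a))) ^ (k j a) =
          (∏ a, (-(ℓ : ℂ) / (1 + ℓ * w a)) ^ (k j a)) * ∏ a, (x - w a) ^ (k j a) := by
        rw [← Finset.prod_mul_distrib]
        apply Finset.prod_congr rfl
        intro a _
        rw [← mul_pow]
        congr 1
        have h4 := hone _ (hw4 a)
        field_simp
        ring
      rw [h3, hC, hP]
      ring
    rw [← h2]
    exact h1
  have hfderiv : ∀ x, deriv f x = (q ^ j * ℓ) * deriv F (q ^ j * (1 + ℓ * x)) := by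
    intro x
    have h1 := ((hF (q ^ j * (1 + ℓ * x))).comp x (haff x)).deriv
    rw [(hF (q ^ j * (1 + ℓ * x))).deriv, mul_comm]
    exact h1
  have hPdiff : Differentiable ℂ P := by
    rw [hP]; fun_prop
  have hP0 : ∀ x ∈ ball (0 : ℂ) (4 * LL), ∀ i ∈ (range J).erase j, ∀ a,
      1 - q ^ j * (1 + ℓ * x) / (q ^ i * (1 + ℓ * w a)) ≠ 0 := by
    intro x hx i hi a h0
    apply hp x hx i hi a
    have h1 := hone _ (hw4 a)
    have h2 : (1 + (ℓ : ℂ) * x) - q ^ i / q ^ j * (1 + ℓ * w a) =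
      -(q ^ i * (1 + ℓ * w a) / q ^ j) *
        (1 - q ^ j * (1 + ℓ * x) / (q ^ i * (1 + ℓ * w a))) := by
      field_simp
      ring
    rw [h2, h0, mul_zero]
  have hPlog : ∀ x ∈ ball (0 : ℂ) (4 * LL), logDeriv (fun x => C * P x) x =
      ℓ * ∑ i ∈ (range J).erase j, ∑ a, (k i a : ℂ) /
        ((1 + ℓ * x) - q ^ i / q ^ j * (1 + ℓ * w a)) := by
    intro x hx
    rw [logDeriv_const_mul _ _ hC0, hP, logDeriv_PP _ (fun i a => q ^ i * (1 + ℓ * w a)) k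
      (q ^ j) ℓ x hqj (fun i _ a => hA0 i a) (fun i hi a => by
        have h1 := hp x hx i hi a
        rwa [mul_div_right_comm])]
    rw [Finset.mul_sum]
    apply Finset.sum_congr rfl
    intro i _
    rw [Finset.mul_sum]
    apply Finset.sum_congr rfl
    intro a _
    rw [mul_div_right_comm]
    ring
  intro s hs
  obtain ⟨w₀, hw1, hw2, hw3⟩ := hmain n hn1 (k j) hround f (fun x => C * P x)
    ((hPdiff.const_mul C).differentiableOn)
    (fun x hx => mul_ne_zero hC0 (Finset.prod_ne_zero_iff.mpr (fun i hi =>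
      Finset.prod_ne_zero_iff.mpr (fun a _ => pow_ne_zero _ (hP0 x hx i hi a)))))
    (by
      intro x hx
      rw [hPlog x hx]
      refine le_trans (le_of_eq ?_) (hfield x hx)
      have h1 : (ℓ : ℂ) * ∑ i ∈ (range J).erase j, ∑ a, (k i a : ℂ) /
        ((1 + ℓ * x) - q ^ i / q ^ j * (1 + ℓ * w a)) - n * u = (ℓ : ℂ) *
        (∑ i ∈ (range J).erase j, ∑ a, (k i a : ℂ) /
        ((1 + ℓ * x) - q ^ i / q ^ j * (1 + ℓ * w a)) - (n / ℓ : ℝ) * u) := by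
        rw [mul_sub]
        congr 1
        push_cast
        field_simp
      rw [h1, norm_mul, Complex.norm_real, Real.norm_of_nonneg hℓ.le])
    (fun x _ => hfd x)
    (by
      rw [hfderiv, norm_mul, norm_mul, norm_pow, hq, Complex.norm_real,
        Real.norm_of_nonneg hℓ.le]
      have h1 : ‖e‖ ≤ 5 / 4 * l ^ j := by
        rw [he, norm_mul, norm_pow, hq]
        have h2 : ‖1 + (ℓ : ℂ) * ex u‖ ≤ 5 / 4 := by
          refine (norm_add_le _ _).trans ?_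
          have h3 := hsmall (ex u) (by rw [hexu]; linarith)
          rw [norm_one]; linarith
        have h3 := mul_le_mul_of_nonneg_left h2 (by positivity : 0 ≤ l ^ j)
        linarith
      have h2 : 1 ≤ ‖deriv F e‖ := (Real.one_le_exp hD0).trans hx1
      have h3 : 1 ≤ l ^ j := one_le_pow₀ hl.le
      have h4 : ‖F e‖ ≤ (9 / 4 * l ^ j) * ‖deriv F e‖ := by
        have h5 : ‖e‖ * ‖deriv F e‖ ≤ 5 / 4 * l ^ j * ‖deriv F e‖ :=
          mul_le_mul_of_nonneg_right h1 (norm_nonneg _)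
        have h6 : 1 ≤ l ^ j * ‖deriv F e‖ := one_le_mul_of_one_le_of_one_le h3 h2
        linarith
      refine h4.trans ?_
      have h5 : 9 / 4 * l ^ j * ‖deriv F e‖ ≤ (Real.exp (η * n) * ℓ) * l ^ j * ‖deriv F e‖ := by
        apply mul_le_mul_of_nonneg_right _ (norm_nonneg _)
        exact mul_le_mul_of_nonneg_right hexp (by positivity)
      refine h5.trans (le_of_eq ?_)
      ring) s hs
  refine ⟨w₀, hw1, hw2, ?_⟩
  intro z hz z' hz'
  obtain ⟨h1, h2⟩ := hw3 z hz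
  have h3 := h2 z' hz'
  rw [hfderiv, norm_mul, norm_mul, norm_pow, hq, Complex.norm_real,
        Real.norm_of_nonneg hℓ.le] at h1 h3
  rw [mul_max_of_nonneg _ _ (Real.exp_pos _).le, mul_one]
  apply max_le
  · calc Real.exp (η * n) ≤ Real.exp D := Real.exp_le_exp.mpr hDn
      _ ≤ ‖deriv F e‖ := hx1
      _ ≤ l ^ j * ℓ * ‖deriv F e‖ := le_mul_of_one_le_left (norm_nonneg _) hlj
      _ ≤ ‖F (q ^ j * (1 + ℓ * z))‖ := h1
  · calc Real.exp (η * n) * ‖deriv F (q ^ j * (1 + ℓ * z'))‖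
        ≤ Real.exp (η * n) * (l ^ j * ℓ * ‖deriv F (q ^ j * (1 + ℓ * z'))‖) := by
          apply mul_le_mul_of_nonneg_left _ (Real.exp_pos _).le
          exact le_mul_of_one_le_left (norm_nonneg _) hlj
      _ ≤ ‖F (q ^ j * (1 + ℓ * z))‖ := h3

end Pool.Agent.NevChar
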