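import Pool.Agent.Lib_MP_2ed15d_an.TopB
import Pool.Agent.Lib_MP_2ed15d_an.TopD
import Pool.Agent.Lib_MP_2ed15d_an.PartD0
import Pool.Agent.Lib_MP_2ed15d_an.PartT4

/-! The local statement at the top level. -/

set_option autoImplicit false

open Metric Complex Finset Filter Topology

namespace Pool.Agent.NevChar

lemma eventually_lin_le (x : ℝ) (hx : 1 < x) (a b c : ℝ) (hc : 0 < c) :
    ∃ j₀ : ℕ, ∀ j : ℕ, j₀ ≤ j → a * j + b ≤ c * x ^ j := by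
  have h1 := (tendsto_pow_const_div_const_pow_of_one_lt 1 hx).const_mul a
  have h2 := (tendsto_pow_const_div_const_pow_of_one_lt 0 hx).const_mul b
  have h3 := h1.add h2
  simp only [mul_zero, add_zero] at h3
  obtain ⟨j₀, hj₀⟩ := Filter.eventually_atTop.mp (h3.eventually (gt_mem_nhds hc))
  refine ⟨j₀, fun j hj => ?_⟩
  have h4 := hj₀ j hj
  have h5 : 0 < x ^ j := by positivity
  have h6 : a * ((j : ℝ) ^ 1 / x ^ j) + b * ((j : ℝ) ^ 0 / x ^ j) = (a * j + b) / x ^ j := by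
    rw [pow_one, pow_zero]; ring
  rw [h6, div_lt_iff₀ h5] at h4
  exact h4.le

/-- numerical facts on the size of the limiting field -/
lemma top_numbers {κ η S : ℝ} {G : ℂ} (hκ : 1000 ≤ κ) (hη : 0 < η) (hη1 : η ≤ 1)
    (hS : 10 ^ 15 / η ≤ S) (hG : ‖G - ((κ * S ^ 2 / 2 : ℝ) : ℂ)‖ ≤ 80 * S ^ 2) :
    0 < ‖G‖ ∧ 42 / 100 * (κ * S ^ 2) ≤ ‖G‖ ∧ 0 < κ / ‖G‖ ∧ 1 / S ^ 2 ≤ κ / ‖G‖ ∧
      κ / ‖G‖ * S ^ 2 ≤ 12 / 5 ∧ κ / ‖G‖ ≤ η / (64 * LL ^ 2) ∧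
      64 * LL * S * (κ / ‖G‖) ≤ 1 ∧ 64 * LL * (κ / ‖G‖) ≤ 1 := by
  have hS1 : 10 ^ 15 ≤ S := by
    refine le_trans ?_ hS
    rw [le_div_iff₀ hη]
    nlinarith
  have hS0 : 0 < S := by linarith
  have hκ0 : 0 < κ := by linarith
  have hSS : 0 < S ^ 2 := by positivity
  have hκS : 0 < κ * S ^ 2 := by positivity
  have h1 : 1000 * S ^ 2 ≤ κ * S ^ 2 := mul_le_mul_of_nonneg_right hκ hSS.le
  have h2 : ‖((κ * S ^ 2 / 2 : ℝ) : ℂ)‖ = κ * S ^ 2 / 2 := by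
    rw [Complex.norm_real, Real.norm_of_nonneg (by positivity)]
  have h3 : ‖((κ * S ^ 2 / 2 : ℝ) : ℂ)‖ ≤ ‖G‖ + ‖G - ((κ * S ^ 2 / 2 : ℝ) : ℂ)‖ := by
    have := norm_sub_le G (G - ((κ * S ^ 2 / 2 : ℝ) : ℂ))
    simpa using this
  have h4 : ‖G‖ ≤ ‖((κ * S ^ 2 / 2 : ℝ) : ℂ)‖ + ‖G - ((κ * S ^ 2 / 2 : ℝ) : ℂ)‖ := by
    have := norm_add_le ((κ * S ^ 2 / 2 : ℝ) : ℂ) (G - ((κ * S ^ 2 / 2 : ℝ) : ℂ))
    simpa using this
  have h5 : 42 / 100 * (κ * S ^ 2) ≤ ‖G‖ := by linarith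
  have h6 : ‖G‖ ≤ κ * S ^ 2 := by linarith
  have hG0 : 0 < ‖G‖ := by linarith
  have h7 : κ / ‖G‖ * S ^ 2 ≤ 12 / 5 := by
    rw [div_mul_eq_mul_div, div_le_iff₀ hG0]
    linarith
  have hℓ0 : 0 < κ / ‖G‖ := by positivity
  refine ⟨hG0, h5, hℓ0, ?_, h7, ?_, ?_, ?_⟩
  · rw [div_le_div_iff₀ hSS hG0]; linarith
  · have h8 : (64 * LL ^ 2) * (12 / 5) ≤ η * S ^ 2 := by
      have h9 : 10 ^ 15 ≤ η * S := by
        rw [div_le_iff₀ hη] at hS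
        linarith
      have h10 : 10 ^ 15 * 10 ^ 15 ≤ (η * S) * S :=
        mul_le_mul h9 hS1 (by norm_num) (by positivity)
      have h11 : (64 * LL ^ 2) * (12 / 5) ≤ 10 ^ 15 * 10 ^ 15 := by norm_num [LL]
      calc (64 * LL ^ 2) * (12 / 5) ≤ 10 ^ 15 * 10 ^ 15 := h11
        _ ≤ (η * S) * S := h10
        _ = η * S ^ 2 := by ring
    rw [le_div_iff₀ (by norm_num [LL])]
    have h9 : κ / ‖G‖ * (64 * LL ^ 2) * (12 / 5) ≤ η * (12 / 5) := by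
      calc κ / ‖G‖ * (64 * LL ^ 2) * (12 / 5) = κ / ‖G‖ * ((64 * LL ^ 2) * (12 / 5)) := by ring
        _ ≤ κ / ‖G‖ * (η * S ^ 2) := mul_le_mul_of_nonneg_left h8 hℓ0.le
        _ = η * (κ / ‖G‖ * S ^ 2) := by ring
        _ ≤ η * (12 / 5) := mul_le_mul_of_nonneg_left h7 hη.le
    linarith
  · have h8 : 64 * LL * (12 / 5) ≤ S := by
      refine le_trans ?_ hS1
      norm_num [LL]
    have h9 : (64 * LL * S * (κ / ‖G‖)) * S ≤ 1 * S := by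
      calc (64 * LL * S * (κ / ‖G‖)) * S = 64 * LL * (κ / ‖G‖ * S ^ 2) := by ring
        _ ≤ 64 * LL * (12 / 5) := mul_le_mul_of_nonneg_left h7 (by norm_num [LL])
        _ ≤ 1 * S := by linarith
    exact le_of_mul_le_mul_right h9 hS0
  · have h8 : 64 * LL * (12 / 5) ≤ S := by
      refine le_trans ?_ hS1
      norm_num [LL]
    have h9 : (64 * LL * (κ / ‖G‖)) * S ^ 2 ≤ 1 * S ^ 2 := by
      calc (64 * LL * (κ / ‖G‖)) * S ^ 2 = 64 * LL * (κ / ‖G‖ * S ^ 2) := by ring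
        _ ≤ 64 * LL * (12 / 5) := mul_le_mul_of_nonneg_left h7 (by norm_num [LL])
        _ ≤ S := h8
        _ = S * 1 := by ring
        _ ≤ S * S := mul_le_mul_of_nonneg_left (by linarith) hS0.le
        _ = 1 * S ^ 2 := by ring
    exact le_of_mul_le_mul_right h9 hSS

lemma abs_floor_sub_le {x : ℝ} (hx : 0 ≤ x) : |(⌊x⌋₊ : ℝ) - x| ≤ 1 := by
  have h1 := Nat.floor_le hx
  have h2 := (Nat.sub_one_lt_floor x).le
  rw [abs_le]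
  constructor <;> linarith

/-- numerical combination of the error terms of the field -/
lemma field_numbers {κ η S ℓ g Nn j x e1 e2 : ℝ} (hκ : 0 < κ) (hη : 0 < η) (hS : 0 < S)
    (hℓ : 0 < ℓ) (hx : 0 < x) (hg : 42 / 100 * (κ * S ^ 2) ≤ g) (hℓg : ℓ * g = κ)
    (hℓS : ℓ * S ^ 2 ≤ 12 / 5)
    (he1 : e1 ≤ 16 * Nn * S * j + 2 * Nn * (40 * S ^ 2) +
      8 * ℓ * LL * (η * κ / (1000 * LL) * S ^ 4 + η * κ / (1000 * LL) * S ^ 4) * x)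
    (he2 : e2 ≤ 8 * S * (κ * S ^ 2 / 2) + x * (η * κ * S ^ 2 / 10))
    (ha : (16 * Nn * S) * j + (80 * Nn * S ^ 2 + 4 * κ * S ^ 3) ≤ (η * κ * S ^ 2 / 5) * x) :
    ℓ * (e1 + e2) ≤ η * (κ * x) := by
  have hLL : (0 : ℝ) < LL := by norm_num [LL]
  have h1 : 8 * ℓ * LL * (η * κ / (1000 * LL) * S ^ 4 + η * κ / (1000 * LL) * S ^ 4) * x =
      (16 / 1000) * (η * κ * S ^ 2 * x) * (ℓ * S ^ 2) := by
    field_simp
    ring
  have h2 : 0 < η * κ * S ^ 2 * x := by positivity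
  have h3 : (16 / 1000) * (η * κ * S ^ 2 * x) * (ℓ * S ^ 2) ≤
      (16 / 1000) * (η * κ * S ^ 2 * x) * (12 / 5) :=
    mul_le_mul_of_nonneg_left hℓS (by positivity)
  rw [h1] at he1
  have h4 : e1 + e2 ≤ 42 / 100 * (η * κ * S ^ 2 * x) := by
    have h5 : 8 * S * (κ * S ^ 2 / 2) = 4 * κ * S ^ 3 := by ring
    have h6 : x * (η * κ * S ^ 2 / 10) = 1 / 10 * (η * κ * S ^ 2 * x) := by ring
    have h7 : (η * κ * S ^ 2 / 5) * x = 1 / 5 * (η * κ * S ^ 2 * x) := by ring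
    rw [h5, h6] at he2
    rw [h7] at ha
    linarith
  have h5 : 42 / 100 * (η * κ * S ^ 2 * x) ≤ (η * x) * g := by
    calc 42 / 100 * (η * κ * S ^ 2 * x) = (η * x) * (42 / 100 * (κ * S ^ 2)) := by ring
      _ ≤ (η * x) * g := mul_le_mul_of_nonneg_left hg (by positivity)
  calc ℓ * (e1 + e2) ≤ ℓ * ((η * x) * g) :=
        mul_le_mul_of_nonneg_left (h4.trans h5) hℓ.le
    _ = (η * x) * (ℓ * g) := by ring
    _ = η * (κ * x) := by rw [hℓg]; ring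

lemma top_core {κ η : ℝ} (hκ : 1000 ≤ κ) (hη : 0 < η) (hη1 : η ≤ 1)
    {q : ℂ} {l μ S : ℝ} (hSη : 10 ^ 15 / η ≤ S) (hl : 1 < l) (hμe : μ = 1 + 2 / (κ * S ^ 2))
    (hq : ‖q‖ = l) (hsep : ∀ k : ℕ, (1 + l ^ (k + 1)) / (8 * S) ≤ ‖q ^ (k + 1) - 1‖)
    (hXs : Summable (fun k : ℕ => μ ^ (k + 1) / ‖q ^ (k + 1) - 1‖))
    (hX : ∑' k : ℕ, μ ^ (k + 1) / ‖q ^ (k + 1) - 1‖ ≤ 40 * S ^ 2)
    (hYs : Summable (fun k : ℕ => μ ^ (k + 1) * (1 + l ^ (k + 1)) / ‖q ^ (k + 1) - 1‖ ^ 2))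
    (hY : ∑' k : ℕ, μ ^ (k + 1) * (1 + l ^ (k + 1)) / ‖q ^ (k + 1) - 1‖ ^ 2 ≤
      η * κ / (1000 * LL) * S ^ 4)
    (hZs : Summable (fun k : ℕ => (μ ^ (k + 1))⁻¹ * (l ^ (k + 1) * (1 + l ^ (k + 1))) /
      ‖q ^ (k + 1) - 1‖ ^ 2))
    (hZ : ∑' k : ℕ, (μ ^ (k + 1))⁻¹ * (l ^ (k + 1) * (1 + l ^ (k + 1))) /
      ‖q ^ (k + 1) - 1‖ ^ 2 ≤ η * κ / (1000 * LL) * S ^ 4)
    {N : ℕ} {w : Fin N → ℂ} {m : Fin N → ℝ} {ℓ : ℝ} (hℓe : ℓ = κ / ‖tG q μ‖)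
    (hcfg : Cfg κ η (tG q μ / ‖tG q μ‖) w m) :
    ∃ j₁ : ℕ, ∀ j : ℕ, j₁ ≤ j → ∃ J₁ : ℕ, ∀ J : ℕ, J₁ ≤ J → ∀ F : ℂ → ℂ,
      (∀ z, HasDerivAt F (∏ i ∈ Finset.range J, ∏ a,
        (1 - z / (q ^ i * (1 + ℓ * w a))) ^ ⌊κ * μ ^ i * m a⌋₊) z) →
      F 0 = 1 →
      ∀ s ∈ Set.Icc (0 : ℝ) 1, ∃ w₀ : ℂ, w₀.re = s ∧ ‖w₀‖ ≤ 2 * LL ∧
        ∀ z ∈ closedBall w₀ η, ∀ z' ∈ closedBall w₀ η,
          Real.exp (η * (κ * μ ^ j)) * max 1 ‖deriv F (q ^ j * (1 + ℓ * z'))‖ ≤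
            ‖F (q ^ j * (1 + ℓ * z))‖ := by
  have hLL : (0 : ℝ) < LL := by norm_num [LL]
  have hκ0 : 0 < κ := by linarith
  have hS1 : 10 ^ 15 ≤ S := by
    refine le_trans ?_ hSη
    rw [le_div_iff₀ hη]
    nlinarith only [hη1, hη]
  have hS0 : 0 < S := by linarith
  have hμ1 : 1 < μ := by
    rw [hμe]
    have : 0 < 2 / (κ * S ^ 2) := by positivity
    linarith
  have hμ0 : 0 < μ := by linarith
  have hl0 : 0 < l := by linarith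
  have hinv : 1 / (μ - 1) = κ * S ^ 2 / 2 := by
    rw [hμe]
    field_simp
    ring
  have hG := norm_tG_sub hS0 hl hμ1 hq hsep hXs hX
  rw [hinv] at hG
  have hG' : ‖tG q μ - ((κ * S ^ 2 / 2 : ℝ) : ℂ)‖ ≤ 80 * S ^ 2 := by linarith
  obtain ⟨hg0, hg1, hℓ0, hℓS1, hℓS2, -, hℓ1, hℓ2⟩ := top_numbers hκ hη hη1 hSη hG'
  rw [← hℓe] at hℓ0 hℓS1 hℓS2 hℓ1 hℓ2
  have hℓg : ℓ * ‖tG q μ‖ = κ := by rw [hℓe]; field_simp
  have hu : ‖tG q μ / ‖tG q μ‖‖ = 1 := by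
    rw [norm_div, Complex.norm_real, norm_norm]
    exact div_self hg0.ne'
  have hXp : ∀ n, ∑ k ∈ range n, μ ^ (k + 1) / ‖q ^ (k + 1) - 1‖ ≤ 40 * S ^ 2 := fun n =>
    (hXs.sum_le_tsum _ (fun k _ => by positivity)).trans hX
  have hYp : ∀ n, ∑ k ∈ range n, μ ^ (k + 1) * (1 + l ^ (k + 1)) / ‖q ^ (k + 1) - 1‖ ^ 2 ≤
      η * κ / (1000 * LL) * S ^ 4 := fun n =>
    (hYs.sum_le_tsum _ (fun k _ => by positivity)).trans hY
  have hZp : ∀ n, ∑ k ∈ range n, (μ ^ (k + 1))⁻¹ * (l ^ (k + 1) * (1 + l ^ (k + 1))) /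
      ‖q ^ (k + 1) - 1‖ ^ 2 ≤ η * κ / (1000 * LL) * S ^ 4 := fun n =>
    (hZs.sum_le_tsum _ (fun k _ => by positivity)).trans hZ
  obtain ⟨M₀, hM₀⟩ := field_tail hS0 hl hμ1 hq hsep hXs
    (by positivity : 0 < η * κ * S ^ 2 / 10)
  obtain ⟨ja, hja⟩ := eventually_lin_le μ hμ1 (16 * N * S) (80 * N * S ^ 2 + 4 * κ * S ^ 3)
    (η * κ * S ^ 2 / 5) (by positivity)
  obtain ⟨jb, hjb⟩ := eventually_lin_le μ hμ1 N (κ * S ^ 2 / 2) (κ * S ^ 2 / 25) (by positivity)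
  obtain ⟨jc, hjc⟩ := eventually_lin_le μ hμ1 0 (9 / 4) (η * κ * ℓ) (by positivity)
  obtain ⟨jd, hjd⟩ := eventually_lin_le l hl 0 1 ℓ hℓ0
  obtain ⟨je, hje⟩ := eventually_lin_le μ hμ1 0 (1 / η) κ hκ0
  obtain ⟨jf, hjf⟩ := eventually_lin_le μ hμ1 0 N (η * κ) (by positivity)
  refine ⟨max ja (max jb (max jc (max jd (max je jf)))), fun j hj => ⟨j + 1 + M₀, ?_⟩⟩
  simp only [max_le_iff] at hj
  obtain ⟨hj1, hj2, hj3, hj4, hj5, hj6⟩ := hj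
  have ha := hja j hj1
  have hb := hjb j hj2
  have hc := hjc j hj3
  have hd := hjd j hj4
  have he := hje j hj5
  have hf := hjf j hj6
  rw [zero_mul, zero_add] at hc hd he hf
  intro J hJ F hF hF0
  have hjJ : j < J := by omega
  have hμj : 0 < μ ^ j := by positivity
  have hw : ∀ i, ‖w i‖ ≤ LL := hcfg.1
  have hm0 : ∀ i, 0 ≤ m i := hcfg.2.1
  have hms : ∑ i, m i = 1 / κ := hcfg.2.2.1
  have hround : ∀ i, ∑ a, |(⌊κ * μ ^ i * m a⌋₊ : ℝ) - κ * μ ^ i * m a| ≤ N := by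
    intro i
    calc ∑ a, |(⌊κ * μ ^ i * m a⌋₊ : ℝ) - κ * μ ^ i * m a| ≤ ∑ a : Fin N, (1 : ℝ) := by
          apply Finset.sum_le_sum
          intro a _
          exact abs_floor_sub_le (by have := hm0 a; positivity)
      _ = N := by simp
  refine top_step hcfg hη1 hη hu hl hq hℓ0 hℓ2 (fun i a => ⌊κ * μ ^ i * m a⌋₊) hjJ
    (n := κ * μ ^ j) (D := κ * S ^ 2 * μ ^ j / 4) ?_ he ?_ ?_ (by positivity) ?_ ?_ ?_ ?_ hF hF0
  · exact (hround j).trans (by linarith)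
  · intro w' hw' i hi a
    have hij := (Finset.mem_erase.mp hi).1
    have h1 := p_half hS0 hl hq hsep hℓ0 hℓ1 (mem_ball_zero_iff.mp hw').le (hw a) hij
    have h2 := d_pos hS0 hl hq hsep hij
    exact norm_pos_iff.mp (by linarith)
  · intro w' hw'
    have hw4 : ‖w'‖ ≤ 4 * LL := (mem_ball_zero_iff.mp hw').le
    have h1 := field_bound2 ((range J).erase j)
      (p := fun i a => (1 + ℓ * w') - q ^ i / q ^ j * (1 + ℓ * w a))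
      (d := fun i => 1 - q ^ i / q ^ j) (k := fun i a => ⌊κ * μ ^ i * m a⌋₊)
      (K := fun i a => κ * μ ^ i * m a) (Mq := fun i => μ ^ i)
      (ρ := fun i => ℓ * LL * (4 + l ^ i / l ^ j)) (R := fun _ => (N : ℝ))
      (fun i hi => d_pos hS0 hl hq hsep (Finset.mem_erase.mp hi).1)
      (fun i _ a => p_sub_d hq hℓ0 hw4 (hw a) i j)
      (fun i hi => rho_le hS0 hl hq hsep hℓ0 hℓ1 (Finset.mem_erase.mp hi).1)
      (fun i _ a => by have := hm0 a; positivity)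
      (fun i _ => by rw [← Finset.mul_sum, hms]; field_simp)
      (fun i _ => hround i)
    have h2 := err_sum hS0 hl hμ1 hq hsep hℓ0 hjJ (Nat.cast_nonneg N) hXp hYp hZp
    have h3 := h1.trans h2
    have h4 := hM₀ (J - 1 - j) (by omega) j
    have h5 := main_term (μ := μ) hl hμ1 hq hjJ
    rw [hinv] at h4
    have h6 : ((κ * μ ^ j / ℓ : ℝ) : ℂ) * (tG q μ / ‖tG q μ‖) = ((μ ^ j : ℝ) : ℂ) * tG q μ := by
      have h7 : κ * μ ^ j / ℓ = μ ^ j * ‖tG q μ‖ := by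
        rw [div_eq_iff hℓ0.ne', ← hℓg]; ring
      rw [h7]
      have h8 : ((‖tG q μ‖ : ℝ) : ℂ) ≠ 0 := by exact_mod_cast hg0.ne'
      push_cast
      field_simp
    rw [h6]
    refine le_trans ?_ (field_numbers hκ0 hη hS0 hℓ0 hμj hg1 hℓg hℓS2 h3 h4 ha)
    apply mul_le_mul_of_nonneg_left _ hℓ0.le
    have h9 := norm_add_le
      (∑ i ∈ (range J).erase j, ∑ a, ((⌊κ * μ ^ i * m a⌋₊ : ℕ) : ℂ) /
        ((1 + ℓ * w') - q ^ i / q ^ j * (1 + ℓ * w a)) -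
        ∑ i ∈ (range J).erase j, ((μ ^ i : ℝ) : ℂ) / (1 - q ^ i / q ^ j))
      (∑ i ∈ (range J).erase j, ((μ ^ i : ℝ) : ℂ) / (1 - q ^ i / q ^ j) -
        ((μ ^ j : ℝ) : ℂ) * tG q μ)
    rw [sub_add_sub_cancel] at h9
    refine h9.trans ?_
    apply add_le_add_right
    rw [h5]
    exact le_refl _
  · -- η n ≤ D
    have h1 : 4 * η ≤ S ^ 2 := by nlinarith only [hS1, hη1]
    have h2 : 0 < κ * μ ^ j := by positivity
    have h3 := mul_le_mul_of_nonneg_left h1 h2.le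
    linarith
  · -- radial
    have h1 := radial_sum hS0 hl hμ1 hq hsep hℓ0 hℓ1 hℓ2 hκ0 hw hm0 hms
      (e₀ := ex (tG q μ / ‖tG q μ‖)) (by
        rw [ex, norm_mul, RCLike.norm_conj, hu, mul_one, norm_neg,
          Complex.norm_real, Real.norm_eq_abs, abs_of_pos (by positivity)]) hjJ hXp
    refine h1.trans ?_
    have h2 : (μ ^ j - 1) / (μ - 1) = (μ ^ j - 1) * (κ * S ^ 2 / 2) := by
      rw [div_eq_mul_one_div, hinv]
    have h3 : 1 / (ℓ * LL) ≤ S ^ 2 := by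
      rw [div_le_iff₀ (by positivity)]
      rw [div_le_iff₀ (by positivity)] at hℓS1
      have h4 : ℓ * S ^ 2 ≤ (ℓ * S ^ 2) * LL :=
        le_mul_of_one_le_right (by positivity) (by norm_num [LL])
      linarith
    have h4 : μ ^ j * (1 / (ℓ * LL)) ≤ μ ^ j * S ^ 2 := mul_le_mul_of_nonneg_left h3 hμj.le
    have h5 : 1000 * (S ^ 2 * μ ^ j) ≤ κ * (S ^ 2 * μ ^ j) :=
      mul_le_mul_of_nonneg_right hκ (by positivity)
    rw [h2]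
    have h6 : -((μ ^ j - 1) * (κ * S ^ 2 / 2)) = -(1 / 2) * (κ * (S ^ 2 * μ ^ j)) +
      κ * S ^ 2 / 2 := by ring
    rw [h6]
    have h7 : κ * S ^ 2 / 25 * μ ^ j = 1 / 25 * (κ * (S ^ 2 * μ ^ j)) := by ring
    rw [h7] at hb
    have h8 : -(κ * S ^ 2 * μ ^ j / 4) = -(1 / 4) * (κ * (S ^ 2 * μ ^ j)) := by ring
    rw [h8]
    have h9 : 0 < κ * (S ^ 2 * μ ^ j) := by positivity
    linarith only [h4, h5, hb, h9]
  · linarith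
  · have h1 := Real.add_one_le_exp (η * (κ * μ ^ j))
    have h2 : η * (κ * μ ^ j) * ℓ ≤ Real.exp (η * (κ * μ ^ j)) * ℓ :=
      mul_le_mul_of_nonneg_right (by linarith) hℓ0.le
    linarith

/-- PART T2 -/
theorem top_local (κ η : ℝ) (hκ : 1000 ≤ κ) (hη : 0 < η) (hη1 : η ≤ 1) (h : Good κ η) :
    TopLocal κ η := by
  have hLL : (0 : ℝ) < LL := by norm_num [LL]
  have hκ0 : 0 < κ := by linarith
  obtain ⟨S₀, hS₀⟩ := top_sums κ hκ (η * κ / (1000 * LL)) (by positivity)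
  obtain ⟨S₁, hS₁⟩ := exists_nat_ge (10 ^ 15 / η)
  obtain ⟨hsep, ⟨hXs, hX⟩, ⟨hYs, hY⟩, ⟨hZs, hZ⟩⟩ := hS₀ (max S₀ S₁) (le_max_left _ _)
  set S : ℕ := max S₀ S₁ with hSdef
  have hSη : 10 ^ 15 / η ≤ (S : ℝ) := hS₁.trans (by exact_mod_cast le_max_right _ _)
  have hS1 : (10 : ℝ) ^ 15 ≤ S := by
    refine le_trans ?_ hSη
    rw [le_div_iff₀ hη]
    nlinarith only [hη1, hη]
  have hS0 : (0 : ℝ) < S := by linarith
  have hl : 1 < lam S := by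
    rw [lam]
    have : 0 < 1 / (S : ℝ) ^ 2 := by positivity
    linarith
  have hq : ‖qq S‖ = lam S := by
    have h1 : 2 * (Real.pi : ℂ) * I / S = ((2 * Real.pi / S : ℝ) : ℂ) * I := by
      push_cast; ring
    rw [qq, norm_mul, h1, Complex.norm_exp_ofReal_mul_I, mul_one, Complex.norm_real,
      Real.norm_of_nonneg (by linarith)]
  have hμe : mu S κ = 1 + 2 / (κ * (S : ℝ) ^ 2) := rfl
  have hμ1 : 1 < mu S κ := by
    rw [hμe]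
    have : 0 < 2 / (κ * (S : ℝ) ^ 2) := by positivity
    linarith
  have hinv : 1 / (mu S κ - 1) = κ * (S : ℝ) ^ 2 / 2 := by
    rw [hμe]
    field_simp
    ring
  have hG := norm_tG_sub hS0 hl hμ1 hq hsep hXs hX
  rw [hinv] at hG
  have hG' : ‖tG (qq S) (mu S κ) - ((κ * (S : ℝ) ^ 2 / 2 : ℝ) : ℂ)‖ ≤ 80 * (S : ℝ) ^ 2 := by
    linarith
  obtain ⟨hg0, hg1, hℓ0, hℓS1, hℓS2, hℓS3, hℓ1, hℓ2⟩ := top_numbers hκ hη hη1 hSη hG'
  have hu : ‖tG (qq S) (mu S κ) / ‖tG (qq S) (mu S κ)‖‖ = 1 := by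
    rw [norm_div, Complex.norm_real, norm_norm]
    exact div_self hg0.ne'
  obtain ⟨N, w, m, hcfg⟩ := h _ hu
  have hcore := top_core hκ hη hη1 hSη hl hμe hq hsep hXs hX hYs hY hZs hZ
    (ℓ := κ / ‖tG (qq S) (mu S κ)‖) rfl hcfg
  refine ⟨S, N, w, m, κ / ‖tG (qq S) (mu S κ)‖, by exact_mod_cast hS0, hcfg.1, hcfg.2.1,
    hcfg.2.2.1, ?_, hℓS3, ?_⟩
  · rw [lam]
    linarith
  · obtain ⟨j₁, hj₁⟩ := hcore
    refine ⟨j₁, fun j hj => ?_⟩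
    obtain ⟨J₁, hJ₁⟩ := hj₁ j hj
    refine ⟨J₁, fun J hJ F hF hF0 s hs => ?_⟩
    obtain ⟨w₀, h1, h2, h3⟩ := hJ₁ J hJ F hF hF0 s hs
    refine ⟨w₀, h1, h2, fun z hz z' hz' => ?_⟩
    have h4 := h3 z hz z' hz'
    rw [← mul_assoc] at h4
    exact h4

end Pool.Agent.NevChar
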