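import Pool.Agent.Lib_MP_2ed15d_an.StepB2
import Pool.Agent.Lib_MP_2ed15d_an.PartA
import Pool.Agent.Lib_MP_2ed15d_an.PartB1
import Pool.Agent.Lib_MP_2ed15d_an.PartC
import Pool.Agent.Lib_MP_2ed15d_an.TopE

/-! Final assembly. -/

set_option autoImplicit false

open Metric Complex Finset Filter Topology

namespace Pool.Agent.NevChar

theorem good_step (κ : ℝ) (hκ : 1 / 16 ≤ κ) (h : ∃ η : ℝ, 0 < η ∧ η ≤ 1 ∧ Good κ η) :
    ∃ η : ℝ, 0 < η ∧ η ≤ 1 ∧ Good (κ + 1 / 10 ^ 23 / κ) η :=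
  good_step_of_masses κ hκ (exists_masses κ hκ) h

theorem exists_good_large (K : ℝ) : ∃ κ η : ℝ, K ≤ κ ∧ 0 < η ∧ η ≤ 1 ∧ Good κ η := by
  have key : ∀ j : ℕ, ∃ κ : ℝ, 1 / 16 ≤ κ ∧ (j : ℝ) * (2 / 10 ^ 23) ≤ κ ^ 2 ∧
      ∃ η : ℝ, 0 < η ∧ η ≤ 1 ∧ Good κ η := by
    intro j
    induction j with
    | zero => exact ⟨1 / 16, le_refl _, by norm_num, good_base⟩
    | succ j ih =>
      obtain ⟨κ, hκ, hj, hg⟩ := ih
      have hκ0 : 0 < κ := by linarith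
      refine ⟨κ + 1 / 10 ^ 23 / κ, ?_, ?_, good_step κ hκ hg⟩
      · have : 0 < 1 / 10 ^ 23 / κ := by positivity
        linarith
      · have h1 : (κ + 1 / 10 ^ 23 / κ) ^ 2 = κ ^ 2 + 2 / 10 ^ 23 + (1 / 10 ^ 23 / κ) ^ 2 := by
          field_simp; ring
        have h2 : 0 ≤ (1 / 10 ^ 23 / κ) ^ 2 := by positivity
        rw [h1]; push_cast; linarith
  obtain ⟨j, hj⟩ := exists_nat_ge ((|K| ^ 2) / (2 / 10 ^ 23))
  obtain ⟨κ, hκ, hj2, η, h1, h2, h3⟩ := key j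
  refine ⟨κ, η, ?_, h1, h2, h3⟩
  have h4 : |K| ^ 2 ≤ κ ^ 2 := by
    have : (|K| ^ 2) ≤ j * (2 / 10 ^ 23) := by
      rw [div_le_iff₀ (by norm_num)] at hj
      exact hj
    linarith
  have h5 : |K| ≤ κ := by
    have h6 : 0 ≤ κ := by linarith
    exact (abs_of_nonneg h6) ▸ (by simpa using sq_le_sq.mp (by simpa using h4))
  exact (le_abs_self K).trans h5

/-- comparison of two powers -/
lemma pow_compare {C ρ σ : ℝ} (hC : 0 < C) (hρ : 0 < ρ) (hρσ : ρ < σ) :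
    ∃ C' : ℝ, ∀ x : ℝ, 0 ≤ x → C * (1 + x ^ ρ) ≤ C' + x ^ σ := by
  set x₀ : ℝ := C ^ (1 / (σ - ρ)) with hx₀
  have hσρ : 0 < σ - ρ := by linarith
  have hx₀0 : 0 < x₀ := Real.rpow_pos_of_pos hC _
  have hx₀C : x₀ ^ (σ - ρ) = C := by
    rw [hx₀, ← Real.rpow_mul hC.le, one_div_mul_cancel hσρ.ne', Real.rpow_one]
  refine ⟨C + C * x₀ ^ ρ, fun x hx => ?_⟩
  rcases le_total x x₀ with h | h
  · have h1 : x ^ ρ ≤ x₀ ^ ρ := Real.rpow_le_rpow hx h hρ.le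
    have h2 : C * x ^ ρ ≤ C * x₀ ^ ρ := mul_le_mul_of_nonneg_left h1 hC.le
    have h3 : 0 ≤ x ^ σ := Real.rpow_nonneg hx _
    linarith
  · have hx0 : 0 < x := lt_of_lt_of_le hx₀0 h
    have h1 : C ≤ x ^ (σ - ρ) := by
      rw [← hx₀C]; exact Real.rpow_le_rpow hx₀0.le h hσρ.le
    have h2 : C * x ^ ρ ≤ x ^ (σ - ρ) * x ^ ρ :=
      mul_le_mul_of_nonneg_right h1 (Real.rpow_nonneg hx _)
    rw [← Real.rpow_add hx0, sub_add_cancel] at h2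
    have h3 : 0 ≤ C * x₀ ^ ρ := by positivity
    linarith

/-- a polynomial does not grow like `exp (c r ^ ρ)` -/
lemma not_poly {f : ℂ → ℂ} {ρ c r₀ : ℝ} (hρ : 0 < ρ) (hc : 0 < c)
    (hf : ∀ r, r₀ ≤ r → ∃ θ : ℝ, Real.exp (c * r ^ ρ) ≤ ‖f (circleMap 0 r θ)‖) :
    ¬ ∃ p : Polynomial ℂ, ∀ z : ℂ, f z = p.eval z := by
  rintro ⟨p, hp⟩
  set A : ℝ := ∑ i ∈ range (p.natDegree + 1), ‖p.coeff i‖ with hA
  have hA0 : 0 ≤ A := Finset.sum_nonneg (fun i _ => norm_nonneg _)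
  have hbound : ∀ r : ℝ, 1 ≤ r → ∀ θ : ℝ, ‖f (circleMap 0 r θ)‖ ≤ A * r ^ p.natDegree := by
    intro r hr θ
    rw [hp, Polynomial.eval_eq_sum_range]
    refine (norm_sum_le _ _).trans ?_
    rw [hA, Finset.sum_mul]
    apply Finset.sum_le_sum
    intro i hi
    rw [norm_mul, norm_pow]
    have h1 : ‖circleMap 0 r θ‖ = r := by
      rw [norm_circleMap_zero, abs_of_nonneg (by linarith)]
    rw [h1]
    apply mul_le_mul_of_nonneg_left _ (norm_nonneg _)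
    exact pow_le_pow_right₀ hr (by have := Finset.mem_range.mp hi; omega)
  have h1 := (isLittleO_rpow_exp_pos_mul_atTop (p.natDegree / ρ) hc).comp_tendsto
    (tendsto_rpow_atTop hρ)
  have h2 := h1.bound (show (0 : ℝ) < 1 / (A + 1) by positivity)
  obtain ⟨r, hr1, hr2, hr3⟩ := (h2.and ((eventually_ge_atTop r₀).and
    (eventually_ge_atTop 1))).exists
  simp only [Function.comp_apply] at hr1
  have hr0 : 0 ≤ r := by linarith
  have h3 : (r ^ ρ) ^ ((p.natDegree : ℝ) / ρ) = r ^ p.natDegree := by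
    rw [← Real.rpow_mul hr0, mul_div_cancel₀ _ hρ.ne', Real.rpow_natCast]
  rw [h3, Real.norm_of_nonneg (by positivity), Real.norm_of_nonneg (Real.exp_pos _).le] at hr1
  obtain ⟨θ, hθ⟩ := hf r hr2
  have h4 := hθ.trans (hbound r hr3 θ)
  have h5 : A * r ^ p.natDegree ≤ A * (1 / (A + 1) * Real.exp (c * r ^ ρ)) :=
    mul_le_mul_of_nonneg_left hr1 hA0
  have h6 : A * (1 / (A + 1) * Real.exp (c * r ^ ρ)) < Real.exp (c * r ^ ρ) := by
    have h7 : A / (A + 1) < 1 := by rw [div_lt_one (by positivity)]; linarith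
    calc A * (1 / (A + 1) * Real.exp (c * r ^ ρ)) = A / (A + 1) * Real.exp (c * r ^ ρ) := by ring
      _ < 1 * Real.exp (c * r ^ ρ) := mul_lt_mul_of_pos_right h7 (Real.exp_pos _)
      _ = _ := one_mul _
  linarith

/-- the counterexamples -/
theorem main_example (d : ℝ) (hd : 0 < d) :
    ∃ f : ℂ → ℂ, Differentiable ℂ f ∧ (¬ ∃ p : Polynomial ℂ, ∀ z : ℂ, f z = p.eval z) ∧
      (∃ σ : ℝ, σ < d ∧ ∃ C : ℝ, ∀ z : ℂ, ‖f z‖ ≤ Real.exp (C + ‖z‖ ^ σ)) ∧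
      ∃ ε : ℝ, 0 < ε ∧ ∃ R : ℝ, ∀ r, R ≤ r →
      (1 + ε) * ((1 / (2 * Real.pi)) *
          intervalIntegral (fun θ : ℝ => max 0 (Real.log ‖deriv f (circleMap 0 r θ)‖))
            0 (2 * Real.pi) MeasureTheory.volume) <
        (1 / (2 * Real.pi)) *
          intervalIntegral (fun θ : ℝ => max 0 (Real.log ‖f (circleMap 0 r θ)‖))
            0 (2 * Real.pi) MeasureTheory.volume := by
  obtain ⟨κ, η, hκ, hη, hη1, hgood⟩ := exists_good_large (max 1000 (8 / d))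
  have hκ1 : 1000 ≤ κ := (le_max_left _ _).trans hκ
  have hκ2 : 8 / d ≤ κ := (le_max_right _ _).trans hκ
  have hκ0 : 0 < κ := by linarith
  obtain ⟨f, ρ, C, c₁, c₂, r₀, hf, hf0, hρ0, hρ4, hC, hc₁, hc₂, hgrow, hflat⟩ :=
    exists_entire_of_local κ η hκ1 hη hη1 (top_local κ η hκ1 hη hη1 hgood)
  have hρd : ρ ≤ d / 2 := by
    refine hρ4.trans ?_
    rw [div_le_iff₀ hd] at hκ2
    rw [div_le_iff₀ hκ0]
    linarith
  have hρ1 : ρ < 1 := by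
    refine lt_of_le_of_lt hρ4 ?_
    rw [div_lt_one hκ0]
    linarith
  refine ⟨f, hf, ?_, ?_, assembly f hf hf0 ρ C c₁ c₂ r₀ hρ0 hρ1 hC hc₁ hc₂ hgrow hflat⟩
  · apply not_poly (r₀ := r₀) hρ0 hc₂
    intro r hr
    obtain ⟨θ₀, hθ₀⟩ := hflat r hr
    refine ⟨θ₀, ?_⟩
    have h1 := hθ₀ θ₀ (by rw [sub_self, abs_zero]; exact hc₁.le)
    refine le_trans ?_ h1
    exact le_mul_of_one_le_right (Real.exp_pos _).le (le_max_left _ _)
  · obtain ⟨C', hC'⟩ := pow_compare hC hρ0 (show ρ < 3 * d / 4 by linarith)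
    refine ⟨3 * d / 4, by linarith, C', fun z => ?_⟩
    exact (hgrow z).trans (Real.exp_le_exp.mpr (hC' _ (norm_nonneg _)))

end Pool.Agent.NevChar
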