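import Pool.Agent.Lib_MP_2ed15d_an.Defs

/-!
# Part B1, sums over the grid
-/

set_option autoImplicit false

open Metric Complex Finset

namespace Pool.Agent.NevChar

/-- `1 / √j`, with value `0` at `j = 0` -/
noncomputable def rs (j : ℕ) : ℝ := 1 / Real.sqrt j

lemma rs_nonneg (j : ℕ) : 0 ≤ rs j := by unfold rs; positivity

lemma rs_zero : rs 0 = 0 := by simp [rs]

lemma sum_rs_aux (n : ℕ) : ∑ j ∈ range (n + 1), rs j ≤ 2 * Real.sqrt n := by
  induction n with
  | zero => simp [rs_zero]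
  | succ n ih =>
    rw [sum_range_succ]
    have h1 : rs (n + 1) ≤ 2 * Real.sqrt (n + 1 : ℕ) - 2 * Real.sqrt n := by
      unfold rs
      have hs : 0 < Real.sqrt ((n + 1 : ℕ) : ℝ) := Real.sqrt_pos.2 (by positivity)
      have hle : Real.sqrt (n : ℝ) ≤ Real.sqrt ((n + 1 : ℕ) : ℝ) :=
        Real.sqrt_le_sqrt (by push_cast; linarith)
      have hsq1 : Real.sqrt ((n + 1 : ℕ) : ℝ) ^ 2 = (n : ℝ) + 1 := by
        rw [Real.sq_sqrt (by positivity)]; push_cast; ring
      have hsq2 : Real.sqrt (n : ℝ) ^ 2 = (n : ℝ) := Real.sq_sqrt (by positivity)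
      rw [div_le_iff₀ hs]
      nlinarith [Real.sqrt_nonneg (n : ℝ)]
    linarith

lemma sum_rs (n : ℕ) : ∑ j ∈ range n, rs j ≤ 2 * Real.sqrt n := by
  have h := sum_rs_aux n
  rw [sum_range_succ] at h
  have := rs_nonneg n
  linarith

lemma sum_rs_pred (n : ℕ) : ∑ j ∈ range n, rs (j - 1) ≤ 2 * Real.sqrt n := by
  rcases n with _ | n
  · simp
  · rw [sum_range_succ']
    simp only [Nat.add_sub_cancel, Nat.zero_sub, rs_zero, add_zero]
    refine le_trans (sum_rs n) ?_
    have : Real.sqrt (n : ℝ) ≤ Real.sqrt ((n + 1 : ℕ) : ℝ) :=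
        Real.sqrt_le_sqrt (by push_cast; linarith)
    linarith

lemma sum_natDist (S : ℕ) (u : Fin S) (h : ℕ → ℝ) (hh : ∀ j, 0 ≤ h j) :
    ∑ u' : Fin S, h ((u : ℤ) - (u' : ℤ)).natAbs ≤ 2 * ∑ j ∈ range S, h j := by
  classical
  have key : ∀ A : Finset (Fin S),
      Set.InjOn (fun u' : Fin S => ((u : ℤ) - (u' : ℤ)).natAbs) (A : Set (Fin S)) →
      ∑ u' ∈ A, h ((u : ℤ) - (u' : ℤ)).natAbs ≤ ∑ j ∈ range S, h j := by
    intro A hA
    rw [← Finset.sum_image (f := h) (g := fun u' : Fin S => ((u : ℤ) - (u' : ℤ)).natAbs) hA]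
    apply Finset.sum_le_sum_of_subset_of_nonneg
    · intro j hj
      rw [mem_image] at hj
      obtain ⟨u', _, rfl⟩ := hj
      rw [mem_range]
      have := u.2
      have := u'.2
      omega
    · intro j _ _
      exact hh j
  rw [← Finset.sum_filter_add_sum_filter_not univ (fun u' : Fin S => u' ≤ u)]
  have h1 := key (univ.filter (fun u' : Fin S => u' ≤ u)) (by
    intro a ha b hb hab
    simp only [coe_filter, mem_univ, true_and, Set.mem_ofPred_eq] at ha hb
    simp only at hab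
    rw [Fin.le_def] at ha hb
    apply Fin.ext
    omega)
  have h2 := key (univ.filter (fun u' : Fin S => ¬ u' ≤ u)) (by
    intro a ha b hb hab
    simp only [coe_filter, mem_univ, true_and, Set.mem_ofPred_eq] at ha hb
    simp only at hab
    rw [Fin.le_def] at ha hb
    apply Fin.ext
    omega)
  linarith

/-- majorant of `1 / |b_q - b_q'|` in terms of the coordinate distances -/
noncomputable def gm (S : ℕ) (j l : ℕ) : ℝ :=
  (if l = 0 then (S : ℝ) * rs j else 0) + (if j ≤ 1 then (S : ℝ) * rs l else 0) +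
    (S : ℝ) / 10 ^ 5 * (rs (j - 1) * rs l)

lemma gm_nonneg (S j l : ℕ) : 0 ≤ gm S j l := by
  unfold gm
  have h1 := rs_nonneg j
  have h2 := rs_nonneg l
  have h3 := rs_nonneg (j - 1)
  have h4 : (0 : ℝ) ≤ S := by positivity
  have : 0 ≤ (S : ℝ) / 10 ^ 5 * (rs (j - 1) * rs l) := by positivity
  have h5 : 0 ≤ (if l = 0 then (S : ℝ) * rs j else 0) := by split_ifs <;> positivity
  have h6 : 0 ≤ (if j ≤ 1 then (S : ℝ) * rs l else 0) := by split_ifs <;> positivity
  linarith

lemma bp_re (S : ℕ) (q q' : Fin S × Fin S) : (bp S q - bp S q').re =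
    (((q.1 : ℤ) - (q'.1 : ℤ) : ℤ) : ℝ) / S + (((q.2 : ℤ) - (q'.2 : ℤ) : ℤ) : ℝ) / (S : ℝ) ^ 2 := by
  simp only [bp, Complex.sub_re, Complex.add_re, Complex.mul_re, Complex.ofReal_re,
    Complex.ofReal_im, Complex.I_re, Complex.I_im]
  push_cast
  ring

lemma bp_im (S : ℕ) (q q' : Fin S × Fin S) : (bp S q - bp S q').im =
    BB * (((q.2 : ℤ) - (q'.2 : ℤ) : ℤ) : ℝ) / S := by
  simp only [bp, Complex.sub_im, Complex.add_im, Complex.mul_im, Complex.ofReal_re,
    Complex.ofReal_im, Complex.I_re, Complex.I_im]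
  push_cast
  ring

lemma inv_norm_le (S : ℕ) (q q' : Fin S × Fin S) :
    1 / ‖bp S q - bp S q'‖ ≤
      gm S ((q.1 : ℤ) - (q'.1 : ℤ)).natAbs ((q.2 : ℤ) - (q'.2 : ℤ)).natAbs := by
  have hS : 0 < S := lt_of_le_of_lt (Nat.zero_le _) q.1.2
  have hSr : (0 : ℝ) < S := by exact_mod_cast hS
  set z := bp S q - bp S q' with hz
  have hre := bp_re S q q'
  have him := bp_im S q q'
  rw [← hz] at hre him
  set a : ℤ := (q.1 : ℤ) - (q'.1 : ℤ) with ha
  set c : ℤ := (q.2 : ℤ) - (q'.2 : ℤ) with hc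
  have hcS : |c| < S := by
    have h1 := q.2.2
    have h2 := q'.2.2
    rw [abs_lt]
    constructor <;> omega
  have hzre := Complex.abs_re_le_norm z
  have hzim := Complex.abs_im_le_norm z
  have hBB : (0 : ℝ) < BB := by unfold BB; norm_num
  have hBB1 : (1 : ℝ) ≤ BB := by unfold BB; norm_num
  have hna : ((a.natAbs : ℕ) : ℝ) = |(a : ℝ)| := by
    rw [Nat.cast_natAbs, Int.cast_abs]
  have hnc : ((c.natAbs : ℕ) : ℝ) = |(c : ℝ)| := by
    rw [Nat.cast_natAbs, Int.cast_abs]
  by_cases hc0 : c = 0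
  · -- same row
    rw [hc0] at hre him
    have e1 : c.natAbs = 0 := by rw [hc0]; rfl
    unfold gm
    rw [e1, if_pos rfl, rs_zero, mul_zero, ite_self, mul_zero, mul_zero, add_zero, add_zero]
    by_cases ha0 : a = 0
    · have hz0 : z = 0 := by
        apply Complex.ext
        · rw [hre, ha0]; simp
        · rw [him]; simp
      rw [hz0, norm_zero, div_zero]
      have := rs_nonneg a.natAbs
      positivity
    · have ha1 : (1 : ℝ) ≤ |(a : ℝ)| := by
        have : (1 : ℤ) ≤ |a| := Int.one_le_abs ha0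
        exact_mod_cast this
      have hzl : |(a : ℝ)| / S ≤ ‖z‖ := by
        refine le_trans (le_of_eq ?_) hzre
        rw [hre]
        simp [abs_div]
      have hpos : 0 < |(a : ℝ)| / S := by positivity
      calc 1 / ‖z‖ ≤ 1 / (|(a : ℝ)| / S) := one_div_le_one_div_of_le hpos hzl
        _ = S / |(a : ℝ)| := by rw [one_div_div]
        _ ≤ S * rs a.natAbs := by
          unfold rs
          rw [hna, mul_one_div]
          apply div_le_div_of_nonneg_left hSr.le
          · exact Real.sqrt_pos.2 (by linarith)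
          · rw [Real.sqrt_le_left (by linarith)]
            nlinarith
  · have hc1 : (1 : ℝ) ≤ |(c : ℝ)| := by
      have : (1 : ℤ) ≤ |c| := Int.one_le_abs hc0
      exact_mod_cast this
    have hcne : c.natAbs ≠ 0 := by omega
    have himabs : |z.im| = BB * |(c : ℝ)| / S := by
      rw [him, abs_div, abs_mul, abs_of_pos hBB, abs_of_pos hSr]
    by_cases ha1 : a.natAbs ≤ 1
    · -- almost the same column
      have hzl : |(c : ℝ)| / S ≤ ‖z‖ := by
        refine le_trans ?_ hzim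
        rw [himabs]
        apply div_le_div_of_nonneg_right _ hSr.le
        nlinarith
      have hpos : 0 < |(c : ℝ)| / S := by positivity
      have h1 : 1 / ‖z‖ ≤ S * rs c.natAbs := by
        calc 1 / ‖z‖ ≤ 1 / (|(c : ℝ)| / S) := one_div_le_one_div_of_le hpos hzl
          _ = S / |(c : ℝ)| := by rw [one_div_div]
          _ ≤ S * rs c.natAbs := by
            unfold rs
            rw [hnc, mul_one_div]
            apply div_le_div_of_nonneg_left hSr.le
            · exact Real.sqrt_pos.2 (by linarith)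
            · rw [Real.sqrt_le_left (by linarith)]
              nlinarith
      unfold gm
      rw [if_neg hcne, if_pos ha1, zero_add]
      have h2 := rs_nonneg (a.natAbs - 1)
      have h3 := rs_nonneg c.natAbs
      have h4 : 0 ≤ (S : ℝ) / 10 ^ 5 * (rs (a.natAbs - 1) * rs c.natAbs) := by positivity
      linarith
    · -- general position
      have ha2 : 2 ≤ a.natAbs := by omega
      have hcast : ((a.natAbs - 1 : ℕ) : ℝ) = |(a : ℝ)| - 1 := by
        rw [Nat.cast_sub (by omega), hna]; simp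
      have ha2' : (2 : ℝ) ≤ |(a : ℝ)| := by rw [← hna]; exact_mod_cast ha2
      have hcS' : |(c : ℝ)| ≤ S := by
        have : |c| ≤ S := hcS.le
        exact_mod_cast this
      have hreabs : (|(a : ℝ)| - 1) / S ≤ |z.re| := by
        rw [hre]
        have e1 : |(c : ℝ) / (S : ℝ) ^ 2| ≤ 1 / S := by
          rw [abs_div, abs_of_pos (show (0 : ℝ) < (S : ℝ) ^ 2 by positivity), div_le_div_iff₀
            (by positivity) hSr]
          nlinarith
        have e2 : |(a : ℝ) / S| = |(a : ℝ)| / S := by rw [abs_div, abs_of_pos hSr]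
        have e3 : |(a : ℝ) / S| ≤ |(a : ℝ) / S + (c : ℝ) / (S : ℝ) ^ 2| +
            |(c : ℝ) / (S : ℝ) ^ 2| := by
          have := abs_sub_abs_le_abs_sub ((a : ℝ) / S) (-((c : ℝ) / (S : ℝ) ^ 2))
          rw [abs_neg, sub_neg_eq_add] at this
          linarith
        rw [sub_div]
        linarith
      have hprod : (|(a : ℝ)| - 1) / S * (BB * |(c : ℝ)| / S) ≤ ‖z‖ ^ 2 := by
        rw [← himabs]
        have h0 : 0 ≤ (|(a : ℝ)| - 1) / S := div_nonneg (by linarith) hSr.le
        have h1 : (|(a : ℝ)| - 1) / S ≤ ‖z‖ := le_trans hreabs hzre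
        have h2 : 0 ≤ |z.im| := abs_nonneg _
        nlinarith [norm_nonneg z]
      set s1 := Real.sqrt (|(a : ℝ)| - 1) with hs1
      set s2 := Real.sqrt |(c : ℝ)| with hs2
      have hs1p : 0 < s1 := Real.sqrt_pos.2 (by linarith)
      have hs2p : 0 < s2 := Real.sqrt_pos.2 (by linarith)
      have hs1q : s1 ^ 2 = |(a : ℝ)| - 1 := Real.sq_sqrt (by linarith)
      have hs2q : s2 ^ 2 = |(c : ℝ)| := Real.sq_sqrt (by linarith)
      have hzl : 10 ^ 5 * (s1 * s2) / S ≤ ‖z‖ := by
        apply le_of_sq_le_sq _ (norm_nonneg z)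
        refine le_trans (le_of_eq ?_) hprod
        rw [← hs1q, ← hs2q]
        unfold BB
        field_simp
      have hpos : 0 < 10 ^ 5 * (s1 * s2) / (S : ℝ) := by positivity
      unfold gm
      rw [if_neg hcne, if_neg ha1, zero_add, zero_add]
      calc 1 / ‖z‖ ≤ 1 / (10 ^ 5 * (s1 * s2) / S) := one_div_le_one_div_of_le hpos hzl
        _ = S / 10 ^ 5 * (rs (a.natAbs - 1) * rs c.natAbs) := by
          unfold rs
          rw [hcast, hnc, ← hs1, ← hs2]
          field_simp

lemma sum_inv_norm_le (S : ℕ) (q : Fin S × Fin S) (hS : 4 * 10 ^ 9 ≤ (S : ℝ)) :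
    ∑ q' : Fin S × Fin S, 1 / ‖bp S q - bp S q'‖ ≤ (S : ℝ) ^ 2 / 1600 := by
  have h1 : ∑ q' : Fin S × Fin S, 1 / ‖bp S q - bp S q'‖ ≤
      ∑ u' : Fin S, ∑ v' : Fin S, gm S ((q.1 : ℤ) - (u' : ℤ)).natAbs
        ((q.2 : ℤ) - (v' : ℤ)).natAbs := by
    rw [Fintype.sum_prod_type]
    exact sum_le_sum fun u' _ => sum_le_sum fun v' _ => inv_norm_le S q (u', v')
  have h2 : ∑ u' : Fin S, ∑ v' : Fin S, gm S ((q.1 : ℤ) - (u' : ℤ)).natAbs
        ((q.2 : ℤ) - (v' : ℤ)).natAbs ≤
      ∑ u' : Fin S, 2 * ∑ l ∈ range S, gm S ((q.1 : ℤ) - (u' : ℤ)).natAbs l :=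
    sum_le_sum fun u' _ => sum_natDist S q.2 (fun l => gm S ((q.1 : ℤ) - (u' : ℤ)).natAbs l)
      (fun l => gm_nonneg S _ l)
  have h3 : ∑ u' : Fin S, 2 * ∑ l ∈ range S, gm S ((q.1 : ℤ) - (u' : ℤ)).natAbs l ≤
      2 * ∑ j ∈ range S, 2 * ∑ l ∈ range S, gm S j l :=
    sum_natDist S q.1 (fun j => 2 * ∑ l ∈ range S, gm S j l)
      (fun j => mul_nonneg (by norm_num) (sum_nonneg fun l _ => gm_nonneg S j l))
  have hSpos : 0 < S := by
    have : (0 : ℝ) < S := by linarith
    exact_mod_cast this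
  set R := ∑ j ∈ range S, rs j with hR
  have hR0 : 0 ≤ R := sum_nonneg fun j _ => rs_nonneg j
  have hR2 : R ≤ 2 * Real.sqrt S := sum_rs S
  have hR3 : ∑ j ∈ range S, rs (j - 1) ≤ 2 * Real.sqrt S := sum_rs_pred S
  have h4 : ∑ j ∈ range S, ∑ l ∈ range S, gm S j l ≤
      3 * (S * R) + S / 10 ^ 5 * ((2 * Real.sqrt S) * R) := by
    unfold gm
    simp only [sum_add_distrib]
    have e1 : ∑ j ∈ range S, ∑ l ∈ range S, (if l = 0 then (S : ℝ) * rs j else 0) = S * R := by
      rw [hR, mul_sum]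
      refine sum_congr rfl fun j _ => ?_
      rw [sum_ite_eq' (range S) 0]
      rw [if_pos (mem_range.2 hSpos)]
    have e2 : ∑ j ∈ range S, ∑ l ∈ range S, (if j ≤ 1 then (S : ℝ) * rs l else 0) ≤
        2 * (S * R) := by
      have e3 : ∀ j ∈ range S, ∑ l ∈ range S, (if j ≤ 1 then (S : ℝ) * rs l else 0) =
          if j ∈ range 2 then (S : ℝ) * R else 0 := by
        intro j _
        by_cases hj : j ≤ 1
        · rw [if_pos (mem_range.2 (by omega)), hR, mul_sum]
          exact sum_congr rfl fun l _ => if_pos hj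
        · rw [if_neg (by rw [mem_range]; omega)]
          exact sum_eq_zero fun l _ => if_neg hj
      rw [sum_congr rfl e3, ← sum_filter, sum_const, nsmul_eq_mul]
      have hcard : ((range S).filter (fun j => j ∈ range 2)).card ≤ 2 := by
        refine le_trans (card_le_card (t := range 2) ?_) (by simp)
        intro j hj
        exact (mem_filter.1 hj).2
      have hcard' : (((range S).filter (fun j => j ∈ range 2)).card : ℝ) ≤ 2 := by
        exact_mod_cast hcard
      exact mul_le_mul_of_nonneg_right hcard' (by positivity)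
    have e4 : ∑ j ∈ range S, ∑ l ∈ range S, (S : ℝ) / 10 ^ 5 * (rs (j - 1) * rs l) ≤
        S / 10 ^ 5 * ((2 * Real.sqrt S) * R) := by
      have e5 : ∑ j ∈ range S, ∑ l ∈ range S, (S : ℝ) / 10 ^ 5 * (rs (j - 1) * rs l) =
          S / 10 ^ 5 * ((∑ j ∈ range S, rs (j - 1)) * R) := by
        rw [hR, sum_mul_sum, mul_sum]
        refine sum_congr rfl fun j _ => ?_
        rw [mul_sum]
      rw [e5]
      apply mul_le_mul_of_nonneg_left _ (by positivity)
      exact mul_le_mul_of_nonneg_right hR3 hR0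
    linarith
  have h5 : (2 : ℝ) * ∑ j ∈ range S, 2 * ∑ l ∈ range S, gm S j l =
      4 * ∑ j ∈ range S, ∑ l ∈ range S, gm S j l := by
    rw [← mul_sum]
    ring
  set t := Real.sqrt (S : ℝ) with ht
  have htt : t ^ 2 = S := Real.sq_sqrt (by linarith)
  have htpos : 0 < t := Real.sqrt_pos.2 (by linarith)
  have ht6 : 60000 ≤ t := by
    rw [ht]
    apply Real.le_sqrt_of_sq_le
    linarith
  have h6 : 4 * (3 * ((S : ℝ) * R) + S / 10 ^ 5 * ((2 * t) * R)) ≤ (S : ℝ) ^ 2 / 1600 := by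
    have h7 : (S : ℝ) * R ≤ S * (2 * t) := mul_le_mul_of_nonneg_left hR2 (by positivity)
    have h8 : (S : ℝ) / 10 ^ 5 * ((2 * t) * R) ≤ S / 10 ^ 5 * ((2 * t) * (2 * t)) := by
      apply mul_le_mul_of_nonneg_left _ (by positivity)
      exact mul_le_mul_of_nonneg_left hR2 (by positivity)
    have h9 : 4 * (3 * ((S : ℝ) * (2 * t)) + S / 10 ^ 5 * ((2 * t) * (2 * t))) ≤
        (S : ℝ) ^ 2 / 1600 := by
      rw [← htt]
      have h10 : 0 ≤ t ^ 3 * (t - 60000) := by
        apply mul_nonneg (by positivity)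
        linarith
      nlinarith [h10, pow_pos htpos 4]
    linarith
  rw [h5] at h3
  linarith

end Pool.Agent.NevChar
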