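import Pool.Agent.Lib_MP_2ed15d_an.Defs

/-! Part T3: the infinite product, its primitive and their growth. -/

set_option autoImplicit false

open Metric Complex Finset Filter Topology

namespace Pool.Agent.NevChar

namespace T3

lemma norm_prod_sub_one {ι : Type*} (s : Finset ι) (u : ι → ℂ) (a : ι → ℝ)
    (h : ∀ i ∈ s, ‖u i - 1‖ ≤ Real.exp (a i) - 1) :
    ‖∏ i ∈ s, u i - 1‖ ≤ Real.exp (∑ i ∈ s, a i) - 1 := by
  classical
  induction s using Finset.induction_on with
  | empty => simp
  | insert i s his ih =>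
    rw [Finset.prod_insert his, Finset.sum_insert his, Real.exp_add]
    have h1 := h i (mem_insert_self i s)
    have h2 := ih (fun j hj => h j (mem_insert_of_mem hj))
    set v := ∏ i ∈ s, u i with hv
    have h3 : u i * v - 1 = (u i - 1) * v + (v - 1) := by ring
    have h4 : ‖v‖ ≤ Real.exp (∑ i ∈ s, a i) := by
      have : ‖v‖ ≤ ‖v - 1‖ + ‖(1 : ℂ)‖ := by simpa using norm_add_le (v - 1) 1
      rw [norm_one] at this
      linarith
    rw [h3]
    refine (norm_add_le _ _).trans ?_
    rw [norm_mul]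
    have h5 : ‖u i - 1‖ * ‖v‖ ≤ (Real.exp (a i) - 1) * Real.exp (∑ i ∈ s, a i) :=
      mul_le_mul h1 h4 (norm_nonneg _) ((norm_nonneg _).trans h1)
    linarith

lemma norm_pow_sub_one {u : ℂ} {a : ℝ} (h : ‖u - 1‖ ≤ Real.exp a - 1) (n : ℕ) :
    ‖u ^ n - 1‖ ≤ Real.exp (n * a) - 1 := by
  have := norm_prod_sub_one (range n) (fun _ => u) (fun _ => a) (fun _ _ => h)
  simpa using this

section
variable {N : ℕ} (a : ℕ → Fin N → ℂ) (k : ℕ → Fin N → ℕ) (l m : ℝ)

/-- the factors -/
noncomputable def p (j : ℕ) (z : ℂ) : ℂ := ∏ i, (1 - z / a j i) ^ (k j i)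

lemma norm_div_le (hl : 1 < l) (ha : ∀ j i, l ^ j / 2 ≤ ‖a j i‖) (j : ℕ) (i : Fin N) (z : ℂ) :
    ‖z / a j i‖ ≤ 2 * ‖z‖ / l ^ j := by
  have h1 : 0 < l ^ j := by positivity
  have h2 := ha j i
  have h3 : 0 < ‖a j i‖ := lt_of_lt_of_le (by positivity) h2
  rw [norm_div, div_le_div_iff₀ h3 h1]
  nlinarith [norm_nonneg z]

lemma p_sub_one (hl : 1 < l) (ha : ∀ j i, l ^ j / 2 ≤ ‖a j i‖)
    (hk : ∀ j, ∑ i, (k j i : ℝ) ≤ m ^ j) (j : ℕ) (z : ℂ) :
    ‖p a k j z - 1‖ ≤ Real.exp (2 * ‖z‖ * (m / l) ^ j) - 1 := by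
  have h1 : ∀ i ∈ (univ : Finset (Fin N)), ‖(1 - z / a j i) ^ (k j i) - 1‖ ≤
      Real.exp ((k j i : ℝ) * (2 * ‖z‖ / l ^ j)) - 1 := by
    intro i _
    apply norm_pow_sub_one
    have h2 : 1 - z / a j i - 1 = - (z / a j i) := by ring
    rw [h2, norm_neg]
    have h3 := norm_div_le a l hl ha j i z
    have h4 := Real.add_one_le_exp (2 * ‖z‖ / l ^ j)
    linarith
  refine (norm_prod_sub_one _ _ _ h1).trans ?_
  have h0 : 0 < l ^ j := by positivity
  apply sub_le_sub_right
  apply Real.exp_le_exp.mpr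
  rw [← Finset.sum_mul, div_pow]
  calc (∑ i, (k j i : ℝ)) * (2 * ‖z‖ / l ^ j) ≤ m ^ j * (2 * ‖z‖ / l ^ j) :=
        mul_le_mul_of_nonneg_right (hk j) (by positivity)
    _ = 2 * ‖z‖ * (m ^ j / l ^ j) := by ring

lemma norm_p_le (hl : 1 < l) (ha : ∀ j i, l ^ j / 2 ≤ ‖a j i‖)
    (hk : ∀ j, ∑ i, (k j i : ℝ) ≤ m ^ j) (j : ℕ) (z : ℂ) :
    ‖p a k j z‖ ≤ Real.exp (m ^ j * Real.log (1 + 2 * ‖z‖ / l ^ j)) := by
  have h0 : 0 < l ^ j := by positivity
  have hy : 0 ≤ 2 * ‖z‖ / l ^ j := by positivity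
  have h1 : ‖p a k j z‖ ≤ ∏ i, Real.exp ((k j i : ℝ) * Real.log (1 + 2 * ‖z‖ / l ^ j)) := by
    unfold p
    rw [norm_prod]
    apply Finset.prod_le_prod
    · intro i _; exact norm_nonneg _
    · intro i _
      rw [norm_pow, Real.exp_nat_mul, Real.exp_log (by positivity)]
      apply pow_le_pow_left₀ (norm_nonneg _)
      have h3 := norm_div_le a l hl ha j i z
      have h4 : ‖1 - z / a j i‖ ≤ ‖(1 : ℂ)‖ + ‖z / a j i‖ := norm_sub_le _ _
      rw [norm_one] at h4
      linarith
  refine h1.trans ?_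
  rw [← Real.exp_sum, ← Finset.sum_mul]
  apply Real.exp_le_exp.mpr
  exact mul_le_mul_of_nonneg_right (hk j) (Real.log_nonneg (by linarith))

/-- logarithmic growth sum -/
noncomputable def SS (J : ℕ) (x : ℝ) : ℝ :=
  ∑ j ∈ range J, m ^ j * Real.log (1 + 2 * x / l ^ j)

lemma SS_succ (hl : 1 < l) (J : ℕ) (x : ℝ) :
    SS l m (J + 1) x = Real.log (1 + 2 * x) + m * SS l m J (x / l) := by
  unfold SS
  rw [Finset.sum_range_succ', add_comm, Finset.mul_sum]
  congr 1
  · simp
  · apply Finset.sum_congr rfl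
    intro j _
    rw [pow_succ, ← mul_assoc, mul_comm m (m ^ j)]
    congr 3
    have : l ≠ 0 := by positivity
    field_simp
    ring

lemma SS_le (hl : 1 < l) (hm : 1 < m) (hml : m < l) : ∃ α : ℝ, 0 < α ∧
    ∀ n J : ℕ, ∀ x : ℝ, 0 ≤ x → x ≤ l ^ n → SS l m J x ≤ α * m ^ n := by
  set L := Real.log l with hL
  have hL0 : 0 < L := Real.log_pos hl
  set β := L / (m - 1) with hβ
  set γ := (β + 2 + L) / (m - 1) with hγ
  have hm1 : 0 < m - 1 := by linarith
  have hβ0 : 0 < β := by positivity
  have hγ0 : 0 < γ := by positivity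
  have hml0 : 0 < 1 - m / l := by
    rw [sub_pos, div_lt_one (by linarith)]; exact hml
  set α := γ + 2 / (1 - m / l) with hα
  have hα0 : 0 < α := by positivity
  have key : ∀ n J : ℕ, ∀ x : ℝ, 0 ≤ x → x ≤ l ^ n → SS l m J x ≤ α * m ^ n - β * n - γ := by
    intro n
    induction n with
    | zero =>
      intro J x hx hx1
      rw [pow_zero] at hx1
      simp only [pow_zero, mul_one, Nat.cast_zero, mul_zero, sub_zero]
      rw [hα, add_sub_cancel_left]
      have h1 : ∀ j ∈ range J, m ^ j * Real.log (1 + 2 * x / l ^ j) ≤ 2 * (m / l) ^ j := by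
        intro j _
        have h2 : Real.log (1 + 2 * x / l ^ j) ≤ 2 * x / l ^ j := by
          have := Real.log_le_sub_one_of_pos (x := 1 + 2 * x / l ^ j) (by positivity)
          linarith
        have h3 : 2 * x / l ^ j ≤ 2 / l ^ j := by
          apply div_le_div_of_nonneg_right _ (by positivity)
          linarith
        calc m ^ j * Real.log (1 + 2 * x / l ^ j) ≤ m ^ j * (2 / l ^ j) :=
              mul_le_mul_of_nonneg_left (h2.trans h3) (by positivity)
          _ = 2 * (m / l) ^ j := by rw [div_pow]; ring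
      unfold SS
      refine (Finset.sum_le_sum h1).trans ?_
      have h5 : 2 / (1 - m / l) = 2 * (1 - m / l)⁻¹ := div_eq_mul_inv _ _
      rw [← Finset.mul_sum, h5]
      apply mul_le_mul_of_nonneg_left _ (by norm_num)
      have h4 : (0 : ℝ) ≤ m / l := by positivity
      rw [← tsum_geometric_of_lt_one h4 (by linarith)]
      exact (summable_geometric_of_lt_one h4 (by linarith)).sum_le_tsum _
        (fun j _ => by positivity)
    | succ n ih =>
      intro J x hx hxn
      have hB0 : 0 ≤ α * m ^ n - β * n - γ := by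
        have := ih 0 0 le_rfl (by positivity)
        simpa [SS] using this
      have hstep : 2 + (n + 1) * L + m * (α * m ^ n - β * n - γ) ≤
          α * m ^ (n + 1) - β * ((n + 1 : ℕ) : ℝ) - γ := by
        have e1 : β * (m - 1) = L := by rw [hβ]; field_simp
        have e2 : γ * (m - 1) = β + 2 + L := by rw [hγ]; field_simp
        push_cast
        have : α * m ^ (n + 1) - β * ((n : ℝ) + 1) - γ -
            (2 + (n + 1) * L + m * (α * m ^ n - β * n - γ)) =
            n * (β * (m - 1) - L) + (γ * (m - 1) - (β + 2 + L)) := by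
          rw [pow_succ]; ring
        rw [e1, e2] at this
        linarith
      rcases J with _ | J
      · have h1 : SS l m 0 x = 0 := by simp [SS]
        rw [h1]
        refine le_trans ?_ hstep
        positivity
      · rw [SS_succ l m hl]
        refine le_trans ?_ hstep
        apply add_le_add
        · have h1 : (1 : ℝ) ≤ l ^ (n + 1) := one_le_pow₀ hl.le
          have h2 : 1 + 2 * x ≤ 3 * l ^ (n + 1) := by linarith
          have h3 := Real.log_le_log (by positivity) h2
          rw [Real.log_mul (by norm_num) (by positivity), Real.log_pow] at h3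
          have h4 : Real.log 3 ≤ 2 := by
            have := Real.log_le_sub_one_of_pos (x := 3) (by norm_num)
            linarith
          push_cast at h3
          linarith
        · apply mul_le_mul_of_nonneg_left _ (by linarith)
          apply ih J (x / l) (by positivity)
          rw [div_le_iff₀ (by linarith), ← pow_succ]
          exact hxn
  refine ⟨α, hα0, ?_⟩
  intro n J x hx hxn
  have h1 := key n J x hx hxn
  have h2 : 0 ≤ β * n := by positivity
  linarith

lemma SS_le' (hl : 1 < l) (hm : 1 < m) (hml : m < l) : ∃ α : ℝ, 0 < α ∧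
    ∀ J : ℕ, ∀ x : ℝ, 0 ≤ x → SS l m J x ≤ α * (1 + x ^ (Real.log m / Real.log l)) := by
  obtain ⟨α, hα, h⟩ := SS_le l m hl hm hml
  have hL : 0 < Real.log l := Real.log_pos hl
  have hM : 0 < Real.log m := Real.log_pos hm
  refine ⟨α * m, by positivity, ?_⟩
  intro J x hx
  by_cases hx1 : x ≤ 1
  · have h1 := h 0 J x hx (by simpa using hx1)
    have h2 : 0 ≤ x ^ (Real.log m / Real.log l) := by positivity
    calc SS l m J x ≤ α * m ^ 0 := h1
      _ = α * 1 := by rw [pow_zero]
      _ ≤ α * m * (1 + x ^ (Real.log m / Real.log l)) := by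
        rw [mul_assoc]
        apply mul_le_mul_of_nonneg_left _ hα.le
        nlinarith
  · push Not at hx1
    set n := ⌈Real.log x / Real.log l⌉₊ with hn
    have hx0 : 0 < x := by linarith
    have hlx : 0 < Real.log x := Real.log_pos hx1
    have h1 : x ≤ l ^ n := by
      have h2 : Real.log x ≤ n * Real.log l := by
        have := Nat.le_ceil (Real.log x / Real.log l)
        rwa [div_le_iff₀ hL] at this
      rw [← Real.log_pow] at h2
      exact (Real.log_le_log_iff hx0 (by positivity)).mp h2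
    have h2 : m ^ n ≤ m * x ^ (Real.log m / Real.log l) := by
      have h3 : (n : ℝ) < Real.log x / Real.log l + 1 :=
        Nat.ceil_lt_add_one (by positivity)
      have h4 : m ^ n = Real.exp (n * Real.log m) := by
        rw [Real.exp_nat_mul, Real.exp_log (by linarith)]
      have h5 : m * x ^ (Real.log m / Real.log l) =
          Real.exp (Real.log m + Real.log x * (Real.log m / Real.log l)) := by
        rw [Real.exp_add, Real.exp_log (by linarith), Real.rpow_def_of_pos hx0]
      rw [h4, h5]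
      apply Real.exp_le_exp.mpr
      have h6 : (n : ℝ) * Real.log m ≤ (Real.log x / Real.log l + 1) * Real.log m :=
        mul_le_mul_of_nonneg_right h3.le hM.le
      refine h6.trans (le_of_eq ?_)
      field_simp
      ring
    calc SS l m J x ≤ α * m ^ n := h n J x hx h1
      _ ≤ α * (m * x ^ (Real.log m / Real.log l)) := mul_le_mul_of_nonneg_left h2 hα.le
      _ ≤ α * m * (1 + x ^ (Real.log m / Real.log l)) := by
        have : 0 < α * m := by positivity
        nlinarith

end

end T3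

open T3 in
/-- PART T3 : the infinite product and its primitive as limits of the partial products; growth. -/
theorem entire_limit {N : ℕ} (a : ℕ → Fin N → ℂ) (k : ℕ → Fin N → ℕ) (l m : ℝ) (hl : 1 < l)
    (hm : 1 < m) (hml : m < l) (ha : ∀ j i, l ^ j / 2 ≤ ‖a j i‖)
    (hk : ∀ j, ∑ i, (k j i : ℝ) ≤ m ^ j) :
    ∃ (f g : ℂ → ℂ) (F : ℕ → ℂ → ℂ) (C : ℝ),
      (∀ z, HasDerivAt f (g z) z) ∧ f 0 = 1 ∧
      (∀ J z, HasDerivAt (F J)
        (∏ j ∈ Finset.range J, ∏ i, (1 - z / a j i) ^ (k j i)) z) ∧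
      (∀ J, F J 0 = 1) ∧
      (∀ z, Tendsto (fun J => F J z) atTop (𝓝 (f z))) ∧
      (∀ z, Tendsto (fun J => ∏ j ∈ Finset.range J, ∏ i, (1 - z / a j i) ^ (k j i))
        atTop (𝓝 (g z))) ∧
      0 < C ∧
      (∀ z, ‖f z‖ ≤ Real.exp (C * (1 + ‖z‖ ^ (Real.log m / Real.log l)))) := by
  set G : ℕ → ℂ → ℂ := fun J z => ∏ j ∈ Finset.range J, ∏ i, (1 - z / a j i) ^ (k j i) with hG
  set g : ℂ → ℂ := fun z => ∏' j, (1 + (p a k j z - 1)) with hg
  have hGd : ∀ J, Differentiable ℂ (G J) := by
    intro J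
    simp only [hG]
    fun_prop
  have hpc : ∀ j, Continuous (p a k j) := by
    intro j
    unfold p
    fun_prop
  -- uniform convergence on balls
  have hunif : ∀ R : ℝ, 0 ≤ R → TendstoUniformlyOn G g atTop (closedBall 0 R) := by
    intro R hR
    have hml0 : 0 ≤ m / l := by positivity
    have hml1 : m / l < 1 := by rw [div_lt_one (by linarith)]; exact hml
    have hu : Summable (fun j : ℕ => Real.exp (2 * R * (m / l) ^ j) - 1) := by
      refine Summable.of_nonneg_of_le ?_ ?_
        ((summable_geometric_of_lt_one hml0 hml1).mul_left (2 * R * Real.exp (2 * R)))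
      · intro j
        have := Real.add_one_le_exp (2 * R * (m / l) ^ j)
        have : 0 ≤ 2 * R * (m / l) ^ j := by positivity
        linarith
      · intro j
        set y := 2 * R * (m / l) ^ j with hy
        have hy0 : 0 ≤ y := by positivity
        have h1 : Real.exp y - 1 ≤ y * Real.exp y := by
          have h2 := Real.add_one_le_exp (-y)
          have h3 : Real.exp y * Real.exp (-y) = 1 := by rw [← Real.exp_add]; simp
          have h4 := mul_le_mul_of_nonneg_left h2 (Real.exp_pos y).le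
          rw [h3] at h4
          linarith
        have h5 : y ≤ 2 * R := by
          rw [hy]
          have : (m / l) ^ j ≤ 1 := pow_le_one₀ hml0 hml1.le
          nlinarith
        calc Real.exp y - 1 ≤ y * Real.exp y := h1
          _ ≤ y * Real.exp (2 * R) := mul_le_mul_of_nonneg_left (Real.exp_le_exp.mpr h5) hy0
          _ = 2 * R * Real.exp (2 * R) * (m / l) ^ j := by rw [hy]; ring
    have h1 := hu.hasProdUniformlyOn_nat_one_add (f := fun j z => p a k j z - 1)
      (isCompact_closedBall (0 : ℂ) R)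
      (Eventually.of_forall fun j z hz => by
        refine (p_sub_one a k l m hl ha hk j z).trans ?_
        rw [mem_closedBall_zero_iff] at hz
        apply sub_le_sub_right
        apply Real.exp_le_exp.mpr
        apply mul_le_mul_of_nonneg_right _ (by positivity)
        linarith)
      (fun j => ((hpc j).sub continuous_const).continuousOn)
    have h2 := h1.tendstoUniformlyOn_finsetRange
    refine h2.congr (Eventually.of_forall fun J z _ => ?_)
    simp [hG, p]
  have hpt : ∀ z, Tendsto (fun J => G J z) atTop (𝓝 (g z)) := by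
    intro z
    exact (hunif ‖z‖ (norm_nonneg _)).tendsto_at (by simp)
  have hgd : Differentiable ℂ g := by
    intro z
    have h1 : TendstoLocallyUniformlyOn G g atTop (ball 0 (‖z‖ + 1)) :=
      ((hunif (‖z‖ + 1) (by positivity)).mono ball_subset_closedBall).tendstoLocallyUniformlyOn
    have h2 := h1.differentiableOn (Eventually.of_forall fun J => (hGd J).differentiableOn)
      isOpen_ball
    exact h2.differentiableAt (isOpen_ball.mem_nhds (by simp))
  obtain ⟨f, hf0, hf⟩ := hgd.isExactOn_univ.with_val_at 0 1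
  have hF : ∀ J, ∃ F : ℂ → ℂ, F 0 = 1 ∧ ∀ z ∈ Set.univ, HasDerivAt F (G J z) z := fun J =>
    (hGd J).isExactOn_univ.with_val_at 0 1
  choose F hF0 hFd using hF
  obtain ⟨α, hα, hαb⟩ := SS_le' l m hl hm hml
  set ρ := Real.log m / Real.log l with hρ
  have hρ0 : 0 < ρ := div_pos (Real.log_pos hm) (Real.log_pos hl)
  have hgrowG : ∀ J z, ‖G J z‖ ≤ Real.exp (α * (1 + ‖z‖ ^ ρ)) := by
    intro J z
    have h1 : ‖G J z‖ ≤ Real.exp (SS l m J ‖z‖) := by
      simp only [hG, SS]
      rw [norm_prod, Real.exp_sum]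
      exact Finset.prod_le_prod (fun _ _ => norm_nonneg _)
        (fun j _ => norm_p_le a k l m hl ha hk j z)
    exact h1.trans (Real.exp_le_exp.mpr (hαb J ‖z‖ (norm_nonneg _)))
  have hgrowg : ∀ z, ‖g z‖ ≤ Real.exp (α * (1 + ‖z‖ ^ ρ)) := fun z =>
    le_of_tendsto (hpt z).norm (Eventually.of_forall fun J => hgrowG J z)
  refine ⟨f, g, F, α + 1 / ρ, fun z => hf z (Set.mem_univ z), hf0,
    fun J z => hFd J z (Set.mem_univ z), hF0, ?_, hpt, by positivity, ?_⟩
  · intro z
    rw [Metric.tendsto_atTop]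
    intro ε hε
    have h1 := hunif ‖z‖ (norm_nonneg _)
    rw [Metric.tendstoUniformlyOn_iff] at h1
    obtain ⟨J₀, hJ₀⟩ := (h1 (ε / (‖z‖ + 1)) (by positivity)).exists_forall_of_atTop
    refine ⟨J₀, fun J hJ => ?_⟩
    have h2 : ‖(F J z - f z) - (F J 0 - f 0)‖ ≤ ε / (‖z‖ + 1) * ‖z - 0‖ := by
      refine (convex_closedBall (0 : ℂ) ‖z‖).norm_image_sub_le_of_norm_hasDerivWithin_le
        (f := fun x => F J x - f x) (f' := fun x => G J x - g x)
        (fun x _ => ((hFd J x (Set.mem_univ x)).sub (hf x (Set.mem_univ x))).hasDerivWithinAt)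
        (fun x hx => ?_) (by simp) (by simp)
      have := hJ₀ J hJ x hx
      rw [dist_comm, dist_eq_norm] at this
      exact this.le
    rw [hF0, hf0, sub_self, sub_zero, sub_zero] at h2
    rw [dist_eq_norm]
    refine lt_of_le_of_lt h2 ?_
    have h3 : ‖z‖ < ‖z‖ + 1 := by linarith
    calc ε / (‖z‖ + 1) * ‖z‖ < ε / (‖z‖ + 1) * (‖z‖ + 1) :=
          mul_lt_mul_of_pos_left h3 (by positivity)
      _ = ε := by field_simp
  · intro z
    have h2 : ‖f z - f 0‖ ≤ Real.exp (α * (1 + ‖z‖ ^ ρ)) * ‖z - 0‖ := by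
      refine (convex_closedBall (0 : ℂ) ‖z‖).norm_image_sub_le_of_norm_hasDerivWithin_le
        (f := f) (f' := g)
        (fun x _ => (hf x (Set.mem_univ x)).hasDerivWithinAt)
        (fun x hx => ?_) (by simp) (by simp)
      refine (hgrowg x).trans (Real.exp_le_exp.mpr ?_)
      rw [mem_closedBall_zero_iff] at hx
      apply mul_le_mul_of_nonneg_left _ hα.le
      have := Real.rpow_le_rpow (norm_nonneg _) hx hρ0.le
      linarith
    rw [hf0, sub_zero] at h2
    have h3 : ‖f z‖ ≤ ‖f z - 1‖ + ‖(1 : ℂ)‖ := by simpa using norm_add_le (f z - 1) 1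
    rw [norm_one] at h3
    have h4 : 1 ≤ Real.exp (α * (1 + ‖z‖ ^ ρ)) := Real.one_le_exp (by positivity)
    have h5 : ‖z‖ + 1 ≤ Real.exp (1 / ρ * (1 + ‖z‖ ^ ρ)) := by
      have hρ1 : ρ ≤ 1 := by
        rw [hρ, div_le_one (Real.log_pos hl)]
        exact Real.log_le_log (by linarith) hml.le
      have hρ2 : 1 ≤ 1 / ρ := by rw [le_div_iff₀ hρ0]; linarith
      have hx0 : 0 ≤ ‖z‖ ^ ρ := by positivity
      have h6 : Real.log (‖z‖ + 1) ≤ 1 + ‖z‖ ^ ρ / ρ := by
        have h7 : 0 ≤ ‖z‖ ^ ρ / ρ := by positivity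
        by_cases hz1 : ‖z‖ ≤ 1
        · have := Real.log_le_sub_one_of_pos (x := ‖z‖ + 1) (by positivity)
          linarith
        · push Not at hz1
          have h8 := Real.log_le_log (by positivity) (show ‖z‖ + 1 ≤ 2 * ‖z‖ by linarith)
          rw [Real.log_mul (by norm_num) (by linarith)] at h8
          have h9 := Real.log_le_rpow_div (norm_nonneg z) hρ0
          have h10 : Real.log 2 ≤ 1 := by
            have := Real.log_le_sub_one_of_pos (x := 2) (by norm_num)
            linarith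
          linarith
      have h7 : Real.log (‖z‖ + 1) ≤ 1 / ρ * (1 + ‖z‖ ^ ρ) := by
        rw [mul_add, mul_one]
        have : 1 / ρ * ‖z‖ ^ ρ = ‖z‖ ^ ρ / ρ := by ring
        rw [this]
        linarith
      exact (Real.log_le_iff_le_exp (by positivity)).mp h7
    calc ‖f z‖ ≤ Real.exp (α * (1 + ‖z‖ ^ ρ)) * (‖z‖ + 1) := by
          rw [mul_add, mul_one]; linarith
      _ ≤ Real.exp (α * (1 + ‖z‖ ^ ρ)) * Real.exp (1 / ρ * (1 + ‖z‖ ^ ρ)) :=
          mul_le_mul_of_nonneg_left h5 (Real.exp_pos _).le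
      _ = _ := by rw [← Real.exp_add]; congr 1; ring

end Pool.Agent.NevChar
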