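import Pool.Agent.Lib_MP_2ed15d_an.StepAux

/-! The induction step, for a fixed grid. -/

set_option autoImplicit false

open Metric Complex Finset

namespace Pool.Agent.NevChar

/-- Local analysis of one sub-gadget. All the geometric input is collected in the hypotheses. -/
theorem local_step {ι₀ : Type} [Fintype ι₀] {J : Type*} [Fintype J]
    {κ η η' : ℝ} {u γ c : ℂ} {a : ι₀ → ℂ} {m' : ι₀ → ℝ}
    (hcfg : Cfg κ η u a m') (hη1 : η ≤ 1) (hu : ‖u‖ = 1)
    {T n w : ℝ} (hT : 0 < T)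
    (B : J → ℂ) (l : J → ℕ) (k : ι₀ → ℕ) (f G : ℂ → ℂ) {D : ℝ}
    (hG : DifferentiableOn ℂ G (ball 0 D)) (hG0 : ∀ z ∈ ball (0 : ℂ) D, G z ≠ 0)
    (hGd : ∀ z ∈ ball (0 : ℂ) D, ‖logDeriv G z - n * γ‖ ≤ η' * n)
    (hf : ∀ z ∈ ball (0 : ℂ) D, HasDerivAt f
      (G z * ((∏ j, (z - B j) ^ (l j)) * ∏ i, (z - (c + T * a i)) ^ (k i))) z)
    (hmem : ∀ w' ∈ ball (0 : ℂ) (4 * LL), c + T * w' ∈ ball (0 : ℂ) D)
    (hB : ∀ w' ∈ ball (0 : ℂ) (4 * LL), ∀ j, c + T * w' ≠ B j)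
    (hfield : ∀ w' ∈ ball (0 : ℂ) (4 * LL),
      T * (η' * n + ‖∑ j, (l j : ℂ) / (c + T * w' - B j) - (n * (w * u - γ))‖) ≤ η * (T * n * w))
    (hround : ∑ i, |(k i : ℝ) - T * n * w * m' i| ≤ η * (T * n * w))
    (hn1 : 1 / η ≤ T * n * w)
    (hexit : ‖f (c + T * ex u)‖ ≤ Real.exp (η * (T * n * w)) *
      (T * ‖deriv f (c + T * ex u)‖)) :
    ∀ s ∈ Set.Icc (0 : ℝ) 1, ∃ w₀ : ℂ, w₀.re = s ∧ ‖w₀‖ ≤ 2 * LL ∧
        ∀ z ∈ closedBall w₀ η,
          T * ‖deriv f (c + T * ex u)‖ ≤ ‖f (c + T * z)‖ ∧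
          ∀ z' ∈ closedBall w₀ η,
            Real.exp (η * (T * n * w)) * (T * ‖deriv f (c + T * z')‖) ≤ ‖f (c + T * z)‖ := by
  have hLL : (0 : ℝ) < LL := by norm_num [LL]
  obtain ⟨-, -, -, hmain⟩ := hcfg
  -- the rescaled functions
  set F : ℂ → ℂ := fun x => f (c + T * x) with hF
  set H : ℂ → ℂ := fun x => (T : ℂ) * ((T : ℂ) ^ (∑ i, k i)) *
    (G (c + T * x) * ∏ j, (c + T * x - B j) ^ (l j)) with hH
  have hTc : (T : ℂ) ≠ 0 := by exact_mod_cast hT.ne'
  have haff : ∀ x : ℂ, HasDerivAt (fun x : ℂ => c + T * x) (T : ℂ) x := by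
    intro x
    simpa using ((hasDerivAt_id x).const_mul (T : ℂ)).const_add c
  have hFd : ∀ x ∈ ball (0 : ℂ) (4 * LL), HasDerivAt F (H x * ∏ i, (x - a i) ^ (k i)) x := by
    intro x hx
    have h1 := hf _ (hmem x hx)
    have h2 := h1.comp x (haff x)
    have h3 : G (c + T * x) * ((∏ j, (c + T * x - B j) ^ (l j)) *
        ∏ i, (c + T * x - (c + T * a i)) ^ (k i)) * (T : ℂ) =
        H x * ∏ i, (x - a i) ^ (k i) := by
      have h4 : ∏ i, (c + T * x - (c + T * a i)) ^ (k i) =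
          (T : ℂ) ^ (∑ i, k i) * ∏ i, (x - a i) ^ (k i) := by
        rw [← Finset.prod_pow_eq_pow_sum, ← Finset.prod_mul_distrib]
        apply Finset.prod_congr rfl
        intro i _
        rw [← mul_pow]
        congr 1
        ring
      rw [h4, hH]
      ring
    rw [h3] at h2
    exact h2
  have hFderiv : ∀ x ∈ ball (0 : ℂ) (4 * LL), deriv F x = T * deriv f (c + T * x) := by
    intro x hx
    have h1 := hf _ (hmem x hx)
    have h2 := h1.comp x (haff x)
    have h3 : deriv F x = _ := h2.deriv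
    rw [h3, h1.deriv]
    ring
  have hHdiff : DifferentiableOn ℂ H (ball 0 (4 * LL)) := by
    intro x hx
    have h1 : DifferentiableAt ℂ G (c + T * x) :=
      (hG _ (hmem x hx)).differentiableAt (isOpen_ball.mem_nhds (hmem x hx))
    have h2 : DifferentiableAt ℂ (fun x : ℂ => G (c + T * x)) x :=
      h1.comp x (haff x).differentiableAt
    apply DifferentiableAt.differentiableWithinAt
    rw [hH]
    apply DifferentiableAt.const_mul
    apply h2.mul
    fun_prop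
  have hH0 : ∀ x ∈ ball (0 : ℂ) (4 * LL), H x ≠ 0 := by
    intro x hx
    rw [hH]
    refine mul_ne_zero (mul_ne_zero hTc (pow_ne_zero _ hTc)) (mul_ne_zero (hG0 _ (hmem x hx)) ?_)
    exact Finset.prod_ne_zero_iff.mpr
      (fun j _ => pow_ne_zero _ (sub_ne_zero.mpr (hB x hx j)))
  have hHlog : ∀ x ∈ ball (0 : ℂ) (4 * LL), logDeriv H x =
      T * (logDeriv G (c + T * x) + ∑ j, (l j : ℂ) / (c + T * x - B j)) := by
    intro x hx
    have h0 : H = fun x => ((T : ℂ) * ((T : ℂ) ^ (∑ i, k i))) *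
      ((fun z => G z * ∏ j, (z - B j) ^ (l j)) ∘ (fun x : ℂ => c + T * x)) x := by
      rw [hH]; rfl
    have h1 : DifferentiableAt ℂ G (c + T * x) :=
      (hG _ (hmem x hx)).differentiableAt (isOpen_ball.mem_nhds (hmem x hx))
    rw [h0, logDeriv_const_mul _ _ (mul_ne_zero hTc (pow_ne_zero _ hTc)),
      logDeriv_comp (by
        apply h1.mul
        fun_prop) (haff x).differentiableAt,
      logDeriv_mul _ (hG0 _ (hmem x hx)) (Finset.prod_ne_zero_iff.mpr
        (fun j _ => pow_ne_zero _ (sub_ne_zero.mpr (hB x hx j)))) h1 (by fun_prop),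
      logDeriv_finprod _ _ _ _ (fun j _ => hB x hx j), (haff x).deriv]
    ring
  have hHbd : ∀ x ∈ ball (0 : ℂ) (4 * LL),
      ‖logDeriv H x - ((T * n * w : ℝ) : ℂ) * u‖ ≤ η * (T * n * w) := by
    intro x hx
    refine le_trans ?_ (hfield x hx)
    rw [hHlog x hx]
    have h1 : (T : ℂ) * (logDeriv G (c + T * x) + ∑ j, (l j : ℂ) / (c + T * x - B j)) -
        ((T * n * w : ℝ) : ℂ) * u =
        T * ((logDeriv G (c + T * x) - n * γ) +
          (∑ j, (l j : ℂ) / (c + T * x - B j) - (n * (w * u - γ)))) := by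
      push_cast; ring
    rw [h1, norm_mul, Complex.norm_real, Real.norm_eq_abs, abs_of_pos hT]
    apply mul_le_mul_of_nonneg_left _ hT.le
    exact (norm_add_le _ _).trans (by
      have := hGd _ (hmem x hx)
      linarith)
  have hexmem : ex u ∈ ball (0 : ℂ) (4 * LL) := by
    rw [mem_ball_zero_iff, ex, norm_mul, RCLike.norm_conj, hu, mul_one, norm_neg,
      Complex.norm_real, Real.norm_eq_abs, abs_of_pos (by positivity)]
    linarith
  intro s hs
  obtain ⟨w₀, hw1, hw2, hw3⟩ := hmain (T * n * w) hn1 k hround F H hHdiff hH0 hHbd hFd (by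
    rw [hFderiv _ hexmem, norm_mul, Complex.norm_real, Real.norm_eq_abs, abs_of_pos hT]
    exact hexit) s hs
  refine ⟨w₀, hw1, hw2, ?_⟩
  intro z hz
  obtain ⟨h1, h2⟩ := hw3 z hz
  refine ⟨?_, ?_⟩
  · rw [hFderiv _ hexmem, norm_mul, Complex.norm_real, Real.norm_eq_abs, abs_of_pos hT] at h1
    exact h1
  · intro z' hz'
    have h3 := h2 z' hz'
    have h4 : z' ∈ ball (0 : ℂ) (4 * LL) := by
      rw [mem_ball_zero_iff]
      rw [mem_closedBall, dist_eq_norm] at hz'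
      have h5 : ‖z'‖ ≤ ‖z' - w₀‖ + ‖w₀‖ := by
        have := norm_add_le (z' - w₀) w₀
        simpa using this
      have h6 : (1 : ℝ) < 2 * LL := by norm_num [LL]
      linarith
    rw [hFderiv _ h4, norm_mul, Complex.norm_real, Real.norm_eq_abs, abs_of_pos hT] at h3
    exact h3

end Pool.Agent.NevChar
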