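import Pool.Agent.Lib_MP_2ed15d_an.Growth

/-! Auxiliary lemmas for the induction step. -/

set_option autoImplicit false

open Metric Complex Finset

namespace Pool.Agent.NevChar

lemma bp_re0 (S : ℕ) (q : Fin S × Fin S) :
    (bp S q).re = (q.1 : ℝ) / S + (q.2 : ℝ) / S ^ 2 := by
  simp only [bp, add_re, mul_re, ofReal_re, ofReal_im, I_re, I_im]
  ring

lemma bp_im0 (S : ℕ) (q : Fin S × Fin S) : (bp S q).im = BB * (q.2 : ℝ) / S := by
  simp only [bp, add_im, mul_im, ofReal_re, ofReal_im, I_re, I_im]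
  ring

lemma fin_cast_lt {S : ℕ} (q : Fin S) : (q : ℝ) < S := by exact_mod_cast q.2

lemma bp_norm (S : ℕ) (hS : 0 < S) (q : Fin S × Fin S) : ‖bp S q‖ ≤ BB + 2 := by
  have hS' : (1 : ℝ) ≤ S := by exact_mod_cast hS
  have hB : (0 : ℝ) < BB := by norm_num [BB]
  have h1 : |(bp S q).re| ≤ 2 := by
    rw [bp_re0, abs_of_nonneg (by positivity)]
    have h2 : (q.1 : ℝ) / S ≤ 1 := by
      rw [div_le_one (by positivity)]; exact (fin_cast_lt q.1).le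
    have h3 : (q.2 : ℝ) / S ^ 2 ≤ 1 := by
      rw [div_le_one (by positivity)]
      have := fin_cast_lt q.2
      nlinarith
    linarith
  have h2 : |(bp S q).im| ≤ BB := by
    rw [bp_im0, abs_of_nonneg (by positivity), div_le_iff₀ (by positivity)]
    have := fin_cast_lt q.2
    nlinarith
  exact (Complex.norm_le_abs_re_add_abs_im _).trans (by linarith)

lemma bp_sep (S : ℕ) (hS : 0 < S) {q q' : Fin S × Fin S} (h : q ≠ q') :
    1 / (S : ℝ) ≤ ‖bp S q - bp S q'‖ := by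
  have hS' : (1 : ℝ) ≤ S := by exact_mod_cast hS
  have hS0 : (0 : ℝ) < S := by linarith
  by_cases h2 : q.2 = q'.2
  · have h1 : q.1 ≠ q'.1 := fun h1 => h (Prod.ext h1 h2)
    have h3 : (1 : ℝ) ≤ |(q.1 : ℝ) - q'.1| := by
      have h4 : ((q.1 : ℕ) : ℤ) - ((q'.1 : ℕ) : ℤ) ≠ 0 := by
        intro h5
        apply h1
        apply Fin.ext
        omega
      have h5 := Int.one_le_abs h4
      have h6 : ((1 : ℤ) : ℝ) ≤ ((|((q.1 : ℕ) : ℤ) - ((q'.1 : ℕ) : ℤ)| : ℤ) : ℝ) := by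
        exact_mod_cast h5
      simpa using h6
    refine le_trans ?_ (Complex.abs_re_le_norm _)
    rw [sub_re, bp_re0, bp_re0, h2]
    have h4 : (q.1 : ℝ) / S + (q'.2 : ℝ) / S ^ 2 - ((q'.1 : ℝ) / S + (q'.2 : ℝ) / S ^ 2) =
        ((q.1 : ℝ) - q'.1) / S := by ring
    rw [h4, abs_div, abs_of_pos hS0]
    exact div_le_div_of_nonneg_right h3 hS0.le
  · have h3 : (1 : ℝ) ≤ |(q.2 : ℝ) - q'.2| := by
      have h4 : ((q.2 : ℕ) : ℤ) - ((q'.2 : ℕ) : ℤ) ≠ 0 := by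
        intro h5
        apply h2
        apply Fin.ext
        omega
      have h5 := Int.one_le_abs h4
      have h6 : ((1 : ℤ) : ℝ) ≤ ((|((q.2 : ℕ) : ℤ) - ((q'.2 : ℕ) : ℤ)| : ℤ) : ℝ) := by
        exact_mod_cast h5
      simpa using h6
    refine le_trans ?_ (Complex.abs_im_le_norm _)
    rw [sub_im, bp_im0, bp_im0]
    have h4 : BB * (q.2 : ℝ) / S - BB * (q'.2 : ℝ) / S = BB * ((q.2 : ℝ) - q'.2) / S := by ring
    rw [h4, abs_div, abs_of_pos hS0, abs_mul]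
    apply div_le_div_of_nonneg_right _ hS0.le
    have h5 : (1 : ℝ) ≤ |BB| := by
      rw [abs_of_nonneg] <;> norm_num [BB]
    nlinarith [abs_nonneg BB]

lemma logDeriv_finprod {α : Type*} (s : Finset α) (A : α → ℂ) (k : α → ℕ) (z : ℂ)
    (h : ∀ x ∈ s, z ≠ A x) :
    logDeriv (fun z => ∏ x ∈ s, (z - A x) ^ (k x)) z = ∑ x ∈ s, (k x : ℂ) / (z - A x) := by
  rw [logDeriv_prod]
  · apply Finset.sum_congr rfl
    intro x hx
    rw [logDeriv_fun_pow (by fun_prop)]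
    have h1 : logDeriv (fun z => z - A x) z = 1 / (z - A x) := by
      rw [logDeriv_apply]
      simp
    rw [h1]; ring
  · intro x hx
    exact pow_ne_zero _ (sub_ne_zero.mpr (h x hx))
  · intro x hx
    fun_prop

lemma term_bound {p d : ℂ} {ρ K : ℝ} {k : ℝ} (hd : d ≠ 0) (hp : ‖d‖ / 2 ≤ ‖p‖) (hρ : ‖p - d‖ ≤ ρ)
    (hK : 0 ≤ K) :
    ‖(k : ℂ) / p - (K : ℂ) / d‖ ≤ |k - K| * (2 / ‖d‖) + K * (2 * ρ / ‖d‖ ^ 2) := by
  have hd0 : 0 < ‖d‖ := norm_pos_iff.mpr hd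
  have hp0 : 0 < ‖p‖ := by linarith
  have hp' : p ≠ 0 := norm_pos_iff.mp hp0
  have h1 : (k : ℂ) / p - (K : ℂ) / d = ((k - K : ℝ) : ℂ) / p + (K : ℂ) * ((d - p) / (p * d)) := by
    push_cast
    field_simp
    ring
  rw [h1]
  refine (norm_add_le _ _).trans ?_
  rw [norm_div, norm_mul, norm_div, norm_mul, Complex.norm_real, Complex.norm_real,
    Real.norm_eq_abs, Real.norm_eq_abs, abs_of_nonneg hK, norm_sub_rev d p]
  have h2 : 1 / ‖p‖ ≤ 2 / ‖d‖ := by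
    rw [div_le_div_iff₀ hp0 hd0]; linarith
  have h3 : |k - K| / ‖p‖ ≤ |k - K| * (2 / ‖d‖) := by
    rw [div_eq_mul_one_div]
    exact mul_le_mul_of_nonneg_left h2 (abs_nonneg _)
  have h4 : ‖p - d‖ / (‖p‖ * ‖d‖) ≤ 2 * ρ / ‖d‖ ^ 2 := by
    have hρ0 : 0 ≤ ρ := (norm_nonneg _).trans hρ
    rw [div_le_div_iff₀ (by positivity) (by positivity)]
    have h5 : ‖p - d‖ * ‖d‖ ^ 2 ≤ ρ * ‖d‖ ^ 2 := by gcongr
    have h6 : ρ * ‖d‖ ^ 2 ≤ 2 * ρ * (‖p‖ * ‖d‖) := by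
      have : ρ * ‖d‖ ^ 2 = ρ * ‖d‖ * ‖d‖ := by ring
      rw [this]
      have : 2 * ρ * (‖p‖ * ‖d‖) = ρ * ‖d‖ * (2 * ‖p‖) := by ring
      rw [this]
      apply mul_le_mul_of_nonneg_left _ (by positivity)
      linarith
    linarith
  have h5 : K * (‖p - d‖ / (‖p‖ * ‖d‖)) ≤ K * (2 * ρ / ‖d‖ ^ 2) :=
    mul_le_mul_of_nonneg_left h4 hK
  linarith

lemma exists_index (S : ℕ) (hS : 0 < S) (x : ℝ) (hx0 : 0 ≤ x) (hx1 : x ≤ (S : ℝ) ^ 2) :
    ∃ q : Fin S × Fin S, (S : ℝ) * q.1 + q.2 ≤ x ∧ x ≤ (S : ℝ) * q.1 + q.2 + 1 := by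
  have hSS : 0 < S * S := Nat.mul_pos hS hS
  set p : ℕ := min ⌊x⌋₊ (S * S - 1) with hp
  have hpS : p < S * S := by omega
  have h1 : p / S < S := Nat.div_lt_of_lt_mul hpS
  have h2 : p % S < S := Nat.mod_lt _ hS
  refine ⟨(⟨p / S, h1⟩, ⟨p % S, h2⟩), ?_, ?_⟩
  · have h3 : ((S : ℝ) * ((p / S : ℕ) : ℝ) + ((p % S : ℕ) : ℝ)) = (p : ℝ) := by
      exact_mod_cast Nat.div_add_mod p S
    simp only
    rw [h3]
    have h4 : (p : ℝ) ≤ (⌊x⌋₊ : ℝ) := by exact_mod_cast min_le_left _ _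
    exact h4.trans (Nat.floor_le hx0)
  · have h3 : ((S : ℝ) * ((p / S : ℕ) : ℝ) + ((p % S : ℕ) : ℝ)) = (p : ℝ) := by
      exact_mod_cast Nat.div_add_mod p S
    simp only
    rw [h3]
    rcases le_total ⌊x⌋₊ (S * S - 1) with h4 | h4
    · have : p = ⌊x⌋₊ := by rw [hp]; exact min_eq_left h4
      rw [this]; exact (Nat.lt_floor_add_one x).le
    · have : p = S * S - 1 := by rw [hp]; exact min_eq_right h4
      have h5 : (p : ℝ) + 1 = (S : ℝ) ^ 2 := by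
        have h6 : p + 1 = S * S := by omega
        have h7 : ((p + 1 : ℕ) : ℝ) = ((S * S : ℕ) : ℝ) := by rw [h6]
        push_cast at h7
        rw [h7]; ring
      rw [h5]; exact hx1

end Pool.Agent.NevChar
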