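import Pool.Agent.Lib_MP_2ed15d_an.StepFixed

/-! The induction step, from the existence of masses on the grid. -/

set_option autoImplicit false

open Metric Complex Finset

namespace Pool.Agent.NevChar

/-- conclusion of Part B1 -/
def Masses (κ : ℝ) : Prop := ∀ ε : ℝ, 0 < ε →
    ∃ S₀ : ℕ, ∀ S : ℕ, S₀ ≤ S → ∀ γ : ℂ, ‖γ‖ = 1 →
      ∃ m : Fin S × Fin S → ℝ,
        (∀ q, m q = (1 / (S : ℝ) ^ 2) / κ *
          ‖γ + ∑ q' ∈ univ.erase q, (m q' : ℂ) / (bp S q - bp S q')‖) ∧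
        (∀ q, ∑ q' ∈ univ.erase q, m q' / ‖bp S q - bp S q'‖ ≤ 1 / 50) ∧
        (∀ q, ∑ q' ∈ univ.erase q, m q' / ‖bp S q - bp S q'‖ ^ 2 * (1 / (S : ℝ) ^ 2) ≤ ε) ∧
        (∑ q, m q ≤ 1 / (κ + 1 / 10 ^ 23 / κ))

theorem good_step_of_masses (κ : ℝ) (hκ : 1 / 16 ≤ κ) (hM : Masses κ)
    (h : ∃ η : ℝ, 0 < η ∧ η ≤ 1 ∧ Good κ η) :
    ∃ η : ℝ, 0 < η ∧ η ≤ 1 ∧ Good (κ + 1 / 10 ^ 23 / κ) η := by
  obtain ⟨η, hη, hη1, hgood⟩ := h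
  have hLL : (0 : ℝ) < LL := by norm_num [LL]
  have hκ0 : 0 < κ := by linarith
  obtain ⟨S₀, hS₀⟩ := hM (η / (40 * LL)) (by positivity)
  set S : ℕ := max S₀ (10 ^ 14) with hS
  have hS1 : S₀ ≤ S := le_max_left _ _
  have hS2 : (10 : ℝ) ^ 14 ≤ (S : ℝ) := by exact_mod_cast le_max_right S₀ (10 ^ 14)
  have hSpos : (0 : ℝ) < S := lt_of_lt_of_le (by norm_num) hS2
  have hS4 : (1 : ℝ) ≤ (S : ℝ) ^ 4 := one_le_pow₀ (by linarith)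
  refine ⟨η / (10 ^ 14 * (S : ℝ) ^ 4), by positivity, ?_, ?_⟩
  · rw [div_le_one (by positivity)]
    linarith
  · apply good_of_cfg
    intro γ hγ
    obtain ⟨m, h1, h2, h3, h4⟩ := hS₀ S hS1 γ hγ
    have hκ' : κ ≤ κ + 1 / 10 ^ 23 / κ := by
      have : 0 < 1 / 10 ^ 23 / κ := by positivity
      linarith
    exact step_fixed hκ hκ' hη hη1 hgood S hS2 γ hγ m h1 h2 h3 h4

end Pool.Agent.NevChar
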