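import Pool.Agent.Lib_MP_2ed15d_an.Step
import Pool.Agent.Lib_MP_2ed15d_an.Field

/-! The induction step, for a fixed grid and a fixed direction. -/

set_option autoImplicit false

open Metric Complex Finset

namespace Pool.Agent.NevChar

lemma prod_sigma_split {Q : Type} [Fintype Q] [DecidableEq Q] (N : Q → ℕ) (q : Q)
    {M : Type*} [CommMonoid M] (F : (Σ q : Q, Fin (N q)) → M) :
    ∏ x, F x = (∏ j : (Σ q' : {q' : Q // q' ≠ q}, Fin (N q')), F ⟨j.1.1, j.2⟩) *
      ∏ i : Fin (N q), F ⟨q, i⟩ := by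
  rw [Fintype.prod_sigma, Fintype.prod_sigma, ← Finset.prod_erase_mul univ _ (mem_univ q)]
  congr 1
  rw [Finset.prod_subtype (univ.erase q) (p := fun q' => q' ≠ q) (by simp)]

lemma sum_sigma_split {Q : Type} [Fintype Q] [DecidableEq Q] (N : Q → ℕ) (q : Q)
    {M : Type*} [AddCommMonoid M] (F : (Σ q : Q, Fin (N q)) → M) :
    ∑ x, F x = (∑ j : (Σ q' : {q' : Q // q' ≠ q}, Fin (N q')), F ⟨j.1.1, j.2⟩) +
      ∑ i : Fin (N q), F ⟨q, i⟩ := by
  rw [Fintype.sum_sigma, Fintype.sum_sigma, ← Finset.sum_erase_add univ _ (mem_univ q)]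
  congr 1
  rw [Finset.sum_subtype (univ.erase q) (p := fun q' => q' ≠ q) (by simp)]

lemma sum_sigma_ne {Q : Type} [Fintype Q] [DecidableEq Q] (N : Q → ℕ) (q : Q)
    {M : Type*} [AddCommMonoid M] (F : (Σ q : Q, Fin (N q)) → M) :
    (∑ j : (Σ q' : {q' : Q // q' ≠ q}, Fin (N q')), F ⟨j.1.1, j.2⟩) =
      ∑ q' ∈ univ.erase q, ∑ i, F ⟨q', i⟩ := by
  rw [Fintype.sum_sigma]
  rw [Finset.sum_subtype (univ.erase q) (p := fun q' => q' ≠ q) (by simp)]

theorem step_fixed {κ κ' η : ℝ} (hκ : 1 / 16 ≤ κ) (hκ' : κ ≤ κ') (hη : 0 < η) (hη1 : η ≤ 1)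
    (hgood : Good κ η) (S : ℕ) (hS : (10 : ℝ) ^ 14 ≤ S) (γ : ℂ) (hγ : ‖γ‖ = 1)
    (m : Fin S × Fin S → ℝ)
    (hm : ∀ q, m q = (1 / (S : ℝ) ^ 2) / κ *
      ‖γ + ∑ q' ∈ univ.erase q, (m q' : ℂ) / (bp S q - bp S q')‖)
    (hm1 : ∀ q, ∑ q' ∈ univ.erase q, m q' / ‖bp S q - bp S q'‖ ≤ 1 / 50)
    (hm2 : ∀ q, ∑ q' ∈ univ.erase q, m q' / ‖bp S q - bp S q'‖ ^ 2 * (1 / (S : ℝ) ^ 2) ≤
      η / (40 * LL))
    (hM : ∑ q, m q ≤ 1 / κ') :
    ∃ (ι : Type) (_ : Fintype ι) (a : ι → ℂ) (m : ι → ℝ),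
      Cfg κ' (η / (10 ^ 14 * (S : ℝ) ^ 4)) γ a m := by
  have hLLv : LL = 10 ^ 12 := rfl
  have hBBv : BB = 10 ^ 10 := rfl
  have hLL : (0 : ℝ) < LL := by norm_num [LL]
  have hS0 : (0 : ℝ) < S := lt_of_lt_of_le (by norm_num) hS
  have hSn : 0 < S := by exact_mod_cast hS0
  have hκ0 : 0 < κ := by linarith
  have hκ0' : 0 < κ' := by linarith
  set τ : ℝ := 1 / (S : ℝ) ^ 2 with hτ
  have hτ0 : 0 < τ := by positivity
  have hτS : τ * (S : ℝ) ^ 2 = 1 := by rw [hτ]; field_simp
  set η' : ℝ := η / (10 ^ 14 * (S : ℝ) ^ 4) with hη'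
  have hη'0 : 0 < η' := by positivity
  have hη'S : η' * (10 ^ 14 * (S : ℝ) ^ 4) = η := by rw [hη']; field_simp
  have hm0 : ∀ q, 0 ≤ m q := by intro q; rw [hm q]; positivity
  set δ : Fin S × Fin S → ℂ :=
    fun q => ∑ q' ∈ univ.erase q, (m q' : ℂ) / (bp S q - bp S q') with hδ
  have hδ1 : ∀ q, ‖δ q‖ ≤ 1 / 50 := by
    intro q
    refine le_trans (norm_sum_le _ _) (le_trans (le_of_eq ?_) (hm1 q))
    apply Finset.sum_congr rfl
    intro q' _
    rw [norm_div, Complex.norm_real, Real.norm_eq_abs, abs_of_nonneg (hm0 q')]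
  set w : Fin S × Fin S → ℝ := fun q => ‖γ + δ q‖ with hw
  have hw1 : ∀ q, 49 / 50 ≤ w q := by
    intro q
    have h1 : ‖γ‖ ≤ ‖γ + δ q‖ + ‖δ q‖ := by
      have := norm_sub_le (γ + δ q) (δ q)
      simpa using this
    have := hδ1 q
    rw [hγ] at h1
    simp only [hw]; linarith
  have hw2 : ∀ q, w q ≤ 51 / 50 := by
    intro q
    have h1 := norm_add_le γ (δ q)
    have := hδ1 q
    rw [hγ] at h1
    simp only [hw]; linarith
  have hmw : ∀ q, m q = τ / κ * w q := hm
  set M : ℝ := ∑ q, m q with hMdef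
  have hcard : ((Fintype.card (Fin S × Fin S) : ℕ) : ℝ) = (S : ℝ) ^ 2 := by
    simp; ring
  have hMlow : 49 / 50 / κ ≤ M := by
    have h1 : ∑ _q : Fin S × Fin S, τ / κ * (49 / 50) ≤ M := by
      apply Finset.sum_le_sum
      intro q _
      rw [hmw q]
      exact mul_le_mul_of_nonneg_left (hw1 q) (by positivity)
    rw [Finset.sum_const, nsmul_eq_mul, Finset.card_univ, hcard] at h1
    refine le_trans (le_of_eq ?_) h1
    rw [hτ]; field_simp
  have hM0 : 0 < M := lt_of_lt_of_le (by positivity) hMlow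
  set ℓ : ℝ := 1 / (κ' * M) with hℓ
  have hℓ0 : 0 < ℓ := by positivity
  have hℓ1 : 1 ≤ ℓ := by
    rw [hℓ, le_div_iff₀ (by positivity)]
    have h1 : κ' * M ≤ κ' * (1 / κ') := mul_le_mul_of_nonneg_left hM hκ0'.le
    have h2 : κ' * (1 / κ') = 1 := by field_simp
    linarith
  have hℓ2 : ℓ ≤ 50 / 49 := by
    rw [hℓ, div_le_iff₀ (by positivity)]
    have h1 : κ * (49 / 50 / κ) ≤ κ' * M := mul_le_mul hκ' hMlow (by positivity) hκ0'.le
    have h2 : κ * (49 / 50 / κ) = 49 / 50 := by field_simp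
    linarith
  have hℓM : ℓ * M = 1 / κ' := by rw [hℓ]; field_simp
  set T : ℝ := ℓ * τ with hT
  have hT0 : 0 < T := by positivity
  have hTlow : τ ≤ T := by
    have := mul_le_mul_of_nonneg_right hℓ1 hτ0.le
    linarith
  have hTup : T ≤ 50 / 49 * τ := mul_le_mul_of_nonneg_right hℓ2 hτ0.le
  have hTS : 1 ≤ T * (S : ℝ) ^ 2 := by
    have := mul_le_mul_of_nonneg_right hTlow (sq_nonneg (S : ℝ))
    linarith
  have hTSu : T * (S : ℝ) ^ 2 ≤ 50 / 49 := by
    have := mul_le_mul_of_nonneg_right hTup (sq_nonneg (S : ℝ))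
    nlinarith
  -- T * LL is tiny compared with 1 / S
  have hTLL : 5 * T * LL ≤ 1 / 10 * (1 / S) := by
    rw [mul_one_div, le_div_iff₀ hS0]
    have h1 : T * S * S ≤ 50 / 49 := by nlinarith
    have h2 : T * S * 10 ^ 14 ≤ T * S * S := by gcongr
    rw [hLLv]
    linarith
  have hSinv : 1 / (S : ℝ) ≤ 1 / 10 ^ 14 := one_div_le_one_div_of_le (by norm_num) hS
  have hTLL2 : 5 * T * LL ≤ 1 := by linarith
  -- directions
  have hu : ∀ q, ‖(γ + δ q) / (w q : ℂ)‖ = 1 := by
    intro q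
    have h1 : 0 < w q := by linarith [hw1 q]
    rw [norm_div, Complex.norm_real, Real.norm_eq_abs, abs_of_pos h1]
    exact div_self h1.ne'
  choose N a m' hcfg using fun q => hgood ((γ + δ q) / (w q : ℂ)) (hu q)
  set u : Fin S × Fin S → ℂ := fun q => (γ + δ q) / (w q : ℂ) with hudef
  have hwu : ∀ q, (w q : ℂ) * u q = γ + δ q := by
    intro q
    have h1 : (w q : ℂ) ≠ 0 := by
      have : 0 < w q := by linarith [hw1 q]
      exact_mod_cast this.ne'
    simp only [hudef]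
    field_simp
  set A : (Σ q : Fin S × Fin S, Fin (N q)) → ℂ :=
    fun x => (ℓ : ℂ) * bp S x.1 + (T : ℂ) * a x.1 x.2 with hA
  set W : (Σ q : Fin S × Fin S, Fin (N q)) → ℝ := fun x => T * w x.1 * m' x.1 x.2 with hW
  have hWsum : ∀ q, ∑ i, W ⟨q, i⟩ = ℓ * m q := by
    intro q
    simp only [hW]
    rw [← Finset.mul_sum, (hcfg q).2.2.1, hmw q]
    rw [hT]; field_simp
  have hW0 : ∀ x, 0 ≤ W x := by
    intro x
    have h1 := (hcfg x.1).2.1 x.2
    have h2 : 0 < w x.1 := by linarith [hw1 x.1]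
    simp only [hW]; positivity
  have ha : ∀ q i, ‖a q i‖ ≤ LL := fun q i => (hcfg q).1 i
  have hcn : ∀ q, ‖(ℓ : ℂ) * bp S q‖ ≤ 2 * BB := by
    intro q
    rw [norm_mul, Complex.norm_real, Real.norm_eq_abs, abs_of_pos hℓ0]
    have h1 := bp_norm S hSn q
    have h2 : ℓ * ‖bp S q‖ ≤ 50 / 49 * (BB + 2) :=
      mul_le_mul hℓ2 h1 (norm_nonneg _) (by norm_num)
    rw [hBBv] at *
    linarith
  refine ⟨Σ q : Fin S × Fin S, Fin (N q), inferInstance, A, W, ?_, hW0, ?_, ?_⟩
  · intro x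
    simp only [hA]
    refine (norm_add_le _ _).trans ?_
    have h1 := hcn x.1
    have h2 : ‖(T : ℂ) * a x.1 x.2‖ ≤ T * LL := by
      rw [norm_mul, Complex.norm_real, Real.norm_eq_abs, abs_of_pos hT0]
      exact mul_le_mul_of_nonneg_left (ha _ _) hT0.le
    have h3 : T * LL ≤ 1 := by nlinarith
    rw [hBBv] at h1
    rw [hLLv]
    linarith
  · rw [Fintype.sum_sigma]
    calc ∑ q, ∑ i, W ⟨q, i⟩ = ∑ q, ℓ * m q := by
          apply Finset.sum_congr rfl; intro q _; exact hWsum q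
      _ = ℓ * M := by rw [← Finset.mul_sum]
      _ = 1 / κ' := hℓM
  · intro n hn k hk f G hG hG0 hGd hf hfe s hs
    have hη'inv : 1 / η' * η = 10 ^ 14 * (S : ℝ) ^ 4 := by
      rw [← hη'S]; field_simp
    have hnη : 10 ^ 14 * (S : ℝ) ^ 4 ≤ n * η := by
      rw [← hη'inv]; exact mul_le_mul_of_nonneg_right hn hη.le
    have hn0 : 0 < n := lt_of_lt_of_le (by positivity) hn
    have hη'a : η' * 10 ^ 14 ≤ η := by
      have h1 : (1 : ℝ) ≤ (S : ℝ) ^ 4 := one_le_pow₀ (by linarith only [hS])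
      have h2 : η' * 10 ^ 14 * 1 ≤ η' * 10 ^ 14 * (S : ℝ) ^ 4 :=
        mul_le_mul_of_nonneg_left h1 (by positivity)
      linarith only [h2, hη'S]
    have hη'b : 2 * (S : ℝ) * η' * 10 ^ 14 ≤ η := by
      have h1 : 2 * (S : ℝ) ≤ (S : ℝ) ^ 4 := by
        have h3 : (2 : ℝ) ≤ (S : ℝ) ^ 3 := by
          have : (2 : ℝ) ^ 3 ≤ (S : ℝ) ^ 3 :=
            pow_le_pow_left₀ (by norm_num) (by linarith only [hS]) 3
          linarith only [this]
        have h4 : (S : ℝ) ^ 4 = S ^ 3 * S := by ring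
        rw [h4]
        exact mul_le_mul_of_nonneg_right h3 hS0.le
      have h2 : η' * 10 ^ 14 * (2 * (S : ℝ)) ≤ η' * 10 ^ 14 * (S : ℝ) ^ 4 :=
        mul_le_mul_of_nonneg_left h1 (by positivity)
      linarith only [h2, hη'S]
    -- choice of the cell
    have hsT : s / T ≤ (S : ℝ) ^ 2 := by
      rw [div_le_iff₀ hT0]
      linarith only [hs.2, hTS]
    obtain ⟨q, hq1, hq2⟩ := exists_index S hSn (s / T) (div_nonneg hs.1 hT0.le) hsT
    obtain ⟨c, hc⟩ : ∃ c : ℂ, c = (ℓ : ℂ) * bp S q := ⟨_, rfl⟩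
    have hcre : c.re = T * ((S : ℝ) * q.1 + q.2) := by
      rw [hc, Complex.re_ofReal_mul, bp_re0, hT, hτ]
      field_simp
    have hwq1 := hw1 q
    have hwq2 := hw2 q
    have hwq0 : 0 < w q := lt_of_lt_of_le (by norm_num) hwq1
    set d : Fin S × Fin S → ℂ := fun q' => (ℓ : ℂ) * (bp S q - bp S q') with hd
    have hdn : ∀ q', ‖d q'‖ = ℓ * ‖bp S q - bp S q'‖ := by
      intro q'
      rw [hd, norm_mul, Complex.norm_real, Real.norm_eq_abs, abs_of_pos hℓ0]
    have hsep : ∀ q' ∈ univ.erase q, 1 / (S : ℝ) ≤ ‖d q'‖ := by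
      intro q' hq'
      rw [hdn]
      have h2 := bp_sep S hSn (Finset.ne_of_mem_erase hq').symm
      have h3 : 0 < 1 / (S : ℝ) := one_div_pos.mpr hS0
      calc 1 / (S : ℝ) = 1 * (1 / (S : ℝ)) := (one_mul _).symm
        _ ≤ ℓ * ‖bp S q - bp S q'‖ := mul_le_mul hℓ1 h2 h3.le hℓ0.le
    have hSpos : 0 < 1 / (S : ℝ) := one_div_pos.mpr hS0
    have hnear : ∀ w' : ℂ, ‖w'‖ ≤ 4 * LL → ∀ q' ∈ univ.erase q, ∀ i,
        ‖(c + T * w' - A ⟨q', i⟩) - d q'‖ ≤ 5 * T * LL := by
      intro w' hw' q' _ i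
      have h1 : (c + T * w' - A ⟨q', i⟩) - d q' = T * (w' - a q' i) := by
        simp only [hA, hd, hc]; ring
      rw [h1, norm_mul, Complex.norm_real, Real.norm_eq_abs, abs_of_pos hT0]
      have h2 := norm_sub_le w' (a q' i)
      have h3 := ha q' i
      have h4 : T * ‖w' - a q' i‖ ≤ T * (4 * LL + LL) :=
        mul_le_mul_of_nonneg_left (by linarith only [h2, h3, hw']) hT0.le
      linarith only [h4]
    have hρ : 5 * T * LL ≤ 1 / (S : ℝ) / 2 := by linarith only [hTLL, hSpos]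
    -- rounding errors over any part are controlled
    have hkpart : ∑ q' ∈ univ.erase q, ∑ i, |(k ⟨q', i⟩ : ℝ) - n * W ⟨q', i⟩| ≤ η' * n := by
      refine le_trans ?_ hk
      rw [Fintype.sum_sigma]
      apply Finset.sum_le_sum_of_subset_of_nonneg (Finset.erase_subset _ _)
      intro q' _ _
      exact Finset.sum_nonneg (fun i _ => abs_nonneg _)
    have hkown : ∑ i, |(k ⟨q, i⟩ : ℝ) - n * W ⟨q, i⟩| ≤ η' * n := by
      refine le_trans ?_ hk
      rw [Fintype.sum_sigma]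
      exact Finset.single_le_sum (f := fun q => ∑ i, |(k ⟨q, i⟩ : ℝ) - n * W ⟨q, i⟩|)
        (fun q' _ => Finset.sum_nonneg (fun i _ => abs_nonneg _)) (mem_univ q)
    have hnW0 : ∀ q' ∈ univ.erase q, ∀ i, 0 ≤ n * W ⟨q', i⟩ :=
      fun q' _ i => mul_nonneg hn0.le (hW0 _)
    have hnWsum : ∀ q' ∈ univ.erase q, ∑ i, n * W ⟨q', i⟩ = n * (ℓ * m q') := by
      intro q' _
      rw [← Finset.mul_sum, hWsum]
    have hmemb : ∀ w' ∈ ball (0 : ℂ) (4 * LL), c + T * w' ∈ ball (0 : ℂ) (4 * LL) := by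
      intro w' hw'
      rw [mem_ball_zero_iff] at hw' ⊢
      refine lt_of_le_of_lt (norm_add_le _ _) ?_
      rw [norm_mul (T : ℂ), Complex.norm_real, Real.norm_eq_abs, abs_of_pos hT0]
      have h1 := hcn q
      rw [← hc] at h1
      have h2 : T * ‖w'‖ ≤ T * (4 * LL) := mul_le_mul_of_nonneg_left hw'.le hT0.le
      have h3 : T * (4 * LL) ≤ 1 := by
        have h4 : 0 < T * LL := mul_pos hT0 hLL
        linarith only [h4, hTLL2]
      have h5 : 2 * BB + 1 < 4 * LL := by rw [hBBv, hLLv]; norm_num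
      linarith only [h1, h2, h3, h5]
    have hBne : ∀ w' : ℂ, ‖w'‖ ≤ 4 * LL → ∀ q' ∈ univ.erase q, ∀ i,
        c + T * w' ≠ A ⟨q', i⟩ := by
      intro w' hw' q' hq' i heq
      have h1 := half_le (hsep q' hq') (hnear w' hw' q' hq' i) hρ
      have h2 := hsep q' hq'
      rw [heq, sub_self, norm_zero] at h1
      linarith only [h1, h2, hSpos]
    -- field near the chosen sub-gadget
    have hsum2 : ∑ q' ∈ univ.erase q, n * (ℓ * m q') * (2 * (5 * T * LL) / ‖d q'‖ ^ 2) ≤
        n * η / 4 := by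
      have h1 : ∀ q' ∈ univ.erase q, n * (ℓ * m q') * (2 * (5 * T * LL) / ‖d q'‖ ^ 2) =
          (10 * LL * n) * (m q' / ‖bp S q - bp S q'‖ ^ 2 * τ) := by
        intro q' hq'
        have h2 : ‖bp S q - bp S q'‖ ≠ 0 := by
          have h3 := bp_sep S hSn (Finset.ne_of_mem_erase hq').symm
          exact (lt_of_lt_of_le hSpos h3).ne'
        rw [hdn, hT]
        field_simp
        ring
      rw [Finset.sum_congr rfl h1, ← Finset.mul_sum]
      have h2 := mul_le_mul_of_nonneg_left (hm2 q) (by positivity : 0 ≤ 10 * LL * n)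
      refine h2.trans (le_of_eq ?_)
      field_simp
      ring
    have hfieldsum : ∑ q' ∈ univ.erase q, ((n * (ℓ * m q') : ℝ) : ℂ) / d q' = n * δ q := by
      simp only [hδ, hd]
      rw [Finset.mul_sum]
      apply Finset.sum_congr rfl
      intro q' hq'
      have h3 : bp S q - bp S q' ≠ 0 := by
        have h4 := bp_sep S hSn (Finset.ne_of_mem_erase hq').symm
        exact norm_pos_iff.mp (lt_of_lt_of_le hSpos h4)
      have h4 : (ℓ : ℂ) ≠ 0 := by exact_mod_cast hℓ0.ne'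
      push_cast
      field_simp
    have hS2 : (1 : ℝ) ≤ (S : ℝ) ^ 2 := one_le_pow₀ (by linarith only [hS])
    have hS24 : (S : ℝ) ^ 4 = (S : ℝ) ^ 2 * (S : ℝ) ^ 2 := by ring
    -- η' versus η T w
    have hη'c : η' * 2 ≤ η * T * w q := by
      have h1 : η' * 10 ^ 14 * ((S : ℝ) ^ 2 * 1) ≤ η' * 10 ^ 14 * ((S : ℝ) ^ 2 * (S : ℝ) ^ 2) :=
        mul_le_mul_of_nonneg_left (mul_le_mul_of_nonneg_left hS2 (by positivity)) (by positivity)
      have h2 : η' * 10 ^ 14 * ((S : ℝ) ^ 2 * (S : ℝ) ^ 2) = η := by rw [← hη'S, hS24]; ring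
      have h3 : η * (49 / 50) ≤ η * T * w q * (S : ℝ) ^ 2 := by
        have h4 : 1 * (49 / 50) ≤ (T * (S : ℝ) ^ 2) * w q :=
          mul_le_mul hTS hwq1 (by norm_num) (by positivity)
        have h5 := mul_le_mul_of_nonneg_left h4 hη.le
        linarith only [h5]
      have h4 : η' * 2 * (S : ℝ) ^ 2 ≤ η * T * w q * (S : ℝ) ^ 2 := by
        have h5 : 0 ≤ η' * (S : ℝ) ^ 2 := by positivity
        linarith only [h1, h2, h3, h5, hη]
      exact le_of_mul_le_mul_right h4 (by positivity)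
    have hη'd : η' * n * 2 ≤ η * (T * n * w q) := by
      have := mul_le_mul_of_nonneg_right hη'c hn0.le
      linarith only [this]
    have hbig : 10 ^ 13 * (S : ℝ) ^ 2 ≤ η * (T * n * w q) := by
      have h1 : (10 ^ 14 * ((S : ℝ) ^ 2 * (S : ℝ) ^ 2)) * (49 / 50) ≤ (n * η) * w q := by
        rw [← hS24]
        exact mul_le_mul hnη hwq1 (by norm_num) (by positivity)
      have h2 := mul_le_mul_of_nonneg_left h1 hT0.le
      have h3 : 1 * (10 ^ 14 * (49 / 50) * (S : ℝ) ^ 2) ≤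
          (T * (S : ℝ) ^ 2) * (10 ^ 14 * (49 / 50) * (S : ℝ) ^ 2) :=
        mul_le_mul_of_nonneg_right hTS (by positivity)
      have h4 : 0 ≤ (S : ℝ) ^ 2 := by positivity
      linarith only [h2, h3, h4]
    have hx0 : 0 < η * (T * n * w q) := by positivity
    have hTexp : 5 * LL ≤ T * Real.exp (η * (T * n * w q)) := by
      have h1 : η * (T * n * w q) ≤ Real.exp (η * (T * n * w q)) := by
        have := Real.add_one_le_exp (η * (T * n * w q))
        linarith only [this]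
      have h2 := mul_le_mul_of_nonneg_left (hbig.trans h1) hT0.le
      have h3 : 10 ^ 13 * (T * (S : ℝ) ^ 2) ≥ 10 ^ 13 * 1 :=
        mul_le_mul_of_nonneg_left hTS (by norm_num)
      rw [hLLv]
      linarith only [h2, h3]
    -- the exit point of the chosen sub-gadget
    have hexn : ∀ v : ℂ, ‖v‖ = 1 → ‖ex v‖ = 3 * LL := by
      intro v hv
      rw [ex, norm_mul, RCLike.norm_conj, hv, mul_one, norm_neg, Complex.norm_real,
        Real.norm_eq_abs, abs_of_pos (by positivity)]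
    obtain ⟨z₁, hz₁⟩ : ∃ z₁ : ℂ, z₁ = c + T * ex (u q) := ⟨_, rfl⟩
    have hexle : ‖ex (u q)‖ ≤ 4 * LL := by rw [hexn _ (hu q)]; linarith only [hLL]
    have hexlt : ex (u q) ∈ ball (0 : ℂ) (4 * LL) := by
      rw [mem_ball_zero_iff, hexn _ (hu q)]; linarith only [hLL]
    have hz₁mem : z₁ ∈ ball (0 : ℂ) (4 * LL) := by rw [hz₁]; exact hmemb _ hexlt
    have hγmem : ex γ ∈ ball (0 : ℂ) (4 * LL) := by
      rw [mem_ball_zero_iff, hexn _ hγ]; linarith only [hLL]
    have hcn' : ‖c‖ ≤ 2 * BB := by rw [hc]; exact hcn q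
    have hz₁n : ‖z₁‖ ≤ 2 * BB + 1 := by
      rw [hz₁]
      refine (norm_add_le _ _).trans ?_
      rw [norm_mul (T : ℂ), Complex.norm_real, Real.norm_eq_abs, abs_of_pos hT0, hexn _ (hu q)]
      have h4 : 0 < T * LL := mul_pos hT0 hLL
      linarith only [hcn', hTLL2, h4]
    have hown : ∀ i, 2 * (T * LL) ≤ ‖z₁ - A ⟨q, i⟩‖ := by
      intro i
      have h1 : z₁ - A ⟨q, i⟩ = T * (ex (u q) - a q i) := by
        rw [hz₁]; simp only [hA, hc]; ring
      rw [h1, norm_mul, Complex.norm_real, Real.norm_eq_abs, abs_of_pos hT0]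
      have h2 := norm_sub_norm_le (ex (u q)) (a q i)
      rw [hexn _ (hu q)] at h2
      have h3 := ha q i
      have h4 : T * (2 * LL) ≤ T * ‖ex (u q) - a q i‖ :=
        mul_le_mul_of_nonneg_left (by linarith only [h2, h3]) hT0.le
      linarith only [h4]
    have hTLpos : 0 < T * LL := mul_pos hT0 hLL
    have hz₁A : ∀ x, z₁ ≠ A x := by
      rintro ⟨q', i⟩ heq
      by_cases hq' : q' = q
      · subst hq'
        have h1 := hown i
        rw [heq, sub_self, norm_zero] at h1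
        linarith only [h1, hTLpos]
      · rw [hz₁] at heq
        exact hBne _ hexle q' (Finset.mem_erase.mpr ⟨hq', mem_univ _⟩) i heq
    have hσ : ∑ x, (k x : ℝ) / ‖z₁ - A x‖ ≤ n / 10 := by
      rw [sum_sigma_split N q, sum_sigma_ne N q (fun x => (k x : ℝ) / ‖z₁ - A x‖)]
      have h1 : ∑ q' ∈ univ.erase q, ∑ i, (k ⟨q', i⟩ : ℝ) / ‖z₁ - A ⟨q', i⟩‖ ≤
          η' * n * (2 / (1 / (S : ℝ))) + 2 * (n / 50) := by
        refine field_abs (univ.erase q) (p := fun q' i => z₁ - A ⟨q', i⟩) (d := d)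
          (k := fun q' i => k ⟨q', i⟩) (K := fun q' i => n * W ⟨q', i⟩)
          (Mq := fun q' => n * (ℓ * m q')) (ρ := 5 * T * LL)
          hSpos hsep ?_ hρ hnW0 hnWsum hkpart ?_
        · intro q' hq' i
          rw [hz₁]; exact hnear _ hexle q' hq' i
        · have h2 : ∀ q' ∈ univ.erase q, n * (ℓ * m q') / ‖d q'‖ =
              n * (m q' / ‖bp S q - bp S q'‖) := by
            intro q' _
            rw [hdn]; field_simp
          rw [Finset.sum_congr rfl h2, ← Finset.mul_sum]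
          have := mul_le_mul_of_nonneg_left (hm1 q) hn0.le
          linarith only [this]
      have h2 : ∑ i, (k ⟨q, i⟩ : ℝ) / ‖z₁ - A ⟨q, i⟩‖ ≤
          (n * (ℓ * m q) + η' * n) / (2 * (T * LL)) := by
        calc ∑ i, (k ⟨q, i⟩ : ℝ) / ‖z₁ - A ⟨q, i⟩‖
            ≤ ∑ i, (n * W ⟨q, i⟩ + |(k ⟨q, i⟩ : ℝ) - n * W ⟨q, i⟩|) / (2 * (T * LL)) := by
              apply Finset.sum_le_sum
              intro i _
              apply div_le_div₀ _ _ (by positivity) (hown i)
              · exact add_nonneg (mul_nonneg hn0.le (hW0 _)) (abs_nonneg _)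
              · have := le_abs_self ((k ⟨q, i⟩ : ℝ) - n * W ⟨q, i⟩)
                linarith only [this]
          _ = (n * ∑ i, W ⟨q, i⟩ + ∑ i, |(k ⟨q, i⟩ : ℝ) - n * W ⟨q, i⟩|) / (2 * (T * LL)) := by
              rw [← Finset.sum_div, Finset.sum_add_distrib, Finset.mul_sum]
          _ ≤ (n * (ℓ * m q) + η' * n) / (2 * (T * LL)) := by
              rw [hWsum]
              apply div_le_div_of_nonneg_right _ (by positivity)
              linarith only [hkown]
      have h3 : (n * (ℓ * m q) + η' * n) / (2 * (T * LL)) ≤ n / 100 := by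
        rw [div_le_iff₀ (by positivity)]
        have h4 : ℓ * m q = T * w q / κ := by rw [hmw q, hT]; ring
        have h5 : w q / κ ≤ 17 := by
          rw [div_le_iff₀ hκ0]; linarith only [hwq2, hκ]
        have h6 : n * (ℓ * m q) ≤ n * (T * 17) := by
          rw [h4]
          have : T * w q / κ = T * (w q / κ) := by ring
          rw [this]
          exact mul_le_mul_of_nonneg_left (mul_le_mul_of_nonneg_left h5 hT0.le) hn0.le
        have h7 : η' * n ≤ n * T := by
          have h8 : η * (T * n * w q) ≤ 1 * (T * n * 2) := by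
            apply mul_le_mul hη1 _ (by positivity) (by norm_num)
            exact mul_le_mul_of_nonneg_left (by linarith only [hwq2]) (by positivity)
          linarith only [h8, hη'd]
        have h8 : 0 < n * T := by positivity
        rw [hLLv]
        linarith only [h6, h7, h8]
      have h4 : η' * n * (2 / (1 / (S : ℝ))) ≤ n / 100 := by
        have h5 : η' * n * (2 / (1 / (S : ℝ))) = n * (2 * S * η') := by field_simp
        rw [h5]
        have h6 : 2 * (S : ℝ) * η' ≤ 1 / 100 := by linarith only [hη'b, hη1]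
        have := mul_le_mul_of_nonneg_left h6 hn0.le
        linarith only [this]
      linarith only [h1, h2, h3, h4, hn0]
    have hdir : (γ * (ex γ - z₁)).re ≤ -(1 / 2) * ‖ex γ - z₁‖ := by
      have h1 : γ * ex γ = ((-(3 * LL) : ℝ) : ℂ) := by
        have h2 : γ * (starRingEnd ℂ) γ = 1 := by
          rw [Complex.mul_conj, Complex.normSq_eq_norm_sq, hγ]; simp
        rw [ex]
        calc γ * (-((3 * LL : ℝ) : ℂ) * (starRingEnd ℂ) γ) =
            -((3 * LL : ℝ) : ℂ) * (γ * (starRingEnd ℂ) γ) := by ring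
          _ = _ := by rw [h2]; push_cast; ring
      rw [mul_sub, sub_re, h1, Complex.ofReal_re]
      have h2 : -‖γ * z₁‖ ≤ (γ * z₁).re := (abs_le.mp (Complex.abs_re_le_norm _)).1
      rw [norm_mul, hγ, one_mul] at h2
      have h3 := norm_sub_le (ex γ) z₁
      rw [hexn _ hγ] at h3
      rw [hLLv] at *
      rw [hBBv] at hz₁n
      linarith only [h2, h3, hz₁n]
    have hlong : 1 ≤ ‖ex γ - z₁‖ := by
      have h2 := norm_sub_norm_le (ex γ) z₁
      rw [hexn _ hγ] at h2
      have h5 : 2 * BB + 1 + 1 ≤ 3 * LL := by rw [hBBv, hLLv]; norm_num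
      linarith only [h2, hz₁n, h5]
    have hshort : 1 + ‖ex γ - z₁‖ ≤ 5 * LL := by
      have h3 := norm_sub_le (ex γ) z₁
      rw [hexn _ hγ] at h3
      have h5 : 2 * BB + 1 + 1 ≤ 2 * LL := by rw [hBBv, hLLv]; norm_num
      linarith only [h3, hz₁n, h5]
    obtain ⟨hex1, hex2⟩ := exit_bound hG hG0 hGd hγmem hz₁mem A k hf hz₁A hσ
      (by linarith only [hη'a, hη1]) hn0.le hdir hlong hfe
    -- application of the local step
    have hloc := local_step (hcfg q) hη1 (hu q) hT0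
      (B := fun j : (Σ q' : {q' : Fin S × Fin S // q' ≠ q}, Fin (N q')) => A ⟨j.1.1, j.2⟩)
      (l := fun j => k ⟨j.1.1, j.2⟩) (k := fun i => k ⟨q, i⟩) (f := f) (G := G) (c := c)
      (n := n) (w := w q) (γ := γ) (η' := η') (D := 4 * LL) hG hG0 hGd ?_ hmemb ?_ ?_ ?_ ?_ ?_
    · -- final conclusion
      have hs0 : 0 ≤ s / T - ((S : ℝ) * q.1 + q.2) := by linarith only [hq1]
      have hs1 : s / T - ((S : ℝ) * q.1 + q.2) ≤ 1 := by linarith only [hq2]
      obtain ⟨w₀, hw₀re, hw₀n, hw₀⟩ := hloc _ ⟨hs0, hs1⟩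
      have hTc : (T : ℂ) ≠ 0 := by exact_mod_cast hT0.ne'
      refine ⟨c + T * w₀, ?_, ?_, ?_⟩
      · rw [add_re, Complex.re_ofReal_mul, hcre, hw₀re]
        field_simp
        ring
      · refine (norm_add_le _ _).trans ?_
        rw [norm_mul (T : ℂ), Complex.norm_real, Real.norm_eq_abs, abs_of_pos hT0]
        have h2 : T * ‖w₀‖ ≤ T * (2 * LL) := mul_le_mul_of_nonneg_left hw₀n hT0.le
        have h5 : 2 * BB + 1 ≤ 2 * LL := by rw [hBBv, hLLv]; norm_num
        linarith only [h2, h5, hcn', hTLpos, hTLL2]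
      · have hball : ∀ z ∈ closedBall (c + T * w₀) η', ∃ v ∈ closedBall w₀ η, z = c + T * v := by
          intro z hz
          refine ⟨(z - c) / T, ?_, by field_simp; ring⟩
          rw [mem_closedBall, dist_eq_norm] at hz ⊢
          have h1 : (z - c) / T - w₀ = (z - (c + T * w₀)) / T := by field_simp; ring
          rw [h1, norm_div, Complex.norm_real, Real.norm_eq_abs, abs_of_pos hT0,
            div_le_iff₀ hT0]
          have h2 : η * T * w q ≤ η * T * 2 :=
            mul_le_mul_of_nonneg_left (by linarith only [hwq2]) (by positivity)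
          linarith only [hz, hη'c, h2]
        intro z hz
        obtain ⟨v, hv, rfl⟩ := hball z hz
        obtain ⟨h1, h2⟩ := hw₀ v hv
        refine ⟨?_, ?_⟩
        · refine le_trans hex2 (le_trans ?_ h1)
          rw [hz₁, mul_comm]
          apply mul_le_mul_of_nonneg_right _ (norm_nonneg _)
          -- exp (-x) ≤ T
          have h3 : (S : ℝ) ^ 2 ≤ Real.exp (3 / 10 * n * ‖ex γ - z₁‖) := by
            have h4 : (S : ℝ) ^ 2 ≤ 3 / 10 * n * ‖ex γ - z₁‖ := by
              have h5 : n * 1 ≤ n * ‖ex γ - z₁‖ := mul_le_mul_of_nonneg_left hlong hn0.le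
              have h6 : (S : ℝ) ^ 2 * 1 ≤ (S : ℝ) ^ 2 * (S : ℝ) ^ 2 :=
                mul_le_mul_of_nonneg_left hS2 (by positivity)
              have h7 : n * η ≤ n * 1 := mul_le_mul_of_nonneg_left hη1 hn0.le
              rw [hS24] at hnη
              have h8 : 0 ≤ (S : ℝ) ^ 2 * (S : ℝ) ^ 2 := by positivity
              linarith only [h5, h6, h7, h8, hnη]
            have := Real.add_one_le_exp (3 / 10 * n * ‖ex γ - z₁‖)
            linarith only [this, h4]
          have h4 : Real.exp (-(3 / 10) * n * ‖ex γ - (c + T * ex (u q))‖) =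
              (Real.exp (3 / 10 * n * ‖ex γ - z₁‖))⁻¹ := by
            rw [← Real.exp_neg, hz₁]; congr 1; ring
          rw [h4]
          apply inv_le_of_inv_le₀ hT0
          refine le_trans ?_ h3
          rw [inv_le_iff_one_le_mul₀ hT0]
          linarith only [hTS]
        · intro z' hz'
          obtain ⟨v', hv', rfl⟩ := hball z' hz'
          refine le_trans ?_ (h2 v' hv')
          rw [← mul_assoc]
          apply mul_le_mul_of_nonneg_right _ (norm_nonneg _)
          -- exp (η' n) ≤ exp (η T n w) * T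
          have h3 : Real.exp (η * (T * n * w q)) =
              Real.exp (η' * n) * Real.exp (η * (T * n * w q) - η' * n) := by
            rw [← Real.exp_add]; congr 1; ring
          rw [h3, mul_assoc]
          have h4 : 1 ≤ Real.exp (η * (T * n * w q) - η' * n) * T := by
            have h5 : (S : ℝ) ^ 2 ≤ Real.exp (η * (T * n * w q) - η' * n) := by
              have h6 := Real.add_one_le_exp (η * (T * n * w q) - η' * n)
              have h7 : 0 ≤ (S : ℝ) ^ 2 := by positivity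
              linarith only [h6, h7, hbig, hη'd]
            have h8 := mul_le_mul_of_nonneg_right h5 hT0.le
            linarith only [h8, hTS]
          have h5 := mul_le_mul_of_nonneg_left h4 (Real.exp_pos (η' * n)).le
          linarith only [h5]
    · intro z hz
      have h1 := hf z hz
      rw [prod_sigma_split N q] at h1
      simp only [hA] at h1 ⊢
      rw [hc]
      exact h1
    · intro w' hw' j
      rw [mem_ball_zero_iff] at hw'
      exact hBne w' hw'.le j.1.1 (Finset.mem_erase.mpr ⟨j.1.2, mem_univ _⟩) j.2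
    · intro w' hw'
      rw [mem_ball_zero_iff] at hw'
      have h1 : ‖∑ q' ∈ univ.erase q, ∑ i, (k ⟨q', i⟩ : ℂ) / (c + T * w' - A ⟨q', i⟩) -
          ∑ q' ∈ univ.erase q, ((n * (ℓ * m q') : ℝ) : ℂ) / d q'‖ ≤
          η' * n * (2 / (1 / (S : ℝ))) + n * η / 4 :=
        field_bound (univ.erase q) (p := fun q' i => c + T * w' - A ⟨q', i⟩) (d := d)
          (k := fun q' i => k ⟨q', i⟩) (K := fun q' i => n * W ⟨q', i⟩)
          (Mq := fun q' => n * (ℓ * m q')) (ρ := 5 * T * LL)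
          hSpos hsep (hnear w' hw'.le) hρ hnW0 hnWsum hkpart hsum2
      rw [hfieldsum] at h1
      rw [sum_sigma_ne N q (fun x => (k x : ℂ) / (c + T * w' - A x)), hwu q, add_sub_cancel_left]
      have h4 : η' * n * (2 / (1 / (S : ℝ))) = n * (2 * S * η') := by field_simp
      have h5 : n * (2 * (S : ℝ) * η' * 10 ^ 14) ≤ n * η :=
        mul_le_mul_of_nonneg_left hη'b hn0.le
      have h6 : η' * 10 ^ 14 * n ≤ η * n := mul_le_mul_of_nonneg_right hη'a hn0.le
      have h7 : η' * n + ‖∑ q' ∈ univ.erase q, ∑ i, (k ⟨q', i⟩ : ℂ) /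
          (c + T * w' - A ⟨q', i⟩) - n * δ q‖ ≤ η * (n * w q) := by
        have h8 : η * n * (49 / 50) ≤ η * n * w q :=
          mul_le_mul_of_nonneg_left hwq1 (by positivity)
        have h9 : 0 < η * n := by positivity
        rw [h4] at h1
        linarith only [h1, h5, h6, h8, h9]
      have h8 := mul_le_mul_of_nonneg_left h7 hT0.le
      linarith only [h8]
    · have h1 : ∑ i, |(k ⟨q, i⟩ : ℝ) - T * n * w q * m' q i| =
          ∑ i, |(k ⟨q, i⟩ : ℝ) - n * W ⟨q, i⟩| := by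
        apply Finset.sum_congr rfl
        intro i _
        simp only [hW]
        congr 2
        ring
      rw [h1]
      have h2 : 0 ≤ η' * n := by positivity
      linarith only [hkown, hη'd, h2]
    · rw [div_le_iff₀ hη]
      linarith only [hbig, hS2]
    · rw [hz₁] at hex1 hshort
      refine le_trans hex1 ?_
      rw [← mul_assoc]
      apply mul_le_mul_of_nonneg_right _ (norm_nonneg _)
      linarith only [hshort, hTexp]

end Pool.Agent.NevChar
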