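import Pool.Agent.Lib_MP_2ed15d_an.Field2

/-! Estimates for the top level: separation, inner and outer sums. -/

set_option autoImplicit false

open Metric Complex Finset

namespace Pool.Agent.NevChar

lemma pow_in {F : Type*} [Field F] (x : F) (hx : x ≠ 0) {k j : ℕ} (hk : k < j) :
    x ^ (j - 1 - k) = x ^ j * (x ^ (k + 1))⁻¹ := by
  rw [eq_mul_inv_iff_mul_eq₀ (pow_ne_zero _ hx), ← pow_add]
  congr 1
  omega

lemma pow_in_div {F : Type*} [Field F] (x : F) (hx : x ≠ 0) {k j : ℕ} (hk : k < j) :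
    x ^ (j - 1 - k) / x ^ j = (x ^ (k + 1))⁻¹ := by
  rw [pow_in x hx hk]
  field_simp

lemma pow_out {F : Type*} [Field F] (x : F) (k j : ℕ) :
    x ^ (j + 1 + k) = x ^ j * x ^ (k + 1) := by
  rw [← pow_add]; congr 1; omega

lemma pow_out_div {F : Type*} [Field F] (x : F) (hx : x ≠ 0) (k j : ℕ) :
    x ^ (j + 1 + k) / x ^ j = x ^ (k + 1) := by
  rw [pow_out x k j]
  field_simp

lemma norm_one_sub_inv {x : ℂ} (hx : x ≠ 0) : ‖1 - x⁻¹‖ = ‖x - 1‖ / ‖x‖ := by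
  rw [← norm_div]; congr 1; field_simp

section
variable {q : ℂ} {l μ S : ℝ}

/-- separation -/
lemma sep_bound (hS : 0 < S) (hl : 1 < l) (hq : ‖q‖ = l)
    (hsep : ∀ k : ℕ, (1 + l ^ (k + 1)) / (8 * S) ≤ ‖q ^ (k + 1) - 1‖) {i j : ℕ} (hij : i ≠ j) :
    (1 + l ^ i / l ^ j) / (8 * S) ≤ ‖1 - q ^ i / q ^ j‖ := by
  have hl0 : (0 : ℝ) < l := by linarith
  have hq0 : q ≠ 0 := norm_pos_iff.mp (by rw [hq]; exact hl0)
  rcases lt_or_gt_of_ne hij with h | h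
  · obtain ⟨k, rfl⟩ := Nat.exists_eq_add_of_lt h
    have h1 : q ^ i / q ^ (i + k + 1) = (q ^ (k + 1))⁻¹ := by
      rw [show i + k + 1 = i + (k + 1) by ring, pow_add]; field_simp
    have h2 : l ^ i / l ^ (i + k + 1) = (l ^ (k + 1))⁻¹ := by
      rw [show i + k + 1 = i + (k + 1) by ring, pow_add]; field_simp
    rw [h1, h2, norm_one_sub_inv (pow_ne_zero _ hq0), norm_pow, hq]
    have h3 := hsep k
    rw [div_le_iff₀ (by positivity)] at h3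
    rw [div_le_div_iff₀ (by positivity) (by positivity)]
    have h4 : (1 + (l ^ (k + 1))⁻¹) * l ^ (k + 1) = 1 + l ^ (k + 1) := by
      field_simp
      ring
    rw [h4]; exact h3
  · obtain ⟨k, rfl⟩ := Nat.exists_eq_add_of_lt h
    have h1 : q ^ (j + k + 1) / q ^ j = q ^ (k + 1) := by
      rw [show j + k + 1 = j + (k + 1) by ring, pow_add]; field_simp
    have h2 : l ^ (j + k + 1) / l ^ j = l ^ (k + 1) := by
      rw [show j + k + 1 = j + (k + 1) by ring, pow_add]; field_simp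
    rw [h1, h2, norm_sub_rev]
    exact hsep k

lemma err_inner (hS : 0 < S) (hl : 1 < l) (hμ : 1 < μ) (hq : ‖q‖ = l)
    (hsep : ∀ k : ℕ, (1 + l ^ (k + 1)) / (8 * S) ≤ ‖q ^ (k + 1) - 1‖) {ℓ : ℝ} (hℓ : 0 < ℓ)
    {j k : ℕ} (hk : k < j) {Nn : ℝ} (hN : 0 ≤ Nn) :
    Nn * (2 / ‖1 - q ^ (j - 1 - k) / q ^ j‖) + μ ^ (j - 1 - k) *
      (2 * (ℓ * LL * (4 + l ^ (j - 1 - k) / l ^ j)) / ‖1 - q ^ (j - 1 - k) / q ^ j‖ ^ 2) ≤
    16 * Nn * S + 8 * ℓ * LL * μ ^ j *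
      ((μ ^ (k + 1))⁻¹ * (l ^ (k + 1) * (1 + l ^ (k + 1))) / ‖q ^ (k + 1) - 1‖ ^ 2) := by
  have hl0 : (0 : ℝ) < l := by linarith
  have hμ0 : (0 : ℝ) < μ := by linarith
  have hLL : (0 : ℝ) < LL := by norm_num [LL]
  have hq0 : q ≠ 0 := norm_pos_iff.mp (by rw [hq]; exact hl0)
  rw [pow_in_div q hq0 hk, pow_in_div l hl0.ne' hk, pow_in μ hμ0.ne' hk,
    norm_one_sub_inv (pow_ne_zero _ hq0), norm_pow, hq]
  have h3 := hsep k
  have hlk : 0 < l ^ (k + 1) := by positivity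
  have hE : 0 < ‖q ^ (k + 1) - 1‖ := lt_of_lt_of_le (by positivity) h3
  generalize ‖q ^ (k + 1) - 1‖ = E at *
  generalize l ^ (k + 1) = L at *
  have hμk : 0 < μ ^ (k + 1) := by positivity
  have hμj : 0 < μ ^ j := by positivity
  generalize μ ^ (k + 1) = M at *
  generalize μ ^ j = Mj at *
  rw [div_le_iff₀ (by positivity)] at h3
  have h5 : 2 / (E / L) ≤ 16 * S := by
    rw [div_div_eq_mul_div, div_le_iff₀ hE]
    linarith
  have h6 : Nn * (2 / (E / L)) ≤ 16 * Nn * S := by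
    have := mul_le_mul_of_nonneg_left h5 hN
    linarith
  have h7 : Mj * M⁻¹ * (2 * (ℓ * LL * (4 + L⁻¹)) / (E / L) ^ 2) =
      (Mj * M⁻¹ * (2 * ℓ * LL) * L / E ^ 2) * (4 * L + 1) := by
    field_simp
  have h8 : 8 * ℓ * LL * Mj * (M⁻¹ * (L * (1 + L)) / E ^ 2) =
      (Mj * M⁻¹ * (2 * ℓ * LL) * L / E ^ 2) * (4 * (1 + L)) := by
    field_simp
    ring
  rw [h7, h8]
  have h9 : (Mj * M⁻¹ * (2 * ℓ * LL) * L / E ^ 2) * (4 * L + 1) ≤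
      (Mj * M⁻¹ * (2 * ℓ * LL) * L / E ^ 2) * (4 * (1 + L)) :=
    mul_le_mul_of_nonneg_left (by linarith) (by positivity)
  linarith

lemma err_outer (hS : 0 < S) (hl : 1 < l) (hμ : 1 < μ) (hq : ‖q‖ = l)
    (hsep : ∀ k : ℕ, (1 + l ^ (k + 1)) / (8 * S) ≤ ‖q ^ (k + 1) - 1‖) {ℓ : ℝ} (hℓ : 0 < ℓ)
    (j k : ℕ) {Nn : ℝ} (hN : 0 ≤ Nn) :
    Nn * (2 / ‖1 - q ^ (j + 1 + k) / q ^ j‖) + μ ^ (j + 1 + k) *
      (2 * (ℓ * LL * (4 + l ^ (j + 1 + k) / l ^ j)) / ‖1 - q ^ (j + 1 + k) / q ^ j‖ ^ 2) ≤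
    2 * Nn * (μ ^ (k + 1) / ‖q ^ (k + 1) - 1‖) + 8 * ℓ * LL * μ ^ j *
      (μ ^ (k + 1) * (1 + l ^ (k + 1)) / ‖q ^ (k + 1) - 1‖ ^ 2) := by
  have hl0 : (0 : ℝ) < l := by linarith
  have hμ0 : (0 : ℝ) < μ := by linarith
  have hLL : (0 : ℝ) < LL := by norm_num [LL]
  have hq0 : q ≠ 0 := norm_pos_iff.mp (by rw [hq]; exact hl0)
  rw [pow_out_div q hq0, pow_out_div l hl0.ne', pow_out μ, norm_sub_rev]
  have h3 := hsep k
  have hlk : 0 < l ^ (k + 1) := by positivity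
  have hE : 0 < ‖q ^ (k + 1) - 1‖ := lt_of_lt_of_le (by positivity) h3
  generalize ‖q ^ (k + 1) - 1‖ = E at *
  generalize l ^ (k + 1) = L at *
  have hμk : 1 ≤ μ ^ (k + 1) := one_le_pow₀ hμ.le
  have hμj : 0 < μ ^ j := by positivity
  generalize μ ^ (k + 1) = M at *
  generalize μ ^ j = Mj at *
  have hM0 : 0 < M := by linarith
  have h6 : Nn * (2 / E) ≤ 2 * Nn * (M / E) := by
    have h7 : Nn * (2 / E) = (2 * Nn / E) * 1 := by ring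
    have h8 : 2 * Nn * (M / E) = (2 * Nn / E) * M := by ring
    rw [h7, h8]
    exact mul_le_mul_of_nonneg_left hμk (by positivity)
  have h7 : Mj * M * (2 * (ℓ * LL * (4 + L)) / E ^ 2) =
      (Mj * M * (2 * ℓ * LL) / E ^ 2) * (4 + L) := by
    field_simp
  have h8 : 8 * ℓ * LL * Mj * (M * (1 + L) / E ^ 2) =
      (Mj * M * (2 * ℓ * LL) / E ^ 2) * (4 * (1 + L)) := by
    field_simp
    ring
  rw [h7, h8]
  have h9 : (Mj * M * (2 * ℓ * LL) / E ^ 2) * (4 + L) ≤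
      (Mj * M * (2 * ℓ * LL) / E ^ 2) * (4 * (1 + L)) :=
    mul_le_mul_of_nonneg_left (by linarith) (by positivity)
  linarith

/-- total error in the field -/
lemma err_sum (hS : 0 < S) (hl : 1 < l) (hμ : 1 < μ) (hq : ‖q‖ = l)
    (hsep : ∀ k : ℕ, (1 + l ^ (k + 1)) / (8 * S) ≤ ‖q ^ (k + 1) - 1‖) {ℓ : ℝ} (hℓ : 0 < ℓ)
    {j J : ℕ} (hj : j < J) {Nn : ℝ} (hN : 0 ≤ Nn) {bX bY bZ : ℝ}
    (hX : ∀ n, ∑ k ∈ range n, μ ^ (k + 1) / ‖q ^ (k + 1) - 1‖ ≤ bX)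
    (hY : ∀ n, ∑ k ∈ range n, μ ^ (k + 1) * (1 + l ^ (k + 1)) / ‖q ^ (k + 1) - 1‖ ^ 2 ≤ bY)
    (hZ : ∀ n, ∑ k ∈ range n, (μ ^ (k + 1))⁻¹ * (l ^ (k + 1) * (1 + l ^ (k + 1))) /
      ‖q ^ (k + 1) - 1‖ ^ 2 ≤ bZ) :
    ∑ i ∈ (range J).erase j, (Nn * (2 / ‖1 - q ^ i / q ^ j‖) + μ ^ i *
      (2 * (ℓ * LL * (4 + l ^ i / l ^ j)) / ‖1 - q ^ i / q ^ j‖ ^ 2)) ≤
    16 * Nn * S * j + 2 * Nn * bX + 8 * ℓ * LL * (bY + bZ) * μ ^ j := by
  have hLL : (0 : ℝ) < LL := by norm_num [LL]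
  have hμ0 : (0 : ℝ) < μ := by linarith
  have hμj : 0 < μ ^ j := by positivity
  rw [sum_erase_split _ hj]
  have h1 : ∑ k ∈ range j, (Nn * (2 / ‖1 - q ^ (j - 1 - k) / q ^ j‖) + μ ^ (j - 1 - k) *
      (2 * (ℓ * LL * (4 + l ^ (j - 1 - k) / l ^ j)) / ‖1 - q ^ (j - 1 - k) / q ^ j‖ ^ 2)) ≤
      16 * Nn * S * j + 8 * ℓ * LL * μ ^ j * bZ := by
    calc _ ≤ ∑ k ∈ range j, (16 * Nn * S + 8 * ℓ * LL * μ ^ j *
      ((μ ^ (k + 1))⁻¹ * (l ^ (k + 1) * (1 + l ^ (k + 1))) / ‖q ^ (k + 1) - 1‖ ^ 2)) := by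
          apply Finset.sum_le_sum
          intro k hk
          exact err_inner hS hl hμ hq hsep hℓ (Finset.mem_range.mp hk) hN
      _ = 16 * Nn * S * j + 8 * ℓ * LL * μ ^ j * ∑ k ∈ range j,
          ((μ ^ (k + 1))⁻¹ * (l ^ (k + 1) * (1 + l ^ (k + 1))) / ‖q ^ (k + 1) - 1‖ ^ 2) := by
          rw [Finset.sum_add_distrib, Finset.sum_const, Finset.card_range,
            nsmul_eq_mul, ← Finset.mul_sum]
          ring
      _ ≤ _ := by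
          have := mul_le_mul_of_nonneg_left (hZ j)
            (by positivity : 0 ≤ 8 * ℓ * LL * μ ^ j)
          linarith
  have h2 : ∑ k ∈ range (J - 1 - j), (Nn * (2 / ‖1 - q ^ (j + 1 + k) / q ^ j‖) +
      μ ^ (j + 1 + k) *
      (2 * (ℓ * LL * (4 + l ^ (j + 1 + k) / l ^ j)) / ‖1 - q ^ (j + 1 + k) / q ^ j‖ ^ 2)) ≤
      2 * Nn * bX + 8 * ℓ * LL * μ ^ j * bY := by
    calc _ ≤ ∑ k ∈ range (J - 1 - j), (2 * Nn * (μ ^ (k + 1) / ‖q ^ (k + 1) - 1‖) +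
      8 * ℓ * LL * μ ^ j *
      (μ ^ (k + 1) * (1 + l ^ (k + 1)) / ‖q ^ (k + 1) - 1‖ ^ 2)) := by
          apply Finset.sum_le_sum
          intro k hk
          exact err_outer hS hl hμ hq hsep hℓ j k hN
      _ = 2 * Nn * ∑ k ∈ range (J - 1 - j), (μ ^ (k + 1) / ‖q ^ (k + 1) - 1‖) +
          8 * ℓ * LL * μ ^ j * ∑ k ∈ range (J - 1 - j),
          (μ ^ (k + 1) * (1 + l ^ (k + 1)) / ‖q ^ (k + 1) - 1‖ ^ 2) := by
          rw [Finset.sum_add_distrib, ← Finset.mul_sum, ← Finset.mul_sum]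
      _ ≤ _ := by
          have h3 := mul_le_mul_of_nonneg_left (hY (J - 1 - j))
            (by positivity : 0 ≤ 8 * ℓ * LL * μ ^ j)
          have h4 := mul_le_mul_of_nonneg_left (hX (J - 1 - j))
            (by positivity : 0 ≤ 2 * Nn)
          linarith
  refine (add_le_add h1 h2).trans (le_of_eq ?_)
  ring

/-- main term of the field -/
lemma main_term (hl : 1 < l) (hμ : 1 < μ) (hq : ‖q‖ = l) {j J : ℕ} (hj : j < J) :
    ∑ i ∈ (range J).erase j, ((μ ^ i : ℝ) : ℂ) / (1 - q ^ i / q ^ j) =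
      ((μ ^ j : ℝ) : ℂ) * (∑ k ∈ range j, (((μ ^ (k + 1))⁻¹ : ℝ) : ℂ) / (1 - (q ^ (k + 1))⁻¹) +
        ∑ k ∈ range (J - 1 - j), ((μ ^ (k + 1) : ℝ) : ℂ) / (1 - q ^ (k + 1))) := by
  have hl0 : (0 : ℝ) < l := by linarith
  have hμ0 : (0 : ℝ) < μ := by linarith
  have hq0 : q ≠ 0 := norm_pos_iff.mp (by rw [hq]; exact hl0)
  rw [sum_erase_split _ hj, mul_add, Finset.mul_sum, Finset.mul_sum]
  congr 1
  · apply Finset.sum_congr rfl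
    intro k hk
    rw [pow_in_div q hq0 (Finset.mem_range.mp hk), pow_in μ hμ0.ne' (Finset.mem_range.mp hk)]
    push_cast
    ring
  · apply Finset.sum_congr rfl
    intro k hk
    rw [pow_out_div q hq0, pow_out μ]
    push_cast
    ring

end

end Pool.Agent.NevChar
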