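import Pool.Agent.Lib_MP_2ed15d_an.TopA

/-! The limiting field at the top level. -/

set_option autoImplicit false

open Metric Complex Finset Filter Topology

namespace Pool.Agent.NevChar

/-- inner terms of the limiting field -/
noncomputable def tA (q : ℂ) (μ : ℝ) (k : ℕ) : ℂ :=
  (((μ ^ (k + 1))⁻¹ : ℝ) : ℂ) / (1 - (q ^ (k + 1))⁻¹)

/-- outer terms of the limiting field -/
noncomputable def tB (q : ℂ) (μ : ℝ) (k : ℕ) : ℂ :=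
  ((μ ^ (k + 1) : ℝ) : ℂ) / (1 - q ^ (k + 1))

/-- the limiting field -/
noncomputable def tG (q : ℂ) (μ : ℝ) : ℂ := ∑' k, tA q μ k + ∑' k, tB q μ k

section
variable {q : ℂ} {l μ S : ℝ}

lemma hasSum_inv (hμ : 1 < μ) : HasSum (fun k : ℕ => (μ ^ (k + 1))⁻¹) (1 / (μ - 1)) := by
  have hμ0 : (0 : ℝ) < μ := by linarith
  have h1 := (hasSum_geometric_of_lt_one (inv_nonneg.mpr hμ0.le)
    (inv_lt_one_of_one_lt₀ hμ)).mul_left μ⁻¹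
  have h2 : (fun k : ℕ => μ⁻¹ * μ⁻¹ ^ k) = (fun k : ℕ => (μ ^ (k + 1))⁻¹) := by
    funext k
    rw [← inv_pow, pow_succ']
  have h3 : μ⁻¹ * (1 - μ⁻¹)⁻¹ = 1 / (μ - 1) := by
    have h4 : μ - 1 ≠ 0 := by linarith
    have h5 : 1 - μ⁻¹ = (μ - 1) / μ := by field_simp
    rw [h5]
    field_simp
  rw [h2, h3] at h1
  exact h1

lemma hasSum_inv_shift (hμ : 1 < μ) (j : ℕ) :
    HasSum (fun k : ℕ => (μ ^ (k + j + 1))⁻¹) ((μ ^ j)⁻¹ * (1 / (μ - 1))) := by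
  have h1 := (hasSum_inv hμ).mul_left ((μ ^ j)⁻¹)
  have h2 : (fun k : ℕ => (μ ^ j)⁻¹ * (μ ^ (k + 1))⁻¹) = (fun k : ℕ => (μ ^ (k + j + 1))⁻¹) := by
    funext k
    rw [← mul_inv, ← pow_add]
    congr 2
    ring
  rw [h2] at h1
  exact h1

lemma norm_tA_le (hS : 0 < S) (hl : 1 < l) (hμ : 1 < μ) (hq : ‖q‖ = l)
    (hsep : ∀ k : ℕ, (1 + l ^ (k + 1)) / (8 * S) ≤ ‖q ^ (k + 1) - 1‖) (k : ℕ) :
    ‖tA q μ k‖ ≤ 8 * S * (μ ^ (k + 1))⁻¹ := by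
  have hl0 : (0 : ℝ) < l := by linarith
  have hμ0 : (0 : ℝ) < μ := by linarith
  have hq0 : q ≠ 0 := norm_pos_iff.mp (by rw [hq]; exact hl0)
  have h3 := hsep k
  have hlk : 0 < l ^ (k + 1) := by positivity
  have hE : 0 < ‖q ^ (k + 1) - 1‖ := lt_of_lt_of_le (by positivity) h3
  rw [tA, norm_div, Complex.norm_real, Real.norm_of_nonneg (by positivity),
    norm_one_sub_inv (pow_ne_zero _ hq0), norm_pow, hq]
  rw [div_le_iff₀ (by positivity)] at h3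
  rw [div_le_iff₀ (by positivity)]
  have h4 : 8 * S * (μ ^ (k + 1))⁻¹ * (‖q ^ (k + 1) - 1‖ / l ^ (k + 1)) =
      (μ ^ (k + 1))⁻¹ * ((‖q ^ (k + 1) - 1‖ * (8 * S)) / l ^ (k + 1)) := by ring
  rw [h4]
  have h5 : 1 ≤ (‖q ^ (k + 1) - 1‖ * (8 * S)) / l ^ (k + 1) := by
    rw [le_div_iff₀ hlk]; linarith
  calc (μ ^ (k + 1))⁻¹ = (μ ^ (k + 1))⁻¹ * 1 := by ring
    _ ≤ _ := mul_le_mul_of_nonneg_left h5 (by positivity)

lemma summable_tA (hS : 0 < S) (hl : 1 < l) (hμ : 1 < μ) (hq : ‖q‖ = l)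
    (hsep : ∀ k : ℕ, (1 + l ^ (k + 1)) / (8 * S) ≤ ‖q ^ (k + 1) - 1‖) :
    Summable (tA q μ) :=
  Summable.of_norm_bounded ((hasSum_inv hμ).summable.mul_left (8 * S))
    (norm_tA_le hS hl hμ hq hsep)

lemma norm_tB (hμ : 1 < μ) (k : ℕ) : ‖tB q μ k‖ = μ ^ (k + 1) / ‖q ^ (k + 1) - 1‖ := by
  rw [tB, norm_div, Complex.norm_real, Real.norm_of_nonneg (by positivity), norm_sub_rev]

lemma summable_tB (hμ : 1 < μ)
    (hX : Summable (fun k : ℕ => μ ^ (k + 1) / ‖q ^ (k + 1) - 1‖)) :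
    Summable (tB q μ) :=
  Summable.of_norm_bounded hX (fun k => (norm_tB hμ k).le)

lemma tA_eq (hS : 0 < S) (hl : 1 < l) (hμ : 1 < μ) (hq : ‖q‖ = l)
    (hsep : ∀ k : ℕ, (1 + l ^ (k + 1)) / (8 * S) ≤ ‖q ^ (k + 1) - 1‖) (k : ℕ) :
    tA q μ k = (((μ ^ (k + 1))⁻¹ : ℝ) : ℂ) + (((μ ^ (k + 1))⁻¹ : ℝ) : ℂ) / (q ^ (k + 1) - 1) := by
  have hl0 : (0 : ℝ) < l := by linarith
  have hq0 : q ≠ 0 := norm_pos_iff.mp (by rw [hq]; exact hl0)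
  have h3 := hsep k
  have hlk : 0 < l ^ (k + 1) := by positivity
  have hE : 0 < ‖q ^ (k + 1) - 1‖ := lt_of_lt_of_le (by positivity) h3
  have hx : q ^ (k + 1) ≠ 0 := pow_ne_zero _ hq0
  have hx1 : q ^ (k + 1) - 1 ≠ 0 := norm_pos_iff.mp hE
  rw [tA]
  generalize q ^ (k + 1) = x at *
  have h4 : 1 - x⁻¹ = (x - 1) / x := by field_simp
  rw [h4]
  field_simp
  ring

/-- the limiting field is nearly real and large -/
lemma norm_tG_sub (hS : 0 < S) (hl : 1 < l) (hμ : 1 < μ) (hq : ‖q‖ = l)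
    (hsep : ∀ k : ℕ, (1 + l ^ (k + 1)) / (8 * S) ≤ ‖q ^ (k + 1) - 1‖)
    (hX : Summable (fun k : ℕ => μ ^ (k + 1) / ‖q ^ (k + 1) - 1‖)) {bX : ℝ}
    (hbX : ∑' k : ℕ, μ ^ (k + 1) / ‖q ^ (k + 1) - 1‖ ≤ bX) :
    ‖tG q μ - ((1 / (μ - 1) : ℝ) : ℂ)‖ ≤ 2 * bX := by
  have hμ0 : (0 : ℝ) < μ := by linarith
  have hE : ∀ k : ℕ, 0 < ‖q ^ (k + 1) - 1‖ := fun k =>
    lt_of_lt_of_le (by have : 0 < l ^ (k + 1) := by positivity
                       positivity) (hsep k)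
  set c : ℕ → ℂ := fun k => (((μ ^ (k + 1))⁻¹ : ℝ) : ℂ) / (q ^ (k + 1) - 1) with hc
  have hcn : ∀ k, ‖c k‖ ≤ μ ^ (k + 1) / ‖q ^ (k + 1) - 1‖ := by
    intro k
    rw [hc]
    simp only
    rw [norm_div, Complex.norm_real, Real.norm_of_nonneg (by positivity)]
    apply div_le_div_of_nonneg_right _ (hE k).le
    have h1 : 1 ≤ μ ^ (k + 1) := one_le_pow₀ hμ.le
    exact (inv_le_one_of_one_le₀ h1).trans h1
  have hcs : Summable c := Summable.of_norm_bounded hX hcn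
  have h1 : ∑' k, tA q μ k = ((1 / (μ - 1) : ℝ) : ℂ) + ∑' k, c k := by
    have h2 : HasSum (fun k : ℕ => (((μ ^ (k + 1))⁻¹ : ℝ) : ℂ)) ((1 / (μ - 1) : ℝ) : ℂ) := by
      exact_mod_cast (Complex.hasSum_ofReal.mpr (hasSum_inv hμ))
    have h3 := (h2.add hcs.hasSum).tsum_eq
    rw [← h3]
    apply tsum_congr
    intro k
    exact tA_eq hS hl hμ hq hsep k
  rw [tG, h1]
  have h4 : ((1 / (μ - 1) : ℝ) : ℂ) + ∑' k, c k + ∑' k, tB q μ k - ((1 / (μ - 1) : ℝ) : ℂ) =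
      ∑' k, c k + ∑' k, tB q μ k := by ring
  rw [h4]
  refine (norm_add_le _ _).trans ?_
  have h5 : ‖∑' k, c k‖ ≤ bX :=
    (tsum_of_norm_bounded hX.hasSum hcn).trans hbX
  have h6 : ‖∑' k, tB q μ k‖ ≤ bX :=
    (tsum_of_norm_bounded hX.hasSum (fun k => (norm_tB hμ k).le)).trans hbX
  linarith

/-- convergence of the field with rate -/
lemma field_tail (hS : 0 < S) (hl : 1 < l) (hμ : 1 < μ) (hq : ‖q‖ = l)
    (hsep : ∀ k : ℕ, (1 + l ^ (k + 1)) / (8 * S) ≤ ‖q ^ (k + 1) - 1‖)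
    (hX : Summable (fun k : ℕ => μ ^ (k + 1) / ‖q ^ (k + 1) - 1‖)) {δ : ℝ} (hδ : 0 < δ) :
    ∃ M₀ : ℕ, ∀ M : ℕ, M₀ ≤ M → ∀ j : ℕ,
      ‖((μ ^ j : ℝ) : ℂ) * (∑ k ∈ range j, tA q μ k + ∑ k ∈ range M, tB q μ k) -
        ((μ ^ j : ℝ) : ℂ) * tG q μ‖ ≤ 8 * S * (1 / (μ - 1)) + μ ^ j * δ := by
  have hμ0 : (0 : ℝ) < μ := by linarith
  have hB := summable_tB hμ hX
  have hA := summable_tA hS hl hμ hq hsep
  have h1 : Tendsto (fun M => ∑ k ∈ range M, tB q μ k) atTop (𝓝 (∑' k, tB q μ k)) :=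
    hB.hasSum.tendsto_sum_nat
  rw [Metric.tendsto_atTop] at h1
  obtain ⟨M₀, hM₀⟩ := h1 δ hδ
  refine ⟨M₀, fun M hM j => ?_⟩
  have h2 : ((μ ^ j : ℝ) : ℂ) * (∑ k ∈ range j, tA q μ k + ∑ k ∈ range M, tB q μ k) -
        ((μ ^ j : ℝ) : ℂ) * tG q μ = -(((μ ^ j : ℝ) : ℂ) * (∑' k, tA q μ (k + j))) +
        ((μ ^ j : ℝ) : ℂ) * (∑ k ∈ range M, tB q μ k - ∑' k, tB q μ k) := by
    rw [tG, ← hA.sum_add_tsum_nat_add j]
    ring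
  rw [h2]
  refine (norm_add_le _ _).trans ?_
  rw [norm_neg, norm_mul, norm_mul, Complex.norm_real, Real.norm_of_nonneg (by positivity)]
  have h3 : ‖∑' k, tA q μ (k + j)‖ ≤ 8 * S * ((μ ^ j)⁻¹ * (1 / (μ - 1))) := by
    apply tsum_of_norm_bounded ((hasSum_inv_shift hμ j).mul_left (8 * S))
    intro k
    exact norm_tA_le hS hl hμ hq hsep (k + j)
  have h4 := hM₀ M hM
  rw [dist_eq_norm] at h4
  have h5 : μ ^ j * ‖∑' k, tA q μ (k + j)‖ ≤ 8 * S * (1 / (μ - 1)) := by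
    refine (mul_le_mul_of_nonneg_left h3 (by positivity)).trans (le_of_eq ?_)
    field_simp
  have h6 : μ ^ j * ‖∑ k ∈ range M, tB q μ k - ∑' k, tB q μ k‖ ≤ μ ^ j * δ :=
    mul_le_mul_of_nonneg_left h4.le (by positivity)
  linarith

end

end Pool.Agent.NevChar
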