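import Pool.Agent.Lib_MP_2ed15d_an.TopA
import Pool.Agent.Lib_MP_2ed15d_an.Field

/-! Radial decay at the top level. -/

set_option autoImplicit false

open Metric Complex Finset Filter Topology

namespace Pool.Agent.NevChar

lemma neg_one_add_div_le {e a : ℂ} (h : 0 < ‖e - a‖) :
    -1 + ‖a‖ / ‖e - a‖ ≤ ‖e‖ / ‖e - a‖ := by
  have h1 : ‖a‖ ≤ ‖e‖ + ‖e - a‖ := by
    have := norm_sub_le e (e - a)
    simpa using this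
  have h2 : -1 + ‖a‖ / ‖e - a‖ = (‖a‖ - ‖e - a‖) / ‖e - a‖ := by
    field_simp
    ring
  rw [h2]
  exact div_le_div_of_nonneg_right (by linarith) h.le

section
variable {q : ℂ} {l μ S ℓ κ : ℝ}

lemma rho_le (hS : 0 < S) (hl : 1 < l) (hq : ‖q‖ = l)
    (hsep : ∀ k : ℕ, (1 + l ^ (k + 1)) / (8 * S) ≤ ‖q ^ (k + 1) - 1‖) (hℓ : 0 < ℓ)
    (hℓ1 : 64 * LL * S * ℓ ≤ 1) {i j : ℕ} (hij : i ≠ j) :
    ℓ * LL * (4 + l ^ i / l ^ j) ≤ ‖1 - q ^ i / q ^ j‖ / 2 := by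
  have h1 := sep_bound hS hl hq hsep hij
  have hLL : (0 : ℝ) < LL := by norm_num [LL]
  have hl0 : (0 : ℝ) < l := by linarith
  have hr : 0 < l ^ i / l ^ j := by positivity
  generalize l ^ i / l ^ j = r at *
  generalize ‖1 - q ^ i / q ^ j‖ = d at *
  rw [div_le_iff₀ (by positivity)] at h1
  have h2 : ℓ * LL * (4 + r) * (16 * S) ≤ 1 + r := by
    have h3 : ℓ * LL * (4 + r) * (16 * S) ≤ (64 * LL * S * ℓ) * (1 + r) := by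
      have h4 : (64 * LL * S * ℓ) * (1 + r) - ℓ * LL * (4 + r) * (16 * S) =
        48 * (LL * S * ℓ * r) := by ring
      have h5 : 0 ≤ 48 * (LL * S * ℓ * r) := by positivity
      linarith
    have h6 : (64 * LL * S * ℓ) * (1 + r) ≤ 1 * (1 + r) :=
      mul_le_mul_of_nonneg_right hℓ1 (by linarith)
    linarith
  have h3 : ℓ * LL * (4 + r) * (16 * S) ≤ d / 2 * (16 * S) := by linarith
  exact le_of_mul_le_mul_right h3 (by positivity)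

lemma p_sub_d (hq : ‖q‖ = l) (hℓ : 0 < ℓ) {w' wi : ℂ} (hw' : ‖w'‖ ≤ 4 * LL) (hwi : ‖wi‖ ≤ LL)
    (i j : ℕ) :
    ‖((1 + ℓ * w') - q ^ i / q ^ j * (1 + ℓ * wi)) - (1 - q ^ i / q ^ j)‖ ≤
      ℓ * LL * (4 + l ^ i / l ^ j) := by
  have h1 : ((1 + ℓ * w') - q ^ i / q ^ j * (1 + ℓ * wi)) - (1 - q ^ i / q ^ j) =
      ℓ * w' - q ^ i / q ^ j * (ℓ * wi) := by ring
  rw [h1]
  refine (norm_sub_le _ _).trans ?_
  rw [norm_mul, norm_mul, norm_mul, Complex.norm_real, Real.norm_of_nonneg hℓ.le, norm_div,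
    norm_pow, norm_pow, hq]
  have hl0 : 0 ≤ l := by rw [← hq]; exact norm_nonneg _
  have hr : 0 ≤ l ^ i / l ^ j := by positivity
  have h2 : ℓ * ‖w'‖ ≤ ℓ * (4 * LL) := mul_le_mul_of_nonneg_left hw' hℓ.le
  have h3 : l ^ i / l ^ j * (ℓ * ‖wi‖) ≤ l ^ i / l ^ j * (ℓ * LL) :=
    mul_le_mul_of_nonneg_left (mul_le_mul_of_nonneg_left hwi hℓ.le) hr
  linarith

lemma p_half (hS : 0 < S) (hl : 1 < l) (hq : ‖q‖ = l)
    (hsep : ∀ k : ℕ, (1 + l ^ (k + 1)) / (8 * S) ≤ ‖q ^ (k + 1) - 1‖) (hℓ : 0 < ℓ)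
    (hℓ1 : 64 * LL * S * ℓ ≤ 1) {w' wi : ℂ} (hw' : ‖w'‖ ≤ 4 * LL) (hwi : ‖wi‖ ≤ LL)
    {i j : ℕ} (hij : i ≠ j) :
    ‖1 - q ^ i / q ^ j‖ / 2 ≤ ‖(1 + ℓ * w') - q ^ i / q ^ j * (1 + ℓ * wi)‖ :=
  half_le (le_refl _) (p_sub_d hq hℓ hw' hwi i j) (rho_le hS hl hq hsep hℓ hℓ1 hij)

lemma d_pos (hS : 0 < S) (hl : 1 < l) (hq : ‖q‖ = l)
    (hsep : ∀ k : ℕ, (1 + l ^ (k + 1)) / (8 * S) ≤ ‖q ^ (k + 1) - 1‖)
    {i j : ℕ} (hij : i ≠ j) : 0 < ‖1 - q ^ i / q ^ j‖ :=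
  lt_of_lt_of_le (by
    have hl0 : (0 : ℝ) < l := by linarith
    positivity) (sep_bound hS hl hq hsep hij)

/-- the ratio `‖a‖ / ‖e - a‖` in terms of the normalised difference -/
lemma ratio_eq (hl : 1 < l) (hq : ‖q‖ = l) (x y : ℂ) (i j : ℕ) :
    ‖q ^ i * y‖ / ‖q ^ j * x - q ^ i * y‖ =
      (l ^ i / l ^ j * ‖y‖) / ‖x - q ^ i / q ^ j * y‖ := by
  have hl0 : (0 : ℝ) < l := by linarith
  have hq0 : q ≠ 0 := norm_pos_iff.mp (by rw [hq]; exact hl0)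
  have h1 : q ^ j * x - q ^ i * y = q ^ j * (x - q ^ i / q ^ j * y) := by
    field_simp
  rw [h1, norm_mul, norm_mul, norm_pow, norm_pow, hq]
  field_simp

lemma ratio_eq' (hl : 1 < l) (hq : ‖q‖ = l) (x y : ℂ) (i j : ℕ) :
    ‖q ^ j * x‖ / ‖q ^ j * x - q ^ i * y‖ =
      ‖x‖ / ‖x - q ^ i / q ^ j * y‖ := by
  have hl0 : (0 : ℝ) < l := by linarith
  have hq0 : q ≠ 0 := norm_pos_iff.mp (by rw [hq]; exact hl0)
  have h1 : q ^ j * x - q ^ i * y = q ^ j * (x - q ^ i / q ^ j * y) := by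
    field_simp
  rw [h1, norm_mul, norm_mul, norm_pow, hq]
  field_simp

variable {N : ℕ} {w : Fin N → ℂ} {m : Fin N → ℝ}

lemma sum_floor_le (hκ : 0 < κ) (hμ : 0 < μ) (hm0 : ∀ i, 0 ≤ m i) (hms : ∑ i, m i = 1 / κ)
    (i : ℕ) : ∑ a, (⌊κ * μ ^ i * m a⌋₊ : ℝ) ≤ μ ^ i := by
  calc ∑ a, (⌊κ * μ ^ i * m a⌋₊ : ℝ) ≤ ∑ a, κ * μ ^ i * m a := by
        apply Finset.sum_le_sum
        intro a _
        exact Nat.floor_le (by have := hm0 a; positivity)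
    _ = μ ^ i := by rw [← Finset.mul_sum, hms]; field_simp

lemma sum_floor_ge (hκ : 0 < κ) (hms : ∑ i, m i = 1 / κ)
    (i : ℕ) : μ ^ i - N ≤ ∑ a, (⌊κ * μ ^ i * m a⌋₊ : ℝ) := by
  calc μ ^ i - N = ∑ a, (κ * μ ^ i * m a - 1) := by
        rw [Finset.sum_sub_distrib, ← Finset.mul_sum, hms]
        simp
        field_simp
    _ ≤ ∑ a, (⌊κ * μ ^ i * m a⌋₊ : ℝ) := by
        apply Finset.sum_le_sum
        intro a _
        exact (Nat.sub_one_lt_floor _).le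

lemma radial_inner (hS : 0 < S) (hl : 1 < l) (hμ : 1 < μ) (hq : ‖q‖ = l)
    (hsep : ∀ k : ℕ, (1 + l ^ (k + 1)) / (8 * S) ≤ ‖q ^ (k + 1) - 1‖) (hℓ : 0 < ℓ)
    (hℓ1 : 64 * LL * S * ℓ ≤ 1) (hℓ2 : 64 * LL * ℓ ≤ 1) (hκ : 0 < κ) (hw : ∀ i, ‖w i‖ ≤ LL)
    (hm0 : ∀ i, 0 ≤ m i) (hms : ∑ i, m i = 1 / κ) {e₀ : ℂ} (he₀ : ‖e₀‖ ≤ 4 * LL)
    {j k : ℕ} (hk : k < j) :
    ∑ a, (⌊κ * μ ^ (j - 1 - k) * m a⌋₊ : ℝ) * (-1 + ‖q ^ (j - 1 - k) * (1 + ℓ * w a)‖ /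
        ‖q ^ j * (1 + ℓ * e₀) - q ^ (j - 1 - k) * (1 + ℓ * w a)‖) ≤
      -(μ ^ (j - 1 - k)) + N + 5 / 2 * μ ^ j * (μ ^ (k + 1) / ‖q ^ (k + 1) - 1‖) := by
  have hLL : (0 : ℝ) < LL := by norm_num [LL]
  have hl0 : (0 : ℝ) < l := by linarith
  have hμ0 : (0 : ℝ) < μ := by linarith
  have hq0 : q ≠ 0 := norm_pos_iff.mp (by rw [hq]; exact hl0)
  have hE : 0 < ‖q ^ (k + 1) - 1‖ := lt_of_lt_of_le (by
    have : 0 < l ^ (k + 1) := by positivity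
    positivity) (hsep k)
  have hne : j - 1 - k ≠ j := by omega
  have hterm : ∀ a, ‖q ^ (j - 1 - k) * (1 + ℓ * w a)‖ /
        ‖q ^ j * (1 + ℓ * e₀) - q ^ (j - 1 - k) * (1 + ℓ * w a)‖ ≤
        5 / 2 * (1 / ‖q ^ (k + 1) - 1‖) := by
    intro a
    have h1 := p_half hS hl hq hsep hℓ hℓ1 he₀ (hw a) hne
    rw [ratio_eq hl hq]
    rw [pow_in_div q hq0 hk, norm_one_sub_inv (pow_ne_zero _ hq0), norm_pow, hq] at h1
    rw [pow_in_div q hq0 hk, pow_in_div l hl0.ne' hk]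
    have h2 : ‖1 + (ℓ : ℂ) * w a‖ ≤ 5 / 4 := by
      refine (norm_add_le _ _).trans ?_
      rw [norm_one, norm_mul, Complex.norm_real, Real.norm_of_nonneg hℓ.le]
      have := mul_le_mul_of_nonneg_left (hw a) hℓ.le
      linarith
    have hL : 0 < l ^ (k + 1) := by positivity
    have h3 : 0 < ‖q ^ (k + 1) - 1‖ / l ^ (k + 1) / 2 := by positivity
    have h4 : 0 < ‖1 + (ℓ : ℂ) * e₀ - (q ^ (k + 1))⁻¹ * (1 + ℓ * w a)‖ := lt_of_lt_of_le h3 h1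
    calc (l ^ (k + 1))⁻¹ * ‖1 + (ℓ : ℂ) * w a‖ /
          ‖1 + (ℓ : ℂ) * e₀ - (q ^ (k + 1))⁻¹ * (1 + ℓ * w a)‖
        ≤ (l ^ (k + 1))⁻¹ * (5 / 4) / (‖q ^ (k + 1) - 1‖ / l ^ (k + 1) / 2) := by
          apply div_le_div₀ (by positivity) _ h3 h1
          exact mul_le_mul_of_nonneg_left h2 (by positivity)
      _ = 5 / 2 * (1 / ‖q ^ (k + 1) - 1‖) := by
          field_simp
          ring
  have h1 := sum_floor_le hκ hμ0 hm0 hms (j - 1 - k)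
  have h2 := sum_floor_ge (μ := μ) hκ hms (j - 1 - k)
  calc ∑ a, (⌊κ * μ ^ (j - 1 - k) * m a⌋₊ : ℝ) * (-1 + ‖q ^ (j - 1 - k) * (1 + ℓ * w a)‖ /
        ‖q ^ j * (1 + ℓ * e₀) - q ^ (j - 1 - k) * (1 + ℓ * w a)‖)
      ≤ ∑ a, (⌊κ * μ ^ (j - 1 - k) * m a⌋₊ : ℝ) *
          (-1 + 5 / 2 * (1 / ‖q ^ (k + 1) - 1‖)) := by
        apply Finset.sum_le_sum
        intro a _
        apply mul_le_mul_of_nonneg_left _ (Nat.cast_nonneg _)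
        have := hterm a
        linarith
    _ = -(∑ a, (⌊κ * μ ^ (j - 1 - k) * m a⌋₊ : ℝ)) +
        5 / 2 * (∑ a, (⌊κ * μ ^ (j - 1 - k) * m a⌋₊ : ℝ)) * (1 / ‖q ^ (k + 1) - 1‖) := by
        rw [← Finset.sum_mul]; ring
    _ ≤ -(μ ^ (j - 1 - k) - N) + 5 / 2 * (μ ^ j * μ ^ (k + 1)) * (1 / ‖q ^ (k + 1) - 1‖) := by
        apply add_le_add (by linarith)
        apply mul_le_mul_of_nonneg_right _ (by positivity)
        apply mul_le_mul_of_nonneg_left _ (by norm_num)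
        refine h1.trans ?_
        rw [pow_in μ hμ0.ne' hk]
        apply mul_le_mul_of_nonneg_left _ (by positivity)
        have h3 : 1 ≤ μ ^ (k + 1) := one_le_pow₀ hμ.le
        exact (inv_le_one_of_one_le₀ h3).trans h3
    _ = _ := by ring

lemma radial_outer (hS : 0 < S) (hl : 1 < l) (hμ : 1 < μ) (hq : ‖q‖ = l)
    (hsep : ∀ k : ℕ, (1 + l ^ (k + 1)) / (8 * S) ≤ ‖q ^ (k + 1) - 1‖) (hℓ : 0 < ℓ)
    (hℓ1 : 64 * LL * S * ℓ ≤ 1) (hℓ2 : 64 * LL * ℓ ≤ 1) (hκ : 0 < κ) (hw : ∀ i, ‖w i‖ ≤ LL)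
    (hm0 : ∀ i, 0 ≤ m i) (hms : ∑ i, m i = 1 / κ) {e₀ : ℂ} (he₀ : ‖e₀‖ ≤ 4 * LL)
    (j k : ℕ) :
    ∑ a, (⌊κ * μ ^ (j + 1 + k) * m a⌋₊ : ℝ) * (-1 + ‖q ^ (j + 1 + k) * (1 + ℓ * w a)‖ /
        ‖q ^ j * (1 + ℓ * e₀) - q ^ (j + 1 + k) * (1 + ℓ * w a)‖) ≤
      5 / 2 * μ ^ j * (μ ^ (k + 1) / ‖q ^ (k + 1) - 1‖) := by
  have hLL : (0 : ℝ) < LL := by norm_num [LL]
  have hl0 : (0 : ℝ) < l := by linarith
  have hμ0 : (0 : ℝ) < μ := by linarith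
  have hq0 : q ≠ 0 := norm_pos_iff.mp (by rw [hq]; exact hl0)
  have hE : 0 < ‖q ^ (k + 1) - 1‖ := lt_of_lt_of_le (by
    have : 0 < l ^ (k + 1) := by positivity
    positivity) (hsep k)
  have hne : j + 1 + k ≠ j := by omega
  have hterm : ∀ a, -1 + ‖q ^ (j + 1 + k) * (1 + ℓ * w a)‖ /
        ‖q ^ j * (1 + ℓ * e₀) - q ^ (j + 1 + k) * (1 + ℓ * w a)‖ ≤
        5 / 2 * (1 / ‖q ^ (k + 1) - 1‖) := by
    intro a
    have h1 := p_half hS hl hq hsep hℓ hℓ1 he₀ (hw a) hne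
    rw [pow_out_div q hq0, norm_sub_rev 1] at h1
    have h3 : 0 < ‖q ^ (k + 1) - 1‖ / 2 := by positivity
    have h4 : 0 < ‖1 + (ℓ : ℂ) * e₀ - q ^ (k + 1) * (1 + ℓ * w a)‖ := lt_of_lt_of_le h3 h1
    have h2 : ‖1 + (ℓ : ℂ) * e₀‖ ≤ 5 / 4 := by
      refine (norm_add_le _ _).trans ?_
      rw [norm_one, norm_mul, Complex.norm_real, Real.norm_of_nonneg hℓ.le]
      have := mul_le_mul_of_nonneg_left he₀ hℓ.le
      linarith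
    have h5 : 0 < ‖q ^ j * (1 + ℓ * e₀) - q ^ (j + 1 + k) * (1 + ℓ * w a)‖ := by
      have h6 : q ^ j * (1 + ℓ * e₀) - q ^ (j + 1 + k) * (1 + ℓ * w a) =
          q ^ j * (1 + (ℓ : ℂ) * e₀ - q ^ (k + 1) * (1 + ℓ * w a)) := by
        rw [pow_out q]; ring
      rw [h6, norm_mul]
      have : 0 < ‖q ^ j‖ := norm_pos_iff.mpr (pow_ne_zero _ hq0)
      positivity
    have h6 : -1 + ‖q ^ (j + 1 + k) * (1 + ℓ * w a)‖ /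
        ‖q ^ j * (1 + ℓ * e₀) - q ^ (j + 1 + k) * (1 + ℓ * w a)‖ ≤
        ‖q ^ j * (1 + ℓ * e₀)‖ /
        ‖q ^ j * (1 + ℓ * e₀) - q ^ (j + 1 + k) * (1 + ℓ * w a)‖ := neg_one_add_div_le h5
    refine h6.trans ?_
    rw [ratio_eq' hl hq, pow_out_div q hq0]
    calc ‖1 + (ℓ : ℂ) * e₀‖ / ‖1 + (ℓ : ℂ) * e₀ - q ^ (k + 1) * (1 + ℓ * w a)‖
        ≤ (5 / 4) / (‖q ^ (k + 1) - 1‖ / 2) := by
          apply div_le_div₀ (by positivity) h2 h3 h1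
      _ = 5 / 2 * (1 / ‖q ^ (k + 1) - 1‖) := by
          field_simp
          ring
  have h1 := sum_floor_le hκ hμ0 hm0 hms (j + 1 + k)
  calc _ ≤ ∑ a, (⌊κ * μ ^ (j + 1 + k) * m a⌋₊ : ℝ) *
          (5 / 2 * (1 / ‖q ^ (k + 1) - 1‖)) := by
        apply Finset.sum_le_sum
        intro a _
        exact mul_le_mul_of_nonneg_left (hterm a) (Nat.cast_nonneg _)
    _ = (∑ a, (⌊κ * μ ^ (j + 1 + k) * m a⌋₊ : ℝ)) * (5 / 2 * (1 / ‖q ^ (k + 1) - 1‖)) := by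
        rw [← Finset.sum_mul]
    _ ≤ μ ^ (j + 1 + k) * (5 / 2 * (1 / ‖q ^ (k + 1) - 1‖)) :=
        mul_le_mul_of_nonneg_right h1 (by positivity)
    _ = _ := by rw [pow_out μ]; ring

lemma radial_own (hl : 1 < l) (hμ : 1 < μ) (hq : ‖q‖ = l) (hℓ : 0 < ℓ)
    (hℓ2 : 64 * LL * ℓ ≤ 1) (hκ : 0 < κ) (hw : ∀ i, ‖w i‖ ≤ LL)
    (hm0 : ∀ i, 0 ≤ m i) (hms : ∑ i, m i = 1 / κ) {e₀ : ℂ} (he₀ : ‖e₀‖ = 3 * LL)
    (j : ℕ) :
    ∑ a, (⌊κ * μ ^ j * m a⌋₊ : ℝ) * (-1 + ‖q ^ j * (1 + ℓ * w a)‖ /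
        ‖q ^ j * (1 + ℓ * e₀) - q ^ j * (1 + ℓ * w a)‖) ≤
      μ ^ j * (1 / (ℓ * LL)) := by
  have hLL : (0 : ℝ) < LL := by norm_num [LL]
  have hl0 : (0 : ℝ) < l := by linarith
  have hμ0 : (0 : ℝ) < μ := by linarith
  have hq0 : q ≠ 0 := norm_pos_iff.mp (by rw [hq]; exact hl0)
  have hterm : ∀ a, -1 + ‖q ^ j * (1 + ℓ * w a)‖ /
        ‖q ^ j * (1 + ℓ * e₀) - q ^ j * (1 + ℓ * w a)‖ ≤ 1 / (ℓ * LL) := by
    intro a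
    have h2 : ‖1 + (ℓ : ℂ) * w a‖ ≤ 5 / 4 := by
      refine (norm_add_le _ _).trans ?_
      rw [norm_one, norm_mul, Complex.norm_real, Real.norm_of_nonneg hℓ.le]
      have := mul_le_mul_of_nonneg_left (hw a) hℓ.le
      linarith
    have h3 : 2 * LL ≤ ‖e₀ - w a‖ := by
      have := norm_sub_norm_le e₀ (w a)
      have := hw a
      linarith
    have h4 : q ^ j * (1 + ℓ * e₀) - q ^ j * (1 + ℓ * w a) = q ^ j * (ℓ * (e₀ - w a)) := by ring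
    rw [h4, norm_mul, norm_mul, norm_mul, norm_pow, hq, Complex.norm_real,
      Real.norm_of_nonneg hℓ.le]
    have h5 : 0 < ℓ * ‖e₀ - w a‖ := mul_pos hℓ (by linarith)
    have h6 : l ^ j * ‖1 + (ℓ : ℂ) * w a‖ / (l ^ j * (ℓ * ‖e₀ - w a‖)) =
        ‖1 + (ℓ : ℂ) * w a‖ / (ℓ * ‖e₀ - w a‖) := by
      field_simp
    rw [h6]
    have h7 : ‖1 + (ℓ : ℂ) * w a‖ / (ℓ * ‖e₀ - w a‖) ≤ (5 / 4) / (ℓ * (2 * LL)) := by
      apply div_le_div₀ (by norm_num) h2 (by positivity)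
      exact mul_le_mul_of_nonneg_left h3 hℓ.le
    have h8 : (5 / 4) / (ℓ * (2 * LL)) = 5 / 8 * (1 / (ℓ * LL)) := by
      field_simp
      ring
    have h9 : 0 < 1 / (ℓ * LL) := by positivity
    linarith
  have h1 := sum_floor_le hκ hμ0 hm0 hms j
  calc _ ≤ ∑ a, (⌊κ * μ ^ j * m a⌋₊ : ℝ) * (1 / (ℓ * LL)) := by
        apply Finset.sum_le_sum
        intro a _
        exact mul_le_mul_of_nonneg_left (hterm a) (Nat.cast_nonneg _)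
    _ = (∑ a, (⌊κ * μ ^ j * m a⌋₊ : ℝ)) * (1 / (ℓ * LL)) := by
        rw [← Finset.sum_mul]
    _ ≤ _ := mul_le_mul_of_nonneg_right h1 (by positivity)

lemma radial_sum (hS : 0 < S) (hl : 1 < l) (hμ : 1 < μ) (hq : ‖q‖ = l)
    (hsep : ∀ k : ℕ, (1 + l ^ (k + 1)) / (8 * S) ≤ ‖q ^ (k + 1) - 1‖) (hℓ : 0 < ℓ)
    (hℓ1 : 64 * LL * S * ℓ ≤ 1) (hℓ2 : 64 * LL * ℓ ≤ 1) (hκ : 0 < κ) (hw : ∀ i, ‖w i‖ ≤ LL)
    (hm0 : ∀ i, 0 ≤ m i) (hms : ∑ i, m i = 1 / κ) {e₀ : ℂ} (he₀ : ‖e₀‖ = 3 * LL)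
    {j J : ℕ} (hj : j < J) {bX : ℝ}
    (hX : ∀ n, ∑ k ∈ range n, μ ^ (k + 1) / ‖q ^ (k + 1) - 1‖ ≤ bX) :
    ∑ i ∈ range J, ∑ a, (⌊κ * μ ^ i * m a⌋₊ : ℝ) * (-1 + ‖q ^ i * (1 + ℓ * w a)‖ /
        ‖q ^ j * (1 + ℓ * e₀) - q ^ i * (1 + ℓ * w a)‖) ≤
      -((μ ^ j - 1) / (μ - 1)) + N * j + 5 * bX * μ ^ j + μ ^ j * (1 / (ℓ * LL)) := by
  have hLL : (0 : ℝ) < LL := by norm_num [LL]
  have hμ0 : (0 : ℝ) < μ := by linarith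
  have hμj : 0 < μ ^ j := by positivity
  have he4 : ‖e₀‖ ≤ 4 * LL := by linarith
  rw [← Finset.add_sum_erase _ _ (Finset.mem_range.mpr hj), sum_erase_split _ hj]
  have h1 := radial_own hl hμ hq hℓ hℓ2 hκ hw hm0 hms he₀ j
  have h2 : ∑ k ∈ range j, ∑ a, (⌊κ * μ ^ (j - 1 - k) * m a⌋₊ : ℝ) *
      (-1 + ‖q ^ (j - 1 - k) * (1 + ℓ * w a)‖ /
        ‖q ^ j * (1 + ℓ * e₀) - q ^ (j - 1 - k) * (1 + ℓ * w a)‖) ≤
      -((μ ^ j - 1) / (μ - 1)) + N * j + 5 / 2 * bX * μ ^ j := by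
    calc _ ≤ ∑ k ∈ range j, (-(μ ^ (j - 1 - k)) + N +
          5 / 2 * μ ^ j * (μ ^ (k + 1) / ‖q ^ (k + 1) - 1‖)) := by
          apply Finset.sum_le_sum
          intro k hk
          exact radial_inner hS hl hμ hq hsep hℓ hℓ1 hℓ2 hκ hw hm0 hms he4
            (Finset.mem_range.mp hk)
      _ = -(∑ k ∈ range j, μ ^ (j - 1 - k)) + N * j +
          5 / 2 * μ ^ j * ∑ k ∈ range j, (μ ^ (k + 1) / ‖q ^ (k + 1) - 1‖) := by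
          rw [Finset.sum_add_distrib, Finset.sum_add_distrib, Finset.sum_neg_distrib,
            Finset.sum_const, Finset.card_range, nsmul_eq_mul, ← Finset.mul_sum]
          ring
      _ ≤ -((μ ^ j - 1) / (μ - 1)) + N * j + 5 / 2 * bX * μ ^ j := by
          have h3 : ∑ k ∈ range j, μ ^ (j - 1 - k) = (μ ^ j - 1) / (μ - 1) := by
            rw [Finset.sum_range_reflect (fun k => μ ^ k) j]
            exact geom_sum_eq hμ.ne' j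
          rw [h3]
          have h4 := mul_le_mul_of_nonneg_left (hX j) (by positivity : 0 ≤ 5 / 2 * μ ^ j)
          linarith
  have h3 : ∑ k ∈ range (J - 1 - j), ∑ a, (⌊κ * μ ^ (j + 1 + k) * m a⌋₊ : ℝ) *
      (-1 + ‖q ^ (j + 1 + k) * (1 + ℓ * w a)‖ /
        ‖q ^ j * (1 + ℓ * e₀) - q ^ (j + 1 + k) * (1 + ℓ * w a)‖) ≤
      5 / 2 * bX * μ ^ j := by
    calc _ ≤ ∑ k ∈ range (J - 1 - j), 5 / 2 * μ ^ j * (μ ^ (k + 1) / ‖q ^ (k + 1) - 1‖) := by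
          apply Finset.sum_le_sum
          intro k hk
          exact radial_outer hS hl hμ hq hsep hℓ hℓ1 hℓ2 hκ hw hm0 hms he4 j k
      _ = 5 / 2 * μ ^ j * ∑ k ∈ range (J - 1 - j), (μ ^ (k + 1) / ‖q ^ (k + 1) - 1‖) := by
          rw [← Finset.mul_sum]
      _ ≤ 5 / 2 * bX * μ ^ j := by
          have h4 := mul_le_mul_of_nonneg_left (hX (J - 1 - j))
            (by positivity : 0 ≤ 5 / 2 * μ ^ j)
          linarith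
  linarith

end

end Pool.Agent.NevChar
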